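import Pool.Agent.Lib.MP_4b14b2_mp.Defs

namespace Pool.Agent.Lib.MP_4b14b2_mp

open Finset

lemma coeff_du (f : DPoly) (m : ℕ →₀ ℕ) :
    (du f).coeff m = PowerSeries.derivative ℂ (f.coeff m) := by
  classical
  unfold du
  rw [MvPolynomial.coeff_sum]
  simp only [MvPolynomial.coeff_monomial]
  rw [Finset.sum_ite_eq']
  split_ifs with h
  · rfl
  · rw [MvPolynomial.notMem_support_iff.mp h]; simp

lemma du_add (f g : DPoly) : du (f + g) = du f + du g := by
  ext1 m; simp [coeff_du]

lemma du_mul (f g : DPoly) : du (f * g) = du f * g + f * du g := by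
  classical
  ext1 m
  simp only [coeff_du, MvPolynomial.coeff_add, MvPolynomial.coeff_mul, map_sum, Derivation.leibniz,
    smul_eq_mul, ← Finset.sum_add_distrib]
  refine Finset.sum_congr rfl fun p _ => by ring

lemma du_C (g : PowerSeries ℂ) :
    du (MvPolynomial.C g) = MvPolynomial.C (PowerSeries.derivative ℂ g) := by
  classical
  ext1 m
  simp only [coeff_du, MvPolynomial.coeff_C]
  split_ifs <;> simp

lemma du_X (i : ℕ) : du (MvPolynomial.X i) = 0 := by
  classical
  ext1 m
  simp only [coeff_du, MvPolynomial.coeff_X, MvPolynomial.coeff_zero]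
  split_ifs
  · exact PowerSeries.derivative_one
  · simp

/-- general evolutionary operator -/
noncomputable def gen {B : Type} [CommRing B] (φ : DPoly →+* B) (q : ℕ → B) (f : DPoly) : B :=
  q 0 * φ (du f) + ∑ i ∈ f.vars, q (i + 1) * φ (MvPolynomial.pderiv i f)

lemma gen_eq_of_subset {B : Type} [CommRing B] (φ : DPoly →+* B) (q : ℕ → B) (f : DPoly)
    (s : Finset ℕ) (hs : f.vars ⊆ s) :
    gen φ q f = q 0 * φ (du f) + ∑ i ∈ s, q (i + 1) * φ (MvPolynomial.pderiv i f) := by
  unfold gen
  congr 1
  refine Finset.sum_subset hs fun i _ hi => ?_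
  rw [MvPolynomial.pderiv_eq_zero_of_notMem_vars hi]; simp

lemma gen_add {B : Type} [CommRing B] (φ : DPoly →+* B) (q : ℕ → B) (f g : DPoly) :
    gen φ q (f + g) = gen φ q f + gen φ q g := by
  classical
  rw [gen_eq_of_subset φ q (f + g) (f.vars ∪ g.vars) (MvPolynomial.vars_add_subset f g),
    gen_eq_of_subset φ q f (f.vars ∪ g.vars) Finset.subset_union_left,
    gen_eq_of_subset φ q g (f.vars ∪ g.vars) Finset.subset_union_right]
  simp only [du_add, map_add, mul_add, Finset.sum_add_distrib]
  ring

lemma gen_mul {B : Type} [CommRing B] (φ : DPoly →+* B) (q : ℕ → B) (f g : DPoly) :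
    gen φ q (f * g) = gen φ q f * φ g + φ f * gen φ q g := by
  classical
  rw [gen_eq_of_subset φ q (f * g) (f.vars ∪ g.vars) (MvPolynomial.vars_mul f g),
    gen_eq_of_subset φ q f (f.vars ∪ g.vars) Finset.subset_union_left,
    gen_eq_of_subset φ q g (f.vars ∪ g.vars) Finset.subset_union_right]
  simp only [du_mul, MvPolynomial.pderiv_mul, map_add, map_mul, mul_add, add_mul,
    Finset.sum_add_distrib, Finset.sum_mul, Finset.mul_sum]
  have h1 : ∀ i, q (i + 1) * (φ (MvPolynomial.pderiv i f) * φ g)
      = q (i + 1) * φ (MvPolynomial.pderiv i f) * φ g := fun i => by ring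
  have h2 : ∀ i, q (i + 1) * (φ f * φ (MvPolynomial.pderiv i g))
      = φ f * (q (i + 1) * φ (MvPolynomial.pderiv i g)) := fun i => by ring
  simp only [h1, h2]
  ring

lemma gen_C {B : Type} [CommRing B] (φ : DPoly →+* B) (q : ℕ → B) (g : PowerSeries ℂ) :
    gen φ q (MvPolynomial.C g) = q 0 * φ (MvPolynomial.C (PowerSeries.derivative ℂ g)) := by
  unfold gen
  simp [du_C]

lemma gen_X {B : Type} [CommRing B] (φ : DPoly →+* B) (q : ℕ → B) (i : ℕ) :
    gen φ q (MvPolynomial.X i) = q (i + 1) := by
  unfold gen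
  simp [du_X, MvPolynomial.vars_X]

lemma gen_zero {B : Type} [CommRing B] (φ : DPoly →+* B) (q : ℕ → B) :
    gen φ q 0 = 0 := by
  have := gen_C φ q 0
  simpa using this

lemma dx_eq_gen (f : DPoly) : dx f = gen (RingHom.id _) (fun i => MvPolynomial.X i) f := by
  simp [dx, gen]

lemma dx_add (f g : DPoly) : dx (f + g) = dx f + dx g := by simp only [dx_eq_gen, gen_add]
lemma dx_mul (f g : DPoly) : dx (f * g) = dx f * g + f * dx g := by
  simp only [dx_eq_gen, gen_mul, RingHom.id_apply]
lemma dx_C (g : PowerSeries ℂ) :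
    dx (MvPolynomial.C g) = MvPolynomial.X 0 * MvPolynomial.C (PowerSeries.derivative ℂ g) := by
  simp only [dx_eq_gen, gen_C, RingHom.id_apply]
lemma dx_X (i : ℕ) : dx (MvPolynomial.X i) = MvPolynomial.X (i + 1) := by
  simp only [dx_eq_gen, gen_X]
lemma dx_zero : dx 0 = 0 := by simp only [dx_eq_gen, gen_zero]
lemma dx_u : dx u = MvPolynomial.X 0 := by simp [u, dx_C]

lemma dx_sum {ι : Type} (s : Finset ι) (f : ι → DPoly) :
    dx (∑ i ∈ s, f i) = ∑ i ∈ s, dx (f i) := by
  classical
  induction s using Finset.induction_on with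
  | empty => simp [dx_zero]
  | insert a s ha ih => simp [Finset.sum_insert ha, dx_add, ih]

lemma coeff_dxS (F : DSeries) (k : ℕ) :
    PowerSeries.coeff k (dxS F) = dx (PowerSeries.coeff k F) := by simp [dxS]

lemma dxS_add (F G : DSeries) : dxS (F + G) = dxS F + dxS G := by
  ext1 k; simp [coeff_dxS, dx_add]

lemma dxS_mul (F G : DSeries) : dxS (F * G) = dxS F * G + F * dxS G := by
  ext1 k
  simp only [coeff_dxS, PowerSeries.coeff_mul, map_add, dx_sum, dx_mul, Finset.sum_add_distrib]

lemma dxS_zero : dxS 0 = 0 := by ext1 k; simp [coeff_dxS, dx_zero]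

lemma dxS_neg (F : DSeries) : dxS (-F) = -dxS F := by
  have h := dxS_add F (-F)
  rw [add_neg_cancel, dxS_zero] at h
  exact (neg_eq_of_add_eq_zero_right h.symm).symm

lemma dxS_sub (F G : DSeries) : dxS (F - G) = dxS F - dxS G := by
  rw [sub_eq_add_neg, dxS_add, dxS_neg, sub_eq_add_neg]

lemma dxS_C (f : DPoly) : dxS (PowerSeries.C f) = PowerSeries.C (dx f) := by
  ext1 k
  simp only [coeff_dxS, PowerSeries.coeff_C]
  split_ifs <;> simp [dx_zero]

lemma dxS_X_mul (F : DSeries) : dxS (PowerSeries.X * F) = PowerSeries.X * dxS F := by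
  ext1 k
  cases k with
  | zero => simp [coeff_dxS, dx_zero]
  | succ k => simp [coeff_dxS, PowerSeries.coeff_succ_X_mul]

lemma coeff_dxS_iter (F : DSeries) (i k : ℕ) :
    PowerSeries.coeff k (dxS^[i] F) = dx^[i] (PowerSeries.coeff k F) := by
  induction i with
  | zero => rfl
  | succ i ih => rw [Function.iterate_succ_apply', Function.iterate_succ_apply', coeff_dxS, ih]

lemma flowPoly_eq_gen (Q : DSeries) (f : DPoly) :
    flowPoly Q f = gen PowerSeries.C (fun i => dxS^[i] Q) f := by
  simp [flowPoly, gen]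

lemma flowPoly_add (Q : DSeries) (f g : DPoly) :
    flowPoly Q (f + g) = flowPoly Q f + flowPoly Q g := by simp only [flowPoly_eq_gen, gen_add]
lemma flowPoly_mul (Q : DSeries) (f g : DPoly) :
    flowPoly Q (f * g) = flowPoly Q f * PowerSeries.C g + PowerSeries.C f * flowPoly Q g := by
  simp only [flowPoly_eq_gen, gen_mul]
lemma flowPoly_C (Q : DSeries) (g : PowerSeries ℂ) :
    flowPoly Q (MvPolynomial.C g)
      = Q * PowerSeries.C (MvPolynomial.C (PowerSeries.derivative ℂ g)) := by
  simp only [flowPoly_eq_gen, gen_C, Function.iterate_zero, id]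
lemma flowPoly_X (Q : DSeries) (i : ℕ) : flowPoly Q (MvPolynomial.X i) = dxS^[i + 1] Q := by
  simp only [flowPoly_eq_gen, gen_X]
lemma flowPoly_zero (Q : DSeries) : flowPoly Q 0 = 0 := by simp only [flowPoly_eq_gen, gen_zero]

lemma coeff_flow (Q F : DSeries) (n : ℕ) : PowerSeries.coeff n (flow Q F) =
    ∑ p ∈ antidiagonal n, PowerSeries.coeff p.2 (flowPoly Q (PowerSeries.coeff p.1 F)) := by
  simp [flow]

lemma flow_add (Q F G : DSeries) : flow Q (F + G) = flow Q F + flow Q G := by
  ext1 n
  simp only [coeff_flow, map_add, flowPoly_add, Finset.sum_add_distrib]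

lemma flow_zero (Q : DSeries) : flow Q 0 = 0 := by
  ext1 n; simp [coeff_flow, flowPoly_zero]

lemma flow_neg (Q F : DSeries) : flow Q (-F) = -flow Q F := by
  have h := flow_add Q F (-F)
  rw [add_neg_cancel, flow_zero] at h
  exact (neg_eq_of_add_eq_zero_right h.symm).symm

lemma flow_sub (Q F G : DSeries) : flow Q (F - G) = flow Q F - flow Q G := by
  rw [sub_eq_add_neg, flow_add, flow_neg, sub_eq_add_neg]

lemma flow_C (Q : DSeries) (f : DPoly) : flow Q (PowerSeries.C f) = flowPoly Q f := by
  ext1 n
  rw [coeff_flow, Finset.sum_eq_single (0, n)]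
  · simp
  · rintro ⟨a, b⟩ hp hne
    have ha : a ≠ 0 := by
      rintro rfl
      have hb : b = n := by simpa using hp
      exact hne (by rw [hb])
    simp [PowerSeries.coeff_C, ha, flowPoly_zero]
  · intro h; simp at h

lemma flow_X_mul (Q F : DSeries) : flow Q (PowerSeries.X * F) = PowerSeries.X * flow Q F := by
  ext1 n
  cases n with
  | zero => simp [coeff_flow, flowPoly_zero]
  | succ n =>
    rw [PowerSeries.coeff_succ_X_mul, coeff_flow, coeff_flow, Finset.Nat.antidiagonal_succ,
      Finset.sum_cons, Finset.sum_map]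
    simp [flowPoly_zero, PowerSeries.coeff_succ_X_mul]

/-- the shift of a series -/
noncomputable def tail (F : DSeries) : DSeries := PowerSeries.mk fun k => PowerSeries.coeff (k + 1) F

lemma eq_C_add_X_mul (F : DSeries) :
    F = PowerSeries.C (PowerSeries.coeff 0 F) + PowerSeries.X * tail F := by
  ext1 n
  cases n with
  | zero => simp
  | succ n => simp [tail, PowerSeries.coeff_succ_X_mul]

lemma flow_mul (Q F G : DSeries) : flow Q (F * G) = flow Q F * G + F * flow Q G := by
  have key : ∀ n, ∀ F G : DSeries,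
      PowerSeries.coeff n (flow Q (F * G) - (flow Q F * G + F * flow Q G)) = 0 := by
    intro n
    induction n with
    | zero =>
      intro F G
      rw [eq_C_add_X_mul F, eq_C_add_X_mul G]
      generalize PowerSeries.coeff 0 F = f
      generalize PowerSeries.coeff 0 G = g
      generalize tail F = F'
      generalize tail G = G'
      have e1 : (PowerSeries.C f + PowerSeries.X * F') * (PowerSeries.C g + PowerSeries.X * G')
          = PowerSeries.C (f * g) + PowerSeries.X * (F' * (PowerSeries.C g + PowerSeries.X * G')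
            + PowerSeries.C f * G') := by rw [map_mul]; ring
      rw [e1, flow_add, flow_X_mul, flow_C, flow_add Q (PowerSeries.C f), flow_X_mul, flow_C,
        flow_add Q (PowerSeries.C g), flow_X_mul, flow_C, flowPoly_mul]
      simp
    | succ n ih =>
      intro F G
      have e0 : flow Q (F * G) - (flow Q F * G + F * flow Q G) = PowerSeries.X *
          ((flow Q (tail F * G) - (flow Q (tail F) * G + tail F * flow Q G)) +
           (flow Q (PowerSeries.C (PowerSeries.coeff 0 F) * tail G)
             - (flow Q (PowerSeries.C (PowerSeries.coeff 0 F)) * tail G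
               + PowerSeries.C (PowerSeries.coeff 0 F) * flow Q (tail G)))) := by
        have hF := eq_C_add_X_mul F
        have hG := eq_C_add_X_mul G
        generalize PowerSeries.coeff 0 F = f at hF ⊢
        generalize PowerSeries.coeff 0 G = g at hG ⊢
        generalize tail F = F' at hF ⊢
        generalize tail G = G' at hG ⊢
        have e1 : F * G = PowerSeries.C (f * g) + PowerSeries.X * (F' * G
            + PowerSeries.C f * G') := by rw [map_mul, hF, hG]; ring
        have e2 : flow Q F = flowPoly Q f + PowerSeries.X * flow Q F' := by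
          rw [hF, flow_add, flow_X_mul, flow_C]
        have e3 : flow Q G = flowPoly Q g + PowerSeries.X * flow Q G' := by
          rw [hG, flow_add, flow_X_mul, flow_C]
        rw [e1, flow_add, flow_X_mul, flow_C, flow_add, flowPoly_mul, e2, flow_C]
        linear_combination (- flowPoly Q f) * hG - flow Q G * hF - PowerSeries.C f * e3
      rw [e0, PowerSeries.coeff_succ_X_mul, map_add, ih, ih, add_zero]
  ext1 n
  have := key n F G
  rwa [map_sub, sub_eq_zero] at this

lemma flowPoly_dx (Q : DSeries) (f : DPoly) : flowPoly Q (dx f) = dxS (flowPoly Q f) := by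
  induction f using MvPolynomial.induction_on with
  | C a =>
    rw [dx_C, flowPoly_mul, flowPoly_X, flowPoly_C, flowPoly_C, dxS_mul, dxS_C, dx_C, map_mul]
    simp only [zero_add, Function.iterate_one]
    ring
  | add p q hp hq => rw [dx_add, flowPoly_add, flowPoly_add, dxS_add, hp, hq]
  | mul_X p n hp =>
    rw [dx_mul, flowPoly_add, flowPoly_mul, flowPoly_mul, flowPoly_mul, hp, dx_X, flowPoly_X,
      flowPoly_X, dxS_add, dxS_mul, dxS_mul, dxS_C, dxS_C, dx_X,
      Function.iterate_succ_apply' dxS (n + 1)]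
    ring

lemma flow_dxS (Q F : DSeries) : flow Q (dxS F) = dxS (flow Q F) := by
  ext1 n
  simp only [coeff_flow, coeff_dxS, dx_sum, flowPoly_dx]

lemma eq_zero_of_eq_X_mul_dxS (W : DSeries) (h : W = PowerSeries.X * dxS W) : W = 0 := by
  ext1 n
  induction n with
  | zero => rw [h]; simp
  | succ n ih =>
    rw [h, PowerSeries.coeff_succ_X_mul, coeff_dxS, ih]; simp [dx_zero]

end Pool.Agent.Lib.MP_4b14b2_mp
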