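import Mathlib

/-!
Differential polynomials in one dependent variable u, formal series in ε, evolutionary flows,
deformations of the Riemann hierarchy and Miura transformations.
-/

namespace Pool.Agent.Lib.MP_4b14b2_mp

open Finset

/-- Differential polynomials: polynomials in u_1, u_2, ... with coefficients in ℂ[[u]].
The variable `MvPolynomial.X i` is u_(i+1); the variable `PowerSeries.X` of the coefficients is u. -/
abbrev DPoly : Type := MvPolynomial ℕ (PowerSeries ℂ)

/-- Formal power series in ε with differential polynomial coefficients. -/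
abbrev DSeries : Type := PowerSeries DPoly

/-- The differential polynomial u. -/
noncomputable def u : DPoly := MvPolynomial.C PowerSeries.X

/-- `f` lies in A_(u;d): it is homogeneous of degree `d` when deg u_i = i. -/
def HasDeg (f : DPoly) (d : ℕ) : Prop := f.IsWeightedHomogeneous (fun i => i + 1) d

/-- `F` lies in Â_(u;d): the coefficient of ε^k lies in A_(u;k+d). -/
def SeriesHasDeg (F : DSeries) (d : ℕ) : Prop := ∀ k, HasDeg (PowerSeries.coeff k F) (k + d)

/-- ∂/∂u : differentiate every coefficient in ℂ[[u]]. -/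
noncomputable def du (f : DPoly) : DPoly :=
  ∑ m ∈ f.support, MvPolynomial.monomial m (PowerSeries.derivative ℂ (f.coeff m))

/-- The total derivative ∂_x = u_1 ∂/∂u + ∑_(i ≥ 1) u_(i+1) ∂/∂u_i. -/
noncomputable def dx (f : DPoly) : DPoly :=
  MvPolynomial.X 0 * du f + ∑ i ∈ f.vars, MvPolynomial.X (i + 1) * MvPolynomial.pderiv i f

/-- ∂_x on series in ε, coefficient by coefficient. -/
noncomputable def dxS (F : DSeries) : DSeries := PowerSeries.mk fun k => dx (PowerSeries.coeff k F)

/-- Derivative of a differential polynomial `f` along the flow u_t = Q :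
∑_(i ≥ 0) (∂_x^i Q) ∂f/∂u_i. -/
noncomputable def flowPoly (Q : DSeries) (f : DPoly) : DSeries :=
  Q * PowerSeries.C (du f) + ∑ i ∈ f.vars, dxS^[i + 1] Q * PowerSeries.C (MvPolynomial.pderiv i f)

/-- Derivative of F = ∑ ε^k F_k along the flow u_t = Q, namely ∑ ε^k (flowPoly Q F_k). -/
noncomputable def flow (Q F : DSeries) : DSeries :=
  PowerSeries.mk fun n =>
    ∑ p ∈ antidiagonal n, PowerSeries.coeff p.2 (flowPoly Q (PowerSeries.coeff p.1 F))

/-- A deformation of the Riemann hierarchy: Q_d ∈ Â_(u;1), Q_d = u^d/d! u_x + O(ε), and the flows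
u_(t_d) = Q_d commute pairwise. -/
def IsDeformation (Q : ℕ → DSeries) : Prop :=
  (∀ d, SeriesHasDeg (Q d) 1) ∧
  (∀ d, PowerSeries.coeff 0 (Q d) = ((d.factorial : ℂ)⁻¹) • (u ^ d * MvPolynomial.X 0)) ∧
  (∀ d e, flow (Q d) (Q e) = flow (Q e) (Q d))

/-- v = u + ∑_(k ≥ 1) ε^k f_k with f_k ∈ A_(u;k). -/
def IsMiura (v : DSeries) : Prop := SeriesHasDeg v 0 ∧ PowerSeries.coeff 0 v = u

/-- g(v) for g ∈ ℂ[[u]] and v = u + O(ε), by the Taylor series ∑_n g^(n)(u) (v - u)^n / n!
(only n ≤ k contributes to ε^k). -/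
noncomputable def substCoef (v : DSeries) (g : PowerSeries ℂ) : DSeries :=
  PowerSeries.mk fun k => ∑ n ∈ range (k + 1), PowerSeries.coeff k
    (PowerSeries.C (MvPolynomial.C ((n.factorial : ℂ)⁻¹ • (PowerSeries.derivative ℂ)^[n] g)) *
      (v - PowerSeries.C u) ^ n)

/-- f(v, v_x, v_xx, ...) for a differential polynomial `f`: replace u by v and u_i by ∂_x^i v. -/
noncomputable def substPoly (v : DSeries) (f : DPoly) : DSeries :=
  ∑ m ∈ f.support, substCoef v (f.coeff m) * ∏ i ∈ m.support, (dxS^[i + 1] v) ^ (m i)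

/-- P(v, v_x, ...) for P = ∑ ε^k P_k, namely ∑ ε^k P_k(v, v_x, ...). -/
noncomputable def subst (v P : DSeries) : DSeries :=
  PowerSeries.mk fun n =>
    ∑ p ∈ antidiagonal n, PowerSeries.coeff p.2 (substPoly v (PowerSeries.coeff p.1 P))

/-- The change of variable u ↦ v carries the system u_(t_d) = Q_d(u) to v_(t_d) = Q'_d(v). -/
def Carries (v : DSeries) (Q Q' : ℕ → DSeries) : Prop := ∀ d, flow (Q d) v = subst v (Q' d)

/-- One of the two systems is carried to the other by a Miura transformation. -/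
def MiuraEquivalent (Q Q' : ℕ → DSeries) : Prop :=
  ∃ v, IsMiura v ∧ (Carries v Q Q' ∨ Carries v Q' Q)

/-- b_k(u), the coefficient of ε^(k-1) u_k in `P` (used for k ≥ 2). -/
noncomputable def b (P : DSeries) (k : ℕ) : PowerSeries ℂ :=
  (PowerSeries.coeff (k - 1) P).coeff (Finsupp.single (k - 1) 1)

/-- b_(1,1)(u), the coefficient of ε u_1^2 in `P`. -/
noncomputable def b11 (P : DSeries) : PowerSeries ℂ :=
  (PowerSeries.coeff 1 P).coeff (Finsupp.single 0 2)

end Pool.Agent.Lib.MP_4b14b2_mp
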