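import Pool.Agent.Lib.MP_4b14b2_mp.HEuler

/-! Order by order construction of the Hamiltonian deformation. -/

namespace Pool.Agent.Lib.MP_4b14b2_mp.Lau

open Finset

lemma Tt_pole (d : ℕ) {f : A} (hf : f ∈ Supp (fun m => -1 ≤ m 1)) :
    Tt d f ∈ Supp (fun m => -1 ≤ m 1) := by
  rw [Tt_apply]
  refine sub_mem ?_ (mul_mem (mul_ok (G2_mem (fun _ => True) d) (x_ok _ 1)) hf fun m m' h h' => by
    have := h 1 trivial
    simp only [Finsupp.add_apply]; omega)
  rw [eq_der (T d)]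
  refine der_mem (s := fun n μ => 0 ≤ μ 1 ∧ (n = 1 → 1 ≤ μ 1)) hf (fun n => ?_) ?_
  · by_cases h : n = 1
    · subst h
      rw [T_x1, x, ← mon_nsmul]
      refine mul_mem (G2_mem (fun _ => True) d) (mon_mem (p := fun m => m = 2 • e 1) rfl) ?_
      rintro m _ h rfl
      have := h 1 trivial
      simp [e_apply]; omega
    · rw [T_apply]
      exact Supp_mono (br_ok (F_ok (fun _ => True) d) (x_ok _ n)) fun m hm =>
        ⟨hm 1 trivial, fun h' => absurd h' h⟩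
  · rintro m n μ hm _ ⟨h1, h2⟩
    simp only [Finsupp.add_apply, Finsupp.sub_apply, e_apply]
    split_ifs with h
    · have := h2 h; omega
    · omega

lemma pd_zero_Im {s : ℕ → Prop} {w : A} (hw : w ∈ Im s) : pd 0 w ∈ Im s := by
  rw [← ev_one]; exact ev_Im (one_ok s) hw

lemma br_F (Φ : A) (d : ℕ) : br Φ (F d) = - T d Φ := by rw [br_anti, T_apply]

theorem solve (K Λ : ℤ) (hst : 0 ≤ 3 * Λ - K + 2) (hΛ : 0 < Λ) (Y : ℕ → A)
    (hb : ∀ d, Y d ∈ Supp bb) (hh : ∀ d : ℕ, Y d ∈ Supp (hom (K + 1) (Λ + d - 2)))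
    (h0 : Y 0 = 0) (h1 : Y 1 = 0) (hg : ∀ d, pd 0 (Y (d + 1)) = Y d)
    (hE : ∀ d, E (Y (d + 1)) = Y d) (hc : ∀ d d', T d (Y d') - T d' (Y d) ∈ Supp nn) :
    ∃ Kk, Kk ∈ Supp bb ∧ Kk ∈ Supp (hom K Λ) ∧ pd 0 Kk = 0 ∧
      ∀ d, Y d + br (E Kk) (F d) ∈ Supp nn := by
  have hh' : ∀ d : ℕ, Y (d + 1) ∈ Supp (hom (K + 1) (Λ + d - 1)) := fun d =>
    hom_congr (hh (d + 1)) rfl (by push_cast; ring)
  have hu : ∀ d : ℕ, Y (d + 1) ∈ Supp (fun m => m 0 ≤ (d : ℤ) - 1) := by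
    intro d
    induction d with
    | zero => rw [zero_add, h1]; exact zero_mem _
    | succ d ih =>
      have h2 := mon_mul_mem (r := fun m => m 0 ≤ (d : ℤ)) (e 0) ih fun m hm => by
        simp [e_apply]; omega
      rw [← hg (d + 1), ← x, pd_eq_diag] at h2
      refine mem_Supp.mpr fun m hm => ?_
      by_cases hm0 : m 0 = 0
      · push_cast; omega
      · have := mem_Supp.mp h2 m (by
          rw [coeff_diag]; exact mul_ne_zero (by exact_mod_cast hm0) hm)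
        push_cast; omega
  have hred : ∀ d : ℕ, ∃ y', y' ∈ Supp bb ∧ y' ∈ Supp (hom (K + 1) (Λ + d - 1)) ∧
      y' ∈ Supp (fun m => -1 ≤ m 1) ∧ Y (d + 1) - y' ∈ Im fun n => n ≠ 1 := by
    intro d
    obtain ⟨J, hJ⟩ := exists_pole (Y (d + 1))
    exact reduce_pole (K + 1) (Λ + d - 1) (d - 1) (by omega) J _
      (Supp_and (hb _) (Supp_and (hh' d) (hu d))) (Supp_mono hJ fun m h => by omega)
  choose y y1 y2 y3 y4 using hred
  obtain ⟨Kk, k1, k2, k3, k4⟩ := fam_Tt.poincare K Λ hst y (fun d _ => y1 d) (fun d _ => y2 d)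
    (fun d d' hd hd' => by
      have w1 : Tt d (Y (d' + 1)) - Tt d' (Y (d + 1)) ∈ Supp bb :=
        sub_mem (Tt_ok d (hb _)) (Tt_ok d' (hb _))
      have w2 : Tt d (Y (d' + 1)) - Tt d' (Y (d + 1)) ∈ Supp (hom (K + 2) (Λ + d + d' - 2)) :=
        sub_mem (hom_congr (fam_Tt.hom d _ _ _ (hh' d')) (by ring) (by ring))
          (hom_congr (fam_Tt.hom d' _ _ _ (hh' d)) (by ring) (by ring))
      have w3 := sub_mem_Im w1 w2 (by omega)
      rw [map_sub E, E_Tt, E_Tt, hE, hE] at w3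
      refine simple_pole (Submodule.smul_mem _ ((Λ + d + d' - 2 : ℤ) : ℂ)⁻¹
        (mul_ok (x_ok _ 0) (hc d d'))) ?_ (sub_mem (Tt_pole d (y3 d')) (Tt_pole d' (y3 d)))
      have w4 := add_mem (sub_mem w3 (Tt_Im d (y4 d'))) (Tt_Im d' (y4 d))
      convert w4 using 1
      simp only [map_sub]; ring)
  have k5 := pd_zero_of_mem k3
  have hW := galilei (fun d => y d - Tt d Kk) 1 (fun d _ => sub_mem (y1 d) (Tt_ok d k1))
    (by
      rw [Tt_one, sub_zero]
      refine simple_pole (zero_mem _) ?_ (y3 1)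
      have w := sub_mem_Im (hb 2) (hh' 1) (by omega)
      rw [hE 1, h1, mul_zero, smul_zero, sub_zero] at w
      have := sub_mem w (y4 1)
      convert this using 1; ring)
    (fun d _ => by
      rw [map_sub, pd_Tt d k5, sub_sub_sub_cancel_right]
      refine simple_pole (zero_mem _) ?_ (sub_mem (pd_mem 0 (y3 _) fun m h _ => by
        simpa [e_apply] using h) (y3 d))
      have := sub_mem (y4 d) (pd_zero_Im (y4 (d + 1)))
      convert this using 1
      rw [map_sub, hg]; ring)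
    (fun d hd => k4 d hd)
  refine ⟨Kk, k1, k2, k5, fun d => ?_⟩
  rw [br_F]
  cases d with
  | zero => rw [h0, T_zero]; simp
  | succ d =>
    have w := E_ok (hW (d + 1) (by omega))
    have w2 := E_Im (y4 (d + 1))
    rw [map_sub, hE, sub_eq_zero] at w2
    rwa [map_sub, E_Tt, ← w2, sub_eq_add_neg] at w

/-- what the generating functional of order `M` has to satisfy -/
def Spec (M : ℕ) (Y : ℕ → A) (Kk : A) : Prop :=
  Kk ∈ Supp bb ∧ Kk ∈ Supp (hom (18 * (M + 1) - 1) (6 * (M + 1) + 2)) ∧ pd 0 Kk = 0 ∧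
    ∀ d, Y d + br (E Kk) (F d) ∈ Supp nn

/-- u_2^9 / u_1 -/
noncomputable def K0 : A := mon (9 • e 2 - e 1)

noncomputable def pick (M : ℕ) (Y : ℕ → A) : A :=
  if M = 0 then K0 else Classical.epsilon (Spec M Y)

noncomputable def St : ℕ → A × (ℕ → A)
  | 0 => (0, F)
  | M + 1 =>
    (pick M fun d => ∑ i : Fin M, br (E (St (i + 1)).1) ((St (M - i)).2 d),
      fun d => ((M + 1 : ℕ) : ℂ)⁻¹ • (∑ i : Fin M, br (E (St (i + 1)).1) ((St (M - i)).2 d) +
        br (E (pick M fun d => ∑ i : Fin M, br (E (St (i + 1)).1) ((St (M - i)).2 d))) (F d)))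
decreasing_by all_goals (have := i.isLt; omega)

noncomputable def KK (i : ℕ) : A := (St (i + 1)).1
noncomputable def PP (j d : ℕ) : A := (St j).2 d
noncomputable def YY (M d : ℕ) : A := ∑ i ∈ range M, br (E (KK i)) (PP (M - i) d)

lemma YY_eq (M : ℕ) :
    (fun d => ∑ i : Fin M, br (E (St (i + 1)).1) ((St (M - i)).2 d)) = YY M := by
  funext d
  exact Fin.sum_univ_eq_sum_range (fun i => br (E (KK i)) (PP (M - i) d)) M

lemma KK_eq (M : ℕ) : KK M = pick M (YY M) := by rw [KK, St, YY_eq]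

lemma PP_zero (d : ℕ) : PP 0 d = F d := by rw [PP, St]

lemma PP_succ (M d : ℕ) :
    PP (M + 1) d = ((M + 1 : ℕ) : ℂ)⁻¹ • (YY M d + br (E (KK M)) (F d)) := by
  rw [PP, St, YY_eq, ← KK_eq, ← congrFun (YY_eq M) d]

lemma PP_succ' (M d : ℕ) :
    ((M + 1 : ℕ) : ℂ) • PP (M + 1) d = YY M d + br (E (KK M)) (F d) := by
  rw [PP_succ, smul_smul, mul_inv_cancel₀ (by exact_mod_cast Nat.succ_ne_zero M), one_smul]

lemma PP_rec (d M : ℕ) : ((M + 1 : ℕ) : ℂ) • PP (M + 1) d =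
    ∑ p ∈ antidiagonal M, br (E (KK p.1)) (PP p.2 d) := by
  rw [PP_succ', Finset.Nat.sum_antidiagonal_eq_sum_range_succ_mk, Finset.sum_range_succ, YY,
    Nat.sub_self, PP_zero]

lemma PP_comm (d d' n : ℕ) : ∑ p ∈ antidiagonal n, br (PP p.1 d) (PP p.2 d') = 0 :=
  lax (fun i => E (KK i)) (fun j => PP j d) (fun j => PP j d') (PP_rec d) (PP_rec d')
    (by simp only [PP_zero, br_F_F]) n

structure Good (j : ℕ) (P : ℕ → A) : Prop where
  nn : ∀ d, P d ∈ Supp nn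
  hom : ∀ d : ℕ, P d ∈ Supp (hom (18 * j) (d + 6 * j))
  gal : ∀ d, pd 0 (P (d + 1)) = P d
  eul : ∀ d, E (P (d + 1)) = P d
  low : j ≠ 0 → P 0 = 0 ∧ P 1 = 0

lemma good_zero : Good 0 F :=
  ⟨F_ok _, fun d => hom_congr (F_hom d) (by simp) (by simp), pd_F_succ, E_F_succ,
    fun h => absurd rfl h⟩

lemma Tt_K0 (d : ℕ) : Tt d K0 = 25 * pd 0 (pd 0 (F d)) * x 2 ^ 9 +
    9 * pd 0 (pd 0 (pd 0 (F d))) * x 1 ^ 2 * x 2 ^ 8 := by
  have h1 : x 1 * K0 = x 2 ^ 9 := by rw [K0, x, x, ← mon_add, ← mon_nsmul]; simp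
  have h2 := congrArg (T d) h1
  rw [Derivation.leibniz, Derivation.leibniz_pow, T_x1, T_x2] at h2
  simp only [smul_eq_mul, nsmul_eq_mul] at h2
  refine sub_eq_zero.mp (mon_mul_eq_zero (m := e 1) ?_)
  rw [← x, Tt_apply]
  push_cast at h2
  linear_combination h2 - (2 * pd 0 (pd 0 (F d)) * x 1) * h1

lemma pow_ok {s : ℕ → Prop} {f : A} (hf : f ∈ Supp (ok s)) (k : ℕ) : f ^ k ∈ Supp (ok s) := by
  induction k with
  | zero => simpa using one_ok s
  | succ k ih => rw [pow_succ]; exact mul_ok ih hf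

lemma natCast_ok (s : ℕ → Prop) (k : ℕ) : (k : A) ∈ Supp (ok s) := by
  rw [← nsmul_one]; exact nsmul_mem (one_ok s) k

lemma spec_zero : Spec 0 (YY 0) K0 := by
  refine ⟨mon_mem fun n hn => ?_, mon_mem ⟨?_, ?_⟩, pd_zero_of_mem (mon_mem ?_), fun d => ?_⟩
  · simp only [Finsupp.sub_apply, Finsupp.smul_apply, e_apply, hn.symm, if_false]
    split_ifs <;> simp
  · rw [map_sub, map_nsmul, deg_e, deg_e]; simp
  · rw [map_sub, map_nsmul, len_e, len_e]; simp
  · simp [e_apply]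
  · rw [YY, Finset.range_zero, Finset.sum_empty, zero_add, br_F, ← E_Tt, Tt_K0]
    exact neg_mem (E_ok (add_mem
      (mul_ok (mul_ok (natCast_ok _ 25) (G2_mem _ d)) (pow_ok (x_ok _ 2) 9))
      (mul_ok (mul_ok (mul_ok (natCast_ok _ 9) (pd_ok 0 (G2_mem _ d))) (pow_ok (x_ok _ 1) 2))
        (pow_ok (x_ok _ 2) 8))))

lemma YY_facts (M : ℕ) (hK : ∀ i, i < M → Spec i (YY i) (KK i))
    (hP : ∀ j, j ≤ M → Good j (PP j)) :
    (∀ d, YY M d ∈ Supp bb) ∧ (∀ d : ℕ, YY M d ∈ Supp (hom (18 * (M + 1)) (d + 6 * (M + 1)))) ∧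
    YY M 0 = 0 ∧ YY M 1 = 0 ∧ (∀ d, pd 0 (YY M (d + 1)) = YY M d) ∧
    (∀ d, E (YY M (d + 1)) = YY M d) := by
  refine ⟨fun d => Submodule.sum_mem _ fun i hi => ?_, fun d => Submodule.sum_mem _ fun i hi => ?_,
    Finset.sum_eq_zero fun i hi => ?_, Finset.sum_eq_zero fun i hi => ?_, fun d => ?_, fun d => ?_⟩
  · exact br_ok (E_ok (hK i (mem_range.mp hi)).1) (nn_bb ((hP _ (by omega)).nn d))
  · have := mem_range.mp hi
    exact hom_congr (br_hom (E_hom (hK i this).2.1) ((hP (M - i) (by omega)).hom d))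
      (by omega) (by omega)
  · have := mem_range.mp hi
    rw [((hP (M - i) (by omega)).low (by omega)).1, map_zero]
  · have := mem_range.mp hi
    rw [((hP (M - i) (by omega)).low (by omega)).2, map_zero]
  · rw [YY, YY, map_sum]
    refine Finset.sum_congr rfl fun i hi => ?_
    rw [pd_zero_br, pd_zero_E, (hK i (mem_range.mp hi)).2.2.1, (hP _ (by omega)).gal]; simp
  · rw [YY, YY, map_sum]
    refine Finset.sum_congr rfl fun i hi => ?_
    rw [E_br_grad (hK i (mem_range.mp hi)).2.2.1, (hP _ (by omega)).eul]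

lemma good_succ (M : ℕ) (hK : ∀ i, i ≤ M → Spec i (YY i) (KK i))
    (hP : ∀ j, j ≤ M → Good j (PP j)) : Good (M + 1) (PP (M + 1)) := by
  obtain ⟨-, a2, a3, a4, a5, a6⟩ := YY_facts M (fun i hi => hK i hi.le) hP
  obtain ⟨-, k2, k3, k4⟩ := hK M le_rfl
  refine ⟨fun d => ?_, fun d => ?_, fun d => ?_, fun d => ?_, fun _ => ⟨?_, ?_⟩⟩
  · rw [PP_succ]; exact Submodule.smul_mem _ _ (k4 d)
  · rw [PP_succ]
    exact Submodule.smul_mem _ _ (add_mem (hom_congr (a2 d) (by simp) (by simp))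
      (hom_congr (br_hom (E_hom k2) (F_hom d)) (by push_cast; ring) (by push_cast; ring)))
  · rw [PP_succ, PP_succ, Derivation.map_smul, map_add, a5, pd_zero_br, pd_zero_E, k3, pd_F_succ]
    simp
  · rw [PP_succ, PP_succ, LinearMap.map_smul, map_add, a6, E_br_grad k3, E_F_succ]
  · rw [PP_succ, a3, br_F, T_zero]; simp
  · rw [PP_succ, a4, br_F, T_one]; simp

lemma cocycle (M : ℕ) (hP : ∀ j, j ≤ M → Good j (PP j)) (d d' : ℕ) :
    T d (YY M d') - T d' (YY M d) ∈ Supp nn := by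
  have h := PP_comm d d' (M + 1)
  rw [Finset.Nat.sum_antidiagonal_succ, ← Finset.add_sum_erase _ _
    (mem_antidiagonal.mpr (add_zero M) : (M, 0) ∈ antidiagonal M), ← add_assoc,
    add_eq_zero_iff_eq_neg] at h
  have h2 : br (PP 0 d) (PP (M + 1) d') + br (PP (M + 1) d) (PP 0 d') ∈ Supp nn := by
    rw [h]
    refine neg_mem (Submodule.sum_mem _ fun p hp => ?_)
    obtain ⟨h3, h4⟩ := Finset.mem_erase.mp hp
    have h5 := mem_antidiagonal.mp h4
    have h6 : p.1 ≠ M := fun h7 => h3 (Prod.ext h7 (by simp only; omega))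
    exact br_ok ((hP _ (by omega)).nn d) ((hP _ (by omega)).nn d')
  have h3 := Submodule.smul_mem _ ((M + 1 : ℕ) : ℂ) h2
  rw [smul_add, ← LinearMap.map_smul, ← LinearMap.smul_apply, ← LinearMap.map_smul, PP_succ',
    PP_succ', PP_zero, PP_zero, ← T_apply, br_F, br_F, br_F] at h3
  convert h3 using 1
  simp only [map_add, map_neg, T_comm d d']
  ring

theorem spec_good (M : ℕ) : Good M (PP M) ∧ Spec M (YY M) (KK M) := by
  induction M using Nat.strong_induction_on with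
  | _ M ih =>
    cases M with
    | zero =>
      refine ⟨?_, ?_⟩
      · rw [show PP 0 = F from funext PP_zero]; exact good_zero
      · rw [KK_eq, pick, if_pos rfl]; exact spec_zero
    | succ M =>
      have hg := good_succ M (fun i hi => (ih i (by omega)).2) (fun i hi => (ih i (by omega)).1)
      have hP : ∀ j, j ≤ M + 1 → Good j (PP j) := fun j hj => by
        rcases Nat.lt_or_eq_of_le hj with h | h
        · exact (ih j h).1
        · exact h ▸ hg
      refine ⟨hg, ?_⟩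
      obtain ⟨a1, a2, a3, a4, a5, a6⟩ := YY_facts (M + 1) (fun i hi => (ih i hi).2) hP
      rw [KK_eq, pick, if_neg (Nat.succ_ne_zero M)]
      exact Classical.epsilon_spec (solve _ _ (by omega) (by omega) _ a1
        (fun d => hom_congr (a2 d) (by ring) (by ring)) a3 a4 a5 a6 (cocycle _ hP))

lemma PP_one_two : PP 1 2 = -(25 : ℂ) • E (x 2 ^ 9) := by
  have h : pd 0 (pd 0 (F 2)) = 1 := by rw [pd_F_succ, pd_F_succ, F_zero]
  rw [PP_succ, KK_eq, pick, if_pos rfl, YY, br_F, ← E_Tt, Tt_K0, h]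
  have h2 : (25 : A) * x 2 ^ 9 = (25 : ℂ) • x 2 ^ 9 := by
    rw [Algebra.smul_def]; rfl
  simp [h2]

end Pool.Agent.Lib.MP_4b14b2_mp.Lau
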