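import Pool.Agent.Lib.MP_4b14b2_mp.Defs

/-! Variational derivative and Hamiltonian conservation laws. -/

namespace Pool.Agent.Lib.MP_4b14b2_mp

open Finset

/-- The variational derivative δ/δu ∫ f dx = ∑_(i ≥ 0) (-∂_x)^i ∂f/∂u_i. -/
noncomputable def varDer (f : DPoly) : DPoly :=
  du f + ∑ i ∈ f.vars, (-1) ^ (i + 1) * dx^[i + 1] (MvPolynomial.pderiv i f)

/-- The variational derivative on series in ε, coefficient by coefficient. -/
noncomputable def varDerS (F : DSeries) : DSeries :=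
  PowerSeries.mk fun k => varDer (PowerSeries.coeff k F)

/-- Every flow is a conservation law Q_d = ∂_x P_d with P_d ∈ Â_(u;0), and it is Hamiltonian for
the Poisson operator ∂_x : P_d = δ/δu ∫ h_d dx with h_d ∈ Â_(u;0). -/
def IsHamiltonian (Q : ℕ → DSeries) : Prop :=
  ∃ P h : ℕ → DSeries, ∀ d, SeriesHasDeg (P d) 0 ∧ SeriesHasDeg (h d) 0 ∧
    Q d = dxS (P d) ∧ P d = varDerS (h d)

end Pool.Agent.Lib.MP_4b14b2_mp
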