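import Pool.Agent.Lib.MP_4b14b2_mp.HTee

/-! The Euler operator (variational derivative) on Laurent differential polynomials. -/

namespace Pool.Agent.Lib.MP_4b14b2_mp.Lau

open Finset

/-- only the variables u_n with n < N occur -/
def V (N : ℕ) (m : G) : Prop := ∀ n, N ≤ n → m n = 0

lemma exists_V (f : A) : ∃ N, f ∈ Supp (V N) := by
  refine ⟨(f.coeff.support.sup fun m => m.support.sup id) + 1, mem_Supp.mpr fun m hm n hn => ?_⟩
  by_contra h
  have h1 : n ≤ m.support.sup id := Finset.le_sup (f := id) (Finsupp.mem_support_iff.mpr h)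
  have h2 : m.support.sup id ≤ f.coeff.support.sup fun m => m.support.sup id :=
    Finset.le_sup (f := fun m : G => m.support.sup id) (Finsupp.mem_support_iff.mpr hm)
  omega

lemma V_mono {N N' : ℕ} {f : A} (hf : f ∈ Supp (V N)) (h : N ≤ N') : f ∈ Supp (V N') :=
  Supp_mono hf fun _ hm n hn => hm n (h.trans hn)

lemma pd_V {N n : ℕ} {f : A} (hf : f ∈ Supp (V N)) (h : N ≤ n) : pd n f = 0 :=
  pd_zero_of_mem (Supp_mono hf fun _ hm => hm n h)

lemma pd_mem_V {N : ℕ} (n : ℕ) {f : A} (hf : f ∈ Supp (V N)) : pd n f ∈ Supp (V N) :=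
  pd_mem n hf fun m hm hn k hk => by
    have : n ≠ k := fun h => hn (h ▸ hm k hk)
    simp [e_apply, this, hm k hk]

lemma Dx_V {N : ℕ} {f : A} (hf : f ∈ Supp (V N)) : Dx f ∈ Supp (V (N + 1)) :=
  Dx_mem hf fun m n hm hn k hk => by
    have h : n < N := by by_contra h; exact hn (hm n (by omega))
    have h1 : n ≠ k := by omega
    have h2 : n + 1 ≠ k := by omega
    simp [e_apply, h1, h2, hm k (by omega)]

lemma Dn_V {N : ℕ} {f : A} (hf : f ∈ Supp (V N)) (n : ℕ) : Dn n f ∈ Supp (V (N + n)) := by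
  induction n with
  | zero => exact hf
  | succ n ih => rw [Dn_succ]; exact Dx_V ih

lemma pd_Dn_top {r : ℕ} {f : A} (hf : f ∈ Supp (V (r + 1))) (n : ℕ) :
    pd (r + n) (Dn n f) = pd r f := by
  induction n with
  | zero => rfl
  | succ n ih =>
    rw [Dn_succ, ← add_assoc, pd_succ_Dx, ih, pd_V (Dn_V hf n) (by omega), map_zero, zero_add]

lemma sum_supp_eq {N : ℕ} {m : G} (hm : V N m) {M : Type} [AddCommMonoid M] (g : ℕ → M)
    (hg : ∀ n, m n = 0 → g n = 0) : ∑ n ∈ m.support, g n = ∑ n ∈ range N, g n :=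
  Finset.sum_subset (fun n hn => mem_range.mpr (by
    by_contra h; exact Finsupp.mem_support_iff.mp hn (hm n (by omega))))
    fun n _ hn => hg n (Finsupp.notMem_support_iff.mp hn)

lemma der_eq_sum {N : ℕ} (q : ℕ → A) {f : A} (hf : f ∈ Supp (V N)) :
    der q f = ∑ n ∈ range N, q n * pd n f := by
  have := Supp_eq hf (der q).toLinearMap
    (∑ n ∈ range N, (LinearMap.mulLeft ℂ (q n)).comp (pd n).toLinearMap) fun m hm => by
      rw [Derivation.coeFn_coe, der_mon_sum, sum_supp_eq hm _ (fun n hn => by simp [hn])]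
      simp [pd_mon, mul_comm]
  simpa using this

/-- the Euler operator -/
noncomputable def E : A →ₗ[ℂ] A :=
  lin fun m => ∑ n ∈ m.support, (-1 : ℂ) ^ n • Dn n (pd n (mon m))

lemma E_eq_sum {N : ℕ} {f : A} (hf : f ∈ Supp (V N)) :
    E f = ∑ n ∈ range N, (-1 : ℂ) ^ n • Dn n (pd n f) := by
  have := Supp_eq hf E (∑ n ∈ range N, (-1 : ℂ) ^ n • (Dn n).comp (pd n).toLinearMap)
    fun m hm => by
      rw [E, lin_mon, sum_supp_eq hm _ (fun n hn => by simp [pd_mon, hn])]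
      simp
  simpa using this

lemma E_Dx (f : A) : E (Dx f) = 0 := by
  obtain ⟨N, hN⟩ := exists_V f
  have h := Finset.sum_range_sub (fun n => (-1 : ℂ) ^ n • Dn (n + 1) (pd n f)) N
  rw [E_eq_sum (Dx_V hN), Finset.sum_range_succ']
  have h2 : ∀ n, (-1 : ℂ) ^ (n + 1) • Dn (n + 1) (pd (n + 1) (Dx f)) =
      (-1 : ℂ) ^ (n + 1) • Dn (n + 1 + 1) (pd (n + 1) f) - (-1 : ℂ) ^ n • Dn (n + 1) (pd n f) := by
    intro n
    rw [pd_succ_Dx, map_add, ← Dn_succ', smul_add, pow_succ (-1 : ℂ) n]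
    simp [sub_eq_add_neg]
  simp only [h2]
  rw [h, pd_V hN le_rfl]
  simp [pd_zero_Dx, Dn_succ, Dn_zero]

lemma E_ok {s : ℕ → Prop} {f : A} (hf : f ∈ Supp (ok s)) : E f ∈ Supp (ok s) := by
  obtain ⟨N, hN⟩ := exists_V f
  rw [E_eq_sum hN]
  exact Submodule.sum_mem _ fun n _ => Submodule.smul_mem _ _ (Dn_ok (pd_ok n hf) n)

lemma E_hom {k l : ℤ} {f : A} (hf : f ∈ Supp (hom k l)) : E f ∈ Supp (hom k (l - 1)) := by
  obtain ⟨N, hN⟩ := exists_V f
  rw [E_eq_sum hN]
  exact Submodule.sum_mem _ fun n _ => Submodule.smul_mem _ _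
    (hom_congr (Dn_hom (pd_hom n hf) n) (by ring) rfl)

lemma pd_zero_E (f : A) : pd 0 (E f) = E (pd 0 f) := by
  obtain ⟨N, hN⟩ := exists_V f
  rw [E_eq_sum hN, E_eq_sum (pd_mem_V 0 hN), map_sum]
  refine Finset.sum_congr rfl fun n _ => ?_
  rw [Derivation.map_smul, comm_Dn _ pd_zero_Dx, pd_pd]

lemma E_Uo {g : A} (hg : g ∈ Supp Uo) : E g = pd 0 g := by
  rw [E_eq_sum (N := 1) (Supp_mono hg fun m hm n hn => hm n (by omega))]; simp [Dn_zero]

lemma E_F_succ (d : ℕ) : E (F (d + 1)) = F d := by rw [E_Uo (F_Uo _), pd_F_succ]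

/-- total derivatives -/
noncomputable def Im (s : ℕ → Prop) : Submodule ℂ A := (Supp (ok s)).map Dx.toLinearMap

lemma Dx_Im {s : ℕ → Prop} {z : A} (hz : z ∈ Supp (ok s)) : Dx z ∈ Im s := ⟨z, hz, rfl⟩

lemma E_Im {s : ℕ → Prop} {w : A} (hw : w ∈ Im s) : E w = 0 := by
  obtain ⟨z, _, rfl⟩ := hw; exact E_Dx z

lemma ev_Im {s : ℕ → Prop} {Q w : A} (hQ : Q ∈ Supp (ok s)) (hw : w ∈ Im s) : ev Q w ∈ Im s := by
  obtain ⟨z, hz, rfl⟩ := hw
  rw [Derivation.coeFn_coe, ev_Dx]; exact Dx_Im (ev_ok hQ hz)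

lemma ibp {s : ℕ → Prop} {Q : A} (hQ : Q ∈ Supp (ok s)) (n : ℕ) : ∀ g ∈ Supp (ok s),
    Dn n Q * g - (-1 : ℂ) ^ n • (Q * Dn n g) ∈ Im s := by
  induction n with
  | zero => intro g _; simp [Dn_zero]
  | succ n ih =>
    intro g hg
    have h := sub_mem (Dx_Im (mul_ok (Dn_ok hQ n) hg)) (ih _ (Dx_ok hg))
    convert h using 1
    rw [Derivation.leibniz, Dn_succ, Dn_succ', pow_succ]
    simp only [smul_eq_mul, mul_neg, mul_one, neg_smul]
    ring

lemma ev_sub_E {s : ℕ → Prop} {Q h : A} (hQ : Q ∈ Supp (ok s)) (hh : h ∈ Supp (ok s)) :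
    ev Q h - Q * E h ∈ Im s := by
  obtain ⟨N, hN⟩ := exists_V h
  rw [ev, der_eq_sum _ hN, E_eq_sum hN, Finset.mul_sum, ← Finset.sum_sub_distrib]
  refine Submodule.sum_mem _ fun n _ => ?_
  rw [mul_smul_comm]
  exact ibp hQ n _ (pd_ok n hh)

lemma all_ok (f : A) : f ∈ Supp (ok fun _ => False) := mem_Supp.mpr fun _ _ _ h => h.elim

lemma nondeg {W : A} (h : ∀ Q, W * Q ∈ Im fun _ => False) : W = 0 := by
  obtain ⟨N, hN⟩ := exists_V W
  have hx : x N ∈ Supp (V (N + 1)) := mon_mem fun n hn => by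
    rw [e_apply, if_neg (by omega)]
  have hmul : ∀ f g : A, f ∈ Supp (V (N + 1)) → g ∈ Supp (V (N + 1)) → f * g ∈ Supp (V (N + 1)) :=
    fun f g hf hg => mul_mem hf hg fun m m' h1 h2 n hn => by simp [h1 n hn, h2 n hn]
  have hV := hmul _ _ (V_mono hN (Nat.le_succ N)) (hmul _ _ hx hx)
  have h1 := congrArg (pd (N + N)) (E_Im (h (x N * x N)))
  rw [E_eq_sum hV, map_sum, Finset.sum_range_succ, Finset.sum_eq_zero, zero_add,
    Derivation.map_smul, pd_Dn_top (pd_mem_V N hV), map_zero] at h1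
  · have h2 := (smul_eq_zero.mp h1).resolve_left (pow_ne_zero _ (by norm_num))
    simp only [Derivation.leibniz, pd_x, pd_V hN le_rfl, if_true, smul_eq_mul, map_add, mul_one,
      mul_zero, add_zero] at h2
    have h3 : (2 : ℂ) • W = 0 := by rw [two_smul, ← h2]; ring
    exact (smul_eq_zero.mp h3).resolve_left two_ne_zero
  · intro n hn
    rw [Derivation.map_smul, pd_V (Dn_V (pd_mem_V n hV) n) (by have := mem_range.mp hn; omega),
      smul_zero]

lemma helm (Q R h : A) : R * ev Q (E h) - Q * ev R (E h) ∈ Im fun _ => False := by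
  have h1 := ev_Im (all_ok Q) (ev_sub_E (all_ok R) (all_ok h))
  have h2 := ev_Im (all_ok R) (ev_sub_E (all_ok Q) (all_ok h))
  have h3 := ev_sub_E (all_ok (ev Q R - ev R Q)) (all_ok h)
  have h4 := add_mem (sub_mem h3 h1) h2
  convert h4 using 1
  rw [← ev_ev]
  simp only [map_sub, Derivation.leibniz, smul_eq_mul]
  ring

/-- the Euler operator takes the Poisson bracket to the bracket of potentials -/
lemma E_ev_grad (g h : A) : E (ev (Dx (E g)) h) = br (E g) (E h) := by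
  refine sub_eq_zero.mp (nondeg fun Q => ?_)
  have h1 := ev_sub_E (all_ok Q) (all_ok (ev (Dx (E g)) h))
  have h2 := ev_Im (all_ok Q) (ev_sub_E (all_ok (Dx (E g))) (all_ok h))
  have h3 := Dx_Im (all_ok (ev Q (E g) * E h))
  have h4 := helm Q (Dx (E g)) h
  have h5 := helm Q (Dx (E h)) g
  have h6 := sub_mem (add_mem (add_mem (sub_mem h2 h1) h3) h4) h5
  convert h6 using 1
  simp only [br_apply, map_sub, Derivation.leibniz, smul_eq_mul, ev_Dx]
  ring

lemma pd_sub_E {s : ℕ → Prop} {h : A} (hh : h ∈ Supp (ok s)) : pd 0 h - E h ∈ Im s := by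
  have := ev_sub_E (one_ok s) hh
  rwa [ev_one, one_mul] at this

lemma E_br_grad {K : A} (hK : pd 0 K = 0) (P : A) : E (br (E K) P) = br (E K) (E P) := by
  have h1 : E K ∈ Im fun _ => False := by
    have := neg_mem (pd_sub_E (all_ok K))
    rwa [hK, zero_sub, neg_neg] at this
  rw [br_apply, map_sub, E_ev_grad, E_Im (ev_Im (all_ok _) h1), sub_zero]

lemma Tt_eq (d : ℕ) (K : A) : Tt d K = ev (Dx (F d)) K - Dx (pd 0 (F d) * K) := by
  rw [Tt_apply, Derivation.leibniz, Dx_Uo (pd_Uo (F_Uo d))]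
  simp [T]; ring

lemma E_Tt (d : ℕ) (K : A) : E (Tt d K) = T d (E K) := by
  rw [Tt_eq, map_sub, E_Dx, sub_zero, T_apply, ← E_F_succ d, E_ev_grad]

lemma Tt_Im {s : ℕ → Prop} (d : ℕ) {w : A} (hw : w ∈ Im s) : Tt d w ∈ Im s := by
  rw [Tt_eq]
  refine sub_mem (ev_Im (Dx_ok (F_ok s d)) hw) (Dx_Im (mul_ok (pd_ok 0 (F_ok s d)) ?_))
  obtain ⟨z, hz, rfl⟩ := hw
  exact Dx_ok hz

lemma ev_x0 {k l : ℤ} {h : A} (hh : h ∈ Supp (hom k l)) : ev (x 0) h = (l : ℂ) • h := by
  refine Supp_eq hh (ev (x 0)).toLinearMap ((l : ℂ) • LinearMap.id) fun m hm => ?_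
  rw [Derivation.coeFn_coe, ev, der_mon_sum, LinearMap.smul_apply, LinearMap.id_apply, ← hm.2, len,
    Finsupp.weight_apply, Finsupp.sum, Int.cast_sum, Finset.sum_smul]
  refine Finset.sum_congr rfl fun n _ => ?_
  rw [Dn_x, zero_add, x, ← mon_add]; simp

lemma sub_mem_Im {s : ℕ → Prop} {k l : ℤ} {h : A} (h1 : h ∈ Supp (ok s)) (hh : h ∈ Supp (hom k l))
    (hl : l ≠ 0) : h - (l : ℂ)⁻¹ • (x 0 * E h) ∈ Im s := by
  have := Submodule.smul_mem _ (l : ℂ)⁻¹ (ev_sub_E (x_ok s 0) h1)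
  rwa [ev_x0 hh, smul_sub, smul_smul, inv_mul_cancel₀ (by exact_mod_cast hl), one_smul] at this

/-! ### poles modulo total derivatives -/

lemma Dx_pole (J : ℤ) {g : A} (hg : g ∈ Supp (fun m => -J ≤ m 1)) :
    Dx g + (J : ℂ) • (mon (e 2 - e 1) * comp (fun m => m 1 = -J) g) ∈ Supp (fun m => -J ≤ m 1) := by
  have h1 : Dx = der (fun n => if n = 1 then 0 else x (n + 1)) + x 2 • pd 1 := der_ext fun n => by
    by_cases h : n = 1 <;> simp [Dx_x, der_x, pd_x, h]
  have h2 : der (fun n => if n = 1 then 0 else x (n + 1)) g ∈ Supp (fun m => -J ≤ m 1) := by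
    refine der_mem (s := fun n μ => n ≠ 1 ∧ μ = e (n + 1)) hg (fun n => ?_) ?_
    · split_ifs with h
      · exact zero_mem _
      · exact mon_mem ⟨h, rfl⟩
    · rintro m n _ hm _ ⟨h, rfl⟩
      simp only [Finsupp.add_apply, Finsupp.sub_apply, e_apply, h, if_false]
      split_ifs <;> omega
  have h3 : x 2 * pd 1 g = mon (e 2 - e 1) * diag (fun m => ((m 1 : ℤ) : ℂ)) g := by
    rw [← pd_eq_diag, ← mul_assoc, x, x, ← mon_add, sub_add_cancel]
  have h4 : diag (fun m => ((m 1 : ℤ) : ℂ)) (comp (fun m => m 1 = -J) g) =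
      (-J : ℂ) • comp (fun m => m 1 = -J) g :=
    diag_const _ _ (comp_mem hg) fun m hm => by simp [hm.2]
  have h5 := mon_mul_mem (r := fun m => -J ≤ m 1) (e 2 - e 1)
    (diag_mem (fun m => ((m 1 : ℤ) : ℂ)) (sub_comp_mem (p := fun m => m 1 = -J) hg)) (by
      rintro m ⟨⟨h, h'⟩, _⟩
      simp [e_apply]; omega)
  have h6 := add_mem h2 h5
  convert h6 using 1
  rw [map_sub, h4, mul_sub, ← h3]
  conv_lhs => rw [h1]
  simp only [Derivation.add_apply, Derivation.smul_apply, smul_eq_mul, neg_smul, mul_neg,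
    mul_smul_comm]
  ring

lemma exists_pole (g : A) : ∃ J : ℕ, g ∈ Supp (fun m => -(J : ℤ) ≤ m 1) := by
  refine ⟨g.coeff.support.sup fun m => (-m 1).toNat, mem_Supp.mpr fun m hm => ?_⟩
  have : (-m 1).toNat ≤ g.coeff.support.sup fun m => (-m 1).toNat :=
    Finset.le_sup (f := fun m : G => (-m 1).toNat) (Finsupp.mem_support_iff.mpr hm)
  omega

lemma simple_pole {v w : A} (hw : w ∈ Supp nn) (hv : v - w ∈ Im fun n => n ≠ 1)
    (h1 : v ∈ Supp (fun m => -1 ≤ m 1)) : v ∈ Supp nn := by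
  obtain ⟨g, hg, hgv⟩ := hv
  rw [Derivation.coeFn_coe] at hgv
  have hD : Dx g ∈ Supp (fun m => -1 ≤ m 1) := by
    rw [hgv]; exact sub_mem h1 (Supp_mono hw fun m hm => by have := hm 1 trivial; omega)
  obtain ⟨J, hJ⟩ := exists_pole g
  have key : g ∈ Supp (fun m => 0 ≤ m 1) := by
    induction J with
    | zero => simpa using hJ
    | succ J ih =>
      apply ih
      have h2 := sub_mem (Dx_pole _ hJ) (Supp_mono hD fun m hm => by push_cast; omega)
      rw [add_sub_cancel_left] at h2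
      have h3 := Submodule.smul_mem _ (((J + 1 : ℕ) : ℤ) : ℂ)
        (mon_mul_mem (r := fun m => m 1 = -((J + 1 : ℕ) : ℤ) - 1) (e 2 - e 1)
          (comp_mem (p := fun m => m 1 = -((J + 1 : ℕ) : ℤ)) hJ) (by
            rintro m ⟨_, h⟩; simp only [Finsupp.add_apply, Finsupp.sub_apply, e_apply, h]; simp; ring))
      have h4 := Supp_false (Supp_and h2 h3) (fun m h => by have := h.1; have := h.2; omega)
      have h5 := mon_mul_eq_zero ((smul_eq_zero.mp h4).resolve_left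
        (by exact_mod_cast Nat.succ_ne_zero J))
      exact Supp_mono (mem_of_comp_zero hJ h5) fun m h => by
        have := h.1; have := h.2; push_cast at *; omega
  have h6 : g ∈ Supp nn := Supp_mono (Supp_and hg key) fun m h => nn_of_bb h.1 h.2
  have := add_mem (Dx_ok h6) hw
  rwa [hgv, sub_add_cancel] at this

lemma reduce_pole (k l a : ℤ) (hst : 1 ≤ 3 * (l - a) - k + 4) (J : ℕ) : ∀ y : A,
    y ∈ Supp (fun m => bb m ∧ hom k l m ∧ m 0 ≤ a) → y ∈ Supp (fun m => -((J : ℤ) + 1) ≤ m 1) →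
    ∃ y', y' ∈ Supp bb ∧ y' ∈ Supp (hom k l) ∧ y' ∈ Supp (fun m => -1 ≤ m 1) ∧
      y - y' ∈ Im fun n => n ≠ 1 := by
  induction J with
  | zero =>
    intro y h1 h2
    exact ⟨y, Supp_mono h1 fun _ h => h.1, Supp_mono h1 fun _ h => h.2.1, by simpa using h2,
      by simp⟩
  | succ J ih =>
    intro y h1 h2
    have hJ : (((J : ℤ) + 1 : ℤ) : ℂ) ≠ 0 := by exact_mod_cast Nat.succ_ne_zero J
    set tp := comp (fun m => m 1 = -((J : ℤ) + 2)) y with htp
    set z := (((J : ℤ) + 1 : ℤ) : ℂ)⁻¹ • (mon (e 1 - e 2) * tp) with hz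
    have hzm : z ∈ Supp (fun m => (bb m ∧ hom (k - 1) l m ∧ m 0 ≤ a) ∧ m 1 = -((J : ℤ) + 1)) := by
      refine Submodule.smul_mem _ _ (mon_mul_mem _ (comp_mem h1) ?_)
      rintro m ⟨⟨h3, ⟨h4, h5⟩, h6⟩, h7⟩
      have h8 := tail_nonneg (m := m) (fun n hn => h3 n (by omega)) 1 (-3) (by omega) (by omega)
      rw [h4, h5, h7] at h8
      refine ⟨⟨fun n hn => ?_, ⟨?_, ?_⟩, ?_⟩, ?_⟩
      · have := h3 n hn
        simp only [Finsupp.add_apply, Finsupp.sub_apply, e_apply]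
        split_ifs with h h' h'
        · omega
        · omega
        · subst h'; omega
        · omega
      · rw [map_add, map_sub, deg_e, deg_e, h4]; push_cast; ring
      · rw [map_add, map_sub, len_e, len_e, h5]; ring
      · simpa [e_apply] using h6
      · simp [e_apply, h7]; ring
    have hzb : z ∈ Supp bb := Supp_mono hzm fun _ h => h.1.1
    have hD : Dx z ∈ Supp (fun m => bb m ∧ hom k l m ∧ m 0 ≤ a) := by
      refine Supp_and (Dx_ok hzb) (Supp_and (hom_congr (Dx_hom (Supp_mono hzm fun _ h => h.1.2.1))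
        (by ring) rfl) (Dx_mem hzm fun m n hm _ => ?_))
      have := hm.1.2.2
      have h0 : ¬ (n + 1 = 0) := by omega
      simp only [Finsupp.add_apply, Finsupp.sub_apply, e_apply, h0, if_false]
      split_ifs <;> omega
    have h3 := Dx_pole ((J : ℤ) + 1) (g := z) (Supp_mono hzm fun m h => h.2.ge)
    rw [comp_self (Supp_mono hzm fun m h => h.2), hz, mul_smul_comm, smul_smul,
      mul_inv_cancel₀ hJ, one_smul, ← mul_assoc, ← mon_add, sub_add_sub_cancel, sub_self, mon_zero,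
      one_mul, ← hz] at h3
    have h4 : y - tp ∈ Supp (fun m => -((J : ℤ) + 1) ≤ m 1) :=
      Supp_mono (sub_comp_mem h2) fun m h => by have := h.1; have := h.2; push_cast at *; omega
    obtain ⟨y', a1, a2, a3, a4⟩ := ih (y + Dx z) (add_mem h1 hD) (by
      have := add_mem h4 h3
      convert this using 1; ring)
    refine ⟨y', a1, a2, a3, ?_⟩
    have := sub_mem a4 (Dx_Im hzb)
    convert this using 1; ring

end Pool.Agent.Lib.MP_4b14b2_mp.Lau
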