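import Mathlib

/-!
Laurent polynomials in u_0, u_1, u_2, ..., evolutionary derivations, the bracket of potentials.
-/

namespace Pool.Agent.Lib.MP_4b14b2_mp.Lau

open Finset

abbrev G : Type := ℕ →₀ ℤ
abbrev A : Type := AddMonoidAlgebra ℂ G

noncomputable def mon (m : G) : A := AddMonoidAlgebra.single m 1
noncomputable def e (n : ℕ) : G := Finsupp.single n 1
noncomputable def x (n : ℕ) : A := mon (e n)

lemma e_apply (n k : ℕ) : e n k = if n = k then 1 else 0 := by simp [e, Finsupp.single_apply]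

lemma mon_add (m m' : G) : mon (m + m') = mon m * mon m' := by
  simp [mon, AddMonoidAlgebra.single_mul_single]

lemma mon_zero : mon 0 = 1 := rfl

lemma mon_nsmul (k : ℕ) (m : G) : mon (k • m) = mon m ^ k := by
  induction k with
  | zero => simp [mon_zero]
  | succ k ih => rw [succ_nsmul, mon_add, ih, pow_succ]

lemma mon_ne_zero (m : G) : mon m ≠ 0 := by simp [mon]

lemma mon_mul_eq_zero {m : G} {f : A} (h : mon m * f = 0) : f = 0 := by
  have : mon (-m) * (mon m * f) = f := by rw [← mul_assoc, ← mon_add]; simp [mon_zero]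
  rw [← this, h, mul_zero]

/-- the linear map with given values on monomials -/
noncomputable def lin {N : Type} [AddCommGroup N] [Module ℂ N] (φ : G → N) : A →ₗ[ℂ] N :=
  (AddMonoidAlgebra.basis G ℂ).constr ℂ φ

lemma lin_mon {N : Type} [AddCommGroup N] [Module ℂ N] (φ : G → N) (m : G) :
    lin φ (mon m) = φ m := (AddMonoidAlgebra.basis G ℂ).constr_basis ℂ φ m

lemma lin_ext {N : Type} [AddCommGroup N] [Module ℂ N] {f g : A →ₗ[ℂ] N}
    (h : ∀ m, f (mon m) = g (mon m)) : f = g := (AddMonoidAlgebra.basis G ℂ).ext h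

lemma ind {p : A → Prop} (f : A) (h0 : p 0) (hm : ∀ m, p (mon m))
    (ha : ∀ a b, p a → p b → p (a + b)) (hs : ∀ (c : ℂ) a, p a → p (c • a)) : p f := by
  induction f using AddMonoidAlgebra.induction_linear with
  | zero => exact h0
  | add a b h1 h2 => exact ha a b h1 h2
  | single m r =>
    have : (AddMonoidAlgebra.single m r : A) = r • mon m := by simp [mon]
    rw [this]; exact hs _ _ (hm m)

noncomputable def lam (q : ℕ → A) : G →+ A := Finsupp.weight (fun n => mon (-e n) * q n)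

lemma lam_single (q : ℕ → A) (n : ℕ) (c : ℤ) :
    lam q (Finsupp.single n c) = c • (mon (-e n) * q n) := by
  simp [lam, Finsupp.weight_apply]

/-- the derivation with `u_n ↦ q n` -/
noncomputable def der (q : ℕ → A) : Derivation ℂ A A :=
  Derivation.mk' (lin fun m => mon m * lam q m) (by
    intro a b
    induction a using ind with
    | h0 => simp
    | ha a a' h h' => rw [add_mul, map_add, h, h', map_add, add_smul, smul_add]; abel
    | hs c a h => rw [smul_mul_assoc, map_smul, h, map_smul]; simp [smul_add]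
    | hm m =>
      induction b using ind with
      | h0 => simp
      | ha a a' h h' => rw [mul_add, map_add, h, h', map_add, add_smul, smul_add]; abel
      | hs c a h => rw [mul_smul_comm, map_smul, h, map_smul]; simp [smul_add]
      | hm m' =>
        rw [← mon_add, lin_mon, lin_mon, lin_mon, mon_add, map_add, smul_eq_mul, smul_eq_mul]
        ring)

lemma der_mon (q : ℕ → A) (m : G) : der q (mon m) = mon m * lam q m := lin_mon _ m

lemma der_x (q : ℕ → A) (n : ℕ) : der q (x n) = q n := by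
  rw [x, der_mon, e, lam_single, one_smul, ← mul_assoc, ← mon_add]; simp [e, mon_zero]

lemma der_mon_sum (q : ℕ → A) (m : G) :
    der q (mon m) = ∑ n ∈ m.support, ((m n : ℤ) : ℂ) • (mon (m - e n) * q n) := by
  rw [der_mon, lam, Finsupp.weight_apply, Finsupp.sum, Finset.mul_sum]
  refine Finset.sum_congr rfl fun n _ => ?_
  rw [sub_eq_add_neg, mon_add, Int.cast_smul_eq_zsmul, mul_smul_comm, mul_assoc]

lemma der_ext {D D' : Derivation ℂ A A} (h : ∀ n, D (x n) = D' (x n)) : D = D' := by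
  have key : ∀ (δ : Derivation ℂ A A), (∀ n, δ (x n) = 0) → ∀ m, δ (mon m) = 0 := by
    intro δ hδ m
    induction m using Finsupp.induction_linear with
    | zero => rw [mon_zero]; exact δ.map_one_eq_zero
    | add a b ha hb => rw [mon_add, δ.leibniz, ha, hb]; simp
    | single n c =>
      have hn : ∀ k : ℕ, δ (mon (Finsupp.single n (k : ℤ))) = 0 := by
        intro k
        have : Finsupp.single n (k : ℤ) = k • e n := by simp [e]
        rw [this, mon_nsmul, δ.leibniz_pow]
        have := hδ n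
        rw [x] at this
        simp [this]
      obtain ⟨k, rfl | rfl⟩ := c.eq_nat_or_neg
      · exact hn k
      · have h1 : mon (Finsupp.single n (k : ℤ)) * mon (Finsupp.single n (-(k : ℤ))) = 1 := by
          rw [← mon_add]; simp [mon_zero]
        have h2 := congrArg δ h1
        rw [δ.leibniz, hn, δ.map_one_eq_zero, smul_zero, add_zero, smul_eq_mul] at h2
        exact mon_mul_eq_zero h2
  have h2 := key (D - D') (fun n => by simp [h n])
  ext1 a
  have h3 : (D - D').toLinearMap = 0 := lin_ext fun m => h2 m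
  have h4 : (D - D') a = 0 := congrArg (fun L : A →ₗ[ℂ] A => L a) h3
  simpa [sub_eq_zero] using h4

lemma eq_der (D : Derivation ℂ A A) : D = der (fun n => D (x n)) :=
  der_ext fun n => by rw [der_x]

/-- partial derivative -/
noncomputable def pd (n : ℕ) : Derivation ℂ A A := der (fun k => if k = n then 1 else 0)

lemma pd_x (n k : ℕ) : pd n (x k) = if k = n then 1 else 0 := der_x _ _

lemma pd_mon (n : ℕ) (m : G) : pd n (mon m) = ((m n : ℤ) : ℂ) • mon (m - e n) := by
  rw [pd, der_mon_sum, Finset.sum_eq_single n]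
  · simp
  · intro k _ hk; simp [hk]
  · intro hn; simp [Finsupp.notMem_support_iff.mp hn]

/-- total derivative -/
noncomputable def Dx : Derivation ℂ A A := der (fun n => x (n + 1))

lemma Dx_x (n : ℕ) : Dx (x n) = x (n + 1) := der_x _ _

/-- iterated total derivative as a linear map -/
noncomputable def Dn (n : ℕ) : A →ₗ[ℂ] A := Dx.toLinearMap ^ n

lemma Dn_zero (f : A) : Dn 0 f = f := rfl
lemma Dn_succ (n : ℕ) (f : A) : Dn (n + 1) f = Dx (Dn n f) := by
  rw [Dn, pow_succ']; rfl
lemma Dn_succ' (n : ℕ) (f : A) : Dn (n + 1) f = Dn n (Dx f) := by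
  rw [Dn, pow_succ]; rfl

lemma Dn_x (n k : ℕ) : Dn n (x k) = x (k + n) := by
  induction n with
  | zero => rfl
  | succ n ih => rw [Dn_succ, ih, Dx_x, add_assoc]

lemma comm_Dn (D : Derivation ℂ A A) (h : ∀ f, D (Dx f) = Dx (D f)) (n : ℕ) (f : A) :
    D (Dn n f) = Dn n (D f) := by
  induction n with
  | zero => rfl
  | succ n ih => rw [Dn_succ, h, ih, Dn_succ]

/-- evolutionary derivation -/
noncomputable def ev (F : A) : Derivation ℂ A A := der (fun n => Dn n F)

lemma ev_x (F : A) (n : ℕ) : ev F (x n) = Dn n F := der_x _ _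

lemma ev_add (F F' : A) : ev (F + F') = ev F + ev F' := der_ext fun n => by simp [ev_x]
lemma ev_smul (c : ℂ) (F : A) : ev (c • F) = c • ev F := der_ext fun n => by simp [ev_x]
lemma ev_sub (F F' : A) : ev (F - F') = ev F - ev F' := der_ext fun n => by simp [ev_x]
lemma ev_zero : ev 0 = 0 := der_ext fun n => by simp [ev_x]

lemma comm_of {D D' D'' : Derivation ℂ A A}
    (h : ∀ n, D (D' (x n)) - D' (D (x n)) = D'' (x n)) (f : A) :
    D (D' f) - D' (D f) = D'' f := by
  have : ⁅D, D'⁆ = D'' := der_ext fun n => by rw [Derivation.commutator_apply, h]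
  rw [← this, Derivation.commutator_apply]

lemma ev_Dx (F f : A) : ev F (Dx f) = Dx (ev F f) := by
  have := comm_of (D := ev F) (D' := Dx) (D'' := 0)
    (fun n => by simp [Dx_x, ev_x, Dn_succ]) f
  simpa [sub_eq_zero] using this

lemma ev_ev (F F' f : A) : ev F (ev F' f) - ev F' (ev F f) = ev (ev F F' - ev F' F) f :=
  comm_of (fun n => by
    simp only [ev_x, comm_Dn _ (ev_Dx F), comm_Dn _ (ev_Dx F'), map_sub]) f

lemma pd_zero_Dx (f : A) : pd 0 (Dx f) = Dx (pd 0 f) := by
  have := comm_of (D := pd 0) (D' := Dx) (D'' := 0)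
    (fun n => by by_cases h : n = 0 <;> simp [Dx_x, pd_x, h]) f
  simpa [sub_eq_zero] using this

lemma pd_succ_Dx (k : ℕ) (f : A) : pd (k + 1) (Dx f) = Dx (pd (k + 1) f) + pd k f := by
  have := comm_of (D := pd (k + 1)) (D' := Dx) (D'' := pd k)
    (fun n => by by_cases h : n = k + 1 <;> simp [Dx_x, pd_x, h]) f
  rw [← this]; abel

lemma pd_pd (i j : ℕ) (f : A) : pd i (pd j f) = pd j (pd i f) := by
  have := comm_of (D := pd i) (D' := pd j) (D'' := 0)
    (fun n => by by_cases h : n = i <;> by_cases h' : n = j <;> simp [pd_x, h, h', apply_ite]) f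
  simpa [sub_eq_zero] using this

lemma pd_zero_ev (F f : A) : pd 0 (ev F f) = ev F (pd 0 f) + ev (pd 0 F) f := by
  have := comm_of (D := pd 0) (D' := ev F) (D'' := ev (pd 0 F))
    (fun n => by
      by_cases h : n = 0 <;> simp [ev_x, pd_x, h, comm_Dn _ pd_zero_Dx]) f
  rw [← this]; abel

lemma ev_x_one : ev (x 1) = Dx := der_ext fun n => by rw [ev_x, Dn_x, Dx_x, add_comm]

lemma ev_one : ev 1 = pd 0 := der_ext fun n => by
  cases n with
  | zero => simp [ev_x, pd_x, Dn_zero]
  | succ n => simp [ev_x, pd_x, Dn_succ']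

/-- the bracket of potentials -/
noncomputable def br : A →ₗ[ℂ] A →ₗ[ℂ] A :=
  LinearMap.mk₂ ℂ (fun P P' => ev (Dx P) P' - ev (Dx P') P)
    (fun a b c => by simp only [map_add, ev_add, Derivation.add_apply]; abel)
    (fun c a b => by simp only [Derivation.map_smul, ev_smul, Derivation.smul_apply, smul_sub])
    (fun a b c => by simp only [map_add, ev_add, Derivation.add_apply]; abel)
    (fun c a b => by simp only [Derivation.map_smul, ev_smul, Derivation.smul_apply, smul_sub])

lemma br_apply (P P' : A) : br P P' = ev (Dx P) P' - ev (Dx P') P := rfl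

lemma br_anti (P P' : A) : br P P' = - br P' P := by simp [br_apply]

lemma Dx_br (P P' : A) : Dx (br P P') = ev (Dx P) (Dx P') - ev (Dx P') (Dx P) := by
  rw [br_apply, map_sub, ev_Dx, ev_Dx]

lemma br_jacobi (a b c : A) : br a (br b c) = br (br a b) c + br b (br a c) := by
  simp only [br_apply a (br b c), br_apply (br a b) c, br_apply b (br a c), Dx_br, ← ev_ev]
  simp only [br_apply, map_sub]
  abel

lemma pd_zero_br (P P' : A) : pd 0 (br P P') = br (pd 0 P) P' + br P (pd 0 P') := by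
  simp only [br_apply, map_sub, pd_zero_ev, pd_zero_Dx]; abel

lemma sum_anti_assoc {M : Type} [AddCommMonoid M] (n : ℕ) (f : ℕ → ℕ → ℕ → M) :
    ∑ p ∈ antidiagonal n, ∑ q ∈ antidiagonal p.1, f q.1 q.2 p.2 =
      ∑ p ∈ antidiagonal n, ∑ q ∈ antidiagonal p.2, f p.1 q.1 q.2 := by
  rw [Finset.sum_sigma', Finset.sum_sigma']
  refine Finset.sum_nbij' (fun s => ⟨(s.2.1, s.2.2 + s.1.2), (s.2.2, s.1.2)⟩)
    (fun s => ⟨(s.1.1 + s.2.1, s.2.2), (s.1.1, s.2.1)⟩) ?_ ?_ ?_ ?_ ?_
  · rintro ⟨⟨a, b⟩, ⟨c, d⟩⟩ h; simp at h ⊢; omega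
  · rintro ⟨⟨a, b⟩, ⟨c, d⟩⟩ h; simp at h ⊢; omega
  · rintro ⟨⟨a, b⟩, ⟨c, d⟩⟩ h; simp at h ⊢; omega
  · rintro ⟨⟨a, b⟩, ⟨c, d⟩⟩ h; simp at h ⊢; omega
  · rintro ⟨⟨a, b⟩, ⟨c, d⟩⟩ _; rfl

lemma sum_anti_succ {M : Type} [AddCommGroup M] [Module ℂ M] (n : ℕ) (f : ℕ → ℕ → M) :
    ((n + 1 : ℕ) : ℂ) • ∑ p ∈ antidiagonal (n + 1), f p.1 p.2 =
      ∑ p ∈ antidiagonal n, ((p.1 + 1 : ℕ) : ℂ) • f (p.1 + 1) p.2 +
      ∑ p ∈ antidiagonal n, ((p.2 + 1 : ℕ) : ℂ) • f p.1 (p.2 + 1) := by
  have h1 : ((n + 1 : ℕ) : ℂ) • ∑ p ∈ antidiagonal (n + 1), f p.1 p.2 =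
      ∑ p ∈ antidiagonal (n + 1), (p.1 : ℂ) • f p.1 p.2 +
      ∑ p ∈ antidiagonal (n + 1), (p.2 : ℂ) • f p.1 p.2 := by
    rw [Finset.smul_sum, ← Finset.sum_add_distrib]
    refine Finset.sum_congr rfl fun p hp => ?_
    rw [← add_smul, ← Nat.cast_add, mem_antidiagonal.mp hp]
  rw [h1, Finset.Nat.sum_antidiagonal_succ, Finset.Nat.sum_antidiagonal_succ']
  simp

/-- Conjugated flows commute. -/
lemma lax (Φ P P' : ℕ → A)
    (hP : ∀ n, ((n + 1 : ℕ) : ℂ) • P (n + 1) = ∑ p ∈ antidiagonal n, br (Φ p.1) (P p.2))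
    (hP' : ∀ n, ((n + 1 : ℕ) : ℂ) • P' (n + 1) = ∑ p ∈ antidiagonal n, br (Φ p.1) (P' p.2))
    (h0 : br (P 0) (P' 0) = 0) (n : ℕ) :
    ∑ p ∈ antidiagonal n, br (P p.1) (P' p.2) = 0 := by
  induction n using Nat.strong_induction_on with
  | _ n ih =>
    cases n with
    | zero => simpa using h0
    | succ n =>
      have h := sum_anti_succ n (fun i j => br (P i) (P' j))
      have e1 : ∑ p ∈ antidiagonal n, ((p.1 + 1 : ℕ) : ℂ) • br (P (p.1 + 1)) (P' p.2) =
          ∑ p ∈ antidiagonal n, ∑ q ∈ antidiagonal p.2, br (br (Φ p.1) (P q.1)) (P' q.2) := by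
        rw [← sum_anti_assoc n (fun a b c => br (br (Φ a) (P b)) (P' c))]
        refine Finset.sum_congr rfl fun p _ => ?_
        rw [← LinearMap.smul_apply, ← map_smul, hP, map_sum, LinearMap.sum_apply]
      have e2 : ∑ p ∈ antidiagonal n, ((p.2 + 1 : ℕ) : ℂ) • br (P p.1) (P' (p.2 + 1)) =
          ∑ p ∈ antidiagonal n, ∑ q ∈ antidiagonal p.2, br (P q.1) (br (Φ p.1) (P' q.2)) := by
        rw [← sum_anti_assoc n (fun a b c => br (P b) (br (Φ a) (P' c)))]
        have : ∀ p : ℕ × ℕ, ∑ q ∈ antidiagonal p.1, br (P q.2) (br (Φ q.1) (P' p.2)) =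
            ∑ q ∈ antidiagonal p.1, br (P q.1) (br (Φ q.2) (P' p.2)) := fun p =>
          (Finset.Nat.sum_antidiagonal_swap
            (f := fun q => br (P q.2) (br (Φ q.1) (P' p.2)))).symm
        simp only [this]
        rw [sum_anti_assoc n (fun a b c => br (P a) (br (Φ b) (P' c)))]
        refine Finset.sum_congr rfl fun p _ => ?_
        rw [← map_smul, hP', map_sum]
      rw [e1, e2, ← Finset.sum_add_distrib] at h
      have e3 : ∑ p ∈ antidiagonal n,
          (∑ q ∈ antidiagonal p.2, br (br (Φ p.1) (P q.1)) (P' q.2) +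
            ∑ q ∈ antidiagonal p.2, br (P q.1) (br (Φ p.1) (P' q.2))) = 0 := by
        refine Finset.sum_eq_zero fun p hp => ?_
        rw [← Finset.sum_add_distrib]
        simp only [← br_jacobi]
        rw [← map_sum, ih p.2 (by have := mem_antidiagonal.mp hp; omega), map_zero]
      rw [e3] at h
      exact (smul_eq_zero.mp h).resolve_left (by exact_mod_cast Nat.succ_ne_zero n)

end Pool.Agent.Lib.MP_4b14b2_mp.Lau
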