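import Pool.Agent.Lib.MP_4b14b2_mp.HNonEq

/-! The Hamiltonian deformation with first term u_2^9 is not Miura trivial. -/

namespace Pool.Agent.Lib.MP_4b14b2_mp.Lau

open Finset

/-- potentials of the Riemann hierarchy itself -/
noncomputable def PR (j d : ℕ) : A := if j = 0 then F d else 0

lemma PR_zero (d : ℕ) : PR 0 d = F d := if_pos rfl

lemma good_PR (j : ℕ) : Good j (PR j) := by
  by_cases h : j = 0
  · subst h; rw [show PR 0 = F from funext PR_zero]; exact good_zero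
  · rw [show PR j = fun _ => 0 from funext fun d => if_neg h]
    exact ⟨fun _ => zero_mem _, fun _ => zero_mem _, fun _ => map_zero _, fun _ => map_zero _,
      fun _ => ⟨rfl, rfl⟩⟩

lemma PR_comm (d d' n : ℕ) : ∑ p ∈ antidiagonal n, br (PR p.1 d) (PR p.2 d') = 0 :=
  Finset.sum_eq_zero fun p _ => by
    unfold PR
    split_ifs
    · exact br_F_F d d'
    all_goals simp

lemma good_PP (j : ℕ) : Good j (PP j) := (spec_good j).1

lemma coeff_QQ_small (P : ℕ → ℕ → A) (k : ℕ) (h0 : 0 < k) (h1 : k < 18) :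
    PowerSeries.coeff k (QQ P 1) = 0 := by
  rw [QQ, coeff_Sr, if_neg (by omega)]

lemma coeff_zero_QQ_one {P : ℕ → ℕ → A} (h0 : ∀ d, P 0 d = F d) :
    PowerSeries.coeff 0 (QQ P 1) = u * MvPolynomial.X 0 := by
  rw [coeff_zero_QQ h0]; simp

lemma coeff_PR : PowerSeries.coeff 18 (QQ PR 1) = 0 := by
  rw [QQ, coeff_Sr, if_pos (dvd_refl _)]; simp [PR]

lemma x2_V (k : ℕ) : x 2 ^ k ∈ Supp (V 3) := by
  rw [x, ← mon_nsmul]
  exact mon_mem fun n hn => by
    have : ¬ (2 = n) := by omega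
    simp [e_apply, this]

lemma x2_fr (k : ℕ) : x 2 ^ k ∈ Supp fr := by
  rw [x, ← mon_nsmul]
  refine mon_mem ⟨fun n _ => ?_, by simp [e_apply], by simp [e_apply]⟩
  simp only [Finsupp.smul_apply, e_apply]; split_ifs <;> simp

lemma E_x2 : E (x 2 ^ 9) = (9 : ℂ) • Dn 2 (x 2 ^ 8) := by
  rw [E_eq_sum (x2_V 9)]
  simp only [Finset.sum_range_succ, Finset.sum_range_zero, Derivation.leibniz_pow, pd_x]
  simp [← Nat.cast_smul_eq_nsmul ℂ]

lemma coeff_PP : PowerSeries.coeff 18 (QQ PP 1) = tau ((-225 : ℂ) • Dn 3 (x 2 ^ 8)) := by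
  rw [QQ, coeff_Sr, if_pos (dvd_refl _), Nat.div_self (by omega), PP_one_two, E_x2, smul_smul,
    Derivation.map_smul, ← Dn_succ]
  norm_num

lemma W_fr : (-225 : ℂ) • Dn 3 (x 2 ^ 8) ∈ Supp fr :=
  Submodule.smul_mem _ _ (Dx_fr (Dx_fr (Dx_fr (x2_fr 8))))

lemma coeff_PP_ne : PowerSeries.coeff 18 (QQ PP 1) ≠ 0 := by
  rw [coeff_PP]
  intro h
  have h1 := tau_pd_succ (Supp_mono W_fr fun _ h => h.1) 4
  rw [h, map_zero, Derivation.map_smul, show 4 + 1 = 2 + 3 by rfl, pd_Dn_top (x2_V 8),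
    Derivation.leibniz_pow, pd_x, if_pos rfl, smul_eq_mul, mul_one, ← Nat.cast_smul_eq_nsmul ℂ,
    map_smul, map_smul, ← iot_X, ← map_pow, tau_iot, map_pow, kap, MvPolynomial.aeval_X,
    smul_smul] at h1
  rcases smul_eq_zero.mp h1 with h2 | h2
  · norm_num at h2
  · exact MvPolynomial.X_ne_zero 1 (pow_eq_zero_iff (by omega) |>.mp h2)

theorem not_equiv : ¬ MiuraEquivalent (QQ PP) (QQ PR) := by
  have hW : (PowerSeries.coeff 18 (QQ PP 1)).IsWeightedHomogeneous (Pi.single 0 1) 0 := by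
    rw [coeff_PP]; exact tau_fr W_fr
  rintro ⟨v, hv, h | h⟩
  · refine coeff_PP_ne ?_
    rw [first_term_invariant _ _ v 18 (by omega) hv (coeff_zero_QQ_one PP_zero)
      (coeff_zero_QQ_one PR_zero) (coeff_QQ_small _) (coeff_QQ_small _)
      (by rw [coeff_PR, zero_sub]; exact hW.neg) (h 1), coeff_PR]
  · refine coeff_PP_ne ?_
    rw [← first_term_invariant _ _ v 18 (by omega) hv (coeff_zero_QQ_one PR_zero)
      (coeff_zero_QQ_one PP_zero) (coeff_QQ_small _) (coeff_QQ_small _)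
      (by rw [coeff_PR, sub_zero]; exact hW) (h 1), coeff_PR]

end Pool.Agent.Lib.MP_4b14b2_mp.Lau
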