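import Pool.Agent.Lib.MP_4b14b2_mp.HTransfer

/-! The first deformation term without u_1 is a Miura invariant. -/

namespace Pool.Agent.Lib.MP_4b14b2_mp.Lau

open Finset MvPolynomial

/-- exponents without u and u_1 -/
def fr (m : G) : Prop := nn m ∧ m 0 = 0 ∧ m 1 = 0

lemma Dx_fr {f : A} (hf : f ∈ Supp fr) : Dx f ∈ Supp fr :=
  Dx_mem hf fun m n hm hn => by
    have h0 : n ≠ 0 := fun h => hn (h ▸ hm.2.1)
    have h1 : n ≠ 1 := fun h => hn (h ▸ hm.2.2)
    exact ⟨ok_add (ok_sub hm.1 hn) (ok_e _ _), by simp [e_apply, h0, hm.2.1],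
      by simp [e_apply, h0, h1, hm.2.2]⟩

lemma mul_fr {f g : A} (hf : f ∈ Supp fr) (hg : g ∈ Supp fr) : f * g ∈ Supp fr :=
  mul_mem hf hg fun _ _ h h' => ⟨ok_add h.1 h'.1, by simp [h.2.1, h'.2.1], by simp [h.2.2, h'.2.2]⟩

lemma x_fr (n : ℕ) : x (n + 2) ∈ Supp fr :=
  mon_mem ⟨ok_e _ _, by simp [e_apply], by simp [e_apply]⟩

lemma tau_fr {f : A} (hf : f ∈ Supp fr) : (tau f).IsWeightedHomogeneous (Pi.single 0 1) 0 :=
  tau_whom _ 0 (Supp_mono hf fun _ h => h.1) (Supp_mono hf fun m h => by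
    rw [weight_wext_u1, h.2.2]; rfl)

lemma pd_F_two : pd 0 (F 2) = x 0 := by rw [pd_F_succ, F_one]

lemma T_two_rest (i : ℕ) : T 2 (x (i + 2)) - ((i + 3 : ℕ) : ℂ) • (x 1 * x (i + 2)) ∈ Supp fr := by
  induction i with
  | zero =>
    have : T 2 (x (0 + 2)) - ((0 + 3 : ℕ) : ℂ) • (x 1 * x (0 + 2)) = 0 := by
      rw [zero_add, T_x2, pd_F_two, Nat.cast_smul_eq_nsmul]; simp [pd_x]; ring
    rw [this]; exact zero_mem _
  | succ i ih =>
    have h1 : T 2 (x (i + 1 + 2)) = Dx (T 2 (x (i + 2))) + x 1 * x (i + 1 + 2) := by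
      rw [T_x, T_x, pd_F_two, map_sub, Derivation.leibniz, Dx_x, Dx_x, ← Dn_succ]
      simp only [smul_eq_mul]; ring
    have h2 := add_mem (Dx_fr ih) (Submodule.smul_mem _ ((i + 3 : ℕ) : ℂ) (mul_fr (x_fr 0) (x_fr i)))
    convert h2 using 1
    rw [h1, map_sub, Derivation.map_smul, Derivation.leibniz, Dx_x, Dx_x]
    simp only [smul_eq_mul, Nat.cast_smul_eq_nsmul, nsmul_eq_mul]
    push_cast; ring

/-- eigenvalues of the diagonal part -/
def aw : ℕ → ℕ
  | 0 => 1
  | i + 1 => i + 3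

lemma exists_rho : ∃ ρ : ℕ → DPoly, ∀ i, (ρ i).IsWeightedHomogeneous (Pi.single 0 1) 0 ∧
    dx^[i + 1] (u * X 0) = u * X (i + 1) + X 0 * ((aw i : DPoly) * X i) + ρ i := by
  have h1 : ∀ i, tau (T 2 (x (i + 1))) = dx^[i + 1] (u * X 0) - u * X (i + 1) := by
    intro i
    rw [T_x, pd_F_two, map_sub, Dn_succ', Dx_Uo (F_Uo 2), pd_F_two,
      tau_Dn (mul_ok (x_ok _ _) (x_ok _ _)), tau_mul (x_ok _ _) (x_ok _ _),
      tau_mul (x_ok _ _) (x_ok _ _), tau_x, tau_x, tau_x]
    rfl
  refine ⟨fun i => tau (T 2 (x (i + 1)) - ((aw i : ℕ) : ℂ) • (x 1 * x (i + 1))), fun i => ⟨?_, ?_⟩⟩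
  · cases i with
    | zero =>
      have : T 2 (x (0 + 1)) - ((aw 0 : ℕ) : ℂ) • (x 1 * x (0 + 1)) = 0 := by
        rw [zero_add, T_x1, pd_F_two]; simp [pd_x, aw, pow_two]
      simp only [this, map_zero]
      exact isWeightedHomogeneous_zero _ _ _
    | succ i => exact tau_fr (T_two_rest i)
  · simp only
    rw [map_sub, h1, map_smul, tau_mul (x_ok _ _) (x_ok _ _), tau_x, tau_x, var, var,
      Nat.cast_smul_eq_nsmul, nsmul_eq_mul]
    ring

/-- the linearised operator of the Hopf flow -/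
noncomputable def Lam (f : DPoly) : DPoly := DD (u * X 0) f - (u * dx f + f * X 0)

lemma lam_inj {f : DPoly} {k : ℕ} (hf : HasDeg f k) (hk : 2 ≤ k)
    (h : (Lam f).IsWeightedHomogeneous (Pi.single 0 1) 0) : f = 0 := by
  classical
  obtain ⟨ρ, hρ⟩ := exists_rho
  by_contra hne
  obtain ⟨μ, hμ, hmax⟩ := Finset.exists_max_image f.support (fun m => m 0)
    (support_nonempty.mpr hne)
  have e1 : Lam f = X 0 * (∑ i ∈ f.vars, (aw i : DPoly) * (X i * pderiv i f) - f) +
      ∑ i ∈ f.vars, ρ i * pderiv i f := by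
    simp only [Lam, DD, gen, dx, RingHom.id_apply, Function.iterate_zero, id, (hρ _).2, add_mul,
      Finset.sum_add_distrib, mul_add, mul_sub, Finset.mul_sum, mul_assoc]
    ring
  have h0 := h.coeff_eq_zero (Finsupp.single 0 1 + μ) (by
    rw [Finsupp.weight_single_one_apply]; simp)
  have h1 : ∀ i, coeff (Finsupp.single 0 1 + μ) (ρ i * pderiv i f) = 0 := by
    intro i
    rw [coeff_mul]
    refine Finset.sum_eq_zero fun p hp => ?_
    by_cases ha : coeff p.1 (ρ i) = 0
    · rw [ha, zero_mul]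
    · have h2 := (hρ i).1 ha
      rw [Finsupp.weight_single_one_apply] at h2
      have h3 := DFunLike.congr_fun (mem_antidiagonal.mp hp) 0
      simp only [Finsupp.add_apply, Finsupp.single_eq_same] at h3
      have h4 : coeff (p.2 + Finsupp.single i 1) f = 0 := by
        by_contra h5
        have := hmax _ (mem_support_iff.mpr h5)
        simp only [Finsupp.add_apply] at this
        omega
      rw [coeff_pderiv, h4, zero_mul, mul_zero]
  have h2 : ∀ i, coeff μ ((aw i : DPoly) * (X i * pderiv i f)) =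
      ((aw i * μ i : ℕ) : PowerSeries ℂ) * coeff μ f := by
    intro i
    rw [← nsmul_eq_mul, coeff_smul, coeff_X_mul', nsmul_eq_mul]
    split_ifs with hi
    · have hi' := Finsupp.mem_support_iff.mp hi
      rw [coeff_pderiv, tsub_add_cancel_of_le (Finsupp.single_le_iff.mpr (by omega)),
        Finsupp.tsub_apply, Finsupp.single_eq_same]
      obtain ⟨j, hj⟩ := Nat.exists_eq_succ_of_ne_zero hi'
      rw [hj]; simp; ring
    · simp [Finsupp.notMem_support_iff.mp hi]
  rw [e1, coeff_add, coeff_X_mul, coeff_sub, coeff_sum, coeff_sum] at h0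
  simp only [h1, h2, Finset.sum_const_zero, add_zero] at h0
  rw [← Finset.sum_mul, ← Nat.cast_sum, ← sub_one_mul] at h0
  have h3 := (mul_eq_zero.mp h0).resolve_right (mem_support_iff.mp hμ)
  have h4 : ∑ i ∈ f.vars, aw i * μ i = 1 := by
    have := congrArg PowerSeries.constantCoeff (sub_eq_zero.mp h3)
    rw [map_natCast, map_one] at this
    exact_mod_cast this
  have h5 : Finsupp.weight (fun i => i + 1) μ = k := hf (mem_support_iff.mp hμ)
  have h6 : k ≤ ∑ i ∈ f.vars, aw i * μ i := by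
    rw [← h5, Finsupp.weight_apply, Finsupp.sum]
    refine le_trans (Finset.sum_le_sum fun i _ => ?_)
      (Finset.sum_le_sum_of_subset fun i hi => (mem_vars_iff_mem_support i).mpr ⟨μ, hμ, hi⟩)
    rw [smul_eq_mul, mul_comm]
    exact Nat.mul_le_mul_right _ (by cases i <;> simp [aw])
  omega

lemma dx_sub (f g : DPoly) : dx (f - g) = dx f - dx g :=
  (AddMonoidHom.mk' dx dx_add).map_sub f g

lemma DD_sub (q f g : DPoly) : DD q (f - g) = DD q f - DD q g :=
  (AddMonoidHom.mk' (DD q) (DD_add q)).map_sub f g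

lemma DD_sum {ι : Type} (q : DPoly) (s : Finset ι) (f : ι → DPoly) :
    DD q (∑ i ∈ s, f i) = ∑ i ∈ s, DD q (f i) := map_sum (AddMonoidHom.mk' (DD q) (DD_add q)) f s

lemma smul_eq_C (c : ℂ) (f : DPoly) : c • f = C (PowerSeries.C c) * f := by
  rw [Algebra.smul_def]; rfl

lemma DD_smul (q : DPoly) (c : ℂ) (f : DPoly) : DD q (c • f) = c • DD q f := by
  rw [smul_eq_C, smul_eq_C, DD_mul, DD_C]; simp

lemma dx_smul (c : ℂ) (f : DPoly) : dx (c • f) = c • dx f := by
  rw [smul_eq_C, smul_eq_C, dx_mul, dx_C]; simp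

lemma DD_X (q : DPoly) (i : ℕ) : DD q (X i) = dx^[i + 1] q := gen_X _ _ _

lemma DD_dx (q f : DPoly) : DD q (dx f) = dx (DD q f) := by
  have := congrArg (PowerSeries.coeff 0) (flowPoly_dx (PowerSeries.C q) f)
  rwa [coeff_dxS, coeff_flowPoly, coeff_flowPoly, PowerSeries.coeff_zero_C] at this

lemma DD_dx_iter (q f : DPoly) (k : ℕ) : DD q (dx^[k] f) = dx^[k] (DD q f) := by
  induction k with
  | zero => rfl
  | succ k ih => rw [Function.iterate_succ_apply', DD_dx, ih, Function.iterate_succ_apply']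

lemma DD_comm {q q' : DPoly} (h : DD q q' = DD q' q) (f : DPoly) :
    DD q (DD q' f) = DD q' (DD q f) := by
  induction f using MvPolynomial.induction_on with
  | C a => simp only [DD_C, DD_mul, h]; ring
  | add p r hp hr => simp only [DD_add, hp, hr]
  | mul_X p n hp => simp only [DD_mul, DD_add, DD_X, DD_dx_iter, hp, h]; ring

lemma hasDeg_DD {q f : DPoly} {a : ℕ} (hq : HasDeg q 1) (hf : HasDeg f a) :
    HasDeg (DD q f) (a + 1) := by
  classical
  unfold DD gen
  refine HasDeg.add ?_ (HasDeg.sum _ _ _ fun i hi => ?_)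
  · have := hq.mul hf.du
    rwa [add_comm] at this
  · obtain ⟨m, hm, him⟩ := (mem_vars_iff_mem_support i).mp hi
    have hw : Finsupp.weight (fun i => i + 1) m = a := hf (mem_support_iff.mp hm)
    have hle : i + 1 ≤ a := by
      rw [← hw]
      exact Finsupp.le_weight_of_ne_zero' (fun i => i + 1) (Finsupp.mem_support_iff.mp him)
    obtain ⟨n', hn'⟩ := Nat.exists_eq_add_of_le' hle
    have h1 : HasDeg (pderiv i f) n' := IsWeightedHomogeneous.pderiv hf hn'.symm
    have := (hq.dx_iter (i + 1)).mul h1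
    rwa [show i + 1 + 1 + n' = a + 1 by omega] at this

/-- coefficients of the flow of the symmetry a(u) u_x -/
noncomputable def ww (a : PowerSeries ℂ) : ℕ → DPoly
  | 0 => u
  | n + 1 => ((n + 1 : ℕ) : ℂ)⁻¹ • DD (C a * X 0) (ww a n)

lemma ww_succ (a : PowerSeries ℂ) (n : ℕ) :
    ((n + 1 : ℕ) : ℂ) • ww a (n + 1) = DD (C a * X 0) (ww a n) := by
  rw [ww, smul_smul, mul_inv_cancel₀ (by exact_mod_cast Nat.succ_ne_zero n), one_smul]

lemma ww_deg (a : PowerSeries ℂ) (n : ℕ) : HasDeg (ww a n) n := by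
  induction n with
  | zero => exact hasDeg_C _
  | succ n ih =>
    rw [ww, smul_eq_C]
    exact IsWeightedHomogeneous.C_mul (hasDeg_DD ((hasDeg_C a).mul (hasDeg_X 0)) ih) _

lemma ww_eq (a : PowerSeries ℂ) (n : ℕ) :
    DD (u * X 0) (ww a n) = ∑ p ∈ antidiagonal n, ww a p.1 * dx (ww a p.2) := by
  have hc : DD (C a * X 0) (u * X 0) = DD (u * X 0) (C a * X 0) := by
    simp only [DD_mul, DD_C, DD_u, DD_X0, dx_mul, dx_C, dx_X, dx_u]; ring
  induction n with
  | zero => simp [ww, DD_u, dx_u]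
  | succ n ih =>
    have hn : ((n + 1 : ℕ) : ℂ) ≠ 0 := by exact_mod_cast Nat.succ_ne_zero n
    refine smul_right_injective _ hn ?_
    simp only
    rw [sum_anti_succ n fun i j => ww a i * dx (ww a j), ← DD_smul, ww_succ, ← DD_comm hc, ih,
      DD_sum, ← Finset.sum_add_distrib]
    refine Finset.sum_congr rfl fun p _ => ?_
    rw [DD_mul, ← smul_mul_assoc, ww_succ, ← mul_smul_comm, ← dx_smul, ww_succ, DD_dx]

lemma coeff_zero_substPoly {v : DSeries} (hv : PowerSeries.coeff 0 v = u) (f : DPoly) :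
    PowerSeries.coeff 0 (substPoly v f) = f := by
  have h1 : ∀ i, dx^[i + 1] u = X i := by
    intro i
    induction i with
    | zero => exact dx_u
    | succ i ih => rw [Function.iterate_succ_apply', ih, dx_X]
  conv_rhs => rw [f.as_sum]
  rw [substPoly, map_sum]
  refine Finset.sum_congr rfl fun m _ => ?_
  rw [PowerSeries.coeff_zero_eq_constantCoeff, map_mul, map_prod, monomial_eq, Finsupp.prod]
  congr 1
  · rw [← PowerSeries.coeff_zero_eq_constantCoeff]; simp [substCoef]
  · refine Finset.prod_congr rfl fun i _ => ?_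
    rw [map_pow, ← PowerSeries.coeff_zero_eq_constantCoeff, coeff_dxS_iter, hv, h1]

lemma diff_sum (v w : ℕ → DPoly) (n : ℕ) (hn : n ≠ 0) (h0 : w 0 = u) (h : ∀ i, i < n → v i = w i) :
    ∑ p ∈ antidiagonal n, v p.1 * dx (v p.2) - ∑ p ∈ antidiagonal n, w p.1 * dx (w p.2) =
      u * dx (v n - w n) + (v n - w n) * X 0 := by
  rw [← Finset.sum_sub_distrib, Finset.sum_eq_add_of_mem (0, n) (n, 0) (by simp) (by simp)
    (by simp [hn.symm])]
  · simp only [h 0 (by omega), h0, dx_sub, dx_u]; ring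
  · intro p hp hne
    have h1 := mem_antidiagonal.mp hp
    have h2 : p.1 ≠ 0 := fun h2 => hne.1 (Prod.ext h2 (by simp only; omega))
    have h3 : p.2 ≠ 0 := fun h3 => hne.2 (Prod.ext (by simp only; omega) h3)
    rw [h p.1 (by omega), h p.2 (by omega), sub_self]

theorem first_term_invariant (Q Q' v : DSeries) (N : ℕ) (hN : 2 ≤ N) (hv : IsMiura v)
    (h0 : PowerSeries.coeff 0 Q = u * X 0) (h0' : PowerSeries.coeff 0 Q' = u * X 0)
    (h1 : ∀ k, 0 < k → k < N → PowerSeries.coeff k Q = 0)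
    (h1' : ∀ k, 0 < k → k < N → PowerSeries.coeff k Q' = 0)
    (hW : (PowerSeries.coeff N Q' - PowerSeries.coeff N Q).IsWeightedHomogeneous (Pi.single 0 1) 0)
    (h : flow Q v = subst v Q') : PowerSeries.coeff N Q = PowerSeries.coeff N Q' := by
  obtain ⟨hdeg, v0⟩ := hv
  obtain ⟨a, v1⟩ := class1 _ (hdeg 1)
  have hs : ∀ n, PowerSeries.coeff n (substPoly v (u * X 0)) =
      ∑ p ∈ antidiagonal n, PowerSeries.coeff p.1 v * dx (PowerSeries.coeff p.2 v) := fun n => by
    rw [substPoly_0 v v0, PowerSeries.coeff_mul]; simp only [coeff_dxS]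
  have hz : substPoly v 0 = 0 := by simp [substPoly]
  have key : ∀ n, n < N → PowerSeries.coeff n v = ww a n := by
    intro n
    induction n using Nat.strong_induction_on with
    | _ n ih =>
      intro hn
      rcases n with _ | _ | n
      · exact v0
      · rw [v1]; simp [ww, DD_u]
      · have E := congrArg (PowerSeries.coeff (n + 1 + 1)) h
        rw [coeff_flow, coeff_subst, Finset.sum_eq_single_of_mem (n + 1 + 1, 0) (by simp),
          Finset.sum_eq_single_of_mem (0, n + 1 + 1) (by simp), coeff_flowPoly, h0, h0', hs] at E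
        · have hd := diff_sum (fun i => PowerSeries.coeff i v) (ww a) (n + 1 + 1) (by omega) rfl
            fun i hi => ih i hi (by omega)
          refine sub_eq_zero.mp (lam_inj (k := n + 1 + 1)
            (IsWeightedHomogeneous.sub (hdeg _) (ww_deg a _)) (by omega) ?_)
          rw [Lam, DD_sub, E, ww_eq, hd, sub_self]
          exact isWeightedHomogeneous_zero _ _ _
        · intro p hp hne
          have h2 := mem_antidiagonal.mp hp
          have h3 : p.1 ≠ 0 := fun h3 => hne (Prod.ext h3 (by simp only; omega))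
          rw [h1' p.1 (by omega) (by omega), hz, map_zero]
        · intro p hp hne
          have h2 := mem_antidiagonal.mp hp
          have h3 : p.2 ≠ 0 := fun h3 => hne (Prod.ext (by simp only; omega) h3)
          rw [coeff_flowPoly, h1 p.2 (by omega) (by omega), DD_zero_left]
  have E := congrArg (PowerSeries.coeff N) h
  have hN0 : N ≠ 0 := by omega
  rw [coeff_flow, coeff_subst,
    Finset.sum_eq_add_of_mem (N, 0) (0, N) (by simp) (by simp) (by simp [hN0]),
    Finset.sum_eq_add_of_mem (0, N) (N, 0) (by simp) (by simp) (by simp [hN0.symm]),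
    coeff_flowPoly, coeff_flowPoly, h0, h0', hs, v0, DD_u, coeff_zero_substPoly v0] at E
  · have hd := diff_sum (fun i => PowerSeries.coeff i v) (ww a) N hN0 rfl key
    have hL : Lam (PowerSeries.coeff N v - ww a N) =
        PowerSeries.coeff N Q' - PowerSeries.coeff N Q := by
      rw [Lam, DD_sub, ww_eq, ← hd]; linear_combination E
    have hf := lam_inj (k := N) (IsWeightedHomogeneous.sub (hdeg _) (ww_deg a _)) hN (hL ▸ hW)
    rw [hf, Lam, DD_zero_right, dx_zero] at hL
    linear_combination hL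
  · intro p hp hne
    have h2 := mem_antidiagonal.mp hp
    have h3 : p.1 ≠ 0 := fun h3 => hne.1 (Prod.ext h3 (by simp only; omega))
    have h4 : p.2 ≠ 0 := fun h4 => hne.2 (Prod.ext (by simp only; omega) h4)
    rw [h1' p.1 (by omega) (by omega), hz, map_zero]
  · intro p hp hne
    have h2 := mem_antidiagonal.mp hp
    have h3 : p.1 ≠ 0 := fun h3 => hne.2 (Prod.ext h3 (by simp only; omega))
    have h4 : p.2 ≠ 0 := fun h4 => hne.1 (Prod.ext (by simp only; omega) h4)
    rw [coeff_flowPoly, h1 p.2 (by omega) (by omega), DD_zero_left]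

end Pool.Agent.Lib.MP_4b14b2_mp.Lau
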