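import Pool.Agent.Lib.MP_4b14b2_mp.HSupp

/-! Vanishing of the first cohomology of a commuting family on polar parts (stable range). -/

namespace Pool.Agent.Lib.MP_4b14b2_mp.Lau

open Finset

lemma pd_diag (n : ℕ) (φ : G → ℂ) (f : A) :
    pd n (diag φ f) = diag (fun m => φ (m + e n)) (pd n f) := by
  have : (pd n).toLinearMap.comp (diag φ) = (diag fun m => φ (m + e n)).comp (pd n).toLinearMap :=
    lin_ext fun m => by
      rw [LinearMap.comp_apply, LinearMap.comp_apply, Derivation.coeFn_coe]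
      rw [diag_mon, Derivation.map_smul, pd_mon, map_smul, diag_mon, sub_add_cancel, smul_comm]
  exact LinearMap.congr_fun this f

lemma diag_diag (φ ψ : G → ℂ) (f : A) : diag φ (diag ψ f) = diag (fun m => φ m * ψ m) f := by
  ext m; simp [coeff_diag, mul_assoc]

/-- polynomial Poincaré lemma in the variables u_3, u_5, ... -/
lemma closed_exact (z : ℕ → A) (D : ℕ) (p : G → Prop) (hz : ∀ d, 2 ≤ d → z d ∈ Supp bb)
    (hp : ∀ d, 2 ≤ d → x (2 * d - 1) * z d ∈ Supp p)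
    (hD : ∀ d, D ≤ d → 2 ≤ d → z d = 0)
    (hc : ∀ d d', 2 ≤ d → 2 ≤ d' → pd (2 * d - 1) (z d') = pd (2 * d' - 1) (z d)) :
    ∃ Ψ ∈ Supp p, ∀ d, 2 ≤ d → pd (2 * d - 1) Ψ = z d := by
  let o : G → ℂ := fun m => ∑ d ∈ Ico 2 D, ((m (2 * d - 1) : ℤ) : ℂ)
  refine ⟨diag (fun m => (o m)⁻¹) (∑ d ∈ Ico 2 D, x (2 * d - 1) * z d),
    Supp_mono (diag_mem _ (Submodule.sum_mem _ fun d hd => hp d (mem_Ico.mp hd).1))
      fun _ h => h.1, fun d hd => ?_⟩
  have h1 : pd (2 * d - 1) (∑ d' ∈ Ico 2 D, x (2 * d' - 1) * z d') =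
      (if d ∈ Ico 2 D then z d else 0) + diag o (z d) := by
    have h2 : diag o (z d) = ∑ d' ∈ Ico 2 D, x (2 * d' - 1) * pd (2 * d' - 1) (z d) := by
      simp only [pd_eq_diag]
      ext m
      simp [coeff_diag, o, Finset.sum_mul]
    rw [map_sum, h2, ← Finset.sum_ite_eq (Ico 2 D) d z, ← Finset.sum_add_distrib]
    refine Finset.sum_congr rfl fun d' hd' => ?_
    have hd2 := (mem_Ico.mp hd').1
    rw [Derivation.leibniz, pd_x, hc d d' hd hd2, smul_eq_mul, smul_eq_mul, add_comm]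
    congr 1
    by_cases h : d = d'
    · simp [h]
    · rw [if_neg h, if_neg (by omega), mul_zero]
  rw [pd_diag, h1]
  by_cases hdD : d ∈ Ico 2 D
  · rw [if_pos hdD]
    have h3 : z d + diag o (z d) = diag (fun m => o m + 1) (z d) := by
      ext m; simp [coeff_diag]; ring
    have h4 : ∀ m : G, o (m + e (2 * d - 1)) = o m + 1 := by
      intro m
      simp only [o, Finsupp.add_apply, Int.cast_add, Finset.sum_add_distrib]
      congr 1
      rw [Finset.sum_eq_single d]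
      · simp [e_apply]
      · intro d' hd' hne
        have := (mem_Ico.mp hd').1
        rw [e_apply, if_neg (by omega)]; simp
      · intro h; exact absurd hdD h
    rw [h3, diag_diag, diag_const _ 1 (hz d hd), one_smul]
    intro m hm
    rw [h4]
    refine inv_mul_cancel₀ ?_
    have h5 : (0 : ℤ) ≤ ∑ d ∈ Ico 2 D, m (2 * d - 1) :=
      Finset.sum_nonneg fun d' hd' => hm _ (by have := (mem_Ico.mp hd').1; omega)
    have h6 : o m + 1 = ((∑ d ∈ Ico 2 D, m (2 * d - 1) + 1 : ℤ) : ℂ) := by simp [o]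
    rw [h6]
    exact_mod_cast (by omega : ∑ d ∈ Ico 2 D, m (2 * d - 1) + 1 ≠ 0)
  · rw [hD d (by rw [mem_Ico] at hdD; omega) hd]; simp

/-- the top part c u_2^d ∂/∂u_(2d-1) -/
noncomputable def Mn (c : ℂ) (d : ℕ) : A →ₗ[ℂ] A :=
  c • (LinearMap.mulLeft ℂ (mon (d • e 2))).comp (pd (2 * d - 1)).toLinearMap

lemma Mn_apply (c : ℂ) (d : ℕ) (f : A) : Mn c d f = c • (mon (d • e 2) * pd (2 * d - 1) f) := rfl

structure Fam (O : ℕ → A →ₗ[ℂ] A) (c : ℕ → ℂ) : Prop where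
  c_ne : ∀ d, 2 ≤ d → c d ≠ 0
  nn : ∀ d f, f ∈ Supp nn → O d f ∈ Supp nn
  bb : ∀ d f, f ∈ Supp bb → O d f ∈ Supp bb
  hom : ∀ (d : ℕ) k l f, f ∈ Supp (hom k l) → O d f ∈ Supp (hom (k + 1) (l + d - 1))
  top : ∀ d : ℕ, 2 ≤ d → ∀ m : G,
    O d (mon m) - Mn (c d) d (mon m) ∈ Supp (fun m' => m 0 ≤ m' 0 ∧ m' 2 < m 2 + d)
  comm : ∀ d d' f, O d (O d' f) = O d' (O d f)

def Zt (t : ℤ) (m : G) : Prop := m 0 = 0 ∧ m 1 < 0 ∧ m 2 = t
def Lo (t : ℤ) (m : G) : Prop := m 0 = 0 → m 1 < 0 → m 2 < t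

lemma Mn_mon_mem (c : ℂ) {d : ℕ} (hd : 2 ≤ d) (m : G) :
    Mn c d (mon m) ∈ Supp (fun m' => m' 0 = m 0 ∧ m' 1 = m 1 ∧ m' 2 = m 2 + d) := by
  rw [Mn_apply]
  refine Submodule.smul_mem _ _ (mon_mul_mem _ (pd_mem (p := fun m' => m' = m)
    (r := fun m' => m' = m - e (2 * d - 1)) _ (mon_mem rfl) fun _ h _ => by rw [h]) ?_)
  rintro _ rfl
  have h0 : ¬ (2 * d - 1 = 0) := by omega
  have h1 : ¬ (2 * d - 1 = 1) := by omega
  have h2 : ¬ (2 * d - 1 = 2) := by omega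
  simp [e_apply, h0, h1, h2, add_comm]

lemma nn_of_bb {m : G} (hm : bb m) (h1 : 0 ≤ m 1) : nn m := fun n _ => by
  by_cases h : n = 1
  · exact h ▸ h1
  · exact hm n h

variable {O : ℕ → A →ₗ[ℂ] A} {c : ℕ → ℂ}

lemma Fam.mon_mem (H : Fam O c) {d : ℕ} (hd : 2 ≤ d) (m : G) :
    O d (mon m) ∈ Supp (fun m' => m 0 ≤ m' 0 ∧ m' 2 ≤ m 2 + d) := by
  have h := add_mem (Supp_mono (r := fun m' => m 0 ≤ m' 0 ∧ m' 2 ≤ m 2 + d) (H.top d hd m)
    fun _ h => ⟨h.1, h.2.le⟩)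
    (Supp_mono (Mn_mon_mem (c d) hd m) fun _ h => ⟨h.1.ge, h.2.2.le⟩)
  rwa [sub_add_cancel] at h

lemma Fam.lo (H : Fam O c) {d : ℕ} (hd : 2 ≤ d) {t : ℤ} {f : A} (hb : f ∈ Supp Lau.bb)
    (hf : f ∈ Supp (Lo t)) : O d f ∈ Supp (Lo (t + d)) := by
  refine Supp_ind (Supp_and hb hf) (O d) _ fun m hm => ?_
  by_cases h1 : 0 ≤ m 1
  · exact Supp_mono (H.nn d _ (Lau.mon_mem (nn_of_bb hm.1 h1))) fun m' h _ h2 =>
      absurd (h 1 trivial) (by omega)
  · refine Supp_mono (H.mon_mem hd m) fun m' h h0 _ => ?_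
    have := hm.1 0 (by omega)
    have := hm.2 (by omega) (by omega)
    omega

lemma Fam.comp_top (H : Fam O c) {d : ℕ} (hd : 2 ≤ d) {t : ℤ} {f : A} (hb : f ∈ Supp Lau.bb)
    (hf : f ∈ Supp (Lo (t + 1))) : comp (Zt (t + d)) (O d f) = Mn (c d) d (comp (Zt t) f) := by
  refine Supp_eq (Supp_and hb hf) ((comp (Zt (t + d))).comp (O d))
    ((Mn (c d) d).comp (comp (Zt t))) fun m hm => ?_
  rw [LinearMap.comp_apply, LinearMap.comp_apply]
  by_cases hz : Zt t m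
  · rw [comp_self (Lau.mon_mem hz), ← sub_add_cancel (O d (mon m)) (Mn (c d) d (mon m)), map_add,
      comp_zero (Supp_mono (H.top d hd m) fun m' h h' => by
        have := h'.2.2; have := hz.2.2; omega), zero_add]
    refine comp_self (Supp_mono (Mn_mon_mem _ hd m) fun m' h => ?_)
    obtain ⟨h0, h1, h2⟩ := hz
    exact ⟨by omega, by omega, by omega⟩
  · rw [comp_zero (p := Zt t) (Lau.mon_mem hz), map_zero]
    have hl : Lo t m := fun h0 h1 => by
      have := hm.2 h0 h1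
      have : m 2 ≠ t := fun h2 => hz ⟨h0, h1, h2⟩
      omega
    refine comp_zero (Supp_mono (H.lo hd (Lau.mon_mem hm.1) (Lau.mon_mem hl)) fun m' h h' => ?_)
    have := h h'.1 h'.2.1
    have := h'.2.2
    omega

theorem Fam.poincare_aux (H : Fam O c) (K Λ : ℤ) (hst : 0 ≤ 3 * Λ - K + 2) (t : ℕ) :
    ∀ Y : ℕ → A, (∀ d, 2 ≤ d → Y d ∈ Supp Lau.bb) →
      (∀ d : ℕ, 2 ≤ d → Y d ∈ Supp (Lau.hom (K + 1) (Λ + d - 1))) →
      (∀ d d', 2 ≤ d → 2 ≤ d' → O d (Y d') - O d' (Y d) ∈ Supp Lau.nn) →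
      (∀ d : ℕ, 2 ≤ d → Y d ∈ Supp (Lo (t + d))) →
      ∃ Φ, Φ ∈ Supp Lau.bb ∧ Φ ∈ Supp (Lau.hom K Λ) ∧ Φ ∈ Supp (fun m => m 0 = 0) ∧
        ∀ d, 2 ≤ d → Y d - O d Φ ∈ Supp (fun m => m 0 = 0 → 0 ≤ m 1) := by
  induction t with
  | zero =>
    intro Y hb hh _ hl
    refine ⟨0, zero_mem _, zero_mem _, zero_mem _, fun d hd => ?_⟩
    rw [map_zero, sub_zero]
    refine Supp_mono (Supp_and (hb d hd) (Supp_and (hh d hd) (hl d hd))) ?_
    rintro m ⟨h1, ⟨h2, h3⟩, h4⟩ h0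
    by_contra h5
    have h6 := h4 h0 (by omega)
    have h7 := tail_nonneg (m := m) (fun n hn => h1 n (by omega)) 1 (-3) (by omega) (by omega)
    rw [h2, h3, h0] at h7
    omega
  | succ t ih =>
    intro Y hb hh hc hl
    have hl' : ∀ d : ℕ, 2 ≤ d → Y d ∈ Supp (Lo ((t + d : ℤ) + 1)) := fun d hd => by
      have := hl d hd
      rwa [show ((t + 1 : ℕ) : ℤ) + d = (t + d : ℤ) + 1 by push_cast; ring] at this
    let z : ℕ → A := fun d => (c d)⁻¹ • (mon (-(d • e 2)) * comp (Zt (t + d)) (Y d))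
    have hz : ∀ d : ℕ, 2 ≤ d → comp (Zt (t + d)) (Y d) = c d • (mon (d • e 2) * z d) := by
      intro d hd
      simp only [z]
      rw [mul_smul_comm, smul_smul, mul_inv_cancel₀ (H.c_ne d hd), one_smul, ← mul_assoc,
        ← mon_add, add_neg_cancel, mon_zero, one_mul]
    have hzm : ∀ d : ℕ, 2 ≤ d → z d ∈ Supp
        (fun m => Lau.bb m ∧ Lau.hom (K + 1 - 2 * d) (Λ - 1) m ∧ Zt t m) := by
      intro d hd
      refine Submodule.smul_mem _ _ (mon_mul_mem _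
        (comp_mem (Supp_and (hb d hd) (hh d hd))) ?_)
      rintro m ⟨⟨h1, h2, h3⟩, h4, h5, h6⟩
      refine ⟨fun n hn => ?_, ⟨?_, ?_⟩, ?_, ?_, ?_⟩
      · have := h1 n hn
        simp only [Finsupp.add_apply, Finsupp.neg_apply, Finsupp.smul_apply, e_apply]
        split_ifs with h
        · subst h; simp; omega
        · simpa using this
      · rw [map_add, map_neg, map_nsmul, deg_e, h2]; simp; ring
      · rw [map_add, map_neg, map_nsmul, len_e, h3]; simp; ring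
      · simp [e_apply, h4]
      · simp [e_apply, h5]
      · simp [e_apply, h6]
    obtain ⟨Ψ, hΨ, hpd⟩ := closed_exact z (K + 3 - 2 * Λ).toNat
      (fun m => Lau.bb m ∧ Lau.hom K Λ m ∧ Zt t m)
      (fun d hd => Supp_mono (hzm d hd) fun _ h => h.1)
      (fun d hd => mon_mul_mem _ (hzm d hd) (by
        rintro m ⟨h1, ⟨h2, h3⟩, h4, h5, h6⟩
        have h0 : ¬ (2 * d - 1 = 0) := by omega
        have h1' : ¬ (2 * d - 1 = 1) := by omega
        have h2' : ¬ (2 * d - 1 = 2) := by omega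
        refine ⟨ok_add (ok_e _ _) h1, ⟨?_, ?_⟩, ?_, ?_, ?_⟩
        · rw [map_add, deg_e, h2]; omega
        · rw [map_add, len_e, h3]; ring
        · simp [e_apply, h0, h4]
        · simp [e_apply, h1', h5]
        · simp [e_apply, h2', h6]))
      (fun d hD hd => Supp_false (hzm d hd) (by
        rintro m ⟨h1, ⟨h2, h3⟩, h4, h5, h6⟩
        have h7 := tail_nonneg (m := m) (fun n hn => h1 n (by omega)) 1 (-2) (by omega) (by omega)
        rw [h2, h3, h4] at h7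
        omega))
      (fun d d' hd hd' => by
        have h1 : comp (Zt (t + d' + d)) (O d (Y d') - O d' (Y d)) = 0 :=
          comp_zero (Supp_mono (hc d d' hd hd') fun m h h' => absurd (h 1 trivial) (by
            have := h'.2.1; omega))
        rw [map_sub, H.comp_top hd (hb d' hd') (hl' d' hd'), add_right_comm,
          H.comp_top hd' (hb d hd) (hl' d hd), hz d hd, hz d' hd', Mn_apply, Mn_apply,
          Derivation.map_smul, Derivation.map_smul, Derivation.leibniz, Derivation.leibniz,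
          pd_mon, pd_mon] at h1
        have e1 : ¬ (2 = 2 * d - 1) := by omega
        have e2 : ¬ (2 = 2 * d' - 1) := by omega
        simp only [Finsupp.smul_apply, e_apply, e1, e2, if_false, smul_zero, Int.cast_zero,
          zero_smul, smul_eq_mul, mul_smul_comm, smul_smul] at h1
        have h2 : (c d * c d') • (mon (d • e 2) * (mon (d' • e 2) *
            (pd (2 * d - 1) (z d') - pd (2 * d' - 1) (z d)))) = 0 := by
          rw [← h1, mul_comm (c d') (c d), ← smul_sub]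
          congr 1; ring
        have h3 := (smul_eq_zero.mp h2).resolve_left (mul_ne_zero (H.c_ne d hd) (H.c_ne d' hd'))
        exact sub_eq_zero.mp (mon_mul_eq_zero (mon_mul_eq_zero h3)))
    have hΨb : Ψ ∈ Supp Lau.bb := Supp_mono hΨ fun _ h => h.1
    have hΨh : Ψ ∈ Supp (Lau.hom K Λ) := Supp_mono hΨ fun _ h => h.2.1
    have hΨz : Ψ ∈ Supp (Zt t) := Supp_mono hΨ fun _ h => h.2.2
    have hΨl : Ψ ∈ Supp (Lo (t + 1)) := Supp_mono hΨz fun m h _ _ => by have := h.2.2; omega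
    obtain ⟨Φ, h1, h2, h3, h4⟩ := ih (fun d => Y d - O d Ψ)
      (fun d hd => sub_mem (hb d hd) (H.bb d _ hΨb))
      (fun d hd => sub_mem (hh d hd) (H.hom d _ _ _ hΨh))
      (fun d d' hd hd' => by
        have := hc d d' hd hd'
        rwa [map_sub, map_sub, H.comm d d' Ψ, sub_sub_sub_cancel_right])
      (fun d hd => by
        have h5 : Y d - O d Ψ ∈ Supp (Lo ((t + d : ℤ) + 1)) := sub_mem (hl' d hd) (by
          have := H.lo hd hΨb hΨl
          rwa [add_right_comm] at this)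
        have h6 : comp (Zt (t + d)) (Y d - O d Ψ) = 0 := by
          rw [map_sub, H.comp_top hd hΨb hΨl, comp_self hΨz, Mn_apply, hpd d hd, hz d hd, sub_self]
        refine Supp_mono (mem_of_comp_zero h5 h6) fun m h h0 h1 => ?_
        have := h.1 h0 h1
        have : m 2 ≠ t + d := fun h2 => h.2 ⟨h0, h1, h2⟩
        omega)
    refine ⟨Ψ + Φ, add_mem hΨb h1, add_mem hΨh h2,
      add_mem (Supp_mono hΨz fun _ h => h.1) h3, fun d hd => ?_⟩
    rw [map_add, ← sub_sub]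
    exact h4 d hd

theorem Fam.poincare (H : Fam O c) (K Λ : ℤ) (hst : 0 ≤ 3 * Λ - K + 2) (Y : ℕ → A)
    (hb : ∀ d, 2 ≤ d → Y d ∈ Supp Lau.bb)
    (hh : ∀ d : ℕ, 2 ≤ d → Y d ∈ Supp (Lau.hom (K + 1) (Λ + d - 1)))
    (hc : ∀ d d', 2 ≤ d → 2 ≤ d' → O d (Y d') - O d' (Y d) ∈ Supp Lau.nn) :
    ∃ Φ, Φ ∈ Supp Lau.bb ∧ Φ ∈ Supp (Lau.hom K Λ) ∧ Φ ∈ Supp (fun m => m 0 = 0) ∧
      ∀ d, 2 ≤ d → Y d - O d Φ ∈ Supp (fun m => m 0 = 0 → 0 ≤ m 1) := by
  refine H.poincare_aux K Λ hst (K - Λ + 3).toNat Y hb hh hc fun d hd => ?_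
  refine Supp_mono (Supp_and (hb d hd) (hh d hd)) ?_
  rintro m ⟨h1, h2, h3⟩ h0 h4
  have h7 := tail_nonneg (m := m) (fun n hn => h1 n (by omega)) 1 (-2) (by omega) (by omega)
  have h8 := tail_nonneg (m := m) (fun n hn => h1 n (by omega)) 0 1 (by omega) (by omega)
  rw [h2, h3, h0] at h7 h8
  omega

/-- Galilean reduction: poles are detected on the monomials without u. -/
lemma galilei (W : ℕ → A) (a : ℕ) (hb : ∀ d, a ≤ d → W d ∈ Supp bb) (h0 : W a ∈ Supp nn)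
    (hg : ∀ d, a ≤ d → pd 0 (W (d + 1)) - W d ∈ Supp nn)
    (hp : ∀ d, a < d → W d ∈ Supp (fun m => m 0 = 0 → 0 ≤ m 1)) :
    ∀ d, a ≤ d → W d ∈ Supp nn := by
  intro d hd
  induction d, hd using Nat.le_induction with
  | base => exact h0
  | succ d hd ih =>
    have h1 : pd 0 (W (d + 1)) ∈ Supp nn := by
      have := add_mem (hg d hd) ih
      rwa [sub_add_cancel] at this
    have h2 := mul_ok (x_ok _ 0) h1
    rw [pd_eq_diag] at h2
    refine mem_Supp.mpr fun m hm => ?_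
    by_cases hm0 : m 0 = 0
    · exact nn_of_bb (mem_Supp.mp (hb _ (by omega)) m hm) (mem_Supp.mp (hp _ (by omega)) m hm hm0)
    · exact mem_Supp.mp h2 m (by rw [coeff_diag]; exact mul_ne_zero (by exact_mod_cast hm0) hm)

end Pool.Agent.Lib.MP_4b14b2_mp.Lau
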