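import Pool.Agent.Lib.MP_4b14b2_mp.HLaurent

/-! Support conditions on Laurent differential polynomials. -/

namespace Pool.Agent.Lib.MP_4b14b2_mp.Lau

open Finset

/-- elements all of whose monomials satisfy `p` -/
noncomputable def Supp (p : G → Prop) : Submodule ℂ A := AddMonoidAlgebra.supported ℂ ℂ {m | p m}

lemma mem_Supp {p : G → Prop} {f : A} : f ∈ Supp p ↔ ∀ m, f.coeff m ≠ 0 → p m := by
  rw [Supp, AddMonoidAlgebra.mem_supported']
  exact ⟨fun h m hm => by_contra fun hp => hm (h m hp), fun h m hm => by_contra fun h0 => hm (h m h0)⟩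

lemma coeff_mon (m m' : G) : (mon m).coeff m' = if m = m' then 1 else 0 := by
  simp [mon, Finsupp.single_apply]

lemma mon_mem {p : G → Prop} {m : G} (h : p m) : mon m ∈ Supp p :=
  mem_Supp.mpr fun m' hm' => by
    rw [coeff_mon] at hm'
    split_ifs at hm' with h1
    · exact h1 ▸ h
    · exact absurd rfl hm'

lemma Supp_mono {p r : G → Prop} {f : A} (hf : f ∈ Supp p) (h : ∀ m, p m → r m) : f ∈ Supp r :=
  mem_Supp.mpr fun m hm => h m (mem_Supp.mp hf m hm)

lemma Supp_and {p r : G → Prop} {f : A} (hf : f ∈ Supp p) (hg : f ∈ Supp r) :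
    f ∈ Supp (fun m => p m ∧ r m) :=
  mem_Supp.mpr fun m hm => ⟨mem_Supp.mp hf m hm, mem_Supp.mp hg m hm⟩

lemma Supp_false {p : G → Prop} {f : A} (hf : f ∈ Supp p) (h : ∀ m, ¬ p m) : f = 0 := by
  ext m
  by_contra hm
  exact h m (mem_Supp.mp hf m hm)

lemma Supp_true (f : A) : f ∈ Supp (fun _ => True) := mem_Supp.mpr fun _ _ => trivial

lemma Supp_ind {p : G → Prop} {f : A} (hf : f ∈ Supp p) {N : Type} [AddCommGroup N] [Module ℂ N]
    (L : A →ₗ[ℂ] N) (S : Submodule ℂ N) (h : ∀ m, p m → L (mon m) ∈ S) : L f ∈ S := by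
  rw [Supp, AddMonoidAlgebra.supported_eq_span_single] at hf
  have : Submodule.span ℂ ((fun m => AddMonoidAlgebra.single m (1 : ℂ)) '' {m | p m}) ≤
      S.comap L := Submodule.span_le.mpr (by rintro _ ⟨m, hm, rfl⟩; exact h m hm)
  exact this hf

lemma Supp_eq {p : G → Prop} {f : A} (hf : f ∈ Supp p) {N : Type} [AddCommGroup N] [Module ℂ N]
    (L L' : A →ₗ[ℂ] N) (h : ∀ m, p m → L (mon m) = L' (mon m)) : L f = L' f := by
  have := Supp_ind hf (L - L') ⊥ (fun m hm => by simp [h m hm])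
  simpa [sub_eq_zero] using this

lemma mul_mem {p p' r : G → Prop} {f g : A} (hf : f ∈ Supp p) (hg : g ∈ Supp p')
    (h : ∀ m m', p m → p' m' → r (m + m')) : f * g ∈ Supp r :=
  Supp_ind hf (LinearMap.mulRight ℂ g) (Supp r) fun m hm =>
    Supp_ind hg (LinearMap.mulLeft ℂ (mon m)) (Supp r) fun m' hm' => by
      rw [LinearMap.mulLeft_apply, ← mon_add]; exact mon_mem (h m m' hm hm')

lemma mon_mul_mem {p r : G → Prop} {f : A} (μ : G) (hf : f ∈ Supp p)
    (h : ∀ m, p m → r (μ + m)) : mon μ * f ∈ Supp r :=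
  mul_mem (mon_mem (p := fun m => m = μ) rfl) hf fun _ m' hm hm' => hm ▸ h m' hm'

lemma der_mem {p r : G → Prop} {s : ℕ → G → Prop} {q : ℕ → A} {f : A} (hf : f ∈ Supp p)
    (hq : ∀ n, q n ∈ Supp (s n))
    (h : ∀ m n μ, p m → m n ≠ 0 → s n μ → r (m - e n + μ)) : der q f ∈ Supp r :=
  Supp_ind hf (der q).toLinearMap (Supp r) fun m hm => by
    show der q (mon m) ∈ Supp r
    rw [der_mon_sum]
    exact Submodule.sum_mem _ fun n hn => Submodule.smul_mem _ _
      (mon_mul_mem _ (hq n) fun μ hμ => h m n μ hm (Finsupp.mem_support_iff.mp hn) hμ)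

lemma Dx_mem {p r : G → Prop} {f : A} (hf : f ∈ Supp p)
    (h : ∀ m n, p m → m n ≠ 0 → r (m - e n + e (n + 1))) : Dx f ∈ Supp r :=
  der_mem (s := fun n μ => μ = e (n + 1)) hf (fun _ => mon_mem rfl)
    fun m n _ hm hn hμ => hμ ▸ h m n hm hn

lemma Dn_mem {p : G → Prop} {f : A} (hf : f ∈ Supp p)
    (h : ∀ m n, p m → m n ≠ 0 → p (m - e n + e (n + 1))) (k : ℕ) : Dn k f ∈ Supp p := by
  induction k with
  | zero => exact hf
  | succ k ih => rw [Dn_succ]; exact Dx_mem ih h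

lemma pd_mem {p r : G → Prop} {f : A} (n : ℕ) (hf : f ∈ Supp p)
    (h : ∀ m, p m → m n ≠ 0 → r (m - e n)) : pd n f ∈ Supp r :=
  Supp_ind hf (pd n).toLinearMap (Supp r) fun m hm => by
    show pd n (mon m) ∈ Supp r
    rw [pd_mon]
    by_cases hn : m n = 0
    · simp [hn]
    · exact Submodule.smul_mem _ _ (mon_mem (h m hm hn))

/-- diagonal operator -/
noncomputable def diag (φ : G → ℂ) : A →ₗ[ℂ] A := lin fun m => φ m • mon m

lemma diag_mon (φ : G → ℂ) (m : G) : diag φ (mon m) = φ m • mon m := lin_mon _ _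

lemma coeff_diag (φ : G → ℂ) (f : A) (m : G) : (diag φ f).coeff m = φ m * f.coeff m := by
  induction f using ind with
  | h0 => simp
  | hm m' =>
    rw [diag_mon, AddMonoidAlgebra.coeff_smul_apply, coeff_mon]
    split_ifs with h
    · simp [h]
    · simp
  | ha a b h h' => simp [h, h', mul_add]
  | hs c a h => simp [h]; ring

lemma diag_mem {p : G → Prop} {f : A} (φ : G → ℂ) (hf : f ∈ Supp p) :
    diag φ f ∈ Supp (fun m => p m ∧ φ m ≠ 0) :=
  mem_Supp.mpr fun m hm => by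
    rw [coeff_diag] at hm
    exact ⟨mem_Supp.mp hf m (right_ne_zero_of_mul hm), left_ne_zero_of_mul hm⟩

lemma diag_const {p : G → Prop} {f : A} (φ : G → ℂ) (c : ℂ) (hf : f ∈ Supp p)
    (h : ∀ m, p m → φ m = c) : diag φ f = c • f :=
  Supp_eq hf (diag φ) (c • LinearMap.id) fun m hm => by simp [diag_mon, h m hm]

open Classical in
/-- the part of `f` supported on `p` -/
noncomputable def comp (p : G → Prop) : A →ₗ[ℂ] A := diag fun m => if p m then 1 else 0

lemma comp_mem {p r : G → Prop} {f : A} (hf : f ∈ Supp r) :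
    comp p f ∈ Supp (fun m => r m ∧ p m) :=
  Supp_mono (diag_mem _ hf) fun m hm => ⟨hm.1, by_contra fun hp => hm.2 (by simp [hp])⟩

lemma comp_self {p : G → Prop} {f : A} (hf : f ∈ Supp p) : comp p f = f := by
  rw [comp, diag_const _ 1 hf (fun m hm => by simp [hm]), one_smul]

lemma comp_zero {p : G → Prop} {f : A} (hf : f ∈ Supp (fun m => ¬ p m)) : comp p f = 0 := by
  rw [comp, diag_const _ 0 hf (fun m hm => by simp [hm]), zero_smul]

lemma sub_comp_mem {p r : G → Prop} {f : A} (hf : f ∈ Supp r) :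
    f - comp p f ∈ Supp (fun m => r m ∧ ¬ p m) :=
  mem_Supp.mpr fun m hm => by
    rw [AddMonoidAlgebra.coeff_sub, Finsupp.sub_apply, comp, coeff_diag] at hm
    by_cases hp : p m
    · simp [hp] at hm
    · simp only [hp, if_false, zero_mul, sub_zero] at hm
      exact ⟨mem_Supp.mp hf m hm, hp⟩

lemma mem_of_comp_zero {p r : G → Prop} {f : A} (hf : f ∈ Supp r) (h : comp p f = 0) :
    f ∈ Supp (fun m => r m ∧ ¬ p m) := by
  have := sub_comp_mem (p := p) hf
  rwa [h, sub_zero] at this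

lemma pd_eq_diag (n : ℕ) (f : A) : x n * pd n f = diag (fun m => ((m n : ℤ) : ℂ)) f := by
  have : (LinearMap.mulLeft ℂ (x n)).comp (pd n).toLinearMap = diag (fun m => ((m n : ℤ) : ℂ)) :=
    lin_ext fun m => by
      show x n * pd n (mon m) = _
      rw [pd_mon, diag_mon, mul_smul_comm, x, ← mon_add]; simp
  exact congrArg (fun L : A →ₗ[ℂ] A => L f) this

lemma mem_of_pd_zero {n : ℕ} {f : A} (h : pd n f = 0) : f ∈ Supp (fun m => m n = 0) :=
  mem_Supp.mpr fun m hm => by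
    have h1 := pd_eq_diag n f
    rw [h, mul_zero] at h1
    have h2 := coeff_diag (fun m => ((m n : ℤ) : ℂ)) f m
    rw [← h1] at h2
    simp only [AddMonoidAlgebra.coeff_zero, Finsupp.zero_apply] at h2
    exact_mod_cast (mul_eq_zero.mp h2.symm).resolve_right hm

lemma pd_zero_of_mem {n : ℕ} {f : A} (h : f ∈ Supp (fun m => m n = 0)) : pd n f = 0 :=
  Supp_false (pd_mem (r := fun _ => False) n h fun _ hm hn => hn hm) fun _ => id

/-! ### nonnegativity of exponents -/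

/-- the exponents at the indices in `s` are nonnegative -/
def ok (s : ℕ → Prop) (m : G) : Prop := ∀ n, s n → 0 ≤ m n

/-- polynomial monomials -/
abbrev nn : G → Prop := ok fun _ => True
/-- monomials with a pole in u_1 only -/
abbrev bb : G → Prop := ok fun n => n ≠ 1

lemma ok_add {s : ℕ → Prop} {m m' : G} (h : ok s m) (h' : ok s m') : ok s (m + m') :=
  fun n hn => add_nonneg (h n hn) (h' n hn)

lemma ok_e (s : ℕ → Prop) (k : ℕ) : ok s (e k) := fun n _ => by
  rw [e_apply]; split_ifs <;> simp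

lemma ok_sub {s : ℕ → Prop} {m : G} {k : ℕ} (h : ok s m) (hk : m k ≠ 0) : ok s (m - e k) := by
  intro n hn
  have := h n hn
  rw [Finsupp.sub_apply, e_apply]
  split_ifs with h1
  · subst h1; omega
  · omega

lemma nn_bb {f : A} (h : f ∈ Supp nn) : f ∈ Supp bb := Supp_mono h fun _ hm n _ => hm n trivial

lemma mul_ok {s : ℕ → Prop} {f g : A} (hf : f ∈ Supp (ok s)) (hg : g ∈ Supp (ok s)) :
    f * g ∈ Supp (ok s) := mul_mem hf hg fun _ _ => ok_add

lemma x_ok (s : ℕ → Prop) (k : ℕ) : x k ∈ Supp (ok s) := mon_mem (ok_e s k)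

lemma one_ok (s : ℕ → Prop) : (1 : A) ∈ Supp (ok s) := mon_mem (m := 0) fun _ _ => le_rfl

lemma der_ok {s : ℕ → Prop} {q : ℕ → A} {f : A} (hf : f ∈ Supp (ok s))
    (hq : ∀ n, q n ∈ Supp (ok s)) : der q f ∈ Supp (ok s) :=
  der_mem (s := fun _ => ok s) hf hq fun _ _ _ hm hn hμ => ok_add (ok_sub hm hn) hμ

lemma Dx_ok {s : ℕ → Prop} {f : A} (hf : f ∈ Supp (ok s)) : Dx f ∈ Supp (ok s) :=
  der_ok hf fun _ => x_ok _ _

lemma Dn_ok {s : ℕ → Prop} {f : A} (hf : f ∈ Supp (ok s)) (k : ℕ) : Dn k f ∈ Supp (ok s) :=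
  Dn_mem hf (fun _ _ hm hn => ok_add (ok_sub hm hn) (ok_e _ _)) k

lemma pd_ok {s : ℕ → Prop} {f : A} (n : ℕ) (hf : f ∈ Supp (ok s)) : pd n f ∈ Supp (ok s) :=
  pd_mem n hf fun _ => ok_sub

lemma ev_ok {s : ℕ → Prop} {F f : A} (hF : F ∈ Supp (ok s)) (hf : f ∈ Supp (ok s)) :
    ev F f ∈ Supp (ok s) := der_ok hf fun n => Dn_ok hF n

lemma br_ok {s : ℕ → Prop} {F f : A} (hF : F ∈ Supp (ok s)) (hf : f ∈ Supp (ok s)) :
    br F f ∈ Supp (ok s) := sub_mem (ev_ok (Dx_ok hF) hf) (ev_ok (Dx_ok hf) hF)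

/-! ### the two gradings -/

/-- number of x-derivatives -/
noncomputable def deg : G →+ ℤ := Finsupp.weight fun n : ℕ => (n : ℤ)
/-- number of factors -/
noncomputable def len : G →+ ℤ := Finsupp.weight fun _ : ℕ => (1 : ℤ)

lemma deg_single (n : ℕ) (c : ℤ) : deg (Finsupp.single n c) = c * n := by
  simp [deg, Finsupp.weight_apply]
lemma len_single (n : ℕ) (c : ℤ) : len (Finsupp.single n c) = c := by
  simp [len, Finsupp.weight_apply]
lemma deg_e (n : ℕ) : deg (e n) = n := by simp [e, deg_single]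
lemma len_e (n : ℕ) : len (e n) = 1 := by simp [e, len_single]

/-- bidegree -/
def hom (k l : ℤ) (m : G) : Prop := deg m = k ∧ len m = l

lemma hom_congr {k l k' l' : ℤ} {f : A} (hf : f ∈ Supp (hom k l)) (hk : k = k') (hl : l = l') :
    f ∈ Supp (hom k' l') := hk ▸ hl ▸ hf

lemma mul_hom {k l k' l' : ℤ} {f g : A} (hf : f ∈ Supp (hom k l)) (hg : g ∈ Supp (hom k' l')) :
    f * g ∈ Supp (hom (k + k') (l + l')) :=
  mul_mem hf hg fun _ _ h h' => ⟨by rw [map_add, h.1, h'.1], by rw [map_add, h.2, h'.2]⟩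

lemma x_hom (n : ℕ) : x n ∈ Supp (hom n 1) := mon_mem ⟨deg_e n, len_e n⟩

lemma der_hom {k l a c : ℤ} {q : ℕ → A} {f : A} (hf : f ∈ Supp (hom k l))
    (hq : ∀ n : ℕ, q n ∈ Supp (hom (n + a) c)) : der q f ∈ Supp (hom (k + a) (l + c - 1)) :=
  der_mem (s := fun n : ℕ => hom (n + a) c) hf hq fun m n μ hm _ hμ =>
    ⟨by rw [map_add, map_sub, hm.1, hμ.1, deg_e]; ring,
     by rw [map_add, map_sub, hm.2, hμ.2, len_e]; ring⟩

lemma Dx_hom {k l : ℤ} {f : A} (hf : f ∈ Supp (hom k l)) : Dx f ∈ Supp (hom (k + 1) l) :=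
  hom_congr (der_hom (a := 1) (c := 1) hf fun n => hom_congr (x_hom (n + 1)) (by simp) rfl) rfl
    (by ring)

lemma Dn_hom {k l : ℤ} {f : A} (hf : f ∈ Supp (hom k l)) (n : ℕ) :
    Dn n f ∈ Supp (hom (n + k) l) := by
  induction n with
  | zero => exact hom_congr hf (by simp) rfl
  | succ n ih => rw [Dn_succ]; exact hom_congr (Dx_hom ih) (by push_cast; ring) rfl

lemma pd_hom {k l : ℤ} {f : A} (n : ℕ) (hf : f ∈ Supp (hom k l)) :
    pd n f ∈ Supp (hom (k - n) (l - 1)) :=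
  pd_mem n hf fun _ hm _ => ⟨by rw [map_sub, hm.1, deg_e], by rw [map_sub, hm.2, len_e]⟩

lemma ev_hom {k l k' l' : ℤ} {F f : A} (hF : F ∈ Supp (hom k l)) (hf : f ∈ Supp (hom k' l')) :
    ev F f ∈ Supp (hom (k' + k) (l' + l - 1)) := der_hom hf fun n => Dn_hom hF n

lemma br_hom {k l k' l' : ℤ} {F f : A} (hF : F ∈ Supp (hom k l)) (hf : f ∈ Supp (hom k' l')) :
    br F f ∈ Supp (hom (k + k' + 1) (l + l' - 1)) :=
  sub_mem (hom_congr (ev_hom (Dx_hom hF) hf) (by ring) (by ring))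
    (hom_congr (ev_hom (Dx_hom hf) hF) (by ring) (by ring))

/-- the basic inequality between the gradings -/
lemma tail_nonneg {m : G} (hm : ∀ n, 3 ≤ n → 0 ≤ m n) (a c : ℤ) (ha : 0 ≤ a) (hc : 0 ≤ 3 * a + c) :
    0 ≤ a * deg m + c * len m - c * m 0 - (a + c) * m 1 - (2 * a + c) * m 2 := by
  have h1 : ∀ m : G, a * deg m + c * len m - c * m 0 - (a + c) * m 1 - (2 * a + c) * m 2 =
      Finsupp.weight (fun n : ℕ => if 3 ≤ n then a * n + c else 0) m := by
    intro m
    induction m using Finsupp.induction_linear with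
    | zero => simp
    | add f g hf hg => simp only [map_add, Finsupp.add_apply, ← hf, ← hg]; ring
    | single n r =>
      rw [deg_single, len_single, Finsupp.weight_single]
      rcases n with _ | _ | _ | n
      · simp
      · simp; ring
      · simp; ring
      · simp; ring
  rw [h1, Finsupp.weight_apply]
  refine Finset.sum_nonneg fun n _ => ?_
  by_cases hn : 3 ≤ n
  · have : (3 : ℤ) ≤ n := by exact_mod_cast hn
    simp only [hn, if_true, smul_eq_mul]
    exact mul_nonneg (hm n hn) (by nlinarith)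
  · simp [hn]

end Pool.Agent.Lib.MP_4b14b2_mp.Lau
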