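import Pool.Agent.Lib.MP_4b14b2_mp.HPoincare

/-! The action of the Riemann hierarchy on potentials and on densities. -/

namespace Pool.Agent.Lib.MP_4b14b2_mp.Lau

open Finset

/-- u^d / d! -/
noncomputable def F (d : ℕ) : A := ((d.factorial : ℂ)⁻¹) • mon (d • e 0)

lemma F_zero : F 0 = 1 := by simp [F, mon_zero]
lemma F_one : F 1 = x 0 := by simp [F, x]

lemma der_F_succ (D : Derivation ℂ A A) (d : ℕ) : D (F (d + 1)) = F d * D (x 0) := by
  rw [F, F, mon_nsmul, mon_nsmul, Derivation.map_smul, D.leibniz_pow, Nat.factorial_succ,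
    Nat.add_sub_cancel, smul_eq_mul, ← Nat.cast_smul_eq_nsmul ℂ, smul_smul, smul_mul_assoc, x]
  congr 1
  have : ((d + 1 : ℕ) : ℂ) ≠ 0 := by exact_mod_cast Nat.succ_ne_zero d
  push_cast at this ⊢
  field_simp

lemma pd_F_succ (d : ℕ) : pd 0 (F (d + 1)) = F d := by simp [der_F_succ, pd_x]
lemma pd_F_zero : pd 0 (F 0) = 0 := by simp [F_zero]

/-- monomials in u alone -/
def Uo (m : G) : Prop := ∀ n, n ≠ 0 → m n = 0

lemma der_Uo (D : Derivation ℂ A A) {g : A} (hg : g ∈ Supp Uo) : D g = pd 0 g * D (x 0) := by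
  refine Supp_eq hg D.toLinearMap ((LinearMap.mulRight ℂ (D (x 0))).comp (pd 0).toLinearMap)
    fun m hm => ?_
  rw [LinearMap.comp_apply, Derivation.coeFn_coe, Derivation.coeFn_coe, LinearMap.mulRight_apply,
    pd_mon]
  conv_lhs => rw [eq_der D, der_mon_sum]
  rw [Finset.sum_eq_single 0, smul_mul_assoc]
  · intro n hn h0; exact absurd (hm n h0) (Finsupp.mem_support_iff.mp hn)
  · intro h; simp [Finsupp.notMem_support_iff.mp h]

lemma pd_Uo {g : A} (hg : g ∈ Supp Uo) : pd 0 g ∈ Supp Uo :=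
  pd_mem 0 hg fun m hm _ n hn => by simp [e_apply, hm n hn, hn.symm]

lemma F_Uo (d : ℕ) : F d ∈ Supp Uo :=
  Submodule.smul_mem _ _ (mon_mem fun n hn => by simp [e_apply, hn.symm])

lemma F_ok (s : ℕ → Prop) (d : ℕ) : F d ∈ Supp (ok s) :=
  Submodule.smul_mem _ _ (mon_mem fun n _ => by
    simp only [Finsupp.smul_apply, e_apply]; split_ifs <;> simp)

lemma F_hom (d : ℕ) : F d ∈ Supp (hom 0 d) :=
  Submodule.smul_mem _ _ (mon_mem ⟨by simp [deg_e], by simp [len_e]⟩)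

/-- the derivation `br (F d)` -/
noncomputable def T (d : ℕ) : Derivation ℂ A A := ev (Dx (F d)) - pd 0 (F d) • Dx

lemma T_apply (d : ℕ) (f : A) : T d f = br (F d) f := by
  rw [br_apply, der_Uo (ev (Dx f)) (F_Uo d), ev_x, Dn_zero]; simp [T]

lemma T_x (d n : ℕ) : T d (x n) = Dn (n + 1) (F d) - pd 0 (F d) * x (n + 1) := by
  simp [T, ev_x, Dx_x, Dn_succ']

lemma Dx_Uo {g : A} (hg : g ∈ Supp Uo) : Dx g = pd 0 g * x 1 := by rw [der_Uo _ hg, Dx_x]

lemma T_x0 (d : ℕ) : T d (x 0) = 0 := by rw [T_x, Dn_succ, Dn_zero, Dx_Uo (F_Uo d), sub_self]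

lemma T_x1 (d : ℕ) : T d (x 1) = pd 0 (pd 0 (F d)) * x 1 ^ 2 := by
  rw [T_x, Dn_succ, Dn_succ, Dn_zero, Dx_Uo (F_Uo d), Derivation.leibniz,
    Dx_Uo (pd_Uo (F_Uo d)), Dx_x]
  simp only [smul_eq_mul]; ring

lemma T_x2 (d : ℕ) : T d (x 2) =
    3 * pd 0 (pd 0 (F d)) * x 1 * x 2 + pd 0 (pd 0 (pd 0 (F d))) * x 1 ^ 3 := by
  rw [T_x, Dn_succ, Dn_succ, Dn_succ, Dn_zero, Dx_Uo (F_Uo d), Derivation.leibniz,
    Dx_Uo (pd_Uo (F_Uo d)), Dx_x]
  simp only [smul_eq_mul, map_add, Derivation.leibniz, Dx_x, Dx_Uo (pd_Uo (F_Uo d)),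
    Dx_Uo (pd_Uo (pd_Uo (F_Uo d)))]
  ring

lemma T_Uo (d : ℕ) {g : A} (hg : g ∈ Supp Uo) : T d g = 0 := by rw [der_Uo _ hg, T_x0, mul_zero]

lemma br_F_F (d d' : ℕ) : br (F d) (F d') = 0 := by rw [← T_apply, T_Uo d (F_Uo d')]

lemma T_comm (d d' : ℕ) (f : A) : T d (T d' f) = T d' (T d f) := by
  simp only [T_apply]
  rw [br_jacobi, br_F_F]; simp

lemma T_zero (f : A) : T 0 f = 0 := by simp [T, F_zero, ev_zero]
lemma T_one (f : A) : T 1 f = 0 := by simp [T, F_one, Dx_x, ev_x_one, pd_x]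

/-- the action on densities -/
noncomputable def Tt (d : ℕ) : A →ₗ[ℂ] A :=
  (T d).toLinearMap - LinearMap.mulLeft ℂ (pd 0 (pd 0 (F d)) * x 1)

lemma Tt_apply (d : ℕ) (f : A) : Tt d f = T d f - pd 0 (pd 0 (F d)) * x 1 * f := rfl

lemma Tt_one (f : A) : Tt 1 f = 0 := by simp [Tt_apply, T_one, F_one, pd_x]

lemma pd_Tt (d : ℕ) {K : A} (hK : pd 0 K = 0) : pd 0 (Tt (d + 1) K) = Tt d K := by
  simp [Tt_apply, T_apply, pd_zero_br, pd_F_succ, hK, pd_x, mul_comm]

/-! ### the leading coefficient does not vanish -/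

/-- sums of polynomial monomials -/
noncomputable def Pos : AddSubmonoid A := AddSubmonoid.closure {f | ∃ m, nn m ∧ f = mon m}

lemma mon_pos {m : G} (h : nn m) : mon m ∈ Pos := AddSubmonoid.subset_closure ⟨m, h, rfl⟩

lemma zsmul_pos {c : ℤ} (hc : 0 ≤ c) {f : A} (hf : f ∈ Pos) : (c : ℂ) • f ∈ Pos := by
  obtain ⟨k, rfl⟩ := Int.eq_ofNat_of_zero_le hc
  rw [Int.cast_natCast, Nat.cast_smul_eq_nsmul]
  exact nsmul_mem hf k

lemma Dx_mon_sum (m : G) :
    Dx (mon m) = ∑ n ∈ m.support, ((m n : ℤ) : ℂ) • mon (m - e n + e (n + 1)) := by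
  simp only [Dx, der_mon_sum, mon_add, x]

lemma Dx_pos {f : A} (hf : f ∈ Pos) : Dx f ∈ Pos := by
  induction hf using AddSubmonoid.closure_induction with
  | mem f h =>
    obtain ⟨m, hm, rfl⟩ := h
    rw [Dx_mon_sum]
    exact sum_mem fun n hn => zsmul_pos (hm n trivial)
      (mon_pos (ok_add (ok_sub hm (Finsupp.mem_support_iff.mp hn)) (ok_e _ _)))
  | zero => simp
  | add a b _ _ ha hb => rw [map_add]; exact add_mem ha hb

lemma pos_step {f : A} {m : G} {n : ℕ} (hf : f - mon m ∈ Pos) (hm : nn m) (hn : m n ≠ 0) :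
    Dx f - mon (m - e n + e (n + 1)) ∈ Pos := by
  have h1 : Dx (mon m) - mon (m - e n + e (n + 1)) ∈ Pos := by
    rw [Dx_mon_sum, ← Finset.add_sum_erase _ _ (Finsupp.mem_support_iff.mpr hn), add_sub_right_comm]
    refine add_mem ?_ (sum_mem fun k hk => zsmul_pos (hm k trivial) (mon_pos (ok_add (ok_sub hm
      (Finsupp.mem_support_iff.mp (Finset.mem_of_mem_erase hk))) (ok_e _ _))))
    have h2 := zsmul_pos (c := m n - 1) (by have := hm n trivial; omega)
      (mon_pos (ok_add (ok_sub hm hn) (ok_e _ (n + 1))))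
    rwa [Int.cast_sub, sub_smul, Int.cast_one, one_smul] at h2
  have h2 := add_mem (Dx_pos hf) h1
  rwa [map_sub, sub_add_sub_cancel] at h2

lemma coeff_pos {f : A} (hf : f ∈ Pos) (μ : G) : ∃ k : ℕ, f.coeff μ = k := by
  induction hf using AddSubmonoid.closure_induction with
  | mem f h =>
    obtain ⟨m, _, rfl⟩ := h
    rw [coeff_mon]
    split_ifs
    · exact ⟨1, by simp⟩
    · exact ⟨0, by simp⟩
  | zero => exact ⟨0, by simp⟩
  | add a b _ _ ha hb =>
    obtain ⟨k, hk⟩ := ha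
    obtain ⟨l, hl⟩ := hb
    exact ⟨k + l, by simp [hk, hl]⟩

lemma pos_path (j : ℕ) : ∀ i : ℕ,
    Dn (2 * j) (mon ((i + j) • e 0)) - mon (i • e 0 + j • e 2) ∈ Pos := by
  induction j with
  | zero => intro i; simp [Dn_zero]
  | succ j ih =>
    intro i
    have hnn : ∀ a b : ℕ, nn (a • e 0 + b • e 2) := fun a b n _ => by
      simp only [Finsupp.add_apply, Finsupp.smul_apply, e_apply]; split_ifs <;> simp
      omega
    have h1 := pos_step (n := 0) (ih (i + 1)) (hnn _ _) (by simp [e_apply]; omega)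
    have h2 := pos_step (n := 1) h1 (ok_add (ok_sub (hnn _ _) (by simp [e_apply]; omega))
      (ok_e _ _)) (by simp [e_apply])
    have e1 : (i + 1) • e 0 + j • e 2 - e 0 + e (0 + 1) - e 1 + e (1 + 1) =
        i • e 0 + (j + 1) • e 2 := by
      simp only [succ_nsmul, zero_add]; abel
    rw [e1, ← Dn_succ, ← Dn_succ] at h2
    rwa [show i + (j + 1) = i + 1 + j by ring]

/-- the leading coefficient -/
noncomputable def cT (d : ℕ) : ℂ := (T d (x (2 * d - 1))).coeff (d • e 2)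

lemma cT_ne {d : ℕ} (hd : 2 ≤ d) : cT d ≠ 0 := by
  have h1 : (pd 0 (F d) * x (2 * d)).coeff (d • e 2) = 0 := by
    by_contra h
    have h2 := mem_Supp.mp (mul_mem (r := fun m => m (2 * d) = 1) (pd_Uo (F_Uo d))
      (mon_mem (p := fun m => m = e (2 * d)) rfl) (fun m m' hm hm' => by
        simp [hm', hm (2 * d) (by omega), e_apply])) _ h
    have h3 : ¬ (2 = 2 * d) := by omega
    simp [e_apply, h3] at h2
  obtain ⟨k, hk⟩ := coeff_pos (pos_path d 0) (d • e 2)
  rw [zero_add, zero_smul, zero_add, AddMonoidAlgebra.coeff_sub, Finsupp.sub_apply, coeff_mon,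
    if_pos rfl, sub_eq_iff_eq_add] at hk
  rw [cT, T_x, show 2 * d - 1 + 1 = 2 * d by omega, AddMonoidAlgebra.coeff_sub, Finsupp.sub_apply,
    h1, sub_zero, F, LinearMap.map_smul, AddMonoidAlgebra.coeff_smul_apply, hk, smul_eq_mul]
  exact mul_ne_zero (inv_ne_zero (by exact_mod_cast d.factorial_ne_zero))
    (by exact_mod_cast Nat.succ_ne_zero k)

lemma eq_zero_of_len {m : G} (hm : nn m) (h : len m = 0) : m = 0 := by
  rw [len, Finsupp.weight_apply, Finsupp.sum, Finset.sum_eq_zero_iff_of_nonneg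
    (fun n _ => by simpa using hm n trivial)] at h
  ext n
  by_contra hn
  exact hn (by simpa using h n (Finsupp.mem_support_iff.mpr hn))

lemma T_top {d : ℕ} (hd : 2 ≤ d) (m : G) :
    T d (mon m) - Mn (cT d) d (mon m) ∈ Supp (fun m' => m 0 ≤ m' 0 ∧ m' 2 < m 2 + d) := by
  let r : ℕ → A := fun n => T d (x n) - if n = 2 * d - 1 then cT d • mon (d • e 2) else 0
  have h1 : T d - (cT d • mon (d • e 2)) • pd (2 * d - 1) = der r := der_ext fun n => by
    rw [der_x]; simp [r, pd_x]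
  have h2 : T d (mon m) - Mn (cT d) d (mon m) = der r (mon m) := by
    rw [← h1, Mn_apply]; simp
  rw [h2]
  refine der_mem (p := fun m' => m' = m) (s := fun n μ => n ≠ 0 ∧ nn μ ∧ μ 2 < d) (mon_mem rfl)
    (fun n => ?_) ?_
  · have hq : T d (x n) ∈ Supp (fun μ => nn μ ∧ hom (0 + n + 1) (d + 1 - 1) μ) := by
      rw [T_apply]; exact Supp_and (br_ok (F_ok _ d) (x_ok _ n)) (br_hom (F_hom d) (x_hom n))
    have hnn : nn (d • e 2) := fun n _ => by
      simp only [Finsupp.smul_apply, e_apply]; split_ifs <;> simp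
    by_cases h0 : n = 0
    · have : r n = 0 := by simp only [r, h0, T_x0]; rw [if_neg (by omega), sub_zero]
      rw [this]; exact zero_mem _
    refine mem_Supp.mpr fun μ hμ => ⟨h0, ?_⟩
    have hc : μ = d • e 2 ∨ (T d (x n)).coeff μ ≠ 0 := by
      by_contra hcon
      push Not at hcon
      apply hμ
      simp only [r, AddMonoidAlgebra.coeff_sub, Finsupp.sub_apply, hcon.2]
      split_ifs
      · simp [coeff_mon, hcon.1.symm]
      · simp
    have hne : μ ≠ d • e 2 := by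
      rintro rfl
      apply hμ
      simp only [r, AddMonoidAlgebra.coeff_sub, Finsupp.sub_apply]
      split_ifs with h
      · simp [h, cT, coeff_mon]
      · by_contra h3
        have h4 := (mem_Supp.mp hq _ (by simpa using h3)).2.1
        rw [map_nsmul, deg_e] at h4
        simp at h4
        omega
    obtain ⟨h3, _, h5⟩ := mem_Supp.mp hq μ (hc.resolve_left hne)
    refine ⟨h3, by_contra fun h6 => hne ?_⟩
    refine sub_eq_zero.mp (eq_zero_of_len (fun k _ => ?_) ?_)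
    · have := h3 k trivial
      simp only [Finsupp.sub_apply, Finsupp.smul_apply, e_apply]
      split_ifs with h
      · subst h; simp; omega
      · simpa using this
    · rw [map_sub, map_nsmul, len_e, h5]; simp
  · rintro _ n μ rfl hn ⟨h0, hμ, h2⟩
    have := hμ 0 trivial
    simp only [Finsupp.add_apply, Finsupp.sub_apply, e_apply, h0, if_false]
    split_ifs <;> omega

lemma G2_mem (s : ℕ → Prop) (d : ℕ) : pd 0 (pd 0 (F d)) ∈ Supp (ok s) :=
  pd_ok 0 (pd_ok 0 (F_ok s d))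

lemma Tt_ok {s : ℕ → Prop} (d : ℕ) {f : A} (hf : f ∈ Supp (ok s)) : Tt d f ∈ Supp (ok s) := by
  rw [Tt_apply, T_apply]
  exact sub_mem (br_ok (F_ok _ d) hf) (mul_ok (mul_ok (G2_mem _ d) (x_ok _ 1)) hf)

theorem fam_Tt : Fam Tt cT where
  c_ne := fun _ => cT_ne
  nn := fun d _ => Tt_ok d
  bb := fun d _ => Tt_ok d
  hom := fun d k l f hf => by
    rw [Tt_apply, T_apply]
    exact sub_mem (hom_congr (br_hom (F_hom d) hf) (by ring) (by ring))
      (hom_congr (mul_hom (mul_hom (pd_hom 0 (pd_hom 0 (F_hom d))) (x_hom 1)) hf)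
        (by simp; ring) (by ring))
  top := fun d hd m => by
    rw [Tt_apply, sub_right_comm]
    refine sub_mem (T_top hd m) (mul_mem (p := fun μ => nn μ ∧ μ 2 = 0) (p' := fun m' => m' = m)
      (mul_mem (Supp_and (G2_mem (fun _ => True) d) (pd_Uo (pd_Uo (F_Uo d))))
        (mon_mem (p := fun m' => m' = e 1) rfl) ?_) (mon_mem rfl) ?_)
    · rintro μ _ ⟨h1, h2⟩ rfl
      exact ⟨ok_add h1 (ok_e _ _), by simp [h2 2 (by omega), e_apply]⟩
    · rintro μ _ ⟨h1, h2⟩ rfl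
      have := h1 0 trivial
      simp only [Finsupp.add_apply]
      omega
  comm := fun d d' f => by
    simp only [Tt_apply, map_sub, T_comm d d' f, Derivation.leibniz, smul_eq_mul,
      T_Uo _ (pd_Uo (pd_Uo (F_Uo _))), T_x1]
    ring

end Pool.Agent.Lib.MP_4b14b2_mp.Lau
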