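import Pool.Agent.Lib.MP_4b14b2_mp.Hier

namespace Pool.Agent.Lib.MP_4b14b2_mp

open Finset MvPolynomial

/-- evolutionary derivation with polynomial characteristic -/
noncomputable def DD (q f : DPoly) : DPoly := gen (RingHom.id _) (fun i => dx^[i] q) f

lemma coeff_flowPoly (P : DSeries) (f : DPoly) (n : ℕ) :
    PowerSeries.coeff n (flowPoly P f) = DD (PowerSeries.coeff n P) f := by
  simp only [flowPoly, DD, gen, map_add, map_sum, PowerSeries.coeff_mul_C, coeff_dxS_iter,
    RingHom.id_apply, Function.iterate_zero, id]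

lemma DD_add (q f g : DPoly) : DD q (f + g) = DD q f + DD q g := gen_add _ _ _ _
lemma DD_mul (q f g : DPoly) : DD q (f * g) = DD q f * g + f * DD q g := gen_mul _ _ _ _
lemma DD_C (q : DPoly) (g : PowerSeries ℂ) :
    DD q (C g) = q * C (PowerSeries.derivative ℂ g) := gen_C _ _ _
lemma DD_X0 (q : DPoly) : DD q (X 0) = dx q := gen_X _ _ _
lemma DD_X1 (q : DPoly) : DD q (X 1) = dx (dx q) := gen_X _ _ _
lemma DD_X2 (q : DPoly) : DD q (X 2) = dx (dx (dx q)) := gen_X _ _ _
lemma DD_u (q : DPoly) : DD q u = q := by rw [u, DD_C]; simp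

lemma substCoef_zero (v : DSeries) : substCoef v 0 = 0 := by
  ext1 k
  have h : ∀ n, (PowerSeries.derivative ℂ)^[n] (0 : PowerSeries ℂ) = 0 := fun n =>
    Function.iterate_fixed (map_zero _) n
  simp [substCoef, h]

lemma iter_deriv_C (c : ℂ) (n : ℕ) :
    (PowerSeries.derivative ℂ)^[n + 1] (PowerSeries.C c : PowerSeries ℂ) = 0 := by
  rw [Function.iterate_succ_apply, PowerSeries.derivative_C]
  exact Function.iterate_fixed (map_zero _) n

lemma substCoef_C (v : DSeries) (c : ℂ) :
    substCoef v (PowerSeries.C c) = PowerSeries.C (C (PowerSeries.C c)) := by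
  ext1 k
  simp only [substCoef, PowerSeries.coeff_mk]
  rw [Finset.sum_range_succ']
  simp [iter_deriv_C, -Function.iterate_succ]

lemma substCoef_X (v : DSeries) (hv : PowerSeries.coeff 0 v = u) :
    substCoef v PowerSeries.X = v := by
  ext1 k
  simp only [substCoef, PowerSeries.coeff_mk]
  cases k with
  | zero => simp [hv, u]
  | succ k =>
    have h : ∀ n, (PowerSeries.derivative ℂ)^[n + 1 + 1] (PowerSeries.X : PowerSeries ℂ) = 0 := by
      intro n
      rw [Function.iterate_succ_apply, PowerSeries.derivative_X]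
      exact iter_deriv_C 1 n
    rw [Finset.sum_range_succ', Finset.sum_range_succ']
    simp [h, -Function.iterate_succ]

lemma substPoly_monomial (v : DSeries) (m : ℕ →₀ ℕ) (g : PowerSeries ℂ) :
    substPoly v (monomial m g) = substCoef v g * ∏ i ∈ m.support, (dxS^[i + 1] v) ^ (m i) := by
  classical
  unfold substPoly
  by_cases hg : g = 0
  · subst hg; simp [substCoef_zero]
  · rw [support_monomial, if_neg hg]; simp

lemma substPoly_0 (v : DSeries) (hv : PowerSeries.coeff 0 v = u) :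
    substPoly v (u * X 0) = v * dxS v := by
  have : u * X 0 = monomial (Finsupp.single 0 1) PowerSeries.X := by
    rw [u, X, C_mul_monomial, mul_one]
  rw [this, substPoly_monomial, substCoef_X v hv, Finsupp.support_single _ one_ne_zero]
  simp

lemma substPoly_1 (v : DSeries) : substPoly v (X 0 * X 0) = dxS v * dxS v := by
  have : (X 0 * X 0 : DPoly) = monomial (Finsupp.single 0 2) (PowerSeries.C 1) := by
    rw [X, monomial_mul, ← Finsupp.single_add]; simp
  rw [this, substPoly_monomial, substCoef_C, Finsupp.support_single _ two_ne_zero]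
  simp [pow_two]

lemma substPoly_2 (v : DSeries) (τ : ℂ) (j : ℕ) :
    substPoly v (C (PowerSeries.C τ) * (X 0 * X (j + 1))) =
      PowerSeries.C (C (PowerSeries.C τ)) * (dxS v * dxS^[j + 2] v) := by
  classical
  have : (C (PowerSeries.C τ) * (X 0 * X (j + 1)) : DPoly) =
      monomial (Finsupp.single 0 1 + Finsupp.single (j + 1) 1) (PowerSeries.C τ) := by
    rw [X, X, monomial_mul, C_mul_monomial]; simp
  have hs : (Finsupp.single 0 1 + Finsupp.single (j + 1) 1 : ℕ →₀ ℕ).support = {0, j + 1} := by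
    ext i
    simp only [Finsupp.mem_support_iff, Finsupp.add_apply, Finsupp.single_apply, Finset.mem_insert,
      Finset.mem_singleton]
    split_ifs <;> omega
  rw [this, substPoly_monomial, substCoef_C, hs, Finset.prod_pair (by omega)]
  simp

lemma weight_small (m : ℕ →₀ ℕ) (n : ℕ) (hn : n ≤ 3)
    (h : Finsupp.weight (fun i => i + 1) m = n) :
    (∀ i, 3 ≤ i → m i = 0) ∧ m 0 + 2 * m 1 + 3 * m 2 = n := by
  have h1 : ∀ i, 3 ≤ i → m i = 0 := by
    intro i hi
    by_contra hne
    have := Finsupp.le_weight_of_ne_zero' (fun i => i + 1) hne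
    omega
  refine ⟨h1, ?_⟩
  rw [Finsupp.weight_apply, Finsupp.sum_of_support_subset m (s := range 3)] at h
  · simp only [Finset.sum_range_succ, Finset.sum_range_zero, smul_eq_mul] at h
    omega
  · intro i hi
    rw [Finset.mem_range]
    by_contra hc
    exact (Finsupp.mem_support_iff.mp hi) (h1 i (by omega))
  · intro i _; simp

/-- the exponent vector with the given first three entries -/
noncomputable def ex (a c e : ℕ) : ℕ →₀ ℕ :=
  Finsupp.single 0 a + Finsupp.single 1 c + Finsupp.single 2 e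

lemma eq_ex (m : ℕ →₀ ℕ) (h : ∀ i, 3 ≤ i → m i = 0) : m = ex (m 0) (m 1) (m 2) := by
  ext i
  rcases i with _ | _ | _ | i
  · simp [ex]
  · simp [ex]
  · simp [ex]
  · simp [ex, h (i + 1 + 1 + 1) (by omega)]

lemma ex_inj (a c e a' c' e' : ℕ) : ex a c e = ex a' c' e' ↔ a = a' ∧ c = c' ∧ e = e' := by
  constructor
  · intro h
    have h0 := DFunLike.congr_fun h 0
    have h1 := DFunLike.congr_fun h 1
    have h2 := DFunLike.congr_fun h 2
    simp [ex] at h0 h1 h2
    exact ⟨h0, h1, h2⟩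
  · rintro ⟨rfl, rfl, rfl⟩; rfl

lemma monomial_ex (a c e : ℕ) (g : PowerSeries ℂ) :
    (monomial (ex a c e) g : DPoly) = C g * X 0 ^ a * X 1 ^ c * X 2 ^ e := by
  rw [X_pow_eq_monomial, X_pow_eq_monomial, X_pow_eq_monomial, C_mul_monomial, monomial_mul,
    monomial_mul, ex]
  simp

lemma eq_sum_of_support (f : DPoly) (s : Finset (ℕ →₀ ℕ)) (h : f.support ⊆ s) :
    f = ∑ m ∈ s, monomial m (f.coeff m) := by
  conv_lhs => rw [f.as_sum]
  refine Finset.sum_subset h fun m _ hm => ?_
  rw [notMem_support_iff.mp hm]; simp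

lemma class1 (f : DPoly) (h : HasDeg f 1) : ∃ a, f = C a * X 0 := by
  classical
  refine ⟨f.coeff (ex 1 0 0), ?_⟩
  have hs : f.support ⊆ {ex 1 0 0} := by
    intro m hm
    obtain ⟨h1, h2⟩ := weight_small m 1 (by omega) (h (mem_support_iff.mp hm))
    rw [eq_ex m h1]
    simp only [Finset.mem_singleton, ex_inj]
    omega
  conv_lhs => rw [eq_sum_of_support f _ hs]
  rw [Finset.sum_singleton, monomial_ex]; ring

lemma class2 (f : DPoly) (h : HasDeg f 2) : ∃ a c, f = C a * X 1 + C c * (X 0 * X 0) := by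
  classical
  refine ⟨f.coeff (ex 0 1 0), f.coeff (ex 2 0 0), ?_⟩
  have hs : f.support ⊆ {ex 0 1 0, ex 2 0 0} := by
    intro m hm
    obtain ⟨h1, h2⟩ := weight_small m 2 (by omega) (h (mem_support_iff.mp hm))
    rw [eq_ex m h1]
    simp only [Finset.mem_insert, Finset.mem_singleton, ex_inj]
    omega
  conv_lhs => rw [eq_sum_of_support f _ hs]
  rw [Finset.sum_pair (by simp [ex_inj]), monomial_ex, monomial_ex]; ring

lemma class3 (f : DPoly) (h : HasDeg f 3) :
    ∃ a c e, f = C a * X 2 + C c * (X 0 * X 1) + C e * (X 0 * X 0 * X 0) := by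
  classical
  refine ⟨f.coeff (ex 0 0 1), f.coeff (ex 1 1 0), f.coeff (ex 3 0 0), ?_⟩
  have hs : f.support ⊆ {ex 0 0 1, ex 1 1 0, ex 3 0 0} := by
    intro m hm
    obtain ⟨h1, h2⟩ := weight_small m 3 (by omega) (h (mem_support_iff.mp hm))
    rw [eq_ex m h1]
    simp only [Finset.mem_insert, Finset.mem_singleton, ex_inj]
    omega
  conv_lhs => rw [eq_sum_of_support f _ hs]
  rw [Finset.sum_insert (by simp [ex_inj]), Finset.sum_pair (by simp [ex_inj]), monomial_ex,
    monomial_ex, monomial_ex]; ring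

lemma anti2 {M : Type} [AddCommMonoid M] (f : ℕ × ℕ → M) :
    ∑ p ∈ antidiagonal 2, f p = f (0, 2) + f (1, 1) + f (2, 0) := by
  simp [Finset.Nat.antidiagonal_succ, add_assoc]

lemma anti3 {M : Type} [AddCommMonoid M] (f : ℕ × ℕ → M) :
    ∑ p ∈ antidiagonal 3, f p = f (0, 3) + f (1, 2) + f (2, 1) + f (3, 0) := by
  simp [Finset.Nat.antidiagonal_succ, add_assoc]

lemma anti1 {M : Type} [AddCommMonoid M] (f : ℕ × ℕ → M) :
    ∑ p ∈ antidiagonal 1, f p = f (0, 1) + f (1, 0) := by
  simp [Finset.Nat.antidiagonal_succ]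

lemma coeff_subst (v P : DSeries) (n : ℕ) : PowerSeries.coeff n (subst v P) =
    ∑ p ∈ antidiagonal n, PowerSeries.coeff p.2 (substPoly v (PowerSeries.coeff p.1 P)) := by
  simp [subst]

/-- evaluation point -/
noncomputable def pt (x y z : ℂ) : ℕ → PowerSeries ℂ
  | 0 => PowerSeries.C x
  | 1 => PowerSeries.C y
  | 2 => PowerSeries.C z
  | _ => 0

theorem invariant (P P' v : DSeries) (σ τ : ℂ) (hv : IsMiura v)
    (h0 : PowerSeries.coeff 0 P = u * X 0) (h1 : PowerSeries.coeff 1 P = X 0 * X 0)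
    (h2 : PowerSeries.coeff 2 P = C (PowerSeries.C σ) * (X 0 * X 1))
    (h3 : PowerSeries.coeff 3 P = C (PowerSeries.C σ) * (X 0 * X 2))
    (h0' : PowerSeries.coeff 0 P' = u * X 0) (h1' : PowerSeries.coeff 1 P' = X 0 * X 0)
    (h2' : PowerSeries.coeff 2 P' = C (PowerSeries.C τ) * (X 0 * X 1))
    (h3' : PowerSeries.coeff 3 P' = C (PowerSeries.C τ) * (X 0 * X 2))
    (h : flow P v = subst v P') : σ = τ := by
  obtain ⟨hdeg, v0⟩ := hv
  obtain ⟨a, v1⟩ := class1 _ (hdeg 1)
  obtain ⟨b, c, v2⟩ := class2 _ (hdeg 2)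
  obtain ⟨d, e, g, v3⟩ := class3 _ (hdeg 3)
  have E2 := congrArg (PowerSeries.coeff 2) h
  have E3 := congrArg (PowerSeries.coeff 3) h
  have s2 := substPoly_2 v τ 0
  have s3 := substPoly_2 v τ 1
  simp only [zero_add, Nat.reduceAdd, Function.iterate_succ, Function.iterate_zero,
    Function.comp_apply, id] at s2 s3
  rw [coeff_flow, coeff_subst] at E2 E3
  have c0 : ∀ f : DPoly, PowerSeries.coeff 0 (PowerSeries.C f) = f := fun f => by simp
  have c1 : ∀ f : DPoly, PowerSeries.coeff 1 (PowerSeries.C f) = 0 := fun f => by simp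
  simp only [anti2, anti3, anti1, coeff_flowPoly, h0, h1, h2, h3, h0', h1', h2', h3',
    substPoly_0 v v0, substPoly_1, s2, s3, c0, c1, PowerSeries.coeff_mul,
    Finset.Nat.antidiagonal_zero, Finset.sum_singleton, coeff_dxS, v0, v1, v2, v3] at E2 E3
  simp only [DD_add, DD_mul, DD_C, DD_X0, DD_X1, DD_X2, DD_u, dx_add, dx_mul, dx_C, dx_X, dx_u,
    PowerSeries.derivative_C, map_zero, mul_zero, zero_mul, zero_add,
    Nat.reduceAdd] at E2 E3
  have A1 := congrArg (eval (pt 1 1 0)) E2
  have A2 := congrArg (eval (pt 1 0 0)) E2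
  have B1 := congrArg (eval (pt 1 0 1)) E3
  have B2 := congrArg (eval (pt 1 0 0)) E3
  have B3 := congrArg (eval (pt 0 1 0)) E3
  simp only [u, map_add, map_mul, eval_C, eval_X, pt, map_one, map_zero] at A1 A2 B1 B2 B3
  have key : (PowerSeries.C σ : PowerSeries ℂ) * 2 = PowerSeries.C τ * 2 := by
    linear_combination (A1 - A2) + (B1 - B2) - B3
  have k2 := congrArg PowerSeries.constantCoeff key
  simp only [map_mul, PowerSeries.constantCoeff_C, map_ofNat] at k2
  exact mul_right_cancel₀ two_ne_zero k2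

theorem not_miuraEquivalent : ¬ MiuraEquivalent QA QB := by
  rintro ⟨v, hv, h | h⟩
  · have := invariant (QA 1) (QB 1) v 0 1 hv QA0 QA1 (by simp [QA2]) (by simp [QA3]) QB0 QB1
      (by simp [QB2]) (by simp [QB3]) (h 1)
    exact zero_ne_one this
  · have := invariant (QB 1) (QA 1) v 1 0 hv QB0 QB1 (by simp [QB2]) (by simp [QB3]) QA0 QA1
      (by simp [QA2]) (by simp [QA3]) (h 1)
    exact one_ne_zero this

end Pool.Agent.Lib.MP_4b14b2_mp
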