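import Pool.Agent.Lib.MP_4b14b2_mp.HBuild
import Pool.Agent.Lib.MP_4b14b2_mp.HDefs
import Pool.Agent.Lib.MP_4b14b2_mp.NonEquiv

/-! Transfer from polynomial elements of the Laurent algebra to differential polynomials. -/

namespace Pool.Agent.Lib.MP_4b14b2_mp.Lau

open Finset

noncomputable def var : ℕ → DPoly
  | 0 => u
  | n + 1 => MvPolynomial.X n

noncomputable def kap : MvPolynomial ℕ ℂ →ₐ[ℂ] DPoly := MvPolynomial.aeval var
noncomputable def iot : MvPolynomial ℕ ℂ →ₐ[ℂ] A := MvPolynomial.aeval x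
noncomputable def toN (m : G) : ℕ →₀ ℕ := m.mapRange Int.toNat rfl
noncomputable def ofN : (ℕ →₀ ℕ) →+ G := Finsupp.mapRange.addMonoidHom (Nat.castAddMonoidHom ℤ)

lemma ofN_apply (s : ℕ →₀ ℕ) (n : ℕ) : ofN s n = s n := by simp [ofN]
lemma toN_ofN (s : ℕ →₀ ℕ) : toN (ofN s) = s := by ext n; simp [toN, ofN_apply]
lemma ofN_toN {m : G} (hm : nn m) : ofN (toN m) = m := by
  ext n; simp [toN, ofN_apply, hm n trivial]
lemma ofN_single (n k : ℕ) : ofN (Finsupp.single n k) = k • e n := by
  ext i; simp only [ofN_apply, Finsupp.single_apply, Finsupp.smul_apply, e_apply]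
  split_ifs <;> simp

lemma monomial_add_one (s t : ℕ →₀ ℕ) : (MvPolynomial.monomial (s + t) 1 : MvPolynomial ℕ ℂ) =
    MvPolynomial.monomial s 1 * MvPolynomial.monomial t 1 := by
  rw [MvPolynomial.monomial_mul, mul_one]

lemma iot_monomial (s : ℕ →₀ ℕ) : iot (MvPolynomial.monomial s 1) = mon (ofN s) := by
  induction s using Finsupp.induction_linear with
  | zero => simp [mon_zero]
  | add s t hs ht => rw [monomial_add_one, map_mul, hs, ht, map_add, mon_add]
  | single n k =>
    rw [← MvPolynomial.X_pow_eq_monomial, map_pow, ofN_single, mon_nsmul]; simp [iot, x]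

noncomputable def tau : A →ₗ[ℂ] DPoly := lin fun m => kap (MvPolynomial.monomial (toN m) 1)

lemma tau_iot (g : MvPolynomial ℕ ℂ) : tau (iot g) = kap g := by
  induction g using MvPolynomial.induction_on' with
  | monomial s a =>
    have : (MvPolynomial.monomial s a : MvPolynomial ℕ ℂ) = a • MvPolynomial.monomial s 1 := by
      simp [MvPolynomial.smul_monomial]
    rw [this, map_smul, map_smul, map_smul, iot_monomial, tau, lin_mon, toN_ofN]
  | add p q hp hq => simp only [map_add, hp, hq]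

lemma exists_iot {f : A} (hf : f ∈ Supp nn) : ∃ g, iot g = f :=
  Supp_ind hf LinearMap.id (LinearMap.range iot.toLinearMap) fun m hm =>
    ⟨MvPolynomial.monomial (toN m) 1, by
      rw [AlgHom.toLinearMap_apply, iot_monomial, ofN_toN hm]; rfl⟩

lemma iot_X (n : ℕ) : iot (MvPolynomial.X n) = x n := by simp [iot]

lemma iot_C (a : ℂ) : iot (MvPolynomial.C a) = a • 1 := by
  simp [iot, Algebra.algebraMap_eq_smul_one]

lemma iot_mem (g : MvPolynomial ℕ ℂ) : iot g ∈ Supp nn := by
  induction g using MvPolynomial.induction_on with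
  | C a => rw [iot_C]; exact Submodule.smul_mem _ _ (one_ok _)
  | add p q hp hq => rw [map_add]; exact add_mem hp hq
  | mul_X p n hp => rw [map_mul, iot_X]; exact mul_ok hp (x_ok _ n)

lemma tau_mul {f g : A} (hf : f ∈ Supp nn) (hg : g ∈ Supp nn) : tau (f * g) = tau f * tau g := by
  obtain ⟨f, rfl⟩ := exists_iot hf
  obtain ⟨g, rfl⟩ := exists_iot hg
  rw [← map_mul, tau_iot, tau_iot, tau_iot, map_mul]

lemma tau_x (n : ℕ) : tau (x n) = var n := by rw [← iot_X, tau_iot]; simp [kap]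
lemma tau_one : tau 1 = 1 := by rw [← map_one iot, tau_iot, map_one]

lemma tau_der {q : ℕ → A} (hq : ∀ n, q n ∈ Supp nn) {f : A} (hf : f ∈ Supp nn) :
    tau (der q f) = gen (RingHom.id _) (fun n => tau (q n)) (tau f) := by
  obtain ⟨g, rfl⟩ := exists_iot hf
  induction g using MvPolynomial.induction_on with
  | C a =>
    have : kap (MvPolynomial.C a) = MvPolynomial.C (PowerSeries.C a) := by
      rw [kap, MvPolynomial.aeval_C]; rfl
    rw [tau_iot, this, gen_C, iot_C]; simp
  | add p r hp hr => simp only [map_add, gen_add, hp (iot_mem _), hr (iot_mem _)]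
  | mul_X p n hp =>
    have hx : gen (RingHom.id _) (fun n => tau (q n)) (var n) = tau (q n) := by
      cases n with
      | zero => rw [var, u, gen_C]; simp
      | succ n => rw [var, gen_X]
    rw [map_mul, iot_X, Derivation.leibniz, der_x, smul_eq_mul, smul_eq_mul, map_add,
      tau_mul (iot_mem p) (hq n), tau_mul (x_ok _ n) (der_ok (iot_mem p) hq), hp (iot_mem p),
      tau_mul (iot_mem p) (x_ok _ n), gen_mul, tau_x, hx]
    simp only [RingHom.id_apply]; ring

lemma tau_Dx {f : A} (hf : f ∈ Supp nn) : tau (Dx f) = dx (tau f) := by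
  rw [Dx, tau_der (fun n => x_ok _ _) hf, dx_eq_gen]; simp only [tau_x, var]

lemma tau_Dn {f : A} (hf : f ∈ Supp nn) (n : ℕ) : tau (Dn n f) = dx^[n] (tau f) := by
  induction n with
  | zero => rfl
  | succ n ih => rw [Dn_succ, tau_Dx (Dn_ok hf n), ih, Function.iterate_succ_apply']

lemma tau_ev {Q f : A} (hQ : Q ∈ Supp nn) (hf : f ∈ Supp nn) :
    tau (ev Q f) = DD (tau Q) (tau f) := by
  rw [ev, tau_der (fun n => Dn_ok hQ n) hf, DD]; simp only [tau_Dn hQ]

lemma ite_ok (p : Prop) [Decidable p] : (if p then 1 else 0 : A) ∈ Supp nn := by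
  split_ifs
  · exact one_ok _
  · exact zero_mem _

lemma tau_pd_zero {f : A} (hf : f ∈ Supp nn) : tau (pd 0 f) = du (tau f) := by
  rw [pd, tau_der (fun n => ite_ok _) hf, gen]; simp [tau_one]

lemma tau_pd_succ {f : A} (hf : f ∈ Supp nn) (i : ℕ) :
    tau (pd (i + 1) f) = MvPolynomial.pderiv i (tau f) := by
  rw [pd, tau_der (fun n => ite_ok _) hf, gen, Finset.sum_eq_single i]
  · simp [tau_one]
  · intro j _ hj; simp [hj]
  · intro h; simp [MvPolynomial.pderiv_eq_zero_of_notMem_vars h]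

lemma tau_E {f : A} (hf : f ∈ Supp nn) : tau (E f) = varDer (tau f) := by
  obtain ⟨N, hN⟩ := exists_V f
  let N' := max N ((tau f).vars.sup id + 1)
  have hs : (tau f).vars ⊆ range N' := fun i hi => mem_range.mpr (by
    have : i ≤ (tau f).vars.sup id := Finset.le_sup (f := id) hi
    omega)
  rw [E_eq_sum (V_mono hN (by omega : N ≤ N' + 1)), Finset.sum_range_succ', map_add, map_sum,
    varDer, Finset.sum_subset hs (fun i _ hi => by
      rw [MvPolynomial.pderiv_eq_zero_of_notMem_vars hi, Function.iterate_fixed dx_zero, mul_zero]),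
    add_comm]
  congr 1
  · rw [pow_zero, one_smul, Dn_zero, tau_pd_zero hf]
  · refine Finset.sum_congr rfl fun i _ => ?_
    rw [map_smul, tau_Dn (pd_ok _ hf), tau_pd_succ hf, Algebra.smul_def]; simp

/-- weights of u_0, u_1, ... from weights of u_1, u_2, ... -/
def wext (w : ℕ → ℕ) : ℕ → ℕ
  | 0 => 0
  | n + 1 => w n

lemma kap_whom (w : ℕ → ℕ) (s : ℕ →₀ ℕ) :
    (kap (MvPolynomial.monomial s 1)).IsWeightedHomogeneous w (Finsupp.weight (wext w) s) := by
  induction s using Finsupp.induction_linear with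
  | zero => simpa using MvPolynomial.isWeightedHomogeneous_one _ w
  | add s t hs ht => rw [monomial_add_one, map_mul, map_add]; exact hs.mul ht
  | single n k =>
    rw [← MvPolynomial.X_pow_eq_monomial, map_pow, Finsupp.weight_single]
    refine MvPolynomial.IsWeightedHomogeneous.pow ?_ k
    rw [kap, MvPolynomial.aeval_X]
    cases n with
    | zero => exact MvPolynomial.isWeightedHomogeneous_C _ _
    | succ n => exact MvPolynomial.isWeightedHomogeneous_X _ _ _

lemma weight_ofN (w : ℕ → ℕ) (s : ℕ →₀ ℕ) :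
    Finsupp.weight (fun n => (w n : ℤ)) (ofN s) = (Finsupp.weight w s : ℕ) := by
  induction s using Finsupp.induction_linear with
  | zero => simp
  | add s t hs ht => simp [hs, ht]
  | single n k => simp [ofN_single, e, Finsupp.weight_single]

lemma tau_whom (w : ℕ → ℕ) (k : ℕ) {f : A} (hf : f ∈ Supp nn)
    (hk : f ∈ Supp fun m => Finsupp.weight (fun n => (wext w n : ℤ)) m = k) :
    (tau f).IsWeightedHomogeneous w k :=
  Supp_ind (Supp_and hf hk) tau
    ((MvPolynomial.weightedHomogeneousSubmodule (PowerSeries ℂ) w k).restrictScalars ℂ)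
    fun m hm => by
      have h := kap_whom w (toN m)
      have h2 := weight_ofN (wext w) (toN m)
      rw [ofN_toN hm.1, hm.2] at h2
      rw [← Int.natCast_inj.mp h2] at h
      rw [tau, lin_mon]; exact h

lemma tau_hasDeg {k : ℕ} {l : ℤ} {f : A} (hf : f ∈ Supp nn) (hk : f ∈ Supp (hom k l)) :
    HasDeg (tau f) k :=
  tau_whom _ k hf (Supp_mono hk fun m hm => by
    have : (fun n => ((wext (fun i => i + 1) n : ℕ) : ℤ)) = fun n : ℕ => (n : ℤ) := by
      funext n; cases n <;> rfl
    rw [this]; exact hm.1)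

lemma weight_wext_one (m : G) :
    Finsupp.weight (fun n => (wext (fun _ => 1) n : ℤ)) m = len m - m 0 := by
  induction m using Finsupp.induction_linear with
  | zero => simp
  | add f g hf hg => simp only [map_add, hf, hg, Finsupp.add_apply]; ring
  | single n c => cases n <;> simp [Finsupp.weight_single, len_single, wext]

lemma weight_wext_u1 (m : G) :
    Finsupp.weight (fun n => (wext (Pi.single 0 1) n : ℤ)) m = m 1 := by
  induction m using Finsupp.induction_linear with
  | zero => simp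
  | add f g hf hg => simp only [map_add, hf, hg, Finsupp.add_apply]
  | single n c => rcases n with _ | _ | n <;> simp [Finsupp.weight_single, wext]

lemma tau_F (d : ℕ) : tau (F d) = ((d.factorial : ℂ)⁻¹) • u ^ d := by
  rw [F, map_smul, mon_nsmul, ← x, ← iot_X, ← map_pow, tau_iot]; simp [kap, var]

/-- the series ∑ ε^(18 j) P j -/
noncomputable def Sr (P : ℕ → A) : DSeries :=
  PowerSeries.mk fun k => if 18 ∣ k then tau (P (k / 18)) else 0

lemma coeff_Sr (P : ℕ → A) (k : ℕ) :
    PowerSeries.coeff k (Sr P) = if 18 ∣ k then tau (P (k / 18)) else 0 := by simp [Sr]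

lemma Sr_hasDeg {P : ℕ → A} {a : ℕ} {l : ℕ → ℤ} (h1 : ∀ j, P j ∈ Supp nn)
    (h2 : ∀ j : ℕ, P j ∈ Supp (hom (18 * j + a) (l j))) : SeriesHasDeg (Sr P) a := by
  intro k
  rw [coeff_Sr]
  split_ifs with h
  · exact tau_hasDeg (h1 _) (hom_congr (h2 (k / 18)) (by omega) rfl)
  · exact hasDeg_zero _

lemma DD_zero_left (f : DPoly) : DD 0 f = 0 := by
  simp [DD, gen, Function.iterate_fixed dx_zero]

lemma DD_zero_right (q : DPoly) : DD q 0 = 0 := gen_zero _ _

lemma coeff_flow_Sr {P P' : ℕ → A} (h : ∀ j, P j ∈ Supp nn) (h' : ∀ j, P' j ∈ Supp nn) (n : ℕ) :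
    PowerSeries.coeff n (flow (Sr P) (Sr P')) =
      if 18 ∣ n then tau (∑ p ∈ antidiagonal (n / 18), ev (P p.2) (P' p.1)) else 0 := by
  rw [coeff_flow]
  simp only [coeff_flowPoly, coeff_Sr]
  have h0 : ∀ p : ℕ × ℕ, ¬ (18 ∣ p.1 ∧ 18 ∣ p.2) →
      DD (if 18 ∣ p.2 then tau (P (p.2 / 18)) else 0)
        (if 18 ∣ p.1 then tau (P' (p.1 / 18)) else 0) = 0 := by
    intro p hp
    by_cases h1 : 18 ∣ p.1
    · rw [if_neg fun h2 => hp ⟨h1, h2⟩, DD_zero_left]
    · rw [if_neg h1, DD_zero_right]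
  split_ifs with hn
  · rw [map_sum]
    symm
    refine Finset.sum_of_injOn (fun p : ℕ × ℕ => (18 * p.1, 18 * p.2)) ?_ ?_ ?_ ?_
    · intro p _ p' _ hpp
      simp only [Prod.mk.injEq] at hpp
      exact Prod.ext (by omega) (by omega)
    · intro p hp
      have := mem_antidiagonal.mp hp
      exact mem_antidiagonal.mpr (by simp only; omega)
    · intro p hp hnot
      refine h0 p fun h1 => hnot ⟨(p.1 / 18, p.2 / 18), ?_, ?_⟩
      · have := mem_antidiagonal.mp hp
        exact mem_coe.mpr (mem_antidiagonal.mpr (by simp only; omega))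
      · exact Prod.ext (by simp only; omega) (by simp only; omega)
    · intro p _
      simp [tau_ev (h _) (h' _)]
  · refine Finset.sum_eq_zero fun p hp => h0 p fun h1 => hn ?_
    have := mem_antidiagonal.mp hp
    omega

/-- the flows attached to a family of potentials -/
noncomputable def QQ (P : ℕ → ℕ → A) (d : ℕ) : DSeries := Sr fun j => Dx (P j (d + 1))

variable {P : ℕ → ℕ → A}

lemma coeff_zero_QQ (h0 : ∀ d, P 0 d = F d) (d : ℕ) :
    PowerSeries.coeff 0 (QQ P d) = ((d.factorial : ℂ)⁻¹) • (u ^ d * MvPolynomial.X 0) := by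
  rw [QQ, coeff_Sr, if_pos (dvd_zero _), Nat.zero_div, h0, der_F_succ, Dx_x,
    tau_mul (F_ok _ d) (x_ok _ _), tau_F, tau_x, var, smul_mul_assoc]

theorem isDeformation_QQ (hG : ∀ j, Good j (P j)) (h0 : ∀ d, P 0 d = F d)
    (hc : ∀ d d' n, ∑ p ∈ antidiagonal n, br (P p.1 d) (P p.2 d') = 0) : IsDeformation (QQ P) := by
  refine ⟨fun d => Sr_hasDeg (fun j => Dx_ok ((hG j).nn _)) fun j => Dx_hom ((hG j).hom _),
    coeff_zero_QQ h0, fun d d' => ?_⟩
  ext1 n
  rw [QQ, QQ, coeff_flow_Sr (fun j => Dx_ok ((hG j).nn _)) (fun j => Dx_ok ((hG j).nn _)),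
    coeff_flow_Sr (fun j => Dx_ok ((hG j).nn _)) (fun j => Dx_ok ((hG j).nn _))]
  have h := congrArg Dx (hc (d + 1) (d' + 1) (n / 18))
  rw [map_sum, map_zero] at h
  simp only [Dx_br] at h
  rw [Finset.sum_sub_distrib, sub_eq_zero] at h
  rw [← h, ← Finset.Nat.sum_antidiagonal_swap]
  rfl

theorem isHamiltonian_QQ (hG : ∀ j, Good j (P j)) : IsHamiltonian (QQ P) := by
  have hd : ∀ d, SeriesHasDeg (Sr fun j => P j d) 0 := fun d =>
    Sr_hasDeg (fun j => (hG j).nn d) fun j => hom_congr ((hG j).hom d) (by simp) rfl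
  refine ⟨fun d => Sr fun j => P j (d + 1), fun d => Sr fun j => P j (d + 2), fun d =>
    ⟨hd _, hd _, ?_, ?_⟩⟩
  · ext1 k
    rw [coeff_dxS, QQ, coeff_Sr, coeff_Sr]
    split_ifs
    · exact tau_Dx ((hG _).nn _)
    · exact dx_zero.symm
  · ext1 k
    rw [varDerS, PowerSeries.coeff_mk, coeff_Sr, coeff_Sr]
    split_ifs
    · rw [← tau_E ((hG _).nn _), (hG _).eul]
    · rw [← map_zero tau, ← tau_E (zero_mem _), map_zero E]

theorem b_QQ (hG : ∀ j, Good j (P j)) (k : ℕ) (hk : 2 ≤ k) : b (QQ P 1) k = 0 := by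
  rw [b, QQ, coeff_Sr]
  split_ifs with h
  · have hj : (k - 1) / 18 ≠ 0 := by omega
    generalize (k - 1) / 18 = j at hj
    have h1 : pd 0 (Dx (P j (1 + 1))) = 0 := by
      rw [pd_zero_Dx, (hG j).gal, ((hG j).low hj).2, map_zero]
    have h2 := tau_whom (fun _ => 1) (2 + 6 * j) (Dx_ok ((hG j).nn (1 + 1)))
      (Supp_mono (Supp_and (mem_of_pd_zero h1) (Dx_hom ((hG j).hom (1 + 1)))) fun m hm => by
        rw [weight_wext_one, hm.1, hm.2.2]; push_cast; ring)
    refine h2.coeff_eq_zero _ ?_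
    rw [Finsupp.weight_single]; simp; omega
  · rfl

theorem b11_QQ : b11 (QQ P 1) = 0 := by
  rw [b11, QQ, coeff_Sr, if_neg (by omega)]; rfl

end Pool.Agent.Lib.MP_4b14b2_mp.Lau
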