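import Pool.Agent.Lib.MP_4b14b2_mp.Basic

namespace Pool.Agent.Lib.MP_4b14b2_mp

open Finset

/-! ### Degrees -/

lemma HasDeg.mul {f g : DPoly} {a c : ℕ} (hf : HasDeg f a) (hg : HasDeg g c) :
    HasDeg (f * g) (a + c) := MvPolynomial.IsWeightedHomogeneous.mul hf hg

lemma HasDeg.add {f g : DPoly} {a : ℕ} (hf : HasDeg f a) (hg : HasDeg g a) :
    HasDeg (f + g) a := MvPolynomial.IsWeightedHomogeneous.add hf hg

lemma hasDeg_C (g : PowerSeries ℂ) : HasDeg (MvPolynomial.C g) 0 :=
  MvPolynomial.isWeightedHomogeneous_C _ g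

lemma hasDeg_X (i : ℕ) : HasDeg (MvPolynomial.X i) (i + 1) :=
  MvPolynomial.isWeightedHomogeneous_X _ _ i

lemma hasDeg_zero (a : ℕ) : HasDeg 0 a := MvPolynomial.isWeightedHomogeneous_zero _ _ _

lemma HasDeg.sum {ι : Type} (s : Finset ι) (f : ι → DPoly) (a : ℕ) (h : ∀ i ∈ s, HasDeg (f i) a) :
    HasDeg (∑ i ∈ s, f i) a := MvPolynomial.IsWeightedHomogeneous.sum s f a h

lemma HasDeg.du {f : DPoly} {a : ℕ} (hf : HasDeg f a) : HasDeg (du f) a := by
  intro m hm
  apply hf
  intro h0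
  apply hm
  rw [coeff_du, h0, map_zero]

lemma HasDeg.dx {f : DPoly} {a : ℕ} (hf : HasDeg f a) : HasDeg (dx f) (a + 1) := by
  classical
  unfold Pool.Agent.Lib.MP_4b14b2_mp.dx
  refine HasDeg.add ?_ (HasDeg.sum _ _ _ fun i hi => ?_)
  · have := (hasDeg_X 0).mul hf.du
    rwa [zero_add, add_comm] at this
  · obtain ⟨m, hm, him⟩ := (MvPolynomial.mem_vars_iff_mem_support i).mp hi
    have hw : Finsupp.weight (fun i => i + 1) m = a := hf (MvPolynomial.mem_support_iff.mp hm)
    have hle : i + 1 ≤ a := by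
      rw [← hw]
      exact Finsupp.le_weight_of_ne_zero' (fun i => i + 1) (Finsupp.mem_support_iff.mp him)
    obtain ⟨n', hn'⟩ := Nat.exists_eq_add_of_le' hle
    have h1 : HasDeg (MvPolynomial.pderiv i f) n' :=
      MvPolynomial.IsWeightedHomogeneous.pderiv hf hn'.symm
    have := (hasDeg_X (i + 1)).mul h1
    have e : i + 1 + 1 + n' = a + 1 := by omega
    rwa [e] at this

lemma HasDeg.dx_iter {f : DPoly} {a : ℕ} (hf : HasDeg f a) (k : ℕ) :
    HasDeg (Pool.Agent.Lib.MP_4b14b2_mp.dx^[k] f) (k + a) := by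
  induction k with
  | zero => simpa using hf
  | succ k ih =>
    rw [Function.iterate_succ_apply']
    have := ih.dx
    have e : k + a + 1 = k + 1 + a := by omega
    rwa [e] at this

lemma SeriesHasDeg.mul {F G : DSeries} {a c : ℕ} (hF : SeriesHasDeg F a) (hG : SeriesHasDeg G c) :
    SeriesHasDeg (F * G) (a + c) := by
  intro k
  rw [PowerSeries.coeff_mul]
  refine HasDeg.sum _ _ _ fun p hp => ?_
  have hp' : p.1 + p.2 = k := by simpa using hp
  have := (hF p.1).mul (hG p.2)
  have e : p.1 + a + (p.2 + c) = k + (a + c) := by omega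
  rwa [e] at this

lemma seriesHasDeg_C {f : DPoly} {a : ℕ} (hf : HasDeg f a) : SeriesHasDeg (PowerSeries.C f) a := by
  intro k
  rw [PowerSeries.coeff_C]
  split_ifs with h
  · subst h; simpa using hf
  · exact hasDeg_zero _

lemma SeriesHasDeg.pow {F : DSeries} (hF : SeriesHasDeg F 0) (d : ℕ) : SeriesHasDeg (F ^ d) 0 := by
  induction d with
  | zero =>
    have := seriesHasDeg_C (hasDeg_C 1)
    simpa using this
  | succ d ih => rw [pow_succ]; exact ih.mul hF

/-! ### The first hierarchy -/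

noncomputable def U : DSeries := PowerSeries.C (MvPolynomial.X 0)

noncomputable def hh : DSeries := PowerSeries.C u + PowerSeries.X * U

noncomputable def kc (d : ℕ) : DPoly := MvPolynomial.C (PowerSeries.C ((d.factorial : ℂ)⁻¹))

noncomputable def QA (d : ℕ) : DSeries := PowerSeries.C (kc d) * (U * hh ^ d)

lemma smul_eq_kc (d : ℕ) (f : DPoly) : ((d.factorial : ℂ)⁻¹) • f = kc d * f := by
  rw [kc, MvPolynomial.C_mul']
  ext1 m
  simp only [MvPolynomial.coeff_smul, smul_eq_mul]
  rw [PowerSeries.smul_eq_C_mul]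

lemma seriesHasDeg_hh : SeriesHasDeg hh 0 := by
  intro k
  unfold hh U
  rcases k with _ | _ | k
  · simpa [u] using hasDeg_C PowerSeries.X
  · simpa [PowerSeries.coeff_succ_X_mul, PowerSeries.coeff_C] using hasDeg_X 0
  · simpa [PowerSeries.coeff_X, PowerSeries.coeff_C] using hasDeg_zero _

lemma seriesHasDeg_U : SeriesHasDeg U 1 := seriesHasDeg_C (hasDeg_X 0)

lemma dxS_pow (F : DSeries) (d : ℕ) : dxS (F ^ d) = (d : DSeries) * F ^ (d - 1) * dxS F := by
  induction d with
  | zero =>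
    have := dxS_C (MvPolynomial.C 1)
    rw [dx_C, PowerSeries.derivative_one] at this
    simpa using this
  | succ d ih =>
    rw [pow_succ, dxS_mul, ih]
    cases d with
    | zero => simp
    | succ d => simp only [Nat.add_sub_cancel, pow_succ]; push_cast; ring

lemma flow_pow (Q F : DSeries) (d : ℕ) :
    flow Q (F ^ d) = (d : DSeries) * F ^ (d - 1) * flow Q F := by
  induction d with
  | zero =>
    have := flow_C Q (MvPolynomial.C 1)
    rw [flowPoly_C, PowerSeries.derivative_one] at this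
    simpa using this
  | succ d ih =>
    rw [pow_succ, flow_mul, ih]
    cases d with
    | zero => simp
    | succ d => simp only [Nat.add_sub_cancel, pow_succ]; push_cast; ring

lemma flow_U (Q : DSeries) : flow Q U = dxS Q := by
  rw [U, flow_C, flowPoly_X]; rfl

lemma flow_u (Q : DSeries) : flow Q (PowerSeries.C u) = Q := by
  rw [flow_C, u, flowPoly_C]; simp

lemma flow_hh (Q : DSeries) : flow Q hh = Q + PowerSeries.X * dxS Q := by
  rw [hh, flow_add, flow_X_mul, flow_U, flow_u]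

lemma dxS_hh : dxS hh = U + PowerSeries.X * dxS U := by
  rw [hh, dxS_add, dxS_X_mul, dxS_C, dx_u]; rfl

lemma flow_kc (Q : DSeries) (d : ℕ) : flow Q (PowerSeries.C (kc d)) = 0 := by
  rw [flow_C, kc, flowPoly_C]; simp

lemma dxS_kc (d : ℕ) : dxS (PowerSeries.C (kc d)) = 0 := by
  rw [dxS_C, kc, dx_C]; simp

lemma isDeformation_QA : IsDeformation QA := by
  refine ⟨fun d => ?_, fun d => ?_, fun d e => ?_⟩
  · have := (seriesHasDeg_C (hasDeg_C (PowerSeries.C ((d.factorial : ℂ)⁻¹)))).mul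
      (seriesHasDeg_U.mul (seriesHasDeg_hh.pow d))
    simpa [QA, kc] using this
  · rw [smul_eq_kc]
    simp [QA, U, hh, mul_comm]
  · have h1 : ∀ Q e, flow Q (QA e) = PowerSeries.C (kc e) * (dxS Q * hh ^ e +
        U * ((e : DSeries) * hh ^ (e - 1) * (Q + PowerSeries.X * dxS Q))) := by
      intro Q e
      rw [QA, flow_mul, flow_kc, flow_mul, flow_U, flow_pow, flow_hh]; ring
    have h2 : ∀ e, dxS (QA e) = PowerSeries.C (kc e) * (dxS U * hh ^ e +
        U * ((e : DSeries) * hh ^ (e - 1) * (U + PowerSeries.X * dxS U))) := by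
      intro e
      rw [QA, dxS_mul, dxS_kc, dxS_mul, dxS_pow, dxS_hh]; ring
    rw [h1, h1, h2, h2, QA, QA]
    ring

/-! ### The second hierarchy -/

noncomputable def LL (f : DPoly) : DSeries := PowerSeries.mk fun k => dx^[k] f

lemma LL_eq (f : DPoly) : LL f = PowerSeries.C f + PowerSeries.X * dxS (LL f) := by
  ext1 k
  cases k with
  | zero => simp [LL]
  | succ k =>
    simp [LL, PowerSeries.coeff_succ_X_mul, coeff_dxS, Function.iterate_succ_apply']

noncomputable def gc (d : ℕ) : PowerSeries ℂ :=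
  PowerSeries.C ((d.factorial : ℂ)⁻¹) * PowerSeries.X ^ d

noncomputable def QB (d : ℕ) : DSeries := U * LL (MvPolynomial.C (gc d))

lemma comm_LL (f g : PowerSeries ℂ) :
    flow (U * LL (MvPolynomial.C f)) (U * LL (MvPolynomial.C g)) =
      flow (U * LL (MvPolynomial.C g)) (U * LL (MvPolynomial.C f)) := by
  have hL : ∀ a : PowerSeries ℂ, U * PowerSeries.C (MvPolynomial.C (PowerSeries.derivative ℂ a)) =
      dxS (LL (MvPolynomial.C a)) - PowerSeries.X * dxS (dxS (LL (MvPolynomial.C a))) := by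
    intro a
    have h := congrArg dxS (LL_eq (MvPolynomial.C a))
    rw [dxS_add, dxS_X_mul, dxS_C, dx_C, map_mul] at h
    rw [U]
    linear_combination -h
  have hD : ∀ (Q : DSeries) (a : PowerSeries ℂ), flow Q (LL (MvPolynomial.C a)) =
      Q * PowerSeries.C (MvPolynomial.C (PowerSeries.derivative ℂ a)) +
        PowerSeries.X * dxS (flow Q (LL (MvPolynomial.C a))) := by
    intro Q a
    have h := congrArg (flow Q) (LL_eq (MvPolynomial.C a))
    rw [flow_add, flow_X_mul, flow_C, flowPoly_C, flow_dxS] at h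
    exact h
  have hf := hL f
  have hg := hL g
  have hfg := hD (U * LL (MvPolynomial.C f)) g
  have hgf := hD (U * LL (MvPolynomial.C g)) f
  rw [flow_mul, flow_mul, flow_U, flow_U, dxS_mul, dxS_mul]
  generalize flow (U * LL (MvPolynomial.C f)) (LL (MvPolynomial.C g)) = A at hfg ⊢
  generalize flow (U * LL (MvPolynomial.C g)) (LL (MvPolynomial.C f)) = B at hgf ⊢
  generalize LL (MvPolynomial.C f) = F at *
  generalize LL (MvPolynomial.C g) = G at *
  have hW : dxS F * G - dxS G * F + A - B = 0 := by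
    apply eq_zero_of_eq_X_mul_dxS
    rw [dxS_sub, dxS_add, dxS_sub, dxS_mul, dxS_mul]
    linear_combination hfg - hgf + F * hg - G * hf
  linear_combination U * hW

lemma isDeformation_QB : IsDeformation QB := by
  refine ⟨fun d => ?_, fun d => ?_, fun d e => comm_LL _ _⟩
  · have h : SeriesHasDeg (LL (MvPolynomial.C (gc d))) 0 := by
      intro k
      simpa [LL] using (hasDeg_C (gc d)).dx_iter k
    exact seriesHasDeg_U.mul h
  · rw [smul_eq_kc]
    simp [QB, U, LL, gc, kc, u, mul_comm, mul_left_comm]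

/-! ### Coefficients of the first flows -/

lemma coeff_QA_one (k : ℕ) : PowerSeries.coeff k (QA 1) =
    MvPolynomial.X 0 * PowerSeries.coeff k hh := by
  simp [QA, kc, U, PowerSeries.coeff_C_mul]

lemma coeff_QB_one (k : ℕ) : PowerSeries.coeff k (QB 1) = MvPolynomial.X 0 * dx^[k] u := by
  simp [QB, gc, U, LL, PowerSeries.coeff_C_mul, u]

lemma b_eq_zero (P : DSeries) (c : ℕ → DPoly)
    (h : ∀ k, PowerSeries.coeff k P = MvPolynomial.X 0 * c k) (k : ℕ) (hk : 2 ≤ k) :
    b P k = 0 := by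
  classical
  unfold b
  rw [h, MvPolynomial.coeff_X_mul', if_neg]
  rw [Finsupp.mem_support_iff, Finsupp.single_apply, if_neg (by omega)]
  simp

lemma QA0 : PowerSeries.coeff 0 (QA 1) = u * MvPolynomial.X 0 := by
  rw [coeff_QA_one]; simp [hh, mul_comm]
lemma QA1 : PowerSeries.coeff 1 (QA 1) = MvPolynomial.X 0 * MvPolynomial.X 0 := by
  rw [coeff_QA_one]; simp [hh, U]
lemma QA2 : PowerSeries.coeff 2 (QA 1) = 0 := by
  rw [coeff_QA_one]; simp [hh, U, PowerSeries.coeff_X]
lemma QA3 : PowerSeries.coeff 3 (QA 1) = 0 := by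
  rw [coeff_QA_one]; simp [hh, U, PowerSeries.coeff_X]
lemma QB0 : PowerSeries.coeff 0 (QB 1) = u * MvPolynomial.X 0 := by
  rw [coeff_QB_one]; simp [mul_comm]
lemma QB1 : PowerSeries.coeff 1 (QB 1) = MvPolynomial.X 0 * MvPolynomial.X 0 := by
  rw [coeff_QB_one]; simp [dx_u]
lemma QB2 : PowerSeries.coeff 2 (QB 1) = MvPolynomial.X 0 * MvPolynomial.X 1 := by
  rw [coeff_QB_one]; simp [dx_u, dx_X]
lemma QB3 : PowerSeries.coeff 3 (QB 1) = MvPolynomial.X 0 * MvPolynomial.X 2 := by
  rw [coeff_QB_one]; simp [dx_u, dx_X]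

end Pool.Agent.Lib.MP_4b14b2_mp
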