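import Pool.Agent.Lib.MP_4b14b2_mp.NDefs

/-! Flows and brackets in the frozen algebra. -/

namespace Pool.Agent.Lib.MP_4b14b2_mp.Nd

open MvPolynomial

variable {R : Type} [CommRing R]

lemma shk_X (m i : ℕ) : shk m (X i : AA R) = X (i + m) := mkDerivation_X _ _ _
lemma sh_X (i : ℕ) : sh (X i : AA R) = X (i + 1) := mkDerivation_X _ _ _
lemma fl_X (P : AA R) (i : ℕ) : fl P (X i) = (fun F : AA R => sh F)^[i] P := mkDerivation_X _ _ _
lemma Dx_X (x : R) (i : ℕ) : Dx x (X i : AA R) = C (x ^ i) := mkDerivation_X _ _ _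

lemma sh_iter_X (i j : ℕ) : (fun F : AA R => sh F)^[i] (X j) = X (j + i) := by
  induction i with
  | zero => rfl
  | succ i ih => rw [Function.iterate_succ_apply', ih, sh_X, add_assoc]

lemma nb_it_succ (i : ℕ) (P : AA R) :
    (fun F : AA R => sh F)^[i + 1] P = sh ((fun F : AA R => sh F)^[i] P) :=
  Function.iterate_succ_apply' _ _ _

lemma nb_it_add (i : ℕ) (P Q : AA R) : (fun F : AA R => sh F)^[i] (P + Q) =
    (fun F : AA R => sh F)^[i] P + (fun F : AA R => sh F)^[i] Q := by
  induction i with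
  | zero => rfl
  | succ i ih => rw [nb_it_succ, nb_it_succ, nb_it_succ, ih, map_add]

lemma nb_it_sub (i : ℕ) (P Q : AA R) : (fun F : AA R => sh F)^[i] (P - Q) =
    (fun F : AA R => sh F)^[i] P - (fun F : AA R => sh F)^[i] Q := by
  induction i with
  | zero => rfl
  | succ i ih => rw [nb_it_succ, nb_it_succ, nb_it_succ, ih, map_sub]

lemma nb_der_C (D : Derivation R (AA R) (AA R)) (c : R) (P : AA R) : D (C c * P) = C c * D P := by
  rw [← smul_eq_C_mul, ← smul_eq_C_mul, D.map_smul]

lemma nb_it_C (i : ℕ) (c : R) (P : AA R) :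
    (fun F : AA R => sh F)^[i] (C c * P) = C c * (fun F : AA R => sh F)^[i] P := by
  induction i with
  | zero => rfl
  | succ i ih => rw [nb_it_succ, nb_it_succ, ih, nb_der_C]

/-- Two derivations commute as soon as they commute on the variables. -/
lemma nb_comm (D E F : Derivation R (AA R) (AA R))
    (h : ∀ i, D (E (X i)) - E (D (X i)) = F (X i)) (P : AA R) : D (E P) - E (D P) = F P := by
  have : ⁅D, E⁆ = F := derivation_ext fun i => by rw [Derivation.commutator_apply, h]
  rw [← this, Derivation.commutator_apply]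

lemma fl_X_left (m : ℕ) : fl (X m : AA R) = shk m :=
  derivation_ext fun i => by rw [fl_X, sh_iter_X, shk_X, add_comm]
lemma fl_add (P P' Q : AA R) : fl (P + P') Q = fl P Q + fl P' Q := by
  have : fl (P + P') = fl P + fl P' := derivation_ext fun i => by
    rw [Derivation.add_apply, fl_X, fl_X, fl_X, nb_it_add]
  rw [this, Derivation.add_apply]
lemma fl_sub (P P' Q : AA R) : fl (P - P') Q = fl P Q - fl P' Q := by
  have : fl (P - P') = fl P - fl P' := derivation_ext fun i => by
    rw [Derivation.sub_apply, fl_X, fl_X, fl_X, nb_it_sub]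
  rw [this, Derivation.sub_apply]
lemma fl_zero (Q : AA R) : fl 0 Q = 0 := by
  have := fl_sub 0 0 Q
  rwa [sub_self, sub_self] at this
lemma fl_C_mul (c : R) (P Q : AA R) : fl (C c * P) Q = C c * fl P Q := by
  have : fl (C c * P) = c • fl P := derivation_ext fun i => by
    rw [Derivation.smul_apply, fl_X, fl_X, nb_it_C, smul_eq_C_mul]
  rw [this, Derivation.smul_apply, smul_eq_C_mul]
lemma fl_C_mul_right (c : R) (P Q : AA R) : fl P (C c * Q) = C c * fl P Q := nb_der_C _ _ _
lemma fl_sh (P Q : AA R) : fl P (sh Q) = sh (fl P Q) := by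
  have := nb_comm (fl P) sh 0 (fun i => by
    rw [sh_X, fl_X, fl_X, nb_it_succ, sub_self, Derivation.zero_apply]) Q
  rwa [Derivation.zero_apply, sub_eq_zero] at this

lemma nb_fl_it (i : ℕ) (P Q : AA R) :
    fl P ((fun F : AA R => sh F)^[i] Q) = (fun F : AA R => sh F)^[i] (fl P Q) := by
  induction i with
  | zero => rfl
  | succ i ih => rw [nb_it_succ, nb_it_succ, fl_sh, ih]

lemma fl_fl (P Q F : AA R) : fl P (fl Q F) - fl Q (fl P F) = fl (br P Q) F :=
  nb_comm _ _ _ (fun i => by rw [fl_X, fl_X, fl_X, nb_fl_it, nb_fl_it, br, nb_it_sub]) F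
lemma fl_eq_sum (P Q : AA R) (S : Finset ℕ) (h : ∀ i, i ∉ S → pderiv i Q = 0) :
    fl P Q = ∑ i ∈ S, (fun F : AA R => sh F)^[i] P * pderiv i Q := by
  have key : ∀ Q : AA R, ∀ T : Finset ℕ, Q.vars ⊆ T →
      fl P Q = ∑ i ∈ T, (fun F : AA R => sh F)^[i] P * pderiv i Q := by
    intro Q T hT
    have k2 : ∀ m : ℕ →₀ ℕ, m.support ⊆ T → ∀ c : R, fl P (monomial m c) =
        ∑ i ∈ T, (fun F : AA R => sh F)^[i] P * pderiv i (monomial m c) := by
      intro m hm c
      rw [fl, mkDerivation_monomial, Finsupp.sum, Finset.smul_sum]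
      refine Finset.sum_subset_zero_on_sdiff hm (fun i hi => ?_) fun i _ => ?_
      · rw [pderiv_monomial, Finsupp.notMem_support_iff.1 (Finset.mem_sdiff.1 hi).2]
        simp
      · rw [pderiv_monomial, smul_eq_mul, smul_eq_C_mul, ← mul_assoc, C_mul_monomial, mul_comm]
    conv_lhs => rw [Q.as_sum]
    conv_rhs => rw [Q.as_sum]
    simp only [map_sum, Finset.mul_sum]
    rw [Finset.sum_comm]
    refine Finset.sum_congr rfl fun m hm => k2 m (fun i hi => hT ?_) _
    exact (mem_vars_iff_mem_support i).2 ⟨m, hm, hi⟩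
  rw [key Q (S ∪ Q.vars) Finset.subset_union_right]
  refine (Finset.sum_subset Finset.subset_union_left fun i _ hi => ?_).symm
  rw [h i hi, mul_zero]

lemma br_add_left (P P' Q : AA R) : br (P + P') Q = br P Q + br P' Q := by
  simp only [br, fl_add, map_add]; ring
lemma br_add_right (P Q Q' : AA R) : br P (Q + Q') = br P Q + br P Q' := by
  simp only [br, fl_add, map_add]; ring
lemma br_sub_left (P P' Q : AA R) : br (P - P') Q = br P Q - br P' Q := by
  simp only [br, fl_sub, map_sub]; ring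
lemma br_sub_right (P Q Q' : AA R) : br P (Q - Q') = br P Q - br P Q' := by
  simp only [br, fl_sub, map_sub]; ring
lemma br_zero_left (Q : AA R) : br 0 Q = 0 := by
  simp only [br, fl_zero, map_zero, sub_self]
lemma br_zero_right (P : AA R) : br P 0 = 0 := by
  simp only [br, fl_zero, map_zero, sub_self]
lemma br_C_mul_left (c : R) (P Q : AA R) : br (C c * P) Q = C c * br P Q := by
  simp only [br, fl_C_mul, fl_C_mul_right, mul_sub]
lemma br_C_mul_right (c : R) (P Q : AA R) : br P (C c * Q) = C c * br P Q := by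
  simp only [br, fl_C_mul, fl_C_mul_right, mul_sub]
lemma br_anti (P Q : AA R) : br P Q = -br Q P := by
  simp only [br, neg_sub]
lemma br_X_one_left (P : AA R) : br (X 1) P = 0 := by
  rw [br, fl_X_left, fl_X]
  exact sub_self _
lemma br_X_one_right (P : AA R) : br P (X 1) = 0 := by
  rw [br_anti, br_X_one_left, neg_zero]
lemma jacobi (P Q F : AA R) : br P (br Q F) - br Q (br P F) = br (br P Q) F := by
  have h1 := fl_fl P Q F
  have h2 := fl_fl Q F P
  have h3 := fl_fl P F Q
  have e1 : br P (br Q F) = fl P (fl Q F) - fl P (fl F Q) - fl (br Q F) P := by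
    rw [br, br, map_sub]
  have e2 : br Q (br P F) = fl Q (fl P F) - fl Q (fl F P) - fl (br P F) Q := by
    rw [br, br, map_sub]
  have e3 : br (br P Q) F = fl (br P Q) F - (fl F (fl P Q) - fl F (fl Q P)) := by
    rw [br, br, map_sub]
  rw [e1, e2, e3, ← h1, ← h2, ← h3]
  ring

lemma nb_pdX (D : Derivation R (AA R) (AA R)) (i j : ℕ) : D (pderiv j (X i)) = 0 := by
  by_cases h : i = j
  · rw [h, pderiv_X_self, D.map_one_eq_zero]
  · rw [pderiv_X_of_ne h, map_zero]

lemma pderiv_zero_sh (P : AA R) : pderiv 0 (sh P) = sh (pderiv 0 P) := by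
  have := nb_comm (pderiv 0) sh 0 (fun i => by
    rw [sh_X, nb_pdX, pderiv_X_of_ne (Nat.succ_ne_zero i), Derivation.zero_apply, sub_zero]) P
  rwa [Derivation.zero_apply, sub_eq_zero] at this

lemma nb_pd_it (i : ℕ) (P : AA R) :
    pderiv 0 ((fun F : AA R => sh F)^[i] P) = (fun F : AA R => sh F)^[i] (pderiv 0 P) := by
  induction i with
  | zero => rfl
  | succ i ih => rw [nb_it_succ, nb_it_succ, pderiv_zero_sh, ih]

lemma nb_pd_fl (P Q : AA R) : pderiv 0 (fl P Q) = fl (pderiv 0 P) Q + fl P (pderiv 0 Q) := by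
  exact sub_eq_iff_eq_add.1 (nb_comm (pderiv 0) (fl P) (fl (pderiv 0 P)) (fun i => by
    rw [fl_X, fl_X, nb_pd_it, nb_pdX, sub_zero]) Q)

lemma pderiv_zero_br (P Q : AA R) :
    pderiv 0 (br P Q) = br (pderiv 0 P) Q + br P (pderiv 0 Q) := by
  simp only [br, map_sub, nb_pd_fl]; ring
lemma pderiv_zero_K1 (κ : ℕ) (b : R) : pderiv 0 (K1 κ b) = X 1 := by
  simp [K1, Derivation.leibniz, pderiv_X, Pi.single_apply]

/-- Derivations that correspond on the variables correspond. -/
lemma nb_map {S : Type} [CommRing S] (φ : R →+* S) (D : Derivation R (AA R) (AA R))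
    (E : Derivation S (AA S) (AA S)) (h : ∀ i, map φ (D (X i)) = E (X i)) (P : AA R) :
    map φ (D P) = E (map φ P) := by
  induction P using MvPolynomial.induction_on with
  | C a => rw [map_C, derivation_C, derivation_C, map_zero]
  | add p q hp hq => simp only [map_add, hp, hq]
  | mul_X p i hp =>
    simp only [Derivation.leibniz, smul_eq_mul, map_add, map_mul, map_X, hp, h]

lemma map_shk {S : Type} [CommRing S] (φ : R →+* S) (m : ℕ) (P : AA R) :
    map φ (shk m P) = shk m (map φ P) :=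
  nb_map φ _ _ (fun i => by rw [shk_X, shk_X, map_X]) P
lemma map_sh {S : Type} [CommRing S] (φ : R →+* S) (P : AA R) :
    map φ (sh P) = sh (map φ P) := map_shk φ 1 P

lemma nb_map_it {S : Type} [CommRing S] (φ : R →+* S) (i : ℕ) (P : AA R) :
    map φ ((fun F : AA R => sh F)^[i] P) = (fun F : AA S => sh F)^[i] (map φ P) := by
  induction i with
  | zero => rfl
  | succ i ih => rw [nb_it_succ, nb_it_succ, map_sh, ih]

lemma map_fl {S : Type} [CommRing S] (φ : R →+* S) (P Q : AA R) :
    map φ (fl P Q) = fl (map φ P) (map φ Q) :=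
  nb_map φ _ _ (fun i => by rw [fl_X, fl_X, nb_map_it]) Q
lemma map_br {S : Type} [CommRing S] (φ : R →+* S) (P Q : AA R) :
    map φ (br P Q) = br (map φ P) (map φ Q) := by
  simp only [br, map_sub, map_fl]
lemma map_K1 {S : Type} [CommRing S] (φ : R →+* S) (κ : ℕ) (b : R) :
    map φ (K1 κ b) = K1 κ (φ b) := by
  simp only [K1, map_add, map_mul, map_C, map_X]

end Pool.Agent.Lib.MP_4b14b2_mp.Nd
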