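import Pool.Agent.Lib.MP_4b14b2_mp.NSubI

/-! The coefficients b_k are Miura invariants. -/

namespace Pool.Agent.Lib.MP_4b14b2_mp.Nd

open MvPolynomial

/-- The sum of the linear coefficients plus the derivative of the constant term. -/
noncomputable def ell (f : DPoly) : PowerSeries ℂ := gen constantCoeff (fun _ => 1) f

lemma ell_add (f g : DPoly) : ell (f + g) = ell f + ell g := gen_add _ _ _ _
lemma ell_mul (f g : DPoly) :
    ell (f * g) = ell f * constantCoeff g + constantCoeff f * ell g := gen_mul _ _ _ _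
lemma ell_C (g : PowerSeries ℂ) : ell (C g) = PowerSeries.derivative ℂ g := by
  unfold ell
  rw [gen_C, constantCoeff_C, one_mul]
lemma ell_X (i : ℕ) : ell (X i) = 1 := gen_X _ _ _
lemma ell_zero : ell 0 = 0 := gen_zero _ _
lemma ell_sum {ι : Type} (s : Finset ι) (f : ι → DPoly) :
    ell (∑ i ∈ s, f i) = ∑ i ∈ s, ell (f i) := map_sum (AddMonoidHom.mk' ell ell_add) f s

lemma cc_dx (f : DPoly) : constantCoeff (dx f) = 0 := by
  simp [dx]

lemma ell_dx (f : DPoly) : ell (dx f) = ell f := by
  induction f using MvPolynomial.induction_on with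
  | C a => rw [dx_C, ell_mul, ell_X, ell_C, ell_C, constantCoeff_C, constantCoeff_X]; ring
  | add p q hp hq => rw [dx_add, ell_add, ell_add, hp, hq]
  | mul_X p i hp =>
    rw [dx_mul, dx_X, ell_add, ell_mul, ell_mul, ell_mul, hp, cc_dx, ell_X, ell_X,
      constantCoeff_X, constantCoeff_X]
    ring

lemma ell_dx_iter (f : DPoly) (i : ℕ) : ell (dx^[i] f) = ell f := by
  induction i with
  | zero => rfl
  | succ i ih => rw [Function.iterate_succ_apply', ell_dx, ih]

lemma cc_dx_iter (f : DPoly) (i : ℕ) : constantCoeff (dx^[i + 1] f) = 0 := by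
  rw [Function.iterate_succ_apply', cc_dx]

lemma ell_DD {q : DPoly} (hq : constantCoeff q = 0) (f : DPoly) : ell (DD q f) = ell q * ell f := by
  have h1 : ell f = 1 * constantCoeff (du f) + ∑ i ∈ f.vars, 1 * constantCoeff (pderiv i f) := rfl
  have h2 : DD q f = q * du f + ∑ i ∈ f.vars, dx^[i + 1] q * pderiv i f := rfl
  rw [h1, h2, ell_add, ell_sum, ell_mul, hq, mul_add, Finset.mul_sum]
  simp only [ell_mul, ell_dx_iter, cc_dx_iter, zero_mul, add_zero, one_mul]

lemma cc_of_deg {f : DPoly} {d : ℕ} (hf : HasDeg f d) (hd : d ≠ 0) : constantCoeff f = 0 := by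
  rw [constantCoeff_eq]
  exact hf.coeff_eq_zero 0 (by simpa using hd.symm)

lemma ell_of_deg {f : DPoly} {j : ℕ} (hf : HasDeg f (j + 1)) :
    ell f = coeff (Finsupp.single j 1) f := by
  classical
  have h0 : constantCoeff (du f) = 0 := by
    have := cc_of_deg hf (by omega)
    rw [constantCoeff_eq] at this ⊢
    rw [coeff_du, this, map_zero]
  have h1 : ∀ i, constantCoeff (pderiv i f) = coeff (Finsupp.single i 1) f := by
    intro i
    rw [constantCoeff_eq]
    simp [coeff_pderiv]
  unfold ell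
  rw [gen_eq_of_subset _ _ f (insert j f.vars) (Finset.subset_insert _ _), h0, mul_zero, zero_add,
    Finset.sum_eq_single j]
  · rw [h1, one_mul]
  · intro i _ hi
    rw [h1, one_mul]
    refine hf.coeff_eq_zero _ ?_
    rw [Finsupp.weight_single]
    simpa using hi
  · intro hj
    exact absurd (Finset.mem_insert_self _ _) hj

/-- `ell` on series in ε. -/
noncomputable def elS (F : DSeries) : PowerSeries (PowerSeries ℂ) :=
  PowerSeries.mk fun n => ell (PowerSeries.coeff n F)

/-- The constant term on series in ε. -/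
noncomputable def ccS : DSeries →+* PowerSeries (PowerSeries ℂ) := PowerSeries.map constantCoeff

lemma coeff_elS (F : DSeries) (n : ℕ) :
    PowerSeries.coeff n (elS F) = ell (PowerSeries.coeff n F) := PowerSeries.coeff_mk _ _

lemma coeff_ccS (F : DSeries) (n : ℕ) :
    PowerSeries.coeff n (ccS F) = constantCoeff (PowerSeries.coeff n F) := PowerSeries.coeff_map _ _ _

lemma elS_add (F G : DSeries) : elS (F + G) = elS F + elS G := by
  ext1 n; simp only [coeff_elS, map_add, ell_add]

lemma elS_mul (F G : DSeries) : elS (F * G) = elS F * ccS G + ccS F * elS G := by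
  ext1 n
  simp only [coeff_elS, coeff_ccS, map_add, PowerSeries.coeff_mul, ell_sum, ell_mul,
    Finset.sum_add_distrib]

lemma elS_dxS (F : DSeries) : elS (dxS F) = elS F := by
  ext1 n; simp only [coeff_elS, coeff_dxS, ell_dx]

lemma elS_dxS_iter (F : DSeries) (i : ℕ) : elS (dxS^[i] F) = elS F := by
  ext1 n; simp only [coeff_elS, coeff_dxS_iter, ell_dx_iter]

lemma ccS_dxS_iter (F : DSeries) (i : ℕ) : ccS (dxS^[i + 1] F) = 0 := by
  ext1 n; simp only [coeff_ccS, coeff_dxS_iter, cc_dx_iter, map_zero]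

lemma ccS_w {v : DSeries} (hv : IsMiura v) : ccS (v - PowerSeries.C u) = 0 := by
  ext1 n
  rw [coeff_ccS, map_sub, PowerSeries.coeff_C, map_zero]
  split_ifs with h
  · rw [h, hv.2, sub_self, map_zero]
  · rw [sub_zero]
    exact cc_of_deg (hv.1 n) (by omega)

lemma ccS_sc {v : DSeries} (hv : IsMiura v) (g : PowerSeries ℂ) :
    ccS (substCoef v g) = PowerSeries.C g := by
  ext1 k
  rw [coeff_ccS, substCoef, PowerSeries.coeff_mk, map_sum]
  simp only [← coeff_ccS, map_mul, map_pow, ccS_w hv]
  rw [Finset.sum_eq_single 0]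
  · simp [ccS]
  · intro n _ hn
    rw [zero_pow hn, mul_zero, map_zero]
  · intro h
    exact absurd (Finset.mem_range.mpr k.succ_pos) h

lemma elS_sc {v : DSeries} (hv : IsMiura v) (g : PowerSeries ℂ) :
    elS (substCoef v g) = PowerSeries.C (PowerSeries.derivative ℂ g) * elS v := by
  have h0 : ccS (dxS v) = 0 := ccS_dxS_iter v 0
  rw [← elS_dxS, Dic.isD_dxS.sc hv.2, elS_mul, h0, ccS_sc hv, elS_dxS, mul_zero, zero_add]

lemma ccS_sH {v : DSeries} (hv : IsMiura v) (f : DPoly) :
    ccS (Dic.sH hv.2 f) = PowerSeries.C (constantCoeff f) := by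
  induction f using MvPolynomial.induction_on with
  | C a => rw [Dic.sH_C, ccS_sc hv, constantCoeff_C]
  | add p q hp hq => rw [map_add, map_add, hp, hq, map_add, map_add]
  | mul_X p i hp =>
    rw [map_mul, map_mul, Dic.sH_X, ccS_dxS_iter, map_mul, constantCoeff_X, mul_zero, mul_zero,
      map_zero]

lemma elS_sH {v : DSeries} (hv : IsMiura v) (f : DPoly) :
    elS (Dic.sH hv.2 f) = PowerSeries.C (ell f) * elS v := by
  induction f using MvPolynomial.induction_on with
  | C a => rw [Dic.sH_C, elS_sc hv, ell_C]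
  | add p q hp hq => rw [map_add, elS_add, hp, hq, ell_add, map_add, add_mul]
  | mul_X p i hp =>
    rw [map_mul, Dic.sH_X, elS_mul, ccS_dxS_iter, ccS_sH hv, elS_dxS_iter, ell_mul,
      constantCoeff_X, ell_X, mul_zero, mul_zero, zero_add, zero_add, mul_one]

lemma elS_subst {v : DSeries} (hv : IsMiura v) (P : DSeries) :
    elS (subst v P) = elS P * elS v := by
  ext1 n
  rw [coeff_elS, subst, PowerSeries.coeff_mk, ell_sum, PowerSeries.coeff_mul]
  refine Finset.sum_congr rfl fun p _ => ?_
  rw [← coeff_elS, ← Dic.sH_eq hv.2, elS_sH hv, PowerSeries.coeff_C_mul, coeff_elS P]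

lemma elS_flow {P : DSeries} (hP : SeriesHasDeg P 1) (F : DSeries) :
    elS (flow P F) = elS P * elS F := by
  ext1 n
  rw [coeff_elS, coeff_flow, ell_sum, mul_comm, PowerSeries.coeff_mul]
  refine Finset.sum_congr rfl fun p _ => ?_
  rw [coeff_flowPoly, ell_DD (cc_of_deg (hP p.2) (by omega)), coeff_elS, coeff_elS, mul_comm]

theorem b_invariant {v P P' : DSeries} (hv : IsMiura v) (hP : SeriesHasDeg P 1)
    (hP' : SeriesHasDeg P' 1) (h : flow P v = subst v P') (k : ℕ) (hk : 2 ≤ k) :
    b P k = b P' k := by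
  have h0 : elS v ≠ 0 := by
    intro h0
    have h1 := coeff_elS v 0
    rw [h0, hv.2, u, ell_C, map_zero] at h1
    simp at h1
  have h1 : elS P = elS P' := by
    refine mul_right_cancel₀ h0 ?_
    rw [← elS_flow hP, h, elS_subst hv]
  unfold b
  rw [← ell_of_deg (hP (k - 1)), ← ell_of_deg (hP' (k - 1)), ← coeff_elS, ← coeff_elS, h1]

end Pool.Agent.Lib.MP_4b14b2_mp.Nd
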