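import Pool.Agent.Lib.MP_4b14b2_mp.NDefs

/-! Divisibility by products of linear forms in two and three variables. -/

namespace Pool.Agent.Lib.MP_4b14b2_mp.Nd

open MvPolynomial

variable {K : Type} [Field K] [CharZero K]

omit [CharZero K] in
lemma rt_dvd {σ : Type} (v : σ → MvPolynomial σ K) (L : MvPolynomial σ K)
    (h : ∀ i, L ∣ X i - v i) (S : MvPolynomial σ K) : L ∣ S - aeval v S := by
  induction S using MvPolynomial.induction_on with
  | C a => simp
  | add p q hp hq =>
    have := dvd_add hp hq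
    rw [map_add]
    convert this using 1
    ring
  | mul_X p i hp =>
    have := dvd_add (hp.mul_right (X i)) ((h i).mul_left (aeval v p))
    rw [map_mul, aeval_X]
    convert this using 1
    ring

omit [CharZero K] in
lemma rt_step {σ : Type} {v : σ → MvPolynomial σ K} {L A S : MvPolynomial σ K}
    (h : ∀ i, L ∣ X i - v i) (hA : A ∣ S) (a0 : aeval v A ≠ 0) (hS : aeval v S = 0) :
    A * L ∣ S := by
  obtain ⟨S', rfl⟩ := hA
  rw [map_mul] at hS
  have := rt_dvd v L h S'
  rw [(mul_eq_zero.1 hS).resolve_left a0, sub_zero] at this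
  exact mul_dvd_mul_left A this

omit [CharZero K] in
lemma rt_unit {σ : Type} {c : K} (c0 : c ≠ 0) {A S : MvPolynomial σ K} (h : A ∣ S) :
    C c * A ∣ S := by
  obtain ⟨S', rfl⟩ := h
  refine ⟨C c⁻¹ * S', ?_⟩
  rw [mul_mul_mul_comm, ← map_mul, mul_inv_cancel₀ c0, map_one, one_mul]

omit [CharZero K] in
lemma rt_ne {σ : Type} (x : σ → K) {A : MvPolynomial σ K} (h : aeval x A ≠ 0) : A ≠ 0 := by
  rintro rfl
  exact h (map_zero _)

omit [CharZero K] in
lemma rt_xy (S : MvPolynomial (Fin 2) K)
    (h1 : aeval (![0, X 1] : Fin 2 → MvPolynomial (Fin 2) K) S = 0)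
    (h2 : aeval (![X 0, 0] : Fin 2 → MvPolynomial (Fin 2) K) S = 0) : X 0 * X 1 ∣ S := by
  have a := rt_step (L := X 0) (A := 1) (fun i => by fin_cases i <;> simp) (one_dvd S) (by simp) h1
  rw [one_mul] at a
  exact rt_step (L := X 1) (fun i => by fin_cases i <;> simp) a (by simp) h2

lemma root_two_two (S : MvPolynomial (Fin 2) K)
    (h1 : aeval (![0, X 1] : Fin 2 → MvPolynomial (Fin 2) K) S = 0)
    (h2 : aeval (![X 0, 0] : Fin 2 → MvPolynomial (Fin 2) K) S = 0) : GG 2 (gp K 2) ∣ S := by
  have e : GG 2 (gp K 2) = C 2 * (X 0 * X 1) := by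
    simp only [GG, gp, List.ofFn_succ, List.ofFn_zero, List.map_cons, List.map_nil, List.sum_cons,
      List.sum_nil, map_ofNat, Fin.succ_zero_eq_one]
    ring
  rw [e]
  exact rt_unit two_ne_zero (rt_xy S h1 h2)

lemma root_three_two (S : MvPolynomial (Fin 2) K)
    (h1 : aeval (![0, X 1] : Fin 2 → MvPolynomial (Fin 2) K) S = 0)
    (h2 : aeval (![X 0, 0] : Fin 2 → MvPolynomial (Fin 2) K) S = 0)
    (h3 : aeval (![X 0, -X 0] : Fin 2 → MvPolynomial (Fin 2) K) S = 0) :
    GG 3 (gp K 2) ∣ S := by
  have e : GG 3 (gp K 2) = C 3 * (X 0 * X 1 * (X 0 + X 1)) := by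
    simp only [GG, gp, List.ofFn_succ, List.ofFn_zero, List.map_cons, List.map_nil, List.sum_cons,
      List.sum_nil, map_ofNat, Fin.succ_zero_eq_one]
    ring
  rw [e]
  refine rt_unit three_ne_zero (rt_step (fun i => ?_) (rt_xy S h1 h2) (by simp) h3)
  fin_cases i
  · simp
  · simp [add_comm]

lemma root_three_three (S : MvPolynomial (Fin 3) K)
    (h1 : aeval (![X 0, -X 0, X 2] : Fin 3 → MvPolynomial (Fin 3) K) S = 0)
    (h2 : aeval (![X 0, X 1, -X 0] : Fin 3 → MvPolynomial (Fin 3) K) S = 0)
    (h3 : aeval (![X 0, X 1, -X 1] : Fin 3 → MvPolynomial (Fin 3) K) S = 0) :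
    GG 3 (gp K 3) ∣ S := by
  have e : GG 3 (gp K 3) = C 3 * (1 * (X 0 + X 1) * (X 0 + X 2) * (X 1 + X 2)) := by
    simp only [GG, gp, List.ofFn_succ, List.ofFn_zero, List.map_cons, List.map_nil, List.sum_cons,
      List.sum_nil, map_ofNat, Fin.succ_zero_eq_one, Fin.succ_one_eq_two]
    ring
  rw [e]
  refine rt_unit three_ne_zero (rt_step (fun i => ?_) (rt_step (fun i => ?_)
    (rt_step (fun i => ?_) (one_dvd S) (by simp) h1) ?_ h2) ?_ h3)
  · fin_cases i <;> simp [add_comm (X 2 : MvPolynomial (Fin 3) K)]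
  · fin_cases i <;> simp [add_comm (X 2 : MvPolynomial (Fin 3) K)]
  · fin_cases i <;> simp [add_comm (X 1 : MvPolynomial (Fin 3) K)]
  · exact rt_ne ![1, 0, 0] (by simp)
  · exact rt_ne ![1, 0, 0] (by simp)

/-- First order expansion at a square-zero parameter. -/
lemma aeval_eps {σ B : Type} [Fintype σ] [CommRing B] [Algebra K B] (e : B) (he : e * e = 0)
    (p q : σ → B) (S : MvPolynomial σ K) :
    aeval (fun i => p i + e * q i) S = aeval p S + e * ∑ i, q i * aeval p (pderiv i S) := by
  classical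
  induction S using MvPolynomial.induction_on with
  | C a => simp
  | add a b ha hb =>
    simp only [map_add, ha, hb, mul_add, Finset.sum_add_distrib]
    ring
  | mul_X a j ha =>
    have k : ∑ i, q i * aeval p (pderiv i (a * X j)) =
        (∑ i, q i * aeval p (pderiv i a)) * p j + q j * aeval p a := by
      simp only [Derivation.leibniz, smul_eq_mul, map_add, map_mul, aeval_X, mul_add,
        Finset.sum_add_distrib, pderiv_X, Finset.sum_mul]
      rw [add_comm]
      congr 1
      · exact Finset.sum_congr rfl fun i _ => by ring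
      · rw [Finset.sum_eq_single j (fun i _ hi => by simp [Pi.single_eq_of_ne hi.symm])
          (by simp)]
        simp
    rw [map_mul, ha, aeval_X, k, map_mul, aeval_X]
    linear_combination (∑ i, q i * aeval p (pderiv i a)) * q j * he

omit [CharZero K] in
lemma rt_c1 {σ : Type} (i : σ) (T : MvPolynomial σ K) (m : σ →₀ ℕ) :
    coeff m (X i * pderiv i T) = m i * coeff m T := by
  classical
  induction T using MvPolynomial.induction_on' with
  | monomial a c =>
    rw [X_mul_pderiv_monomial, coeff_smul, coeff_monomial]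
    split_ifs with h
    · rw [h, nsmul_eq_mul]
    · simp
  | add p q hp hq => rw [map_add, mul_add, coeff_add, hp, hq, coeff_add, mul_add]

omit [CharZero K] in
lemma rt_c2 (T : MvPolynomial (Fin 2) K) (m : Fin 2 →₀ ℕ) :
    coeff m (X 1 * aeval (![X 0, 0] : Fin 2 → MvPolynomial (Fin 2) K) (pderiv 1 T)) =
      (if m 1 = 1 then 1 else 0) * coeff m T := by
  induction T using MvPolynomial.induction_on' with
  | monomial a c =>
    have e : (monomial a c : MvPolynomial (Fin 2) K) = C c * X 0 ^ a 0 * X 1 ^ a 1 := by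
      rw [monomial_eq, Finsupp.prod_fintype _ _ (by simp), Fin.prod_univ_two, mul_assoc]
    have k : X 1 * aeval (![X 0, 0] : Fin 2 → MvPolynomial (Fin 2) K) (pderiv 1 (monomial a c)) =
        if a 1 = 1 then monomial a c else 0 := by
      rw [e]
      rcases a 1 with _ | _ | n
      · simp
      · simp [mul_comm]
      · simp
    rw [k]
    by_cases h : a = m
    · subst h
      split_ifs <;> simp
    · split_ifs <;> simp [coeff_monomial, h]
  | add p q hp hq => rw [map_add, map_add, mul_add, coeff_add, hp, hq, coeff_add, mul_add]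

/-- The differential equation on the resonant plane has only the zero solution. -/
lemma ode_zero (T : MvPolynomial (Fin 2) K)
    (h : X 1 ^ 2 * T + X 1 ^ 2 * X 0 * pderiv 0 T + X 1 * X 0 ^ 2 * pderiv 1 T =
      X 1 * (X 0 ^ 2 - X 1 ^ 2) *
        aeval (![X 0, 0] : Fin 2 → MvPolynomial (Fin 2) K) (pderiv 1 T)) : T = 0 := by
  have c2 := rt_c2 T
  rw [mul_comm (X 1) (_ - _), mul_assoc (_ - _)] at h
  generalize X 1 * aeval (![X 0, 0] : Fin 2 → MvPolynomial (Fin 2) K) (pderiv 1 T) = W at h c2
  have e : X 1 ^ 2 * (T + X 0 * pderiv 0 T + W) = X 0 ^ 2 * (W - X 1 * pderiv 1 T) := by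
    linear_combination h
  have k : ∀ n, ∀ m : Fin 2 →₀ ℕ, m 0 = n → coeff m T = 0 := fun n => by
    induction n using Nat.strong_induction_on with
    | _ n ih =>
      intro m hm
      have a := congrArg (coeff (Finsupp.single 1 2 + m)) e
      rw [X_pow_eq_monomial, X_pow_eq_monomial, coeff_monomial_mul, coeff_monomial_mul', one_mul,
        coeff_add, coeff_add, rt_c1, c2] at a
      have b : (((1 + m 0 + if m 1 = 1 then 1 else 0 : ℕ) : K)) * coeff m T = 0 := by
        push_cast
        rw [add_mul, add_mul, one_mul, a]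
        split_ifs with l
        · have l0 := l 0
          simp only [Finsupp.single_eq_same, Finsupp.add_apply, ne_eq, zero_ne_one,
            not_false_eq_true, Finsupp.single_eq_of_ne, zero_add] at l0
          rw [coeff_sub, rt_c1, c2, ih (m 0 - 2) (by omega) _ (by simp)]
          simp
        · rfl
      exact (mul_eq_zero.1 b).resolve_left (Nat.cast_ne_zero.2 (by omega))
  ext m
  exact k _ m rfl

end Pool.Agent.Lib.MP_4b14b2_mp.Nd
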