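import Pool.Agent.Lib.MP_4b14b2_mp.NK2
import Pool.Agent.Lib.MP_4b14b2_mp.NRoot

/-! The level with three factors in the dispersive case. -/

namespace Pool.Agent.Lib.MP_4b14b2_mp.Nd

open MvPolynomial

variable {K : Type} [Field K] [CharZero K] {B : Type} [CommRing B] [Algebra K B]
  {M : ℕ} {b α : K} {K2 a A : AA K}

lemma Lin.ratio_three (h : Pair 2 b α K2) (hl : Lin 2 b K2 M a A) (ha : Ord 3 a) (hA : Ord 3 A)
    (x y z : B) : sy [x, y, z] A = algebraMap K B b *
      ((x ^ 2 + y ^ 2 + z ^ 2 + x * y + y * z + z * x) * sy [x, y, z] a) := by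
  have key : sy [X 0, X 1, X 2] A = algebraMap K (MvPolynomial (Fin 3) K) b *
      ((X 0 ^ 2 + X 1 ^ 2 + X 2 ^ 2 + X 0 * X 1 + X 1 * X 2 + X 2 * X 0) *
        sy [X 0, X 1, X 2] a) := by
    have e := lowest (B := MvPolynomial (Fin 3) K) h.lin ha hA hl.eq [X 0, X 1, X 2] rfl
    have h5 : α * 5 = 3 * b ^ 2 := by
      have := h.alpha
      push_cast at this
      linear_combination this
    have h6 := congrArg (algebraMap K (MvPolynomial (Fin 3) K)) h5
    rw [map_mul, map_mul, map_pow, map_ofNat, map_ofNat] at h6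
    have hne : (3 * algebraMap K (MvPolynomial (Fin 3) K) b *
        ((X 0 + X 1) * (X 1 + X 2) * (X 2 + X 0))) ≠ 0 := fun h0 => by
      have h1 := congrArg (aeval fun _ => (1 : K)) h0
      simp only [map_mul, map_add, aeval_X, map_ofNat, AlgHom.commutes, map_zero,
        Algebra.algebraMap_self, RingHom.id_apply] at h1
      exact h.hb (by linear_combination (1 / 24 : K) * h1)
    apply mul_left_cancel₀ hne
    simp only [GG, List.sum_cons, List.sum_nil, List.map_cons, List.map_nil] at e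
    linear_combination e + ((X 0 + X 1) * (X 1 + X 2) * (X 2 + X 0) *
      (X 0 ^ 2 + X 1 ^ 2 + X 2 ^ 2 + X 0 * X 1 + X 1 * X 2 + X 2 * X 0) *
        sy [X 0, X 1, X 2] a) * h6
  have k := congrArg (aeval ![x, y, z]) key
  simpa only [map_mul, map_add, map_pow, sy_nat, aeval_X, AlgHom.commutes, List.map_cons,
    List.map_nil, Matrix.cons_val_zero, Matrix.cons_val_one, Matrix.cons_val] using k

omit [CharZero K] in
lemma h3_T (P : AA K) (u w : B) :
    aeval ![u, w] (sy ([X 0, -X 0, X 1] : List (MvPolynomial (Fin 2) K)) P) = sy [u, -u, w] P := by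
  simp only [sy_nat, List.map_cons, List.map_nil, map_neg, aeval_X, Matrix.cons_val_zero,
    Matrix.cons_val_one]

lemma h3_S (P : AA K) (s : B) (hs : s * s = 0) (x y z : B) : ∃ S1 S2 S3 : B, ∀ p q r : B,
    sy [x + s * p, y + s * q, z + s * r] P = sy [x, y, z] P + s * (p * S1 + q * S2 + r * S3) := by
  refine ⟨aeval ![x, y, z] (pderiv 0 (sy (gp K 3) P)), aeval ![x, y, z] (pderiv 1 (sy (gp K 3) P)),
    aeval ![x, y, z] (pderiv 2 (sy (gp K 3) P)), fun p q r => ?_⟩
  have e := aeval_eps s hs ![x, y, z] ![p, q, r] (sy (gp K 3) P)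
  rw [sy_gp, sy_gp, Fin.sum_univ_three] at e
  exact e

lemma h3_ode (h : Pair 2 b α K2) (hl : Lin 2 b K2 M a A) (ha : Ord 3 a) (hA : Ord 3 A)
    (x z s : B) (hs : s * s = 0) {T : MvPolynomial (Fin 2) K} (hT : T = sy [X 0, -X 0, X 1] a) :
    s * (algebraMap K B b * (z ^ 2 * aeval ![x, z] T + z ^ 2 * x * aeval ![x, z] (pderiv 0 T)
      + z * x ^ 2 * aeval ![x, z] (pderiv 1 T)
      - z * (x ^ 2 - z ^ 2) * aeval ![x, 0] (pderiv 1 T))) = 0 := by
  have a1 : ∀ u : B, sy [u] a = 0 := fun u => sy_of_ord ha _ (by simp)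
  have a2 : ∀ u v : B, sy [u, v] a = 0 := fun u v => sy_of_ord ha _ (by simp)
  have A1 : ∀ u : B, sy [u] A = 0 := fun u => sy_of_ord hA _ (by simp)
  have A2 : ∀ u v : B, sy [u, v] A = 0 := fun u v => sy_of_ord hA _ (by simp)
  have k3 : ∀ u v w : B, sy [u, v, w] (K1 2 b) = 0 := fun u v w => sy_K1_long _ _ _ (by simp)
  have k4 : sy [x, -x, z, s] (K1 2 b) = 0 := sy_K1_long _ _ _ (by simp)
  have r3 : ∀ (u v w : B) (P : AA K), sy [u, v, w] P = sy [w, u, v] P := fun u v w =>
    sy_perm (List.perm_append_singleton w [u, v])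
  have r4 : ∀ P : AA K, sy [x, -x, z, s] P = sy [s, x, -x, z] P :=
    sy_perm (List.perm_append_singleton s [x, -x, z])
  have l3 : ∀ u v : B, sy [u, v, s] a = s * sy [u, v] (pderiv 1 a) := fun u v => by
    rw [r3, sy_eps_cons s hs, hl.a0, sy_zero, zero_add]
  have l4 : sy [x, -x, z, s] a = s * sy [x, -x, z] (pderiv 1 a) := by
    rw [r4, sy_eps_cons s hs, hl.a0, sy_zero, zero_add]
  have L4 : sy [x, -x, z, s] A = sy [x, -x, z] a + s * sy [x, -x, z] (pderiv 1 A) := by
    rw [r4, sy_eps_cons s hs, hl.A0]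
  obtain ⟨S1, S2, S3, hS⟩ := h3_S a s hs x (-x) z
  have s1 : sy [x + s, -x, z] a = sy [x, -x, z] a + s * S1 := by simpa using hS 1 0 0
  have s2 : sy [-x + s, x, z] a = sy [x, -x, z] a + s * S2 := by
    rw [sy_perm (List.Perm.swap _ _ _)]
    simpa using hS 0 1 0
  have s3 : sy [z + s, x, -x] a = sy [x, -x, z] a + s * S3 := by
    rw [← r3]
    simpa using hS 0 0 1
  have tt : ∀ u w p q : B, sy [u + s * p, -(u + s * p), w + s * q] a = sy [u, -u, w] a +
      s * (p * aeval ![u, w] (pderiv 0 T) + q * aeval ![u, w] (pderiv 1 T)) := fun u w p q => by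
    have e := aeval_eps s hs ![u, w] ![p, q] T
    rw [Fin.sum_univ_two] at e
    have f : (fun i => ![u, w] i + s * ![p, q] i) = ![u + s * p, w + s * q] := by
      funext i
      fin_cases i <;> rfl
    rw [f] at e
    rw [← h3_T a u w, ← h3_T a (u + s * p), ← hT]
    exact e
  have t0 : aeval ![x, z] T = sy [x, -x, z] a := by rw [hT, h3_T]
  have t1 : s * aeval ![x, z] (pderiv 0 T) = s * (S1 - S2) := by
    have e1 := tt x z 1 0
    have e2 := hS 1 (-1) 0
    rw [show -(x + s * 1) = -x + s * -1 by ring, e2] at e1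
    linear_combination -e1
  have t2 : s * aeval ![x, z] (pderiv 1 T) = s * S3 := by
    have e1 := tt x z 0 1
    have e2 := hS 0 0 1
    rw [show -(x + s * 0) = -x + s * 0 by ring, e2] at e1
    linear_combination -e1
  have t3 : s * aeval ![x, 0] (pderiv 1 T) = s * sy [x, -x] (pderiv 1 a) := by
    have e1 := tt x 0 0 1
    have e2 : sy [x, -x, 0] a = 0 := by
      rw [r3, sy_zero_cons, hl.a0, sy_zero]
    simp only [mul_zero, add_zero, mul_one, zero_add, zero_mul, one_mul, e2, l3] at e1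
    exact e1.symm
  have e : sy [x, -x, z, s] (br (K1 2 b) A + br a K2) = 0 := by rw [hl.eq, sy_zero]
  rw [sy_add, br, br, sy_sub, sy_sub, sy_fl_four (Ord_K1 2 b), sy_fl_four (hA.mono (by simp)),
    sy_fl_four (ha.mono (by simp)), sy_fl_four h.ord_one] at e
  simp only [a1, a2, A1, A2, k3, k4, sy_K1_one, sy_K1_two, h.sy_one, h.sy_two_two,
    hl.ratio_three h ha hA, l3, l4, L4, s1, s2, s3, mul_zero, zero_mul, add_zero, zero_add] at e
  have p2 : s ^ 2 = 0 := by rw [sq, hs]
  have p3 : s ^ 3 = 0 := by rw [pow_succ, p2, zero_mul]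
  have p4 : s ^ 4 = 0 := by rw [pow_succ, p3, zero_mul]
  have p5 : s ^ 5 = 0 := by rw [pow_succ, p4, zero_mul]
  generalize sy [x, -x] (pderiv 1 a) = D0 at e t3
  generalize sy [x, -x, z] a = T0 at e t0
  ring_nf at e
  simp only [p2, p3, p4, p5, mul_zero, zero_mul, add_zero, zero_add, sub_zero] at e
  linear_combination e + s * algebraMap K B b * z ^ 2 * t0 + algebraMap K B b * z ^ 2 * x * t1
    + algebraMap K B b * z * x ^ 2 * t2 - algebraMap K B b * z * (x ^ 2 - z ^ 2) * t3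

/-- E4 at (x, -x, z, s) with s * s = 0. -/
theorem Lin.anti_three (h : Pair 2 b α K2) (hl : Lin 2 b K2 M a A) (ha : Ord 3 a) (hA : Ord 3 A)
    (x z : B) : sy [x, -x, z] a = 0 := by
  have hT : sy ([X 0, -X 0, X 1] : List (MvPolynomial (Fin 2) K)) a = 0 := by
    apply ode_zero
    generalize hT : sy ([X 0, -X 0, X 1] : List (MvPolynomial (Fin 2) K)) a = T
    let φ := TrivSqZeroExt.inlAlgHom K (MvPolynomial (Fin 2) K) (MvPolynomial (Fin 2) K)
    have e := h3_ode h hl ha hA (φ (X 0)) (φ (X 1)) DualNumber.eps DualNumber.eps_mul_eps hT.symm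
    have i1 : ∀ Q : MvPolynomial (Fin 2) K, aeval ![φ (X 0), φ (X 1)] Q = φ Q := fun Q => by
      congr 1
      refine algHom_ext fun i => ?_
      fin_cases i <;> simp
    have i2 : ∀ Q : MvPolynomial (Fin 2) K, aeval ![φ (X 0), 0] Q =
        φ (aeval (![X 0, 0] : Fin 2 → MvPolynomial (Fin 2) K) Q) := fun Q => by
      rw [← AlgHom.comp_apply]
      congr 1
      refine algHom_ext fun i => ?_
      fin_cases i <;> simp
    rw [i1, i1, i1, i2, ← φ.commutes] at e
    simp only [← map_mul, ← map_pow, ← map_add, ← map_sub] at e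
    have e2 := congrArg TrivSqZeroExt.snd e
    simp only [φ, TrivSqZeroExt.inlAlgHom_apply, DualNumber.snd_mul, DualNumber.fst_eps,
      DualNumber.snd_eps, TrivSqZeroExt.fst_inl, TrivSqZeroExt.snd_zero, zero_mul, one_mul,
      zero_add] at e2
    have hb : algebraMap K (MvPolynomial (Fin 2) K) b ≠ 0 := by simpa using h.hb
    exact sub_eq_zero.1 ((mul_eq_zero.1 e2).resolve_left hb)
  rw [← h3_T, hT, map_zero]

end Pool.Agent.Lib.MP_4b14b2_mp.Nd
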