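import Pool.Agent.Lib.MP_4b14b2_mp.NGrad

/-! The bracket with K1 meets the normal space only in zero. -/

namespace Pool.Agent.Lib.MP_4b14b2_mp.Nd

open MvPolynomial

variable {R : Type} [CommRing R] [IsDomain R] [CharZero R]

/-- Linear terms and quadratic terms without v_0 and v_1. -/
noncomputable def InjV (R : Type) [CommRing R] : Submodule R (AA R) :=
  Submodule.span R {P | (∃ j, P = X j) ∨ ∃ j k, P = X (j + 2) * X (k + 2)}

omit [IsDomain R] [CharZero R] in
lemma injV_X (j : ℕ) : (X j : AA R) ∈ InjV R := Submodule.subset_span (Or.inl ⟨j, rfl⟩)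

omit [IsDomain R] [CharZero R] in
lemma injV_XX (j k : ℕ) : (X (j + 2) * X (k + 2) : AA R) ∈ InjV R :=
  Submodule.subset_span (Or.inr ⟨j, k, rfl⟩)

omit [IsDomain R] [CharZero R] in
lemma injV_sh {P : AA R} (hP : P ∈ InjV R) : sh P ∈ InjV R := by
  induction hP using Submodule.span_induction with
  | mem P hP =>
    rcases hP with ⟨j, rfl⟩ | ⟨j, k, rfl⟩
    · rw [sh_X]; exact injV_X _
    · rw [Derivation.leibniz, sh_X, sh_X, smul_eq_mul, smul_eq_mul]
      exact add_mem (injV_XX j (k + 1)) (injV_XX k (j + 1))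
  | zero => rw [map_zero]; exact zero_mem _
  | add P Q _ _ hP hQ => rw [map_add]; exact add_mem hP hQ
  | smul c P _ hP => rw [Derivation.map_smul]; exact Submodule.smul_mem _ c hP

/-- Eigenvalues of the diagonal part. -/
def injW : ℕ → ℕ
  | 0 => 0
  | 1 => 1
  | i + 2 => i + 3

omit [IsDomain R] [CharZero R] in
lemma injV_rest (κ : ℕ) (b : R) (i : ℕ) :
    (fun F : AA R => sh F)^[i] (K1 κ b) - (X 0 * X (i + 1) + injW i • (X 1 * X i)) ∈ InjV R := by
  induction i with
  | zero =>
    have : (fun F : AA R => sh F)^[0] (K1 κ b) - (X 0 * X (0 + 1) + injW 0 • (X 1 * X 0)) =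
        b • X (κ + 1) := by
      simp [K1, injW, smul_eq_C_mul]
    rw [this]; exact Submodule.smul_mem _ b (injV_X _)
  | succ i ih =>
    have h1 := injV_sh ih
    rw [map_sub, map_add, map_nsmul, Derivation.leibniz, Derivation.leibniz, sh_X, sh_X, sh_X,
      sh_X, ← Function.iterate_succ_apply' (fun F : AA R => sh F)] at h1
    simp only [smul_eq_mul] at h1
    match i with
    | 0 => convert h1 using 2; simp [injW]
    | 1 => convert h1 using 2; simp [injW]; ring
    | i + 2 =>
      have h2 := add_mem h1 (nsmul_mem (injV_XX (R := R) 0 i) (i + 3))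
      convert h2 using 1
      simp only [injW, nsmul_eq_mul]
      push_cast; ring

omit [IsDomain R] [CharZero R] in
lemma coeff_X_pderiv {n : ℕ} {P : AA R} (hP : ∀ m ∈ P.support, Finsupp.degree m ≤ n)
    {ν : ℕ →₀ ℕ} (hν : n < Finsupp.degree ν) (j i : ℕ) : coeff ν (X j * pderiv i P) = 0 := by
  classical
  rw [coeff_X_mul']
  split_ifs with hj
  · have hle : Finsupp.single j 1 ≤ ν :=
      Finsupp.single_le_iff.mpr (Nat.one_le_iff_ne_zero.mpr (Finsupp.mem_support_iff.mp hj))
    have h1 := congrArg Finsupp.degree (tsub_add_cancel_of_le hle)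
    have h4 : coeff (ν - Finsupp.single j 1 + Finsupp.single i 1) P = 0 := by
      by_contra h5
      have := hP _ (mem_support_iff.mpr h5)
      simp only [map_add, Finsupp.degree_single] at this h1
      omega
    rw [coeff_pderiv, h4, zero_mul]
  · rfl

omit [IsDomain R] [CharZero R] in
lemma fl_eq_vars (P Q : AA R) :
    fl P Q = ∑ i ∈ Q.vars, (fun F : AA R => sh F)^[i] P * pderiv i Q :=
  fl_eq_sum P Q _ fun _ hi => pderiv_eq_zero_of_notMem_vars hi

omit [IsDomain R] [CharZero R] in
lemma sh_eq_vars (Q : AA R) : sh Q = ∑ i ∈ Q.vars, X (i + 1) * pderiv i Q := by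
  have := fl_eq_vars (X 1) Q
  rw [fl_X_left] at this
  simp only [sh_iter_X, add_comm 1] at this
  exact this

omit [IsDomain R] [CharZero R] in
lemma degree_sh_iter {n : ℕ} {P : AA R} (hP : ∀ m ∈ P.support, Finsupp.degree m ≤ n) (k : ℕ) :
    ∀ m ∈ ((fun F : AA R => sh F)^[k] P).support, Finsupp.degree m ≤ n := by
  induction k with
  | zero => exact hP
  | succ k ih =>
    intro m hm
    by_contra hlt
    apply mem_support_iff.mp hm
    rw [Function.iterate_succ_apply', sh_eq_vars, coeff_sum]
    exact Finset.sum_eq_zero fun i _ => coeff_X_pderiv ih (not_le.mp hlt) _ _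

omit [IsDomain R] [CharZero R] in
lemma coeff_injV {f : AA R} {μ : ℕ →₀ ℕ}
    (h1 : ∀ m ∈ f.support, Finsupp.degree m ≤ Finsupp.degree μ)
    (h2 : ∀ m ∈ f.support, Finsupp.degree m = Finsupp.degree μ → m 1 ≤ μ 1)
    {ρ : AA R} (hρ : ρ ∈ InjV R) (i : ℕ) :
    coeff (Finsupp.single 1 1 + μ) (ρ * pderiv i f) = 0 := by
  classical
  induction hρ using Submodule.span_induction with
  | mem P hP =>
    rcases hP with ⟨j, rfl⟩ | ⟨j, k, rfl⟩
    · exact coeff_X_pderiv h1 (by simp) _ _
    · rw [mul_assoc, coeff_X_mul']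
      split_ifs with hj
      · rw [coeff_X_mul']
        split_ifs with hk
        · have hle := Finsupp.single_le_iff.mpr
            (Nat.one_le_iff_ne_zero.mpr (Finsupp.mem_support_iff.mp hj))
          have hle' := Finsupp.single_le_iff.mpr
            (Nat.one_le_iff_ne_zero.mpr (Finsupp.mem_support_iff.mp hk))
          have e1 := congrArg Finsupp.degree (tsub_add_cancel_of_le hle)
          have e2 := congrArg Finsupp.degree (tsub_add_cancel_of_le hle')
          have h4 : coeff (Finsupp.single 1 1 + μ - Finsupp.single (j + 2) 1 -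
              Finsupp.single (k + 2) 1 + Finsupp.single i 1) f = 0 := by
            by_contra h5
            have h6 := h2 _ (mem_support_iff.mpr h5) (by
              simp only [map_add, Finsupp.degree_single] at e1 e2 ⊢
              omega)
            simp only [Finsupp.add_apply, Finsupp.tsub_apply, Finsupp.single_apply] at h6
            simp at h6
            omega
          rw [coeff_pderiv, h4, zero_mul]
        · rfl
      · rfl
  | zero => simp
  | add P Q _ _ hP hQ => rw [add_mul, coeff_add, hP, hQ, add_zero]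
  | smul c P _ hP => rw [smul_mul_assoc, coeff_smul, hP, smul_zero]

omit [IsDomain R] [CharZero R] in
lemma coeff_X_pderiv_self (f : AA R) (μ : ℕ →₀ ℕ) (i : ℕ) :
    coeff μ (X i * pderiv i f) = (μ i : R) * coeff μ f := by
  classical
  rw [coeff_X_mul']
  split_ifs with hi
  · have hi' := Finsupp.mem_support_iff.mp hi
    rw [coeff_pderiv, tsub_add_cancel_of_le (Finsupp.single_le_iff.mpr (by omega)),
      Finsupp.tsub_apply, Finsupp.single_eq_same]
    obtain ⟨j, hj⟩ := Nat.exists_eq_succ_of_ne_zero hi'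
    rw [hj]; simp; ring
  · simp [Finsupp.notMem_support_iff.mp hi]

theorem K1_inj (κ : ℕ) (b β : R) {f : AA R} (hf : Deg2 f)
    (h : pderiv 1 (br (K1 κ b) f) = C β * X 1) : f = 0 := by
  classical
  by_contra hne
  obtain ⟨μ, hμ, hmax⟩ := Finset.exists_max_image f.support
    (fun m => toLex (Finsupp.degree m, m 1)) (support_nonempty.mpr hne)
  have h1 : ∀ m ∈ f.support, Finsupp.degree m ≤ Finsupp.degree μ := fun m hm => by
    rcases Prod.Lex.toLex_le_toLex.mp (hmax m hm) with h | h
    · exact h.le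
    · exact h.1.le
  have h2 : ∀ m ∈ f.support, Finsupp.degree m = Finsupp.degree μ → m 1 ≤ μ 1 := fun m hm e => by
    rcases Prod.Lex.toLex_le_toLex.mp (hmax m hm) with h | h
    · exact absurd e h.ne
    · exact h.2
  have e0 : fl f (K1 κ b) = C b * (fun F : AA R => sh F)^[κ + 1] f + (X 0 * sh f + X 1 * f) := by
    rw [K1, map_add, fl_C_mul_right, Derivation.leibniz, fl_X, fl_X, fl_X]
    rfl
  have e1 : br (K1 κ b) f =
      X 1 * (∑ i ∈ f.vars, injW i • (X i * pderiv i f) - f) +
      ∑ i ∈ f.vars, ((fun F : AA R => sh F)^[i] (K1 κ b) -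
        (X 0 * X (i + 1) + injW i • (X 1 * X i))) * pderiv i f -
      C b * (fun F : AA R => sh F)^[κ + 1] f := by
    rw [br, e0, fl_eq_vars, sh_eq_vars f]
    simp only [sub_mul, add_mul, Finset.sum_sub_distrib, Finset.sum_add_distrib, mul_sub,
      Finset.mul_sum, nsmul_eq_mul, mul_assoc, mul_left_comm (X 1 : AA R)]
    ring
  have hdg := hf μ hμ
  have h0 := congrArg (coeff μ) h
  have hr : coeff μ (C β * X 1 : AA R) = 0 := by
    rw [coeff_C_mul, coeff_X, if_neg, mul_zero]
    rintro rfl
    simp [dg, Finsupp.weight_apply] at hdg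
  have h3 : coeff (Finsupp.single 1 1 + μ) ((fun F : AA R => sh F)^[κ + 1] f) = 0 := by
    by_contra h5
    have := degree_sh_iter h1 (κ + 1) _ (mem_support_iff.mpr h5)
    simp at this
  rw [hr, coeff_pderiv, add_comm μ, e1, coeff_sub, coeff_add, coeff_X_mul, coeff_sub, coeff_sum,
    coeff_sum, coeff_C_mul, h3] at h0
  simp only [coeff_injV h1 h2 (injV_rest κ b _), Finset.sum_const_zero, add_zero, mul_zero,
    sub_zero, coeff_smul, coeff_X_pderiv_self] at h0
  simp only [nsmul_eq_mul, ← mul_assoc, ← Nat.cast_mul] at h0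
  rw [← Finset.sum_mul, ← Nat.cast_sum, ← sub_one_mul] at h0
  have h4 := (mul_eq_zero.mp h0).resolve_right (by exact_mod_cast Nat.succ_ne_zero (μ 1))
  have h5 := (mul_eq_zero.mp h4).resolve_right (mem_support_iff.mp hμ)
  have h6 : ∑ i ∈ f.vars, injW i * μ i = 1 := by exact_mod_cast sub_eq_zero.mp h5
  have h7 : dg μ ≤ ∑ i ∈ f.vars, injW i * μ i := by
    rw [dg, Finsupp.weight_apply, Finsupp.sum]
    refine le_trans (Finset.sum_le_sum fun i _ => ?_)
      (Finset.sum_le_sum_of_subset fun i hi => (mem_vars_iff_mem_support i).mpr ⟨μ, hμ, hi⟩)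
    rw [smul_eq_mul, mul_comm]
    refine Nat.mul_le_mul_right _ ?_
    match i with
    | 0 => exact le_rfl
    | 1 => exact le_rfl
    | i + 2 => exact Nat.le_succ _
  omega

end Pool.Agent.Lib.MP_4b14b2_mp.Nd
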