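import Pool.Agent.Lib.MP_4b14b2_mp.NSym2

/-! From symbols back to the frozen algebra. -/

namespace Pool.Agent.Lib.MP_4b14b2_mp.Nd

open MvPolynomial

variable {K : Type} [Field K] [CharZero K]

/-- The linear map x^a ↦ ∏ v_(a i). -/
noncomputable def lamM (K : Type) [Field K] (n : ℕ) : MvPolynomial (Fin n) K →ₗ[K] AA K :=
  (basisMonomials (Fin n) K).constr K fun a => ∏ i, X (a i)

omit [CharZero K] in
lemma lamM_mon {n : ℕ} (a : Fin n →₀ ℕ) (c : K) :
    lamM K n (monomial a c) = C c * ∏ i, X (a i) := by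
  have e : (monomial a c : MvPolynomial (Fin n) K) = c • basisMonomials (Fin n) K a := by
    rw [coe_basisMonomials, smul_monomial, smul_eq_mul, mul_one]
  rw [e, map_smul, lamM, Module.Basis.constr_basis, smul_eq_C_mul]

omit [CharZero K] in
lemma lamM_homog {n : ℕ} (g : MvPolynomial (Fin n) K) : (lamM K n g).IsHomogeneous n := by
  induction g using MvPolynomial.induction_on' with
  | monomial a c =>
    rw [lamM_mon]
    have := IsHomogeneous.prod (R := K) Finset.univ (fun i : Fin n => (X (a i) : AA K)) (fun _ => 1)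
      fun i _ => isHomogeneous_X K (a i)
    simp only [Finset.sum_const, Finset.card_univ, Fintype.card_fin, smul_eq_mul, mul_one] at this
    exact this.C_mul c
  | add p q hp hq => rw [map_add]; exact hp.add hq

omit [CharZero K] in
lemma lamM_succ {n : ℕ} (j : ℕ) (g : MvPolynomial (Fin n) K) :
    lamM K (n + 1) (X 0 ^ j * rename Fin.succ g) = X j * lamM K n g := by
  induction g using MvPolynomial.induction_on' with
  | monomial a c =>
    rw [rename_monomial, X_pow_eq_monomial, monomial_mul, one_mul, lamM_mon, lamM_mon,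
      Fin.prod_univ_succ]
    have e0 : (Finsupp.single 0 j + a.mapDomain Fin.succ : Fin (n + 1) →₀ ℕ) 0 = j := by
      rw [Finsupp.add_apply, Finsupp.single_eq_same, Finsupp.mapDomain_notin_range _ _ (by simp),
        add_zero]
    have e1 : ∀ i : Fin n,
        (Finsupp.single 0 j + a.mapDomain Fin.succ : Fin (n + 1) →₀ ℕ) i.succ = a i := fun i => by
      rw [Finsupp.add_apply, Finsupp.single_eq_of_ne (Fin.succ_ne_zero i),
        Finsupp.mapDomain_apply (Fin.succ_injective n), zero_add]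
    simp only [e0, e1]
    ring
  | add p q hp hq => rw [map_add, mul_add, map_add, hp, hq, map_add, mul_add]

omit [CharZero K] in
lemma lam_euler {n : ℕ} {P : AA K} (hP : P.IsHomogeneous n) :
    ∑ i ∈ P.vars, X i * pderiv i P = n • P := by
  have k : ∀ m ∈ P.support, ∑ i ∈ P.vars, X i * pderiv i (monomial m (coeff m P)) =
      n • (monomial m (coeff m P) : AA K) := fun m hm => by
    simp only [X_mul_pderiv_monomial]
    rw [← Finset.sum_smul]
    congr 1
    have h1 : Finsupp.degree m = n := by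
      rw [Finsupp.degree_eq_weight_one]
      exact hP (mem_support_iff.1 hm)
    rw [← h1, Finsupp.degree_apply]
    refine (Finset.sum_subset (fun i hi => (mem_vars_iff_mem_support i).2 ⟨m, hm, hi⟩)
      fun i _ hi => ?_).symm
    exact Finsupp.notMem_support_iff.1 hi
  calc ∑ i ∈ P.vars, X i * pderiv i P
      = ∑ i ∈ P.vars, ∑ m ∈ P.support, X i * pderiv i (monomial m (coeff m P)) := by
        refine Finset.sum_congr rfl fun i _ => ?_
        rw [← Finset.mul_sum, ← map_sum, ← as_sum]
    _ = n • P := by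
        rw [Finset.sum_comm, Finset.sum_congr rfl k, ← Finset.smul_sum, ← as_sum]

omit [CharZero K] in
lemma lam_gp_succ (n : ℕ) : gp K (n + 1) = X 0 :: (gp K n).map (rename Fin.succ) := by
  simp [gp, List.ofFn_succ, List.map_ofFn, Function.comp_def]

omit [CharZero K] in
lemma lamM_sy {n : ℕ} {P : AA K} (hP : P.IsHomogeneous n) :
    lamM K n (sy (gp K n) P) = n.factorial • P := by
  induction n generalizing P with
  | zero =>
    have e : P = C (coeff 0 P) := totalDegree_eq_zero_iff_eq_C.1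
      (Nat.le_zero.1 hP.totalDegree_le)
    have e2 : sy (gp K 0) P = monomial 0 (coeff 0 P) := by
      rw [gp, List.ofFn_zero, sy, sym_nil, constantCoeff_map]
      rfl
    rw [e2, lamM_mon, Nat.factorial_zero, one_smul, Fin.prod_univ_zero, mul_one, ← e]
  | succ n ih =>
    rw [lam_gp_succ, sy_cons_eq_sum _ _ P P.vars fun i hi => pderiv_eq_zero_of_notMem_vars hi,
      map_sum]
    have e : ∀ i, lamM K (n + 1) (X 0 ^ i * sy ((gp K n).map (rename Fin.succ)) (pderiv i P)) =
        n.factorial • (X i * pderiv i P) := fun i => by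
      rw [← sy_nat (rename Fin.succ), lamM_succ, ih (homog_pderiv hP i), mul_smul_comm]
    simp only [e]
    rw [← Finset.smul_sum, lam_euler hP, smul_smul, Nat.factorial_succ, mul_comm]

omit [CharZero K] in
lemma lam_shk_prod {ι : Type} [DecidableEq ι] (m : ℕ) (s : Finset ι) (a : ι → ℕ) :
    shk m (∏ j ∈ s, X (a j) : AA K) = ∑ i ∈ s, X (a i + m) * ∏ j ∈ s.erase i, X (a j) := by
  induction s using Finset.induction_on with
  | empty => simp
  | insert k s hk ih =>
    rw [Finset.prod_insert hk, Derivation.leibniz, ih, shk_X, Finset.sum_insert hk,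
      Finset.erase_insert hk, smul_eq_mul, smul_eq_mul, Finset.mul_sum, add_comm, mul_comm]
    congr 1
    refine Finset.sum_congr rfl fun i hi => ?_
    rw [Finset.erase_insert_of_ne (by rintro rfl; exact hk hi),
      Finset.prod_insert fun h => hk (Finset.mem_of_mem_erase h)]
    ring

omit [CharZero K] in
lemma lamM_pow {n : ℕ} (m : ℕ) (g : MvPolynomial (Fin n) K) :
    lamM K n ((∑ i, X i ^ m) * g) = shk m (lamM K n g) := by
  induction g using MvPolynomial.induction_on' with
  | monomial a c =>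
    rw [lamM_mon, ← smul_eq_C_mul, Derivation.map_smul, lam_shk_prod, Finset.sum_mul, map_sum,
      Finset.smul_sum]
    refine Finset.sum_congr rfl fun i _ => ?_
    rw [X_pow_eq_monomial, monomial_mul, one_mul, lamM_mon, smul_eq_C_mul,
      ← Finset.mul_prod_erase _ _ (Finset.mem_univ i), Finsupp.add_apply, Finsupp.single_eq_same,
      add_comm m]
    congr 2
    refine Finset.prod_congr rfl fun j hj => ?_
    rw [Finsupp.add_apply, Finsupp.single_eq_of_ne (Finset.ne_of_mem_erase hj), zero_add]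
  | add p q hp hq => rw [mul_add, map_add, hp, hq, map_add, map_add]

omit [CharZero K] in
lemma lamM_iter {n : ℕ} (m : ℕ) (g : MvPolynomial (Fin n) K) :
    lamM K n ((∑ i, X i) ^ m * g) = (fun F : AA K => sh F)^[m] (lamM K n g) := by
  induction m with
  | zero => simp
  | succ m ih =>
    have := lamM_pow 1 ((∑ i, X i) ^ m * g)
    simp only [pow_one] at this
    rw [pow_succ', mul_assoc, this, ih, Function.iterate_succ_apply']
    rfl

omit [CharZero K] in
lemma lamM_GG {n : ℕ} (m : ℕ) (g : MvPolynomial (Fin n) K) :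
    lamM K n (GG m (gp K n) * g) = -br (X m) (lamM K n g) := by
  have e : GG m (gp K n) = (∑ i, X i) ^ m - ∑ i, X i ^ m := by
    rw [GG, gp, List.map_ofFn, List.sum_ofFn, List.sum_ofFn]
    rfl
  rw [e, sub_mul, map_sub, lamM_iter, lamM_pow, br, fl_X_left, fl_X, neg_sub]

lemma lam_eps {B : Type} [CommRing B] {e : B} (he : e * e = 0) (y : B) (k : ℕ) :
    (e + y) ^ (k + 1) = y ^ (k + 1) + (k + 1) * y ^ k * e := by
  induction k with
  | zero => simp [add_comm]
  | succ k ih =>
    rw [pow_succ, ih]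
    push_cast
    linear_combination ((k : B) + 1) * y ^ k * he

lemma sy_inj {n : ℕ} {P : AA K} (hP : P.IsHomogeneous n) (h : sy (gp K n) P = 0) : P = 0 := by
  have e := lamM_sy hP
  rw [h, map_zero, ← Nat.cast_smul_eq_nsmul K] at e
  exact (smul_eq_zero.1 e.symm).resolve_left (Nat.cast_ne_zero.2 n.factorial_ne_zero)

lemma ord_succ_of_sy {n : ℕ} {P : AA K} (hP : Ord n P) (h : sy (gp K n) P = 0) :
    Ord (n + 1) P := by
  refine hP.succ (sy_inj (homogeneousComponent_isHomogeneous n P) ?_)
  have := sy_comp (gp K n) P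
  rw [length_gp] at this
  rw [this, h]

lemma exists_br_X {n m : ℕ} {P : AA K} (hP : P.IsHomogeneous n)
    (h : GG m (gp K n) ∣ sy (gp K n) P) : ∃ f : AA K, f.IsHomogeneous n ∧ br (X m) f = P := by
  obtain ⟨g, hg⟩ := h
  have e := lamM_sy hP
  rw [hg, lamM_GG, ← Nat.cast_smul_eq_nsmul K, smul_eq_C_mul] at e
  have f0 : (n.factorial : K) ≠ 0 := Nat.cast_ne_zero.2 n.factorial_ne_zero
  refine ⟨C (-(n.factorial : K)⁻¹) * lamM K n g, (lamM_homog g).C_mul _, ?_⟩
  rw [br_C_mul_right, map_neg, neg_mul, ← mul_neg, e, ← mul_assoc, ← map_mul, inv_mul_cancel₀ f0,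
    map_one, one_mul]

lemma GG_ne_zero {n m : ℕ} (hn : 2 ≤ n) (hm : 2 ≤ m) : GG m (gp K n) ≠ 0 := by
  intro h
  have e := GG_gp (R := K) (fun _ : Fin n => (1 : K)) m
  rw [h, map_zero, GG, List.map_ofFn, List.sum_ofFn, List.sum_ofFn] at e
  simp only [Function.comp_apply, one_pow, Finset.sum_const, Finset.card_univ, Fintype.card_fin,
    nsmul_eq_mul, mul_one] at e
  have e2 : n ^ m = n := by exact_mod_cast (sub_eq_zero.1 e.symm)
  have : n ^ 1 < n ^ m := Nat.pow_lt_pow_right hn hm
  rw [pow_one] at this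
  omega

lemma br_X_inj {n m : ℕ} (hn : 2 ≤ n) (hm : 2 ≤ m) {f : AA K} (hf : f.IsHomogeneous n)
    (h : br (X m) f = 0) : f = 0 := by
  have e := sy_br_X (gp K n) m f
  rw [h, sy_zero, eq_comm, neg_eq_zero] at e
  exact sy_inj hf ((mul_eq_zero.1 e).resolve_left (GG_ne_zero hn hm))

/-- Two factors: if [v_m, f] is free of v_0 and v_1, then f is free of v_0. -/
lemma free_two {m : ℕ} (hm : 2 ≤ m) {f : AA K} (hf : f.IsHomogeneous 2)
    (h0 : pderiv 0 (br (X m) f) = 0) (h1 : pderiv 1 (br (X m) f) = 0) : pderiv 0 f = 0 := by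
  obtain ⟨k, rfl⟩ : ∃ k, m = k + 2 := ⟨m - 2, by omega⟩
  let ψ := TrivSqZeroExt.inlAlgHom K (MvPolynomial (Fin 1) K) (MvPolynomial (Fin 1) K)
  let e : DualNumber (MvPolynomial (Fin 1) K) := DualNumber.eps
  have he : e * e = 0 := DualNumber.eps_mul_eps
  have a := sy_br_X [e, ψ (X 0)] (k + 2) f
  rw [sy_eps_cons e he, sy_eps_cons e he, h0, h1, sy_zero] at a
  have g : GG (k + 2) [e, ψ (X 0)] = ψ (((k : MvPolynomial (Fin 1) K) + 2) * X 0 ^ (k + 1)) * e := by
    have := lam_eps he (ψ (X 0)) (k + 1)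
    simp only [GG, List.sum_cons, List.sum_nil, add_zero, List.map_cons, List.map_nil, map_mul,
      map_add, map_natCast, map_pow, map_ofNat]
    rw [this]
    push_cast
    linear_combination (-e ^ k) * he
  have s : sy [ψ (X 0)] (pderiv 0 f) = ψ (sy (gp K 1) (pderiv 0 f)) := by
    rw [sy_nat]
    simp [gp]
  rw [g, s] at a
  have b : ψ (((k : MvPolynomial (Fin 1) K) + 2) * X 0 ^ (k + 1) * sy (gp K 1) (pderiv 0 f)) * e = 0 := by
    rw [map_mul ψ _ (sy _ _)]
    linear_combination a - (ψ (((k : MvPolynomial (Fin 1) K) + 2) * X 0 ^ (k + 1)) * sy [ψ (X 0)] (pderiv 1 f)) * he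
  have c := congrArg TrivSqZeroExt.snd b
  rw [DualNumber.snd_mul] at c
  simp only [ψ, e, TrivSqZeroExt.inlAlgHom_apply, TrivSqZeroExt.fst_inl, TrivSqZeroExt.snd_inl,
    DualNumber.snd_eps, mul_one, zero_mul, add_zero, TrivSqZeroExt.snd_zero] at c
  refine sy_inj (homog_pderiv hf 0) ((mul_eq_zero.1 c).resolve_left
    (mul_ne_zero ?_ (pow_ne_zero _ (X_ne_zero _))))
  exact_mod_cast (Nat.cast_ne_zero (R := MvPolynomial (Fin 1) K)).2 (k + 1).succ_ne_zero

end Pool.Agent.Lib.MP_4b14b2_mp.Nd
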