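import Pool.Agent.Lib.MP_4b14b2_mp.NDefs

/-! Divisibility by G_2 and G_3. -/

namespace Pool.Agent.Lib.MP_4b14b2_mp.Nd

open MvPolynomial

variable {K : Type} [Field K] [CharZero K]

/-- power sums -/
noncomputable def npS (K : Type) [Field K] (n m : ℕ) : MvPolynomial (Fin n) K := ∑ i, X i ^ m

omit [CharZero K] in
lemma np_GG (n m : ℕ) (j : Fin (n + 1)) : GG m (gp K (n + 1)) =
    (X j + rename j.succAbove (npS K n 1)) ^ m - (X j ^ m + rename j.succAbove (npS K n m)) := by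
  simp only [GG, gp, List.map_ofFn, List.sum_ofFn, Function.comp_def, npS, map_sum, map_pow,
    rename_X, pow_one, Fin.sum_univ_succAbove _ j]

omit [CharZero K] in
lemma np_rel {n : ℕ} {A B : MvPolynomial (Fin (n + 1)) K} {R : MvPolynomial (Fin n) K} (hR : R ≠ 0)
    (h : ∀ j : Fin (n + 1), ∃ a c, rename j.succAbove R = a * A + c * B) : IsRelPrime A B := by
  classical
  intro d hA hB
  have h1 : ∀ j, d ≠ 0 ∧ degreeOf j d = 0 := by
    intro j
    obtain ⟨a, c, hj⟩ := h j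
    obtain ⟨q, hq⟩ : d ∣ rename j.succAbove R := hj ▸ dvd_add (hA.mul_left a) (hB.mul_left c)
    have h0 : rename j.succAbove R ≠ 0 := fun h0 =>
      hR (rename_injective _ Fin.succAbove_right_injective (by rw [h0, map_zero]))
    have h2 : degreeOf j (rename j.succAbove R) = 0 := by
      by_contra h2
      have := vars_rename _ _ (mem_vars_iff_degreeOf_ne_zero.mpr h2)
      obtain ⟨i, -, hi⟩ := Finset.mem_image.mp this
      exact Fin.succAbove_ne j i hi
    rw [hq] at h0 h2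
    rw [degreeOf_mul_eq (left_ne_zero_of_mul h0) (right_ne_zero_of_mul h0)] at h2
    exact ⟨left_ne_zero_of_mul h0, by omega⟩
  have h2 : d.vars = ∅ := Finset.eq_empty_of_forall_notMem fun j hj =>
    mem_vars_iff_degreeOf_ne_zero.mp hj (h1 j).2
  have h3 := vars_eq_empty_iff_eq_C.mp h2
  rw [h3]
  refine (Ne.isUnit fun h4 => (h1 0).1 ?_).map C
  rw [h3, h4, map_zero]

lemma dvd_two {n : ℕ} (hn : 3 ≤ n) (S : MvPolynomial (Fin n) K)
    (h : GG 2 (gp K n) ∣ GG 3 (gp K n) * S) : GG 2 (gp K n) ∣ S := by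
  obtain ⟨n, rfl⟩ := Nat.exists_eq_add_of_le' hn
  refine (np_rel (R := 3 * npS K (n + 2) 2 ^ 2 + npS K (n + 2) 1 ^ 4 -
    4 * npS K (n + 2) 1 * npS K (n + 2) 3) (fun h0 => ?_) fun j => ?_).dvd_of_dvd_mul_left h
  · have := congrArg (eval (Fin.cons 1 (Fin.cons (-1) 0) : Fin (n + 2) → K)) h0
    simp [npS, Fin.sum_univ_succ] at this
  · rw [np_GG _ _ j, np_GG _ _ j]
    simp only [map_sub, map_add, map_mul, map_pow, map_ofNat]
    generalize rename j.succAbove (npS K (n + 2) 1) = s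
    generalize rename j.succAbove (npS K (n + 2) 2) = p
    generalize rename j.succAbove (npS K (n + 2) 3) = q
    exact ⟨-(6 * s * X j + 3 * s ^ 2 + 3 * p), 4 * s, by ring⟩

lemma dvd_three {n : ℕ} (hn : 4 ≤ n) (S : MvPolynomial (Fin n) K)
    (h : GG 3 (gp K n) ∣ GG 5 (gp K n) * S) : GG 3 (gp K n) ∣ S := by
  obtain ⟨n, rfl⟩ := Nat.exists_eq_add_of_le' hn
  refine (np_rel (R := 5 * npS K (n + 3) 3 ^ 2 + 5 * npS K (n + 3) 1 ^ 3 * npS K (n + 3) 3 -
    npS K (n + 3) 1 ^ 6 - 9 * npS K (n + 3) 1 * npS K (n + 3) 5) (fun h0 => ?_)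
      fun j => ?_).dvd_of_dvd_mul_left h
  · have := congrArg (eval (Fin.cons 1 (Fin.cons 1 (Fin.cons (-2) 0)) : Fin (n + 3) → K)) h0
    simp only [npS, Fin.sum_univ_succ, map_sub, map_add, map_mul, map_pow, map_ofNat, map_sum,
      eval_X, Fin.cons_zero, Fin.cons_succ, Pi.zero_apply, map_zero] at this
    norm_num at this
  · rw [np_GG _ _ j, np_GG _ _ j]
    simp only [map_sub, map_add, map_mul, map_pow, map_ofNat]
    generalize rename j.succAbove (npS K (n + 3) 1) = s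
    generalize rename j.succAbove (npS K (n + 3) 3) = p
    generalize rename j.succAbove (npS K (n + 3) 5) = q
    exact ⟨-(15 * s * (X j ^ 2 + s * X j) + 10 * s ^ 3 + 5 * p), 9 * s, by ring⟩

end Pool.Agent.Lib.MP_4b14b2_mp.Nd
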