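import Pool.Agent.Lib.MP_4b14b2_mp.NHand2
import Pool.Agent.Lib.MP_4b14b2_mp.NHand3
import Pool.Agent.Lib.MP_4b14b2_mp.NLam
import Pool.Agent.Lib.MP_4b14b2_mp.NPrime
import Pool.Agent.Lib.MP_4b14b2_mp.NInj

/-! Rigidity in the frozen algebra. -/

namespace Pool.Agent.Lib.MP_4b14b2_mp.Nd

open MvPolynomial

variable {K : Type} [Field K] [CharZero K] {κ M : ℕ} {b α β : K} {K2 a A : AA K}

lemma step (h : Pair κ b α K2) {n W : ℕ} (hn : 2 ≤ n) (hl : Lin κ b K2 (W + (κ + 1)) a A)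
    (ha : Ord n a) (hA : Ord n A) (hd : GG (κ + 1) (gp K n) ∣ sy (gp K n) a)
    (h2 : n = 2 → pderiv 1 a = 0) :
    ∃ f : AA K, Ord 2 f ∧ pderiv 0 f = 0 ∧
      Lin κ b K2 (W + (κ + 1)) (a - br (K1 κ b) f) (A - br K2 f) ∧
      Ord (n + 1) (a - br (K1 κ b) f) ∧ Ord (n + 1) (A - br K2 f) := by
  have hκ := h.hκ
  have hP : (homogeneousComponent n a).IsHomogeneous n := homogeneousComponent_isHomogeneous n a
  have hs : sy (gp K n) (homogeneousComponent n a) = sy (gp K n) a := by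
    have := sy_comp (gp K n) a
    rwa [length_gp] at this
  obtain ⟨f0, hf0, e0⟩ := exists_br_X hP (hs ▸ hd)
  have e1 := br_X_comp (hl.wa.comp n) e0
  have hf1 := homog_comp (W := W) (wt κ) hf0
  have hw1 : WH κ (weightedHomogeneousComponent (wt κ) W f0) W :=
    weightedHomogeneousComponent_isWeightedHomogeneous W f0
  generalize weightedHomogeneousComponent (wt κ) W f0 = f1 at e1 hf1 hw1
  obtain ⟨n', rfl⟩ : ∃ n', n = n' + 1 := ⟨n - 1, by omega⟩
  have hp0 : pderiv 0 (br (X (κ + 1)) f1) = 0 := by rw [e1, pderiv_comp, hl.a0, map_zero]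
  have h01 : pderiv 0 f1 = 0 := by
    by_cases hn2 : n' + 1 = 2
    · refine free_two (m := κ + 1) (by omega) (hn2 ▸ hf1) hp0 ?_
      rw [e1, pderiv_comp, h2 hn2, map_zero]
    · refine br_X_inj (n := n') (m := κ + 1) (by omega) (by omega) (homog_pderiv hf1 0) ?_
      rw [pderiv_zero_br, pderiv_X_of_ne (by omega), br_zero_left, zero_add] at hp0
      exact hp0
  have hO : Ord (n' + 1) (C b⁻¹ * f1) := (Ord_of_homog hf1).C_mul _
  have hw : WH κ (C b⁻¹ * f1) W := hw1.C_mul _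
  have h0 : pderiv 0 (C b⁻¹ * f1) = 0 := by rw [pderiv_C_mul, h01, mul_zero]
  have e2 : a - br (K1 κ b) (C b⁻¹ * f1) =
      (a - homogeneousComponent (n' + 1) a) - br (X 0 * X 1) (C b⁻¹ * f1) := by
    rw [K1, br_add_left, br_C_mul_left, br_C_mul_right, e1, ← mul_assoc, ← C_mul,
      mul_inv_cancel₀ h.hb, C_1, one_mul, sub_sub]
  generalize C b⁻¹ * f1 = f at hO hw h0 e2
  have ha' : Ord (n' + 1 + 1) (a - br (K1 κ b) f) := by
    rw [e2]
    exact ha.sub_comp.sub ((Ord_XX 0 1).br hO (by omega))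
  have hl' : Lin κ b K2 (W + (κ + 1)) (a - br (K1 κ b) f) (A - br K2 f) := by
    refine ⟨hl.wa.sub ((WH_K1 κ b).br hw (by omega)), hl.wA.sub (h.wh.br hw (by omega)), ?_, ?_, ?_⟩
    · rw [map_sub, hl.a0, pderiv_zero_br, pderiv_zero_K1, br_X_one_left, h0, br_zero_right]
      simp
    · rw [map_sub, hl.A0, pderiv_zero_br, h.d0, h0, br_zero_right, add_zero]
    · have j := jacobi (K1 κ b) K2 f
      rw [h.comm, br_zero_left] at j
      rw [br_sub_right, br_sub_left, br_anti (br (K1 κ b) f) K2]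
      linear_combination hl.eq - j
  refine ⟨f, hO.mono hn, h0, hl', ha', ?_⟩
  have hA' : Ord (n' + 1) (A - br K2 f) := hA.sub (h.ord_one.br hO (by omega))
  refine ord_succ_of_sy hA' ?_
  have e3 := lowest h.lin (ha'.mono (Nat.le_succ _)) hA' hl'.eq (gp K (n' + 1)) (length_gp _)
  rw [sy_of_ord ha' _ (by rw [length_gp]; omega), mul_zero, mul_zero] at e3
  have hb : algebraMap K (MvPolynomial (Fin (n' + 1)) K) b ≠ 0 :=
    (map_ne_zero_iff _ (algebraMap K _).injective).mpr h.hb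
  exact (mul_eq_zero.mp ((mul_eq_zero.mp e3).resolve_left hb)).resolve_left
    (GG_ne_zero hn (by omega))

lemma Pair.alpha_ne (h : Pair κ b α K2) : α ≠ 0 := by
  intro h0
  have := h.alpha
  rw [h0, zero_mul] at this
  exact mul_ne_zero (Nat.cast_add_one_ne_zero κ) (pow_ne_zero 2 h.hb) this.symm

lemma dvd_mul_level (h : Pair κ b α K2) (hl : Lin κ b K2 M a A) {n : ℕ} (ha : Ord n a)
    (hA : Ord n A) : GG (κ + 1) (gp K n) ∣ GG (2 * κ + 1) (gp K n) * sy (gp K n) a := by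
  have e := lowest h.lin ha hA hl.eq (gp K n) (length_gp _)
  have hu : IsUnit (algebraMap K (MvPolynomial (Fin n) K) α) :=
    (isUnit_iff_ne_zero.mpr h.alpha_ne).map _
  rw [← hu.dvd_mul_left, ← e]
  exact (dvd_mul_right _ _).mul_left _

lemma dvd_level (h : Pair κ b α K2) (hl : Lin κ b K2 M a A) {n : ℕ} (hn : 3 ≤ n) (ha : Ord n a)
    (hA : Ord n A) : GG (κ + 1) (gp K n) ∣ sy (gp K n) a := by
  rcases h.kappa with rfl | rfl
  · exact dvd_two hn _ (dvd_mul_level h hl ha hA)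
  · by_cases h3 : n = 3
    · subst h3
      refine root_three_three _ ?_ ?_ ?_
      · rw [sy_gp]; exact hl.anti_three h ha hA _ _
      · rw [sy_gp, ← hl.anti_three h ha hA (X 0 : MvPolynomial (Fin 3) K) (X 1)]
        exact sy_perm ((List.Perm.swap _ _ _).cons _) a
      · rw [sy_gp, ← hl.anti_three h ha hA (X 1 : MvPolynomial (Fin 3) K) (X 0)]
        exact sy_perm ((List.Perm.swap _ _ _).trans ((List.Perm.swap _ _ _).cons _)) a
    · exact dvd_three (by omega) _ (dvd_mul_level h hl ha hA)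

lemma dvd_level_two (h : Pair κ b α K2) (hl : Lin κ b K2 M a A) (ha : Ord 2 a) (hA : Ord 2 A) :
    GG (κ + 1) (gp K 2) ∣ sy (gp K 2) a := by
  have h0 : ∀ y : MvPolynomial (Fin 2) K, sy [0, y] a = 0 := fun y => by
    rw [sy_zero_cons, hl.a0, sy_zero]
  have h1 : aeval (![0, X 1] : Fin 2 → MvPolynomial (Fin 2) K) (sy (gp K 2) a) = 0 := by
    rw [sy_gp]; exact h0 _
  have h2 : aeval (![X 0, 0] : Fin 2 → MvPolynomial (Fin 2) K) (sy (gp K 2) a) = 0 := by
    rw [sy_gp]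
    exact (sy_perm (xs := [X 0, 0]) (List.Perm.swap _ _ _) a).trans (h0 _)
  rcases h.kappa with rfl | rfl
  · exact root_two_two _ h1 h2
  · refine root_three_two _ h1 h2 ?_
    rw [sy_gp]; exact hl.anti_two h ha hA _

lemma trivial_of_ord (h : Pair κ b α K2) (W d : ℕ) : ∀ (n : ℕ) (a A : AA K), 3 ≤ n →
    W + (κ + 1) < n + d → Lin κ b K2 (W + (κ + 1)) a A → Ord n a → Ord n A →
    ∃ f : AA K, Ord 2 f ∧ pderiv 0 f = 0 ∧ a = br (K1 κ b) f := by
  induction d with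
  | zero =>
    intro n a A _ hd hl ha _
    refine ⟨0, Ord_zero 2, map_zero _, ?_⟩
    rw [br_zero_right]
    exact eq_zero_of_ord hl.wa hl.a0 ha (lt_of_lt_of_le hd (Nat.le_mul_of_pos_left _ (by omega)))
  | succ d ih =>
    intro n a A hn hd hl ha hA
    obtain ⟨f, hf, hf0, hl', ha', hA'⟩ :=
      step h (by omega) hl ha hA (dvd_level h hl hn ha hA) (by omega)
    obtain ⟨g, hg, hg0, e⟩ := ih (n + 1) _ _ (by omega) (by omega) hl' ha' hA'
    refine ⟨f + g, hf.add hg, by rw [map_add, hf0, hg0, add_zero], ?_⟩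
    rw [br_add_right, ← e, add_sub_cancel]

theorem core (h : Pair κ b α K2) (hl : Lin κ b K2 M a A) (ha : Ord 2 a)
    (h1 : pderiv 1 a = C β * X 1) : a = 0 := by
  by_contra hne
  have hM : (κ + 1) * 2 ≤ M := not_lt.mp fun hlt => hne (eq_zero_of_ord hl.wa hl.a0 ha hlt)
  obtain ⟨W, rfl⟩ : ∃ W, M = W + (κ + 1) := ⟨M - (κ + 1), by omega⟩
  have hA := hl.ord_two h ha (by omega)
  have hβ : β = 0 := by
    rcases h.kappa with rfl | rfl
    · exact hl.beta_one h ha hA h1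
    · exact hl.beta_two h ha hA h1
  obtain ⟨f, hf, hf0, hl', ha', hA'⟩ := step h le_rfl hl ha hA (dvd_level_two h hl ha hA)
    (fun _ => by rw [h1, hβ, C_0, zero_mul])
  obtain ⟨g, hg, hg0, e⟩ := trivial_of_ord h W (W + (κ + 1)) 3 _ _ le_rfl (by omega) hl' ha' hA'
  have e' : a = br (K1 κ b) (f + g) := by rw [br_add_right, ← e, add_sub_cancel]
  have h0 : f + g = 0 := K1_inj κ b β
    (Deg2_of_free (by rw [map_add, hf0, hg0, add_zero]) (hf.add hg)) (e' ▸ h1)
  exact hne (by rw [e', h0, br_zero_right])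

end Pool.Agent.Lib.MP_4b14b2_mp.Nd
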