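import Pool.Agent.Lib.MP_4b14b2_mp.NWt

/-! Consequences of the coefficient formula for weight components. -/

namespace Pool.Agent.Lib.MP_4b14b2_mp.Nd

open MvPolynomial

/-- `P W` is the weight W part of the frozen series F. -/
def IsCp (κ : ℕ) (F : DSeries) (P : ℕ → AA (PowerSeries ℂ)) : Prop :=
  ∀ W m, coeff m (P W) = if Finsupp.weight (wt κ) m = W then
    tc (m 0) (coeff (tl m) (PowerSeries.coeff (dg m - 1) F)) else 0

variable {κ : ℕ} {F : DSeries} {P : ℕ → AA (PowerSeries ℂ)}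

lemma ncp_tc_zero (n : ℕ) : tc n 0 = 0 := by
  rw [tc, Function.iterate_fixed (map_zero _), smul_zero]

lemma ncp_tc0 (g : PowerSeries ℂ) : tc 0 g = g := by simp [tc]

lemma ncp_tc_succ (n : ℕ) (g : PowerSeries ℂ) :
    tc (n + 1) g * ((n : PowerSeries ℂ) + 1) = PowerSeries.derivative ℂ (tc n g) := by
  have e : ((n : PowerSeries ℂ) + 1) = ((n : ℂ) + 1) • (1 : PowerSeries ℂ) := by
    rw [add_smul, one_smul, Nat.cast_smul_eq_nsmul, nsmul_eq_mul, mul_one]
  have h1 : ((n : ℂ) + 1) ≠ 0 := Nat.cast_add_one_ne_zero n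
  have h2 : (n.factorial : ℂ) ≠ 0 := Nat.cast_ne_zero.2 n.factorial_ne_zero
  rw [e, mul_smul_comm, mul_one, tc, tc, Function.iterate_succ_apply', Derivation.map_smul,
    smul_smul, Nat.factorial_succ]
  congr 1
  push_cast
  field_simp

lemma ncp_tc1 (g : PowerSeries ℂ) : tc 1 g = PowerSeries.derivative ℂ g := by simp [tc]

lemma ncp_tcX (a : ℕ) : tc (a + 2) PowerSeries.X = 0 := by
  rw [tc, Function.iterate_succ_apply, Function.iterate_succ_apply, PowerSeries.derivative_X,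
    Derivation.map_one_eq_zero, Function.iterate_fixed (map_zero _), smul_zero]

lemma ncp_dg_add (m m' : ℕ →₀ ℕ) : dg (m + m') = dg m + dg m' := map_add _ _ _

lemma ncp_dg_single (i a : ℕ) : dg (Finsupp.single i a) = a * i := by
  rw [dg, Finsupp.weight_single, smul_eq_mul]

lemma ncp_tl_add (m m' : ℕ →₀ ℕ) : tl (m + m') = tl m + tl m' := by
  ext i; simp only [tl_apply, Finsupp.add_apply]

lemma ncp_tl_zero (a : ℕ) : tl (Finsupp.single 0 a) = 0 := by
  ext i; simp [tl_apply]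

lemma ncp_tl_succ (j a : ℕ) : tl (Finsupp.single (j + 1) a) = Finsupp.single j a := by
  ext i; simp [tl_apply, Finsupp.single_apply]

lemma ncp_dg_tl (m : ℕ →₀ ℕ) : dg m = Finsupp.weight (fun i => i + 1) (tl m) := by
  induction m using Finsupp.induction_linear with
  | zero => rw [show tl 0 = 0 from by ext i; simp [tl_apply], map_zero, dg, map_zero]
  | add f g hf hg => rw [ncp_dg_add, ncp_tl_add, map_add, hf, hg]
  | single i a =>
    rcases i with _ | i
    · rw [ncp_tl_zero, ncp_dg_single, map_zero, mul_zero]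
    · rw [ncp_tl_succ, ncp_dg_single, Finsupp.weight_single, smul_eq_mul]

lemma ncp_lift (m' : ℕ →₀ ℕ) : ∃ m : ℕ →₀ ℕ, m 0 = 0 ∧ tl m = m' :=
  ⟨m'.mapDomain Nat.succ, Finsupp.mapDomain_of_notMem_range _ _ (by simp), by
    ext i; rw [tl_apply]; exact Finsupp.mapDomain_apply Nat.succ_injective _ _⟩

lemma ncp_lin {m : ℕ →₀ ℕ} (h1 : Finsupp.degree m ≤ 1) (h2 : 2 ≤ dg m) :
    ∃ j, 1 ≤ j ∧ m = Finsupp.single (j + 1) 1 := by
  have h3 : Finsupp.degree m = 0 ∨ Finsupp.degree m = 1 := by omega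
  rcases h3 with h3 | h3
  · rw [(Finsupp.degree_eq_zero_iff m).1 h3, dg, map_zero] at h2
    omega
  · have h4 : m ∈ Set.range fun a : ℕ => Finsupp.single a 1 := by
      rw [Finsupp.range_single_one]; exact h3
    obtain ⟨i, rfl⟩ := h4
    simp only [ncp_dg_single] at h2
    exact ⟨i - 1, by omega, by rw [show i - 1 + 1 = i by omega]⟩

lemma ncp_val (F : DSeries) (j : ℕ) : tc ((Finsupp.single (j + 1) 1 : ℕ →₀ ℕ) 0)
    (coeff (tl (Finsupp.single (j + 1) 1))
      (PowerSeries.coeff (dg (Finsupp.single (j + 1) 1) - 1) F)) = b F (j + 1) := by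
  rw [ncp_tl_succ, ncp_dg_single, Finsupp.single_eq_of_ne (by omega), ncp_tc0, one_mul, b]
  rfl

lemma ncp_two {m : ℕ →₀ ℕ} (h0 : m 0 = 0) (h1 : m 1 ≠ 0) (h2 : dg m = 2) :
    m = Finsupp.single 1 2 := by
  have e : m = Finsupp.single 1 (m 1) := by
    ext i
    by_cases hi : i = 1
    · rw [hi, Finsupp.single_eq_same]
    rw [Finsupp.single_eq_of_ne hi]
    by_cases hi0 : i = 0
    · rw [hi0, h0]
    have hle : Finsupp.single 1 (m 1) + Finsupp.single i (m i) ≤ m := fun k => by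
      simp only [Finsupp.add_apply, Finsupp.single_apply]
      split_ifs with a c c
      · omega
      · rw [a]; omega
      · rw [c]; omega
      · omega
    obtain ⟨r, hr⟩ := le_iff_exists_add.1 hle
    have h3 := congrArg dg hr
    rw [ncp_dg_add, ncp_dg_add, ncp_dg_single, ncp_dg_single, h2] at h3
    have h4 : m i * 2 ≤ m i * i := Nat.mul_le_mul_left _ (by omega)
    omega
  have h3 := congrArg dg e
  rw [ncp_dg_single, h2, mul_one] at h3
  rw [e, ← h3]

/-- The monomial v_0^a v_1. -/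
noncomputable def ncpM (a : ℕ) : ℕ →₀ ℕ := Finsupp.single 0 a + Finsupp.single 1 1

lemma ncpM_zero (a : ℕ) : ncpM a 0 = a := by simp [ncpM]

lemma ncpM_tl (a : ℕ) : tl (ncpM a) = Finsupp.single 0 1 := by
  rw [ncpM, ncp_tl_add, ncp_tl_zero, zero_add, ncp_tl_succ]

lemma ncpM_wt (κ a : ℕ) : Finsupp.weight (wt κ) (ncpM a) = κ * a + κ + 1 := by
  rw [ncpM, map_add, Finsupp.weight_single, Finsupp.weight_single]
  simp only [wt, smul_eq_mul]; ring

lemma ncpM_of {m : ℕ →₀ ℕ} (h : Finsupp.single 0 1 = tl m) : m = ncpM (m 0) := by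
  ext i
  rcases i with _ | i
  · rw [ncpM_zero]
  · rw [← tl_apply, ← tl_apply, ncpM_tl, h]

/-- The coefficients of the weight W part of g(u) u_1. -/
noncomputable def ncpL (κ : ℕ) (g : PowerSeries ℂ) (W : ℕ) (m : ℕ →₀ ℕ) : PowerSeries ℂ :=
  if Finsupp.weight (wt κ) m = W then tc (m 0) (coeff (tl m) (C g * X 0 : DPoly)) else 0

lemma ncp_coeff (g : PowerSeries ℂ) (m' : ℕ →₀ ℕ) :
    coeff m' (C g * X 0 : DPoly) = if Finsupp.single 0 1 = m' then g else 0 := by
  rw [C_mul_X_eq_monomial, coeff_monomial]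

lemma ncpL_mono (hκ : 1 ≤ κ) (g : PowerSeries ℂ) (a : ℕ) (m : ℕ →₀ ℕ) :
    ncpL κ g (κ * a + κ + 1) m = coeff m (monomial (ncpM a) (tc a g)) := by
  rw [ncpL, ncp_coeff, coeff_monomial]
  by_cases h : ncpM a = m
  · subst h
    rw [if_pos (ncpM_wt κ a), if_pos (ncpM_tl a).symm, if_pos rfl, ncpM_zero]
  rw [if_neg h]
  split_ifs with h1 h2
  · have e := ncpM_of h2
    rw [e, ncpM_wt] at h1
    have : m 0 = a := Nat.eq_of_mul_eq_mul_left hκ (by omega)
    exact absurd (by rw [e, this]) h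
  · exact ncp_tc_zero _
  · rfl

lemma ncpL_none {g : PowerSeries ℂ} {W : ℕ} (hW : ∀ a, W = κ * a + κ + 1 → tc a g = 0)
    (m : ℕ →₀ ℕ) : ncpL κ g W m = 0 := by
  rw [ncpL, ncp_coeff]
  split_ifs with h1 h2
  · refine hW _ ?_
    rw [← h1, ← ncpM_wt, ← ncpM_of h2]
  · exact ncp_tc_zero _
  · rfl

lemma ncpL_big (g : PowerSeries ℂ) (W : ℕ) {m : ℕ →₀ ℕ} (h : 2 ≤ dg m) : ncpL κ g W m = 0 := by
  rw [ncpL, ncp_coeff]
  split_ifs with h1 h2
  · rw [ncp_dg_tl, ← h2, Finsupp.weight_single] at h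
    simp at h
  · exact ncp_tc_zero _
  · rfl

lemma ncp_low (h : IsCp κ F P) {g : PowerSeries ℂ} (h0 : PowerSeries.coeff 0 F = C g * X 0)
    (W : ℕ) {m : ℕ →₀ ℕ} (hm : dg m ≤ 1) : coeff m (P W) = ncpL κ g W m := by
  rw [h W m, show dg m - 1 = 0 by omega, h0, ncpL]

lemma ncp_const {g : PowerSeries ℂ} (h : IsCp κ (PowerSeries.C (C g * X 0)) P) (W : ℕ)
    (m : ℕ →₀ ℕ) : coeff m (P W) = ncpL κ g W m := by
  by_cases hm : dg m ≤ 1
  · exact ncp_low h (by rw [PowerSeries.coeff_zero_C]) W hm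
  · rw [ncpL_big g W (by omega), h W m, PowerSeries.coeff_C, if_neg (show dg m - 1 ≠ 0 by omega),
      coeff_zero, ncp_tc_zero, ite_self]

lemma ncp_m0 (c : PowerSeries ℂ) : (monomial (ncpM 0) c : AA (PowerSeries ℂ)) = C c * X 1 := by
  rw [C_mul_X_eq_monomial, ncpM, Finsupp.single_zero, zero_add]

lemma ncp_m1 (c : PowerSeries ℂ) :
    (monomial (ncpM 1) c : AA (PowerSeries ℂ)) = C c * (X 0 * X 1) := by
  rw [X, X, monomial_mul, C_mul_monomial, ncpM, mul_one, mul_one]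

/-- The parts of g(u) u_1 with at most two factors. -/
lemma ncpL_eq (hκ : 1 ≤ κ) (g : PowerSeries ℂ) {W : ℕ}
    (hW : ∀ a, W = κ * (a + 2) + κ + 1 → tc (a + 2) g = 0) (m : ℕ →₀ ℕ) :
    ncpL κ g W m = coeff m (if W = κ + 1 then C g * X 1
      else if W = 2 * κ + 1 then C (PowerSeries.derivative ℂ g) * (X 0 * X 1) else 0) := by
  split_ifs with h1 h2
  · rw [← ncp_m0, ← ncp_tc0 g, ← ncpL_mono hκ, ncp_tc0, h1, mul_zero, zero_add]
  · rw [← ncp_m1, ← ncp_tc1 g, ← ncpL_mono hκ, h2, mul_one, two_mul]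
  · refine ncpL_none (fun a ha => ?_) m
    rcases a with _ | _ | a
    · omega
    · omega
    · exact hW a ha

lemma ncpL_X (hκ : 1 ≤ κ) (W : ℕ) (m : ℕ →₀ ℕ) :
    ncpL κ PowerSeries.X W m = coeff m (if W = κ + 1 then C PowerSeries.X * X 1
      else if W = 2 * κ + 1 then X 0 * X 1 else 0 : AA (PowerSeries ℂ)) := by
  rw [ncpL_eq hκ _ (fun a _ => ncp_tcX a), PowerSeries.derivative_X, C_1, one_mul]

lemma IsCp.wh (h : IsCp κ F P) (W : ℕ) : WH κ (P W) W := fun m hm => by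
  by_contra h1
  exact hm (by rw [h W m, if_neg h1])
lemma IsCp.pderiv_add (h : IsCp κ F P) (W : ℕ) : pderiv 0 (P (W + κ)) = du (P W) := by
  refine MvPolynomial.ext _ _ fun m => ?_
  have e : coeff m (du (P W)) = PowerSeries.derivative ℂ (coeff m (P W)) := coeff_du _ _
  rw [e, coeff_pderiv, h, h, map_add, wsingle, ncp_tl_add, ncp_tl_zero, add_zero, ncp_dg_add,
    ncp_dg_single, mul_zero, add_zero, Finsupp.add_apply, Finsupp.single_eq_same]
  simp only [wt, zero_add, add_left_inj]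
  split_ifs
  · exact ncp_tc_succ _ _
  · rw [zero_mul, map_zero]
lemma IsCp.pderiv_lt (h : IsCp κ F P) {W : ℕ} (hW : W < κ) : pderiv 0 (P W) = 0 := by
  refine MvPolynomial.ext _ _ fun m => ?_
  rw [coeff_pderiv, h, map_add, wsingle, if_neg (by simp only [wt]; omega), zero_mul, coeff_zero]
lemma IsCp.eq_zero (h : IsCp κ F P) (hF : SeriesHasDeg F 1) (h0 : ∀ W, P W = 0) : F = 0 := by
  refine PowerSeries.ext fun n => MvPolynomial.ext _ _ fun m' => ?_
  rw [map_zero, coeff_zero]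
  by_contra h1
  obtain ⟨m, m0, rfl⟩ := ncp_lift m'
  have h2 : Finsupp.weight (fun i => i + 1) (tl m) = n + 1 := hF n h1
  have h3 := h (Finsupp.weight (wt κ) m) m
  rw [h0, coeff_zero, if_pos rfl, m0, ncp_tc0, ncp_dg_tl, h2, Nat.add_sub_cancel] at h3
  exact h1 h3.symm
lemma IsCp.deg2 (h : IsCp κ F P) (h0 : PowerSeries.coeff 0 F = 0) (W : ℕ) : Deg2 (P W) :=
  fun m hm => by
    by_contra h1
    refine mem_support_iff.1 hm ?_
    rw [h W m, show dg m - 1 = 0 by omega, h0, coeff_zero, ncp_tc_zero, ite_self]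
/-- No linear monomial in F: no monomial with fewer than two factors. -/
lemma IsCp.ord_two (h : IsCp κ F P) (hF : SeriesHasDeg F 1) (h0 : PowerSeries.coeff 0 F = 0)
    (hb : ∀ k, 2 ≤ k → b F k = 0) (W : ℕ) : Ord 2 (P W) := fun m hm => by
  by_contra h1
  obtain ⟨j, hj, rfl⟩ := ncp_lin (m := m) (by omega) (h.deg2 h0 W m hm)
  refine mem_support_iff.1 hm ?_
  rw [h W, ncp_val, hb _ (by omega), ite_self]
/-- Normal form. -/
lemma IsCp.normal (h : IsCp κ F P) (hF : SeriesHasDeg F 1) (h0 : PowerSeries.coeff 0 F = 0)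
    (hb : b F 2 = 0)
    (hN : ∀ n, 2 ≤ n → (PowerSeries.coeff n F).IsWeightedHomogeneous (Pi.single 0 1) 0)
    (W : ℕ) (hW : pderiv 0 (P W) = 0) : ∃ β, pderiv 1 (P W) = C β * X 1 := by
  have : CharZero (PowerSeries ℂ) := algebraRat.charZero _
  have key : ∀ m, coeff m (P W) ≠ 0 → m 1 ≠ 0 → m = Finsupp.single 1 2 := by
    intro m hm m1
    have m0 := free_of_pderiv hW m (mem_support_iff.2 hm)
    have d2 := h.deg2 h0 W m (mem_support_iff.2 hm)
    refine ncp_two m0 m1 ?_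
    by_contra d3
    refine hm ?_
    rw [h W m]
    by_cases hc : coeff (tl m) (PowerSeries.coeff (dg m - 1) F) = 0
    · rw [hc, ncp_tc_zero, ite_self]
    have h1 := hN (dg m - 1) (by omega) hc
    rw [Finsupp.weight_single_one_apply, tl_apply] at h1
    exact absurd h1 m1
  refine ⟨coeff (Finsupp.single 1 2) (P W) * 2, MvPolynomial.ext _ _ fun m => ?_⟩
  have e : (Finsupp.single 1 1 + Finsupp.single 1 1 : ℕ →₀ ℕ) = Finsupp.single 1 2 := by
    rw [← Finsupp.single_add]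
  rw [coeff_pderiv, C_mul_X_eq_monomial, coeff_monomial]
  split_ifs with h1
  · subst h1
    rw [e, Finsupp.single_eq_same, Nat.cast_one, one_add_one_eq_two]
  · by_cases hc : coeff (m + Finsupp.single 1 1) (P W) = 0
    · rw [hc, zero_mul]
    have h2 := key _ hc (by simp)
    exact absurd (add_right_cancel (h2.trans e.symm)).symm h1
/-- The first flow: Y = Q_1 - c v_1 starts with K1. -/
lemma IsCp.first (h : IsCp κ F P) (hκ : 1 ≤ κ) (hF : SeriesHasDeg F 1)
    (h0 : PowerSeries.coeff 0 F = u * X 0) (hb : ∀ k, 2 ≤ k → k ≤ κ → b F k = 0) :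
    (∀ W, W < 2 * κ + 1 → P W = if W = κ + 1 then C PowerSeries.X * X 1 else 0) ∧
    P (2 * κ + 1) = K1 κ (b F (κ + 1)) := by
  have key : ∀ W, W ≤ 2 * κ + 1 → ∀ m, coeff m (P W) = ncpL κ PowerSeries.X W m +
      if W = 2 * κ + 1 ∧ Finsupp.single (κ + 1) 1 = m then b F (κ + 1) else 0 := by
    intro W hW m
    by_cases hm : dg m ≤ 1
    · rw [ncp_low h h0 W hm, if_neg, add_zero]
      rintro ⟨-, rfl⟩
      rw [ncp_dg_single] at hm
      omega
    rw [ncpL_big _ W (by omega), zero_add, h W m]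
    by_cases hw : Finsupp.weight (wt κ) m = W
    · have h1 := weight_wt κ m
      have h2 : Finsupp.degree m ≤ 1 := by
        by_contra h3
        have : κ * 2 ≤ κ * Finsupp.degree m := Nat.mul_le_mul_left _ (by omega)
        omega
      obtain ⟨j, hj, rfl⟩ := ncp_lin h2 (by omega)
      rw [if_pos hw, ncp_val]
      simp only [wsingle, wt] at hw
      by_cases hjk : j = κ
      · rw [if_pos ⟨by omega, by rw [hjk]⟩, hjk]
      · rw [if_neg (fun a => hjk (by omega)), hb _ (by omega) (by omega)]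
    · rw [if_neg hw, if_neg]
      rintro ⟨rfl, rfl⟩
      simp only [wsingle, wt] at hw
      omega
  refine ⟨fun W hW => MvPolynomial.ext _ _ fun m => ?_, MvPolynomial.ext _ _ fun m => ?_⟩
  · rw [key W hW.le, if_neg (fun a => hW.ne a.1), add_zero, ncpL_X hκ, if_neg hW.ne]
  · rw [key _ le_rfl, ncpL_X hκ, if_neg (show 2 * κ + 1 ≠ κ + 1 by omega), if_pos rfl, K1,
      coeff_add, C_mul_X_eq_monomial, coeff_monomial, add_comm]
    simp only [true_and]
/-- The ε^0 term of the second flow. -/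
lemma IsCp.second (h : IsCp κ (PowerSeries.C (((2 : ℕ).factorial : ℂ)⁻¹ • (u ^ 2 * X 0))) P)
    (hκ : 1 ≤ κ) (W : ℕ) (hW : W < 3 * κ + 1) :
    P W = if W = κ + 1 then C ((2 : ℂ)⁻¹ • PowerSeries.X ^ 2) * X 1
      else if W = 2 * κ + 1 then C PowerSeries.X * (X 0 * X 1) else 0 := by
  have e : (((2 : ℕ).factorial : ℂ)⁻¹ • (u ^ 2 * X 0) : DPoly) =
      C ((2 : ℂ)⁻¹ • PowerSeries.X ^ 2) * X 0 := by
    rw [Lau.smul_eq_C, u, ← map_pow, ← mul_assoc, ← map_mul, PowerSeries.smul_eq_C_mul]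
    norm_num
  have e2 : PowerSeries.derivative ℂ ((2 : ℂ)⁻¹ • PowerSeries.X ^ 2 : PowerSeries ℂ) =
      PowerSeries.X := by
    rw [Derivation.map_smul, pow_two, Derivation.leibniz, PowerSeries.derivative_X, smul_eq_mul,
      mul_one, ← two_smul ℂ, smul_smul, inv_mul_cancel₀ two_ne_zero, one_smul]
  rw [e] at h
  refine MvPolynomial.ext _ _ fun m => ?_
  rw [ncp_const h, ncpL_eq hκ _ (fun a ha => ?_), e2]
  rw [mul_add] at ha
  omega
/-- The ε^0 term of the first flow. -/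
lemma IsCp.hopf (h : IsCp κ (PowerSeries.C (u * X 0)) P) (hκ : 1 ≤ κ) (W : ℕ) :
    P W = if W = κ + 1 then C PowerSeries.X * X 1
      else if W = 2 * κ + 1 then X 0 * X 1 else 0 :=
  MvPolynomial.ext _ _ fun m => by rw [ncp_const (g := PowerSeries.X) h, ncpL_X hκ]

end Pool.Agent.Lib.MP_4b14b2_mp.Nd
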