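import Mathlib

/-! The frozen algebra R[v_0, v_1, ...]: flows, brackets, symbols, weights. -/

namespace Pool.Agent.Lib.MP_4b14b2_mp.Nd

open MvPolynomial

/-- The frozen algebra; `X i` is v_i. -/
abbrev AA (R : Type) [CommRing R] : Type := MvPolynomial ℕ R

variable {R : Type} [CommRing R]

/-- The derivation v_i ↦ v_(i+m). -/
noncomputable def shk (m : ℕ) : Derivation R (AA R) (AA R) := mkDerivation R fun i => X (i + m)

/-- The total derivative v_i ↦ v_(i+1). -/
noncomputable def sh : Derivation R (AA R) (AA R) := shk 1

/-- The flow v_t = P as a derivation. -/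
noncomputable def fl (P : AA R) : Derivation R (AA R) (AA R) :=
  mkDerivation R fun i => (fun F : AA R => sh F)^[i] P

/-- The bracket of two flows. -/
noncomputable def br (P Q : AA R) : AA R := fl P Q - fl Q P

/-- The derivation v_i ↦ x^i. -/
noncomputable def Dx (x : R) : Derivation R (AA R) (AA R) := mkDerivation R fun i => C (x ^ i)

/-- The symbol at a list of points of the coefficient ring. -/
noncomputable def sym (xs : List R) (P : AA R) : R :=
  constantCoeff (xs.foldr (fun x Q => Dx x Q) P)

/-- The symbol at a list of points of an algebra. -/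
noncomputable def sy {B : Type} [CommRing B] [Algebra R B] (xs : List B) (P : AA R) : B :=
  sym xs (map (algebraMap R B) P)

/-- Every monomial has at least n factors. -/
def Ord (n : ℕ) (P : AA R) : Prop := ∀ m ∈ P.support, n ≤ Finsupp.degree m

/-- The differential degree of a monomial. -/
noncomputable def dg (m : ℕ →₀ ℕ) : ℕ := Finsupp.weight (fun i => i) m

/-- Every monomial has differential degree at least 2. -/
def Deg2 (P : AA R) : Prop := ∀ m ∈ P.support, 2 ≤ dg m

/-- The weight of v_i. -/
def wt (κ : ℕ) : ℕ → ℕ := fun i => i + κ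

/-- Homogeneous of weight W. -/
def WH (κ : ℕ) (P : AA R) (W : ℕ) : Prop := P.IsWeightedHomogeneous (wt κ) W

/-- (∑ x)^m - ∑ x^m. -/
def GG {B : Type} [CommRing B] (m : ℕ) (xs : List B) : B :=
  xs.sum ^ m - (xs.map fun x => x ^ m).sum

/-- b v_(κ+1) + v_0 v_1. -/
noncomputable def K1 (κ : ℕ) (b : R) : AA R := C b * X (κ + 1) + X 0 * X 1

/-- The generic point. -/
noncomputable def gp (R : Type) [CommRing R] (n : ℕ) : List (MvPolynomial (Fin n) R) :=
  List.ofFn fun i => X i

end Pool.Agent.Lib.MP_4b14b2_mp.Nd
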