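import Pool.Agent.Lib.MP_4b14b2_mp.NSym

/-! The symbol of a flow derivative at two, three and four points. -/

namespace Pool.Agent.Lib.MP_4b14b2_mp.Nd

open MvPolynomial

variable {R : Type} [CommRing R] {B : Type} [CommRing B] [Algebra R B]

/-- The flow with the total derivative shifted by s. -/
noncomputable def nfS (s : R) (P : AA R) : Derivation R (AA R) (AA R) :=
  mkDerivation R fun i => (fun F : AA R => sh F + C s * F)^[i] P

lemma nfS_X (s : R) (P : AA R) (i : ℕ) :
    nfS s P (X i) = (fun F : AA R => sh F + C s * F)^[i] P := mkDerivation_X _ _ _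

lemma nfS_zero (P : AA R) : nfS 0 P = fl P := by
  simp only [nfS, fl, C_0, zero_mul, add_zero]

lemma nf_C (D : Derivation R (AA R) (AA R)) (c : R) : D (C c) = 0 := derivation_C D c

lemma nf_mul (D : Derivation R (AA R) (AA R)) (F G : AA R) : D (F * G) = F * D G + G * D F := by
  rw [Derivation.leibniz, smul_eq_mul, smul_eq_mul]

lemma nf_iter (x s : R) (P : AA R) (i : ℕ) :
    Dx x ((fun F : AA R => sh F + C s * F)^[i] P) =
      (fun F : AA R => sh F + C (x + s) * F)^[i] (Dx x P) := by
  induction i with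
  | zero => rfl
  | succ i ih =>
    rw [Function.iterate_succ_apply', Function.iterate_succ_apply', ← ih, map_add, nf_mul, nf_C,
      sh, Dx_shk, pow_one, C_add]
    ring

lemma nf_step (x s : R) (P Q : AA R) :
    Dx x (nfS s P Q) = nfS (x + s) (Dx x P) Q + nfS s P (Dx x Q) := by
  induction Q using MvPolynomial.induction_on with
  | C a => simp only [nf_C, map_zero, add_zero]
  | add p q hp hq => simp only [map_add, hp, hq]; ring
  | mul_X p i hp =>
    simp only [nf_mul, map_add, nfS_X, Dx_X, nf_iter, nf_C, hp]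
    ring

lemma nf_cc_iter (s : R) (P : AA R) (i : ℕ) :
    constantCoeff ((fun F : AA R => sh F + C s * F)^[i] P) = s ^ i * constantCoeff P := by
  induction i with
  | zero => simp
  | succ i ih =>
    rw [Function.iterate_succ_apply', map_add, map_mul, ih, sh, constantCoeff_shk, constantCoeff_C]
    ring

lemma nf_cc (s : R) (P Q : AA R) :
    constantCoeff (nfS s P Q) = constantCoeff P * constantCoeff (Dx s Q) := by
  induction Q using MvPolynomial.induction_on with
  | C a => simp only [nf_C, map_zero, mul_zero]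
  | add p q hp hq => simp only [map_add, hp, hq]; ring
  | mul_X p i hp =>
    simp only [nf_mul, map_add, map_mul, nfS_X, Dx_X, nf_cc_iter, constantCoeff_X,
      constantCoeff_C]
    ring

lemma nf_ord {P : AA R} (hP : Ord 1 P) : constantCoeff (map (algebraMap R B) P) = 0 := by
  have h : constantCoeff P = 0 := by
    by_contra h
    have := hP 0 (mem_support_iff.2 h)
    simp at this
  rw [constantCoeff_map, h, map_zero]

lemma sy_fl_two {P : AA R} (hP : Ord 1 P) (Q : AA R) (x y : B) :
    sy [x, y] (fl P Q) = (sy [x] P + sy [y] P) * sy [x, y] Q + sy [x, y] P * sy [x + y] Q := by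
  simp only [sy, map_fl]
  simp only [sym, ← nfS_zero, List.foldr, nf_step, map_add, nf_cc, nf_ord hP, add_zero,
    add_assoc, Dx_comm y x]
  ring

lemma sy_fl_three {P : AA R} (hP : Ord 1 P) (Q : AA R) (x y z : B) :
    sy [x, y, z] (fl P Q) = (sy [x] P + sy [y] P + sy [z] P) * sy [x, y, z] Q
      + sy [x, y] P * sy [x + y, z] Q + sy [x, z] P * sy [x + z, y] Q
      + sy [y, z] P * sy [y + z, x] Q + sy [x, y, z] P * sy [x + y + z] Q := by
  simp only [sy, map_fl]
  simp only [sym, ← nfS_zero, List.foldr, nf_step, map_add, nf_cc, nf_ord hP, add_zero,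
    add_assoc, Dx_comm y x, Dx_comm z x, Dx_comm z y]
  ring

lemma sy_fl_four {P : AA R} (hP : Ord 1 P) (Q : AA R) (x y z w : B) :
    sy [x, y, z, w] (fl P Q) =
      (sy [x] P + sy [y] P + sy [z] P + sy [w] P) * sy [x, y, z, w] Q
      + sy [x, y] P * sy [x + y, z, w] Q + sy [x, z] P * sy [x + z, y, w] Q
      + sy [x, w] P * sy [x + w, y, z] Q + sy [y, z] P * sy [y + z, x, w] Q
      + sy [y, w] P * sy [y + w, x, z] Q + sy [z, w] P * sy [z + w, x, y] Q
      + sy [x, y, z] P * sy [x + y + z, w] Q + sy [x, y, w] P * sy [x + y + w, z] Q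
      + sy [x, z, w] P * sy [x + z + w, y] Q + sy [y, z, w] P * sy [y + z + w, x] Q
      + sy [x, y, z, w] P * sy [x + y + z + w] Q := by
  simp only [sy, map_fl]
  simp only [sym, ← nfS_zero, List.foldr, nf_step, map_add, nf_cc, nf_ord hP, add_zero,
    add_assoc, Dx_comm y x, Dx_comm z x, Dx_comm z y, Dx_comm w x, Dx_comm w y,
    Dx_comm w z]
  ring

end Pool.Agent.Lib.MP_4b14b2_mp.Nd
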