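import Pool.Agent.Lib.MP_4b14b2_mp.NBasic

/-! Gradings and the filtration by the number of factors. -/

namespace Pool.Agent.Lib.MP_4b14b2_mp.Nd

open MvPolynomial

variable {R : Type} [CommRing R]

/-- Every monomial satisfies `p`. -/
def Sp (p : (ℕ →₀ ℕ) → Prop) (P : AA R) : Prop := ∀ m, coeff m P ≠ 0 → p m

section sp

variable {p q r : (ℕ →₀ ℕ) → Prop} {P Q : AA R}

lemma Sp_iff : Sp p P ↔ ∀ m ∈ P.support, p m :=
  forall_congr' fun _ => by rw [mem_support_iff]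

lemma Sp.imp (hP : Sp p P) (h : ∀ m, p m → q m) : Sp q P := fun m hm => h m (hP m hm)

lemma Sp_zero : Sp p (0 : AA R) := fun _ hm => absurd (coeff_zero _) hm

lemma Sp.add (hP : Sp p P) (hQ : Sp p Q) : Sp p (P + Q) := fun m hm => by
  by_contra h
  have h1 : coeff m P = 0 := by_contra fun h1 => h (hP m h1)
  have h2 : coeff m Q = 0 := by_contra fun h2 => h (hQ m h2)
  exact hm (by rw [coeff_add, h1, h2, add_zero])

lemma Sp.sub (hP : Sp p P) (hQ : Sp p Q) : Sp p (P - Q) := fun m hm => by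
  by_contra h
  have h1 : coeff m P = 0 := by_contra fun h1 => h (hP m h1)
  have h2 : coeff m Q = 0 := by_contra fun h2 => h (hQ m h2)
  exact hm (by rw [coeff_sub, h1, h2, sub_zero])

lemma Sp.C_mul (c : R) (hP : Sp p P) : Sp p (C c * P) := fun m hm =>
  hP m fun h => hm (by rw [coeff_C_mul, h, mul_zero])

lemma Sp.map {S : Type} [CommRing S] (φ : R →+* S) (hP : Sp p P) : Sp p (map φ P) :=
  fun m hm => hP m fun h => hm (by rw [coeff_map, h, map_zero])

lemma Sp.sum {ι : Type} {S : Finset ι} {f : ι → AA R} (h : ∀ i ∈ S, Sp p (f i)) :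
    Sp p (∑ i ∈ S, f i) :=
  Finset.sum_induction f (Sp p) (fun _ _ => Sp.add) Sp_zero h

lemma Sp.mul (hP : Sp p P) (hQ : Sp q Q) (h : ∀ a b, p a → q b → r (a + b)) :
    Sp r (P * Q) := fun m hm => by
  classical
  rw [coeff_mul] at hm
  obtain ⟨x, hx, h0⟩ := Finset.exists_ne_zero_of_sum_ne_zero hm
  rw [← Finset.HasAntidiagonal.mem_antidiagonal.1 hx]
  exact h _ _ (hP _ (left_ne_zero_of_mul h0)) (hQ _ (right_ne_zero_of_mul h0))

lemma Sp.pderiv (hP : Sp p P) (i : ℕ) :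
    Sp (fun m => p (m + Finsupp.single i 1)) (pderiv i P) := fun m hm => by
  rw [coeff_pderiv] at hm
  exact hP _ (left_ne_zero_of_mul hm)

lemma Sp_X (i : ℕ) : Sp (fun m => m = Finsupp.single i 1) (X i : AA R) := fun m hm => by
  classical
  rw [coeff_X'] at hm
  by_contra h
  exact hm (if_neg fun h' => h h'.symm)

lemma Sp.wcomp (hP : Sp p P) (w : ℕ → ℕ) (W : ℕ) :
    Sp p (weightedHomogeneousComponent w W P) := fun m hm => by
  rw [coeff_weightedHomogeneousComponent] at hm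
  exact hP m fun h => hm (by rw [h, ite_self])

lemma Sp.eq_zero (hP : Sp p P) (h : ∀ m, coeff m P ≠ 0 → ¬ p m) : P = 0 := by
  ext m
  by_contra h0
  exact h m h0 (hP m h0)

lemma fl_vars (P Q : AA R) :
    fl P Q = ∑ i ∈ Q.vars, (fun F : AA R => sh F)^[i] P * pderiv i Q :=
  fl_eq_sum P Q _ fun _ h => pderiv_eq_zero_of_notMem_vars h

end sp

section wsp

variable {w : ℕ → ℕ} {s : ℕ} {A B D : ℕ → Prop} {P Q : AA R}

lemma wsingle (w : ℕ → ℕ) (i : ℕ) : Finsupp.weight w (Finsupp.single i 1) = w i := by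
  rw [Finsupp.weight_single, one_smul]

lemma Sp.sh (hw : ∀ i, w i = w 0 + i * s) (hP : Sp (fun m => A (Finsupp.weight w m)) P) :
    Sp (fun m => ∃ a, A a ∧ Finsupp.weight w m = a + s) (sh P) := by
  have h : Nd.sh P = fl (X 1) P := by rw [fl_X_left]; rfl
  rw [h, fl_vars]
  refine Sp.sum fun i _ => ?_
  rw [sh_iter_X]
  refine (Sp_X _).mul (hP.pderiv i) ?_
  rintro _ b rfl hb
  refine ⟨_, hb, ?_⟩
  rw [map_add, map_add, wsingle, wsingle, hw (1 + i), hw i]
  ring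

lemma Sp.sh_iter (hw : ∀ i, w i = w 0 + i * s) (hP : Sp (fun m => A (Finsupp.weight w m)) P)
    (i : ℕ) : Sp (fun m => ∃ a, A a ∧ Finsupp.weight w m = a + i * s)
      ((fun F : AA R => Nd.sh F)^[i] P) := by
  induction i with
  | zero => exact hP.imp fun m hm => ⟨_, hm, by simp⟩
  | succ i ih =>
    rw [Function.iterate_succ_apply']
    refine (Sp.sh (A := fun x => ∃ a, A a ∧ x = a + i * s) hw ih).imp ?_
    rintro m ⟨_, ⟨a, ha, rfl⟩, h⟩
    exact ⟨a, ha, by rw [h]; ring⟩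

lemma Sp.fl (hw : ∀ i, w i = w 0 + i * s) (hP : Sp (fun m => A (Finsupp.weight w m)) P)
    (hQ : Sp (fun m => B (Finsupp.weight w m)) Q)
    (h : ∀ a b c, A a → B b → a + b = c + w 0 → D c) :
    Sp (fun m => D (Finsupp.weight w m)) (fl P Q) := by
  rw [fl_vars]
  refine Sp.sum fun i _ => (hP.sh_iter hw i).mul (hQ.pderiv i) ?_
  rintro x y ⟨a, ha, hx⟩ hy
  refine h a _ _ ha hy ?_
  rw [map_add, map_add, wsingle, hx, hw i]
  ring

lemma Sp.br (hw : ∀ i, w i = w 0 + i * s) (hP : Sp (fun m => A (Finsupp.weight w m)) P)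
    (hQ : Sp (fun m => B (Finsupp.weight w m)) Q)
    (h : ∀ a b c, A a → B b → a + b = c + w 0 → D c) :
    Sp (fun m => D (Finsupp.weight w m)) (br P Q) :=
  (hP.fl hw hQ h).sub (hQ.fl hw hP fun a b c ha hb hc => h b a c hb ha (by omega))

end wsp

lemma wt_lin (κ i : ℕ) : wt κ i = wt κ 0 + i * 1 := by simp only [wt]; omega

lemma WH_iff {κ W : ℕ} {P : AA R} :
    WH κ P W ↔ Sp (fun m => Finsupp.weight (wt κ) m = W) P := Iff.rfl

lemma deg_eq (m : ℕ →₀ ℕ) : Finsupp.degree m = Finsupp.weight (fun _ => 1) m := by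
  rw [Finsupp.degree_eq_weight_one]

lemma homog_iff {n : ℕ} {P : AA R} :
    P.IsHomogeneous n ↔ Sp (fun m => Finsupp.degree m = n) P :=
  forall_congr' fun m => by simp only [deg_eq]; rfl

lemma Ord_iff {n : ℕ} {P : AA R} : Ord n P ↔ Sp (fun m => n ≤ Finsupp.degree m) P := Sp_iff.symm

lemma Deg2_iff {P : AA R} : Deg2 P ↔ Sp (fun m => 2 ≤ dg m) P := Sp_iff.symm

lemma weight_wt (κ : ℕ) (m : ℕ →₀ ℕ) :
    Finsupp.weight (wt κ) m = dg m + κ * Finsupp.degree m := by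
  rw [dg, Finsupp.weight_apply, Finsupp.weight_apply, Finsupp.degree_apply, Finsupp.sum,
    Finsupp.sum, Finset.mul_sum, ← Finset.sum_add_distrib]
  exact Finset.sum_congr rfl fun i _ => by simp only [wt, smul_eq_mul]; ring
lemma degree_le_dg (m : ℕ →₀ ℕ) (h : m 0 = 0) : Finsupp.degree m ≤ dg m := by
  rw [dg, Finsupp.weight_apply, Finsupp.degree_apply, Finsupp.sum]
  refine Finset.sum_le_sum fun i hi => ?_
  have h0 : i ≠ 0 := by
    rintro rfl
    exact Finsupp.mem_support_iff.1 hi h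
  exact Nat.le_mul_of_pos_right _ (Nat.pos_of_ne_zero h0)

lemma WH.add {κ W : ℕ} {P Q : AA R} (hP : WH κ P W) (hQ : WH κ Q W) : WH κ (P + Q) W :=
  WH_iff.2 ((WH_iff.1 hP).add (WH_iff.1 hQ))
lemma WH.sub {κ W : ℕ} {P Q : AA R} (hP : WH κ P W) (hQ : WH κ Q W) : WH κ (P - Q) W :=
  WH_iff.2 ((WH_iff.1 hP).sub (WH_iff.1 hQ))
lemma WH.C_mul {κ W : ℕ} {P : AA R} (c : R) (hP : WH κ P W) : WH κ (C c * P) W :=
  WH_iff.2 ((WH_iff.1 hP).C_mul c)
lemma WH.map {S : Type} [CommRing S] (φ : R →+* S) {κ W : ℕ} {P : AA R} (hP : WH κ P W) :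
    WH κ (map φ P) W := WH_iff.2 ((WH_iff.1 hP).map φ)
lemma WH_X (κ i : ℕ) : WH κ (X i : AA R) (i + κ) :=
  WH_iff.2 ((Sp_X i).imp fun _ h => by rw [h, wsingle, wt])
lemma WH_K1 (κ : ℕ) (b : R) : WH κ (K1 κ b) (2 * κ + 1) := by
  refine WH.add (WH.C_mul b ?_) (WH_iff.2 ((Sp_X 0).mul (Sp_X 1) ?_))
  · have h := WH_X (R := R) κ (κ + 1)
    rwa [show κ + 1 + κ = 2 * κ + 1 by ring] at h
  · rintro _ _ rfl rfl
    simp only [map_add, wsingle, wt]
    ring
lemma WH.br {κ W₁ W₂ W : ℕ} {P Q : AA R} (hP : WH κ P W₁) (hQ : WH κ Q W₂)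
    (h : W₁ + W₂ = W + κ) : WH κ (br P Q) W :=
  WH_iff.2 (Sp.br (A := (· = W₁)) (B := (· = W₂)) (D := (· = W)) (wt_lin κ) (WH_iff.1 hP)
    (WH_iff.1 hQ) fun a b c ha hb hc => by simp only [wt] at hc; omega)
/-- The weight component of a preimage is a preimage. -/
lemma br_X_comp {κ m W : ℕ} {f P : AA R} (hP : WH κ P (W + m)) (h : br (X m) f = P) :
    br (X m) (weightedHomogeneousComponent (wt κ) W f) = P := by
  have h1 : WH κ (br (X m) (weightedHomogeneousComponent (wt κ) W f)) (W + m) :=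
    (WH_X κ m).br (weightedHomogeneousComponent_isWeightedHomogeneous W f) (by ring)
  have h2 : Sp (fun x => Finsupp.weight (wt κ) x ≠ W)
      (f - weightedHomogeneousComponent (wt κ) W f) := fun x hx hW =>
    hx (by rw [coeff_sub, coeff_weightedHomogeneousComponent, if_pos hW, sub_self])
  have h3 := Sp.br (A := (· = m + κ)) (B := (· ≠ W)) (D := (· ≠ W + m)) (wt_lin κ)
    (WH_iff.1 (WH_X (R := R) κ m)) h2 fun a b c ha hb hc => by simp only [wt] at hc; omega
  rw [br_sub_right, h] at h3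
  exact (sub_eq_zero.1 ((WH_iff.1 (hP.sub h1)).eq_zero h3)).symm
lemma homog_comp {n W : ℕ} (w : ℕ → ℕ) {f : AA R} (hf : f.IsHomogeneous n) :
    (weightedHomogeneousComponent w W f).IsHomogeneous n :=
  homog_iff.2 ((homog_iff.1 hf).wcomp w W)
lemma WH.comp {κ W : ℕ} {P : AA R} (hP : WH κ P W) (n : ℕ) :
    WH κ (homogeneousComponent n P) W := WH_iff.2 ((WH_iff.1 hP).wcomp 1 n)
lemma homog_pderiv {n : ℕ} {f : AA R} (hf : f.IsHomogeneous (n + 1)) (i : ℕ) :
    (pderiv i f).IsHomogeneous n :=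
  homog_iff.2 (((homog_iff.1 hf).pderiv i).imp fun m hm => by
    rw [map_add, Finsupp.degree_single] at hm; omega)
lemma pderiv_comp (i n : ℕ) (P : AA R) :
    pderiv i (homogeneousComponent (n + 1) P) = homogeneousComponent n (pderiv i P) := by
  ext m
  rw [coeff_pderiv, coeff_homogeneousComponent, coeff_homogeneousComponent, coeff_pderiv, map_add,
    Finsupp.degree_single]
  by_cases h : Finsupp.degree m = n
  · rw [if_pos h, if_pos (by rw [h])]
  · rw [if_neg h, if_neg (by omega), zero_mul]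

lemma Ord.mono {n n' : ℕ} {P : AA R} (hP : Ord n P) (h : n' ≤ n) : Ord n' P :=
  fun m hm => h.trans (hP m hm)
lemma Ord_zero (n : ℕ) : Ord n (0 : AA R) := Ord_iff.2 Sp_zero
lemma Ord.add {n : ℕ} {P Q : AA R} (hP : Ord n P) (hQ : Ord n Q) : Ord n (P + Q) :=
  Ord_iff.2 ((Ord_iff.1 hP).add (Ord_iff.1 hQ))
lemma Ord.sub {n : ℕ} {P Q : AA R} (hP : Ord n P) (hQ : Ord n Q) : Ord n (P - Q) :=
  Ord_iff.2 ((Ord_iff.1 hP).sub (Ord_iff.1 hQ))
lemma Ord.C_mul {n : ℕ} {P : AA R} (c : R) (hP : Ord n P) : Ord n (C c * P) :=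
  Ord_iff.2 ((Ord_iff.1 hP).C_mul c)
lemma Ord.map {S : Type} [CommRing S] (φ : R →+* S) {n : ℕ} {P : AA R} (hP : Ord n P) :
    Ord n (map φ P) := Ord_iff.2 ((Ord_iff.1 hP).map φ)
lemma Ord_of_homog {n : ℕ} {P : AA R} (hP : P.IsHomogeneous n) : Ord n P :=
  Ord_iff.2 ((homog_iff.1 hP).imp fun _ h => h.ge)
lemma Ord_X (i : ℕ) : Ord 1 (X i : AA R) := Ord_of_homog (isHomogeneous_X R i)
lemma Ord_XX (i j : ℕ) : Ord 2 (X i * X j : AA R) :=
  Ord_of_homog ((isHomogeneous_X R i).mul (isHomogeneous_X R j))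
lemma Ord_K1 (κ : ℕ) (b : R) : Ord 1 (K1 κ b) :=
  ((Ord_X _).C_mul b).add ((Ord_XX 0 1).mono (by norm_num))
lemma Ord.br {p q n : ℕ} {P Q : AA R} (hP : Ord p P) (hQ : Ord q Q) (h : p + q = n + 1) :
    Ord n (br P Q) :=
  Ord_iff.2 ((Sp.br (w := fun _ => 1) (s := 0) (A := (p ≤ ·)) (B := (q ≤ ·)) (D := (n ≤ ·))
    (fun _ => by simp) ((Ord_iff.1 hP).imp fun m hm => by rwa [deg_eq] at hm)
    ((Ord_iff.1 hQ).imp fun m hm => by rwa [deg_eq] at hm)
    fun a b c ha hb hc => by omega).imp fun m hm => by rwa [deg_eq])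
lemma Ord.sub_comp {n : ℕ} {P : AA R} (hP : Ord n P) :
    Ord (n + 1) (P - homogeneousComponent n P) := Ord_iff.2 fun m hm => by
  rw [coeff_sub, coeff_homogeneousComponent] at hm
  by_cases h : Finsupp.degree m = n
  · exact absurd (by rw [if_pos h, sub_self]) hm
  · rw [if_neg h, sub_zero] at hm
    have := Ord_iff.1 hP m hm
    omega
lemma Ord.succ {n : ℕ} {P : AA R} (hP : Ord n P) (h : homogeneousComponent n P = 0) :
    Ord (n + 1) P := by
  have h1 := hP.sub_comp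
  rwa [h, sub_zero] at h1
/-- The part with at most one factor of a weight-homogeneous element. -/
lemma WH.ord_two {κ j : ℕ} {P : AA R} (hκ : 1 ≤ κ) (hP : WH κ P (j + κ)) :
    Ord 2 (P - C (coeff (Finsupp.single j 1) P) * X j) := Ord_iff.2 fun m hm => by
  classical
  rw [coeff_sub, coeff_C_mul, coeff_X'] at hm
  by_cases h : Finsupp.single j 1 = m
  · exact absurd (by rw [if_pos h, h, mul_one, sub_self]) hm
  · rw [if_neg h, mul_zero, sub_zero] at hm
    have hw := WH_iff.1 hP m hm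
    by_contra h2
    have h3 : Finsupp.degree m = 0 ∨ Finsupp.degree m = 1 := by omega
    rcases h3 with h3 | h3
    · rw [(Finsupp.degree_eq_zero_iff m).1 h3, map_zero] at hw
      omega
    · have h4 : m ∈ Set.range fun a : ℕ => Finsupp.single a 1 := by
        rw [Finsupp.range_single_one]; exact h3
      obtain ⟨i, rfl⟩ := h4
      simp only [wsingle, wt] at hw
      exact h (by rw [show j = i by omega])
/-- In characteristic zero a vanishing partial derivative means the variable is absent. -/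
lemma free_of_pderiv [IsDomain R] [CharZero R] {P : AA R} {i : ℕ} (h : pderiv i P = 0) :
    ∀ m ∈ P.support, m i = 0 := fun m hm => by
  by_contra h0
  have h1 := coeff_pderiv (i := i) P (m - Finsupp.single i 1)
  rw [h, coeff_zero, Finsupp.sub_add_single_one_cancel h0] at h1
  exact mul_ne_zero (mem_support_iff.1 hm) (Nat.cast_add_one_ne_zero _) h1.symm
lemma Deg2_of_free [IsDomain R] [CharZero R] {P : AA R} (h : pderiv 0 P = 0) (hP : Ord 2 P) :
    Deg2 P := fun m hm => (hP m hm).trans (degree_le_dg m (free_of_pderiv h m hm))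
lemma Deg2.add {P Q : AA R} (hP : Deg2 P) (hQ : Deg2 Q) : Deg2 (P + Q) :=
  Deg2_iff.2 ((Deg2_iff.1 hP).add (Deg2_iff.1 hQ))
lemma Deg2.sub {P Q : AA R} (hP : Deg2 P) (hQ : Deg2 Q) : Deg2 (P - Q) :=
  Deg2_iff.2 ((Deg2_iff.1 hP).sub (Deg2_iff.1 hQ))
lemma Deg2.C_mul {P : AA R} (c : R) (hP : Deg2 P) : Deg2 (C c * P) :=
  Deg2_iff.2 ((Deg2_iff.1 hP).C_mul c)
/-- A v_0-free element of weight W has at most W / (κ+1) factors in each monomial. -/
lemma eq_zero_of_ord [IsDomain R] [CharZero R] {κ W n : ℕ} {P : AA R} (hP : WH κ P W)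
    (h0 : pderiv 0 P = 0) (hO : Ord n P) (h : W < (κ + 1) * n) : P = 0 :=
  (WH_iff.1 hP).eq_zero fun m hm hw => by
    have h1 := hO m (mem_support_iff.2 hm)
    have h2 := degree_le_dg m (free_of_pderiv h0 m (mem_support_iff.2 hm))
    rw [weight_wt] at hw
    have h3 : (κ + 1) * n ≤ (κ + 1) * Finsupp.degree m := Nat.mul_le_mul_left _ h1
    rw [add_mul, add_mul, one_mul, one_mul] at h3
    rw [add_mul, one_mul] at h
    omega

end Pool.Agent.Lib.MP_4b14b2_mp.Nd
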