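import Pool.Agent.Lib.MP_4b14b2_mp.NK2

/-! The level with two factors. -/

namespace Pool.Agent.Lib.MP_4b14b2_mp.Nd

open MvPolynomial

variable {K : Type} [Field K] [CharZero K] {B : Type} [CommRing B] [Algebra K B]
  {κ M : ℕ} {b α β : K} {K2 a A : AA K}

lemma h2_pow {e : B} (he : e * e = 0) (m : ℕ) : (e + 1) ^ m = 1 + m * e := by
  induction m with
  | zero => simp
  | succ m ih => rw [pow_succ, ih]; push_cast; linear_combination (m : B) * he

lemma h2_zero {e : B} (he : e * e = 0) {m : ℕ} (hm : 2 ≤ m) : e ^ m = 0 :=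
  pow_eq_zero_of_le hm (by rw [sq, he])

/-- A has no constant or linear monomial (E2 at order one in x). -/
lemma Lin.ord_two (h : Pair κ b α K2) (hl : Lin κ b K2 M a A) (ha : Ord 2 a) (hM : 2 ≤ M) :
    Ord 2 A := by
  have h1 := hl.wA.ord_two h.hκ
  generalize coeff (Finsupp.single M 1) A = c at h1
  have h2 : Ord 1 A := by
    simpa using (h1.mono one_le_two).add ((Ord_X M).C_mul c)
  have h3 : ∀ x : DualNumber K, sy [x] A = algebraMap K _ c * x ^ M := fun x => by
    have := sy_of_ord h1 [x] (by simp)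
    rwa [sy_sub, sy_C_mul, sy_X, sub_eq_zero] at this
  have h4 : ∀ x : DualNumber K, sy [x] a = 0 := fun x => sy_of_ord ha [x] (by simp)
  have he := DualNumber.eps_mul_eps (R := K)
  have hk := h.hκ
  have E := congrArg (sy [(DualNumber.eps : DualNumber K), 1]) hl.eq
  rw [sy_add, br, br, sy_sub, sy_sub, sy_fl_two (Ord_K1 _ _), sy_fl_two h2,
    sy_fl_two (ha.mono one_le_two), sy_fl_two h.ord_one, sy_zero] at E
  simp only [sy_K1_one, sy_K1_two, h.sy_one, h3, h4, sy_eps_cons _ he [1] A, sy_eps_cons _ he [1] a,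
    hl.a0, hl.A0, sy_zero, h2_pow he, h2_zero he hM, h2_zero he (show 2 ≤ κ + 1 by omega),
    h2_zero he (show 2 ≤ 2 * κ + 1 by omega), one_pow] at E
  have E' : algebraMap K (DualNumber K) (c * M) * DualNumber.eps = 0 := by
    rw [map_mul, map_natCast]
    linear_combination E - (algebraMap K _ c * M - algebraMap K _ b * ((κ + 1 : ℕ) : DualNumber K) *
      sy [1] (pderiv 1 A) + algebraMap K _ α * ((2 * κ + 1 : ℕ) : DualNumber K) *
      sy [1] (pderiv 1 a)) * he
  have c0 : c = 0 := by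
    have := congrArg TrivSqZeroExt.snd E'
    simp only [DualNumber.snd_mul, TrivSqZeroExt.algebraMap_eq_inl, TrivSqZeroExt.fst_inl,
      DualNumber.snd_eps, mul_one, DualNumber.fst_eps, mul_zero, add_zero, TrivSqZeroExt.snd_zero,
      mul_eq_zero, Nat.cast_eq_zero] at this
    exact this.resolve_right (by omega)
  simpa [c0] using h1

lemma h2_dg (m : ℕ →₀ ℕ) (h0 : m 0 = 0) (h1 : m 1 = 0) : 2 * Finsupp.degree m ≤ dg m := by
  rw [dg, Finsupp.weight_apply, Finsupp.degree_apply, Finsupp.sum, Finset.mul_sum]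
  refine Finset.sum_le_sum fun i hi => ?_
  have := Finsupp.mem_support_iff.1 hi
  have : 2 ≤ i := by
    rcases i with _ | _ | i
    · exact absurd h0 this
    · exact absurd h1 this
    · omega
  rw [smul_eq_mul, mul_comm]
  exact Nat.mul_le_mul_left _ this

lemma eq_sq (hκ : 1 ≤ κ) (hw : WH κ a M) (h0 : pderiv 0 a = 0) (ha : Ord 2 a)
    (h1 : pderiv 1 a = C β * X 1) (hβ : β ≠ 0) : a = C (β / 2) * (X 1 * X 1) := by
  have e : M = (1 + κ) + (1 + κ) := by
    have := coeff_pderiv (i := 1) a (Finsupp.single 1 1)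
    rw [h1, coeff_C_mul, coeff_X_same, mul_one] at this
    have := hw (left_ne_zero_of_mul (this ▸ hβ))
    simpa [Finsupp.weight_single, wt] using this.symm
  have w : WH κ (a - C (β / 2) * (X 1 * X 1)) M :=
    hw.sub (e ▸ WH.C_mul _ (IsWeightedHomogeneous.mul (WH_X κ 1) (WH_X κ 1)))
  have o := ha.sub ((Ord_XX 1 1).C_mul (β / 2))
  have d0 : pderiv 0 (a - C (β / 2) * (X 1 * X 1)) = 0 := by simp [h0]
  have d1 : pderiv 1 (a - C (β / 2) * (X 1 * X 1)) = 0 := by
    rw [map_sub, h1, pderiv_C_mul, show β = β / 2 + β / 2 by ring, C_add]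
    simp [mul_add, add_mul]
  rw [← sub_eq_zero]
  by_contra hn
  obtain ⟨m, hm⟩ := support_nonempty.2 hn
  have k1 := h2_dg m (free_of_pderiv d0 m hm) (free_of_pderiv d1 m hm)
  have k2 := w (mem_support_iff.1 hm)
  have k3 := o m hm
  rw [weight_wt, e] at k2
  nlinarith

lemma h2_sq (β : K) (x y : K) : sy [x, y] (C (β / 2) * (X 1 * X 1) : AA K) = β * (x * y) := by
  rw [sy_C_mul, sy_XX, Algebra.algebraMap_self_apply]; ring

/-- E3 at (2, 2, -1). -/
lemma Lin.beta_one (h : Pair 1 b α K2) (hl : Lin 1 b K2 M a A) (ha : Ord 2 a) (hA : Ord 2 A)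
    (h1 : pderiv 1 a = C β * X 1) : β = 0 := by
  by_contra hβ
  have e := eq_sq le_rfl hl.wa hl.a0 ha h1 hβ
  have a1 : ∀ x : K, sy [x] a = 0 := fun x => sy_of_ord ha [x] (by simp)
  have A1 : ∀ x : K, sy [x] A = 0 := fun x => sy_of_ord hA [x] (by simp)
  have a2 : ∀ x y : K, sy [x, y] a = β * (x * y) := fun x y => by rw [e, h2_sq]
  have a3 : ∀ x y z : K, sy [x, y, z] a = 0 := fun x y z =>
    sy_of_homog (n := 2) (e ▸ ((isHomogeneous_X K 1).mul (isHomogeneous_X K 1)).C_mul _) _ (by simp)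
  have hα := h.alpha
  have A2 : ∀ x y : K, x * y ≠ 0 → sy [x, y] A = b * β * (x * y * (x + y)) := fun x y n => by
    have := lowest h.lin ha hA hl.eq [x, y] rfl
    simp only [GG, a2, Algebra.algebraMap_self_apply, List.sum_cons, List.map_cons, List.map_nil,
      List.sum_nil] at this
    refine mul_left_cancel₀ (mul_ne_zero (mul_ne_zero two_ne_zero h.hb) n) ?_
    push_cast at hα
    linear_combination this + β * (x * y) ^ 2 * (x + y) * hα
  have E := congrArg (sy [(2 : K), 2, -1]) hl.eq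
  rw [sy_add, br, br, sy_sub, sy_sub, sy_fl_three (Ord_K1 _ _), sy_fl_three (hA.mono one_le_two),
    sy_fl_three (ha.mono one_le_two), sy_fl_three h.ord_one, sy_zero, A2 _ _ (by norm_num),
    A2 _ _ (by norm_num), A2 _ _ (by norm_num), A2 _ _ (by norm_num)] at E
  simp only [sy_K1_one, sy_K1_two, h.sy_one, h.sy_two_one, a1, A1, a2, a3,
    Algebra.algebraMap_self_apply] at E
  exact mul_ne_zero h.hb hβ (by linear_combination (-1 / 12 : K) * E)

lemma h2_ratio (h : Pair 2 b α K2) (hl : Lin 2 b K2 M a A) (ha : Ord 2 a) (hA : Ord 2 A)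
    (x y : B) : sy [x, y] A = algebraMap K B b * ((x ^ 2 + x * y + y ^ 2) * sy [x, y] a) := by
  have := lowest h.lin ha hA hl.eq [(X 0 : MvPolynomial (Fin 2) K), X 1] rfl
  have hα := congrArg (algebraMap K (MvPolynomial (Fin 2) K)) h.alpha
  simp only [GG, List.sum_cons, List.map_cons, List.map_nil, List.sum_nil] at this
  simp only [map_mul, map_add, map_pow, map_one, map_ofNat, Nat.cast_ofNat] at hα
  have n : (3 * algebraMap K _ b * (X 0 * X 1 * (X 0 + X 1)) : MvPolynomial (Fin 2) K) ≠ 0 :=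
    mul_ne_zero (mul_ne_zero (fun e => by simpa using congrArg (eval ![1, 0]) e)
      ((map_ne_zero _).2 h.hb))
      (mul_ne_zero (mul_ne_zero (X_ne_zero _) (X_ne_zero _)) fun e => by
        simpa using congrArg (eval ![1, 0]) e)
  have g : sy [(X 0 : MvPolynomial (Fin 2) K), X 1] A =
      algebraMap K _ b * ((X 0 ^ 2 + X 0 * X 1 + X 1 ^ 2) * sy [X 0, X 1] a) := by
    refine mul_left_cancel₀ n ?_
    linear_combination this + X 0 * X 1 * (X 0 + X 1) * (X 0 ^ 2 + X 0 * X 1 + X 1 ^ 2) *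
      sy [(X 0 : MvPolynomial (Fin 2) K), X 1] a * hα
  simpa [sy_nat] using congrArg (aeval ![x, y]) g

/-- E3 at (x, -x, s). -/
lemma Lin.anti_two (h : Pair 2 b α K2) (hl : Lin 2 b K2 M a A) (ha : Ord 2 a) (hA : Ord 2 A)
    (x : B) : sy [x, -x] a = 0 := by
  have a1 : ∀ x : B, sy [x] a = 0 := fun x => sy_of_ord ha [x] (by simp)
  have A1 : ∀ x : B, sy [x] A = 0 := fun x => sy_of_ord hA [x] (by simp)
  have key : ∀ s : B, algebraMap K B b * s * (s ^ 2 - x ^ 2) * sy [x, -x] a = 0 := fun s => by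
    have E := congrArg (sy [x, -x, s]) hl.eq
    rw [sy_add, br, br, sy_sub, sy_sub, sy_fl_three (Ord_K1 _ _), sy_fl_three (hA.mono one_le_two),
      sy_fl_three (ha.mono one_le_two), sy_fl_three h.ord_one, sy_zero,
      sy_K1_long _ _ [x, -x, s] le_rfl] at E
    simp only [sy_K1_one, sy_K1_two, h.sy_one, h.sy_two_two, a1, A1, h2_ratio h hl ha hA] at E
    linear_combination E
  have u : IsUnit (algebraMap K B (6 * b)) := (mul_ne_zero (by norm_num) h.hb).isUnit.map _
  refine u.mul_right_eq_zero.1 ?_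
  rw [map_mul, map_ofNat]
  linear_combination key 2 - 2 * key 1

lemma Lin.beta_two (h : Pair 2 b α K2) (hl : Lin 2 b K2 M a A) (ha : Ord 2 a) (hA : Ord 2 A)
    (h1 : pderiv 1 a = C β * X 1) : β = 0 := by
  by_contra hβ
  have := hl.anti_two h ha hA (1 : K)
  rw [eq_sq one_le_two hl.wa hl.a0 ha h1 hβ, h2_sq] at this
  exact hβ (by linear_combination -this)

end Pool.Agent.Lib.MP_4b14b2_mp.Nd
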