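import Pool.Agent.Lib.MP_4b14b2_mp.NSym

/-! Symbol calculus, second half. -/

namespace Pool.Agent.Lib.MP_4b14b2_mp.Nd

open MvPolynomial

variable {R : Type} [CommRing R] {B : Type} [CommRing B] [Algebra R B]

lemma sym_shk (xs : List R) (m : ℕ) (P : AA R) :
    sym xs (shk m P) = (xs.map fun x => x ^ m).sum * sym xs P := by
  induction xs generalizing P with
  | nil => simp [sym_nil, constantCoeff_shk]
  | cons x xs ih =>
    rw [sym_cons, Dx_shk, sym_add, sym_C_mul, ih, sym_cons, List.map_cons, List.sum_cons]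
    ring

lemma sy_finsum {ι : Type} (xs : List B) (s : Finset ι) (f : ι → AA R) :
    sy xs (∑ i ∈ s, f i) = ∑ i ∈ s, sy xs (f i) := by
  classical
  induction s using Finset.induction_on with
  | empty => simp [sy_zero]
  | insert a s ha ih => rw [Finset.sum_insert ha, Finset.sum_insert ha, sy_add, ih]

lemma sy_shk (xs : List B) (m : ℕ) (P : AA R) :
    sy xs (shk m P) = (xs.map fun x => x ^ m).sum * sy xs P := by
  unfold sy
  rw [map_shk, sym_shk]

lemma sy_sh_iter (xs : List B) (m : ℕ) (P : AA R) :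
    sy xs ((fun F : AA R => sh F)^[m] P) = xs.sum ^ m * sy xs P := by
  induction m with
  | zero => simp
  | succ m ih =>
    rw [Function.iterate_succ_apply']
    have h1 : sy xs (sh ((fun F : AA R => sh F)^[m] P)) =
        (xs.map fun x => x ^ 1).sum * sy xs ((fun F : AA R => sh F)^[m] P) := sy_shk xs 1 _
    rw [h1, ih]
    simp only [pow_one, List.map_id']
    ring

lemma sy_br_X (xs : List B) (m : ℕ) (P : AA R) :
    sy xs (br (X m) P) = -(GG m xs * sy xs P) := by
  unfold br GG
  rw [fl_X_left, fl_X, sy_sub, sy_shk, sy_sh_iter]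
  ring

lemma sy_of_homog {n : ℕ} {P : AA R} (hP : P.IsHomogeneous n) (xs : List B)
    (h : xs.length ≠ n) : sy xs P = 0 := by
  induction xs generalizing n P with
  | nil =>
    have h0 : coeff 0 P = 0 := hP.coeff_eq_zero (by simpa using h)
    unfold sy
    rw [sym_nil, constantCoeff_map, constantCoeff_eq, h0, map_zero]
  | cons x xs ih =>
    rw [sy_cons_eq_sum x xs P P.vars fun i hi => pderiv_eq_zero_of_notMem_vars hi]
    refine Finset.sum_eq_zero fun i _ => ?_
    cases n with
    | zero =>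
      have h1 : P.totalDegree = 0 := Nat.le_zero.mp hP.totalDegree_le
      rw [totalDegree_eq_zero_iff_eq_C.mp h1, pderiv_C, sy_zero, mul_zero]
    | succ n =>
      rw [ih (homog_pderiv hP i) (by simpa using h), mul_zero]

lemma sy_of_ord {n : ℕ} {P : AA R} (hP : Ord n P) (xs : List B) (h : xs.length < n) :
    sy xs P = 0 := by
  rw [P.as_sum, sy_finsum]
  refine Finset.sum_eq_zero fun m hm => ?_
  have h1 := hP m hm
  exact sy_of_homog (isHomogeneous_monomial (coeff m P) rfl) xs (by omega)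

lemma sy_comp (xs : List B) (P : AA R) :
    sy xs (homogeneousComponent xs.length P) = sy xs P := by
  conv_rhs => rw [← sum_homogeneousComponent P, sy_finsum]
  symm
  refine Finset.sum_eq_single _ (fun i _ hi => ?_) (fun hi => ?_)
  · exact sy_of_homog (homogeneousComponent_isHomogeneous i P) xs (Ne.symm hi)
  · rw [homogeneousComponent_eq_zero _ _ (by simpa using hi), sy_zero]

lemma sy_X (x : B) (j : ℕ) : sy [x] (X j : AA R) = x ^ j := by
  unfold sy
  rw [map_X, sym_cons, Dx_X, sym_nil, constantCoeff_C]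

lemma sy_XX (x y : B) (i j : ℕ) :
    sy [x, y] (X i * X j : AA R) = x ^ i * y ^ j + x ^ j * y ^ i := by
  unfold sy
  rw [map_mul, map_X, map_X, sym_cons, Derivation.leibniz, Dx_X, Dx_X, smul_eq_mul, smul_eq_mul,
    mul_comm (X i : AA B), mul_comm (X j : AA B), sym_add, sym_C_mul, sym_C_mul, sym_cons, sym_cons,
    Dx_X, Dx_X, sym_nil, sym_nil, constantCoeff_C, constantCoeff_C]
  ring

lemma homog_XX (i j : ℕ) : (X i * X j : AA R).IsHomogeneous 2 :=
  (isHomogeneous_X R i).mul (isHomogeneous_X R j)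

lemma sy_K1_one (κ : ℕ) (b : R) (x : B) :
    sy [x] (K1 κ b) = algebraMap R B b * x ^ (κ + 1) := by
  unfold K1
  rw [sy_add, sy_C_mul, sy_X, sy_of_homog (homog_XX 0 1) [x] (by simp), add_zero]

lemma sy_K1_two (κ : ℕ) (b : R) (x y : B) : sy [x, y] (K1 κ b) = x + y := by
  unfold K1
  rw [sy_add, sy_C_mul, sy_XX, sy_of_homog (isHomogeneous_X R (κ + 1)) [x, y] (by simp)]
  ring

lemma sy_K1_long (κ : ℕ) (b : R) (xs : List B) (h : 3 ≤ xs.length) : sy xs (K1 κ b) = 0 := by
  unfold K1
  rw [sy_add, sy_C_mul, sy_of_homog (homog_XX 0 1) xs (by omega),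
    sy_of_homog (isHomogeneous_X R (κ + 1)) xs (by omega)]
  ring

/-- The lowest level of the linearised commutation equation. -/
lemma lowest {κ n : ℕ} {b α : R} {K2 a A : AA R} (hK : Ord 2 (K2 - C α * X (2 * κ + 1)))
    (ha : Ord n a) (hA : Ord n A) (hE : br (K1 κ b) A + br a K2 = 0) (xs : List B)
    (h : xs.length = n) : algebraMap R B b * (GG (κ + 1) xs * sy xs A) =
      algebraMap R B α * (GG (2 * κ + 1) xs * sy xs a) := by
  have h1 : sy xs (br (X 0 * X 1 : AA R) A) = 0 :=
    sy_of_ord (Ord.br (n := n + 1) (Ord_XX 0 1) hA (by omega)) xs (by omega)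
  have h2 : sy xs (br a (K2 - C α * X (2 * κ + 1))) = 0 :=
    sy_of_ord (Ord.br (n := n + 1) ha hK (by omega)) xs (by omega)
  have h3 : sy xs (br (K1 κ b) A + br a K2) = 0 := by rw [hE, sy_zero]
  rw [br_sub_right, br_C_mul_right, br_anti a (X (2 * κ + 1)), sy_sub, sy_C_mul, sy_neg,
    sy_br_X] at h2
  unfold K1 at h3
  rw [br_add_left, br_C_mul_left, sy_add, sy_add, sy_C_mul, sy_br_X, h1] at h3
  linear_combination h2 - h3

end Pool.Agent.Lib.MP_4b14b2_mp.Nd
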