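import Pool.Agent.Lib.MP_4b14b2_mp.NPair
import Pool.Agent.Lib.MP_4b14b2_mp.NSym2

/-! The symbols of K2; only κ = 1 and κ = 2 occur. -/

namespace Pool.Agent.Lib.MP_4b14b2_mp.Nd

open MvPolynomial

variable {K : Type} [Field K] [CharZero K] {B : Type} [CommRing B] [Algebra K B]
  {κ : ℕ} {b α : K} {K2 : AA K}

lemma GG_two (m : ℕ) (x y : B) : GG m [x, y] = (x + y) ^ m - (x ^ m + y ^ m) := by
  simp [GG]

lemma GG_eps (m : ℕ) (e : B) (he : e * e = 0) : GG (m + 2) [e, 1] = ((m : B) + 2) * e := by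
  have h1 : ∀ n : ℕ, (e + 1) ^ n = 1 + n * e := fun n => by
    induction n with
    | zero => simp
    | succ n ih =>
      rw [pow_succ, ih]
      push_cast
      linear_combination (n : B) * he
  rw [GG_two, h1, one_pow, pow_add, pow_two, he]
  push_cast
  ring

lemma Pair.ord_one (h : Pair κ b α K2) : Ord 1 K2 := by
  have := (h.lin.mono one_le_two).add ((Ord_X (2 * κ + 1)).C_mul α)
  rwa [sub_add_cancel] at this

lemma Pair.sy_one (h : Pair κ b α K2) (x : B) :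
    sy [x] K2 = algebraMap K B α * x ^ (2 * κ + 1) := by
  have := sy_of_ord h.lin [x] (by simp)
  rwa [sy_sub, sy_C_mul, sy_X, sub_eq_zero] at this

lemma Pair.E2 (h : Pair κ b α K2) (x y : B) :
    algebraMap K B b * (GG (κ + 1) [x, y] * sy [x, y] K2) =
      algebraMap K B α * (GG (2 * κ + 1) [x, y] * (x + y)) := by
  have e := congrArg (sy [x, y]) h.comm
  rw [br, sy_sub, sy_zero, sy_fl_two (Ord_K1 κ b), sy_fl_two h.ord_one] at e
  simp only [h.sy_one, sy_K1_one, sy_K1_two] at e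
  rw [GG_two, GG_two]
  linear_combination -e

/-- Order one in x of E2 (dual numbers), with K2[0, y] = b y^(κ+1). -/
lemma Pair.alpha (h : Pair κ b α K2) : α * (2 * κ + 1) = (κ + 1) * b ^ 2 := by
  obtain ⟨n, rfl⟩ : ∃ n, κ = n + 1 := ⟨κ - 1, by have := h.hκ; omega⟩
  have he : (DualNumber.eps : DualNumber K) * DualNumber.eps = 0 := DualNumber.eps_mul_eps
  have e := h.E2 (DualNumber.eps : DualNumber K) 1
  rw [sy_eps_cons _ he, h.d0, sy_K1_one, one_pow, mul_one, GG_eps n _ he,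
    show 2 * (n + 1) + 1 = (2 * n + 1) + 2 by ring, GG_eps _ _ he] at e
  have e2 : algebraMap K (DualNumber K) (α * (2 * (n + 1) + 1) - (n + 1 + 1) * b ^ 2) *
      DualNumber.eps = 0 := by
    simp only [map_sub, map_mul, map_add, map_pow, map_natCast, map_one, map_ofNat]
    push_cast at e
    linear_combination -e + (algebraMap K (DualNumber K) b * ((n : DualNumber K) + 2) *
      sy [1] (pderiv 1 K2) - algebraMap K (DualNumber K) α * (2 * n + 1 + 2)) * he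
  have e3 := congrArg TrivSqZeroExt.snd e2
  rw [TrivSqZeroExt.algebraMap_eq_inl, DualNumber.snd_mul] at e3
  simp only [TrivSqZeroExt.fst_inl, TrivSqZeroExt.snd_inl, DualNumber.snd_eps, mul_one, zero_mul,
    add_zero, TrivSqZeroExt.snd_zero] at e3
  push_cast
  exact sub_eq_zero.1 e3

lemma sy_cubic (x y z : B) : sy [x, y, z] (X 0 * X 0 * X 1 : AA K) = 2 * (x + y + z) := by
  simp only [sy, map_mul, map_X, sym_cons, der_mul, map_add, Dx_X, derivation_C, sym_nil,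
    constantCoeff_C, constantCoeff_X, map_zero, pow_zero, pow_one]
  ring

lemma Pair.sy_three (h : Pair κ b α K2) (x y z : B) : sy [x, y, z] K2 = x + y + z := by
  have w1 : WH κ (X 0 * X 0 * X 1 : AA K) (3 * κ + 1) := by
    have := ((WH_X (R := K) κ 0).mul (WH_X κ 0)).mul (WH_X κ 1)
    rwa [show 0 + κ + (0 + κ) + (1 + κ) = 3 * κ + 1 by ring] at this
  have w2 : WH κ (X 0 * X (κ + 1) : AA K) (3 * κ + 1) := by
    have := (WH_X (R := K) κ 0).mul (WH_X κ (κ + 1))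
    rwa [show 0 + κ + (κ + 1 + κ) = 3 * κ + 1 by ring] at this
  have w := (h.wh.sub (w1.C_mul 2⁻¹)).sub (w2.C_mul b)
  have c2 : (C 2⁻¹ : AA K) * 2 = 1 := by
    rw [← map_ofNat C 2, ← C_mul, inv_mul_cancel₀ two_ne_zero, C_1]
  have d : pderiv 0 (K2 - C 2⁻¹ * (X 0 * X 0 * X 1) - C b * (X 0 * X (κ + 1))) = 0 := by
    simp only [map_sub, h.d0, K1, der_mul, derivation_C, pderiv_X_self,
      pderiv_X_of_ne (Nat.succ_ne_zero _)]
    linear_combination (-(X 0 * X 1) : AA K) * c2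
  have z0 := eq_zero_of_ord (w.comp 3) (by rw [pderiv_comp, d, map_zero])
    (Ord_of_homog (homogeneousComponent_isHomogeneous 3 _)) (by omega)
  have e := sy_comp [x, y, z] (K2 - C 2⁻¹ * (X 0 * X 0 * X 1) - C b * (X 0 * X (κ + 1)))
  rw [show [x, y, z].length = 3 from rfl, z0, sy_zero, sy_sub, sy_sub, sy_C_mul, sy_C_mul,
    sy_cubic, sy_of_homog ((isHomogeneous_X K 0).mul (isHomogeneous_X K (κ + 1))) _ (by simp)] at e
  have c3 : algebraMap K B 2⁻¹ * 2 = 1 := by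
    rw [← map_ofNat (algebraMap K B) 2, ← map_mul, inv_mul_cancel₀ two_ne_zero, map_one]
  linear_combination -e + (x + y + z) * c3

lemma pow_gap (n : ℕ) : (n + 5) * 2 ^ (n + 4) < 3 ^ (n + 4) := by
  induction n with
  | zero => norm_num
  | succ n ih =>
    rw [show n + 1 + 4 = n + 4 + 1 by ring, pow_succ 2 (n + 4), pow_succ 3 (n + 4)]
    nlinarith [Nat.zero_le (n * 2 ^ (n + 4)), Nat.zero_le (2 ^ (n + 4))]

/-- E3 at (1,1,1). -/
theorem Pair.kappa (h : Pair κ b α K2) : κ = 1 ∨ κ = 2 := by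
  have e3 := congrArg (sy [(1 : K), 1, 1]) h.comm
  rw [br, sy_sub, sy_zero, sy_fl_three (Ord_K1 κ b), sy_fl_three h.ord_one,
    sy_K1_long κ b [(1 : K), 1, 1] (by simp)] at e3
  simp only [h.sy_one, h.sy_three, sy_K1_one, sy_K1_two] at e3
  have e11 := h.E2 (1 : K) 1
  have e21 := h.E2 (1 + 1 : K) 1
  have ea := h.alpha
  rw [GG_two, GG_two] at e11 e21
  simp only [Algebra.algebraMap_self, RingHom.id_apply, one_pow, pow_succ, pow_mul', pow_zero,
    one_mul] at e3 e11 e21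
  have g : b ^ 2 * ((3 * (1 + 1 + 1) ^ κ - 3) * (2 * (1 + 1) ^ κ - 2) *
      (3 * (1 + 1 + 1) ^ κ - 2 * (1 + 1) ^ κ - 1 - (κ + 1) * (2 * (1 + 1) ^ κ - 2))) = 0 := by
    generalize ((1 : K) + 1 + 1) ^ κ = Q at *
    generalize ((1 : K) + 1) ^ κ = P at *
    linear_combination (b * (2 * P - 2) * (3 * Q - 2 * P - 1) * (2 * κ + 1) / 3) * e3 -
      2 * (2 * P - 2) * (2 * κ + 1) * e21 + 3 * (3 * Q - 2 * P - 1) * (2 * κ + 1) * e11 -
      (6 * (2 * P - 2) * (3 * Q ^ 2 - 2 * P ^ 2 - 1) -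
        6 * (3 * Q - 2 * P - 1) * (2 * P ^ 2 - 2)) * ea
  have g2 := (mul_eq_zero.1 g).resolve_left (pow_ne_zero 2 h.hb)
  have g3 : ((3 * 3 ^ κ - 3) * (2 * 2 ^ κ - 2) *
      (3 * 3 ^ κ - 2 * 2 ^ κ - 1 - (κ + 1) * (2 * 2 ^ κ - 2)) : ℤ) = 0 := by
    apply Int.cast_injective (α := K)
    push_cast
    rw [← g2]
    norm_num
  by_contra hn
  obtain ⟨n, rfl⟩ : ∃ n, κ = n + 3 := ⟨κ - 3, by have := h.hκ; omega⟩
  have p1 : ((n : ℤ) + 5) * 2 ^ (n + 4) < 3 ^ (n + 4) := by exact_mod_cast pow_gap n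
  have p2 : (1 : ℤ) < 2 ^ (n + 3) := one_lt_pow₀ one_lt_two (by omega)
  have p3 : (1 : ℤ) < 3 ^ (n + 3) := one_lt_pow₀ (by norm_num) (by omega)
  rw [show n + 4 = n + 3 + 1 from rfl, pow_succ _ (n + 3), pow_succ _ (n + 3)] at p1
  push_cast at g3
  refine absurd g3 (mul_pos (mul_pos (by linarith) (by linarith)) ?_).ne'
  have : (0 : ℤ) ≤ n := Nat.cast_nonneg n
  nlinarith

lemma Pair.sy_two_one (h : Pair 1 b α K2) (x y : B) :
    sy [x, y] K2 = algebraMap K B b * (x + y) ^ 2 := by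
  have e := h.E2 (X 0 : MvPolynomial (Fin 2) K) (X 1)
  have ea := congrArg (algebraMap K (MvPolynomial (Fin 2) K)) h.alpha
  simp only [map_mul, map_add, map_pow, map_ofNat, map_one, Nat.cast_one] at ea
  rw [GG_two, GG_two] at e
  have hb : algebraMap K (MvPolynomial (Fin 2) K) b ≠ 0 := by
    rw [Ne, map_eq_zero]; exact h.hb
  have g : sy [(X 0 : MvPolynomial (Fin 2) K), X 1] K2 =
      algebraMap K (MvPolynomial (Fin 2) K) b * (X 0 + X 1) ^ 2 := by
    refine mul_left_cancel₀ (mul_ne_zero (mul_ne_zero (mul_ne_zero two_ne_zero hb) (X_ne_zero 0))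
      (X_ne_zero 1)) ?_
    linear_combination e + (X 0 * X 1 * (X 0 + X 1) ^ 2) * ea
  have := congrArg (aeval ![x, y] : MvPolynomial (Fin 2) K →ₐ[K] B) g
  rw [sy_nat, map_mul, AlgHom.commutes] at this
  simpa using this

lemma Pair.sy_two_two (h : Pair 2 b α K2) (x y : B) :
    sy [x, y] K2 = algebraMap K B b * ((x + y) * (x ^ 2 + x * y + y ^ 2)) := by
  have e := h.E2 (X 0 : MvPolynomial (Fin 2) K) (X 1)
  have ea := congrArg (algebraMap K (MvPolynomial (Fin 2) K)) h.alpha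
  simp only [map_mul, map_add, map_pow, map_ofNat, map_one, Nat.cast_ofNat] at ea
  rw [GG_two, GG_two] at e
  have hb : algebraMap K (MvPolynomial (Fin 2) K) b ≠ 0 := by
    rw [Ne, map_eq_zero]; exact h.hb
  have hs : (X 0 + X 1 : MvPolynomial (Fin 2) K) ≠ 0 := fun h0 => by
    have := congrArg (eval ![(1 : K), 0]) h0
    simp at this
  have g : sy [(X 0 : MvPolynomial (Fin 2) K), X 1] K2 = algebraMap K (MvPolynomial (Fin 2) K) b *
      ((X 0 + X 1) * (X 0 ^ 2 + X 0 * X 1 + X 1 ^ 2)) := by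
    refine mul_left_cancel₀ (mul_ne_zero (mul_ne_zero (mul_ne_zero
      (mul_ne_zero (OfNat.ofNat_ne_zero 3) hb) (X_ne_zero 0)) (X_ne_zero 1)) hs) ?_
    linear_combination e +
      (X 0 * X 1 * (X 0 + X 1) ^ 2 * (X 0 ^ 2 + X 0 * X 1 + X 1 ^ 2)) * ea
  have := congrArg (aeval ![x, y] : MvPolynomial (Fin 2) K →ₐ[K] B) g
  rw [sy_nat, map_mul, AlgHom.commutes] at this
  simpa using this

end Pool.Agent.Lib.MP_4b14b2_mp.Nd
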