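import Pool.Agent.Lib.MP_4b14b2_mp.NCp
import Pool.Agent.Lib.MP_4b14b2_mp.NCore

/-! Lowest weight parts; rigidity of the relative normal form. -/

namespace Pool.Agent.Lib.MP_4b14b2_mp.Nd

open Finset MvPolynomial

lemma sum_br_low {R : Type} [CommRing R] {f g : ℕ → AA R} {s t : ℕ} (hf : ∀ W, W < s → f W = 0)
    (hg : ∀ W, W < t → g W = 0) {W : ℕ} (hW : W < s + t) :
    ∑ p ∈ antidiagonal W, br (f p.1) (g p.2) = 0 :=
  Finset.sum_eq_zero fun p hp => by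
    have := mem_antidiagonal.mp hp
    by_cases h : p.1 < s
    · rw [hf _ h, br_zero_left]
    · rw [hg _ (by omega), br_zero_right]

lemma sum_br_eq {R : Type} [CommRing R] {f g : ℕ → AA R} {s t : ℕ} (hf : ∀ W, W < s → f W = 0)
    (hg : ∀ W, W < t → g W = 0) :
    ∑ p ∈ antidiagonal (s + t), br (f p.1) (g p.2) = br (f s) (g t) := by
  refine Finset.sum_eq_single (s, t) (fun p hp hne => ?_) (fun h => absurd (by simp) h)
  have := mem_antidiagonal.mp hp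
  by_cases h : p.1 < s
  · rw [hf _ h, br_zero_left]
  · have h2 : p.2 < t := by
      by_contra h3
      exact hne (Prod.ext (by simp only; omega) (by simp only; omega))
    rw [hg _ h2, br_zero_right]

lemma charZero_series : CharZero (PowerSeries ℂ) :=
  charZero_of_injective_algebraMap (algebraMap ℂ (PowerSeries ℂ)).injective

lemma shd_sub {F G : DSeries} {a : ℕ} (hF : SeriesHasDeg F a) (hG : SeriesHasDeg G a) :
    SeriesHasDeg (F - G) a := fun k => by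
  rw [map_sub]
  exact (weightedHomogeneousSubmodule (PowerSeries ℂ) (fun i : ℕ => i + 1) (k + a)).sub_mem
    (hF k) (hG k)

lemma du_sub (f g : DPoly) : du (f - g) = du f - du g :=
  (AddMonoidHom.mk' du du_add).map_sub f g

lemma du_zero : du 0 = 0 := (AddMonoidHom.mk' du du_add).map_zero

/-- The weight components of v_1. -/
noncomputable def UU (κ W : ℕ) : AA (PowerSeries ℂ) := if W = κ + 1 then X 1 else 0

lemma br_UU_left (κ W : ℕ) (P : AA (PowerSeries ℂ)) : br (UU κ W) P = 0 := by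
  unfold UU; split_ifs
  · exact br_X_one_left P
  · exact br_zero_left P

lemma br_UU_right (κ W : ℕ) (P : AA (PowerSeries ℂ)) : br P (UU κ W) = 0 := by
  rw [br_anti, br_UU_left, neg_zero]

lemma du_UU (κ W : ℕ) : du (UU κ W) = 0 := by
  unfold UU; split_ifs
  · exact du_X 1
  · exact du_zero

lemma pderiv_UU (κ W : ℕ) : pderiv 0 (UU κ W) = 0 := by
  unfold UU; split_ifs
  · exact pderiv_X_of_ne (by omega)
  · exact map_zero _

lemma WH_UU (κ W : ℕ) : WH κ (UU κ W) W := by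
  unfold UU; split_ifs with h
  · rw [h, add_comm]; exact WH_X κ 1
  · exact isWeightedHomogeneous_zero _ _ _

/-- The components of Q_1 - c v_1. -/
noncomputable def YY (κ : ℕ) (cp : ℕ → DSeries →+ AA (PowerSeries ℂ)) (Q : ℕ → DSeries) (W : ℕ) :
    AA (PowerSeries ℂ) := cp W (Q 1) - C PowerSeries.X * UU κ W

/-- The components of Q_2 - c Q_1 + c^2 / 2 v_1. -/
noncomputable def ZZ (κ : ℕ) (cp : ℕ → DSeries →+ AA (PowerSeries ℂ)) (Q : ℕ → DSeries) (W : ℕ) :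
    AA (PowerSeries ℂ) :=
  cp W (Q 2) - C PowerSeries.X * cp W (Q 1) + C ((2 : ℂ)⁻¹ • PowerSeries.X ^ 2) * UU κ W

section
variable {κ : ℕ} {cp : ℕ → DSeries →+ AA (PowerSeries ℂ)} {Q : ℕ → DSeries}
  (hκ : 1 ≤ κ) (h1 : ∀ F, SeriesHasDeg F 1 → IsCp κ F fun W => cp W F)
  (h2 : ∀ W F G, flow F G = flow G F → ∑ p ∈ antidiagonal W, br (cp p.1 F) (cp p.2 G) = 0)
  (hQ : IsDeformation Q)

include hQ in
lemma coeff_zero_one : PowerSeries.coeff 0 (Q 1) = u * X 0 := by rw [hQ.2.1 1]; simp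

include h2 hQ in
lemma YZ_comm (W : ℕ) : ∑ p ∈ antidiagonal W, br (YY κ cp Q p.1) (ZZ κ cp Q p.2) = 0 := by
  simp only [YY, ZZ, br_sub_left, br_add_right, br_sub_right, br_C_mul_left, br_C_mul_right,
    br_UU_left, br_UU_right, mul_zero, add_zero, sub_zero, Finset.sum_sub_distrib,
    ← Finset.mul_sum, h2 W _ _ (hQ.2.2 1 2), h2 W _ _ (hQ.2.2 1 1)]

include h1 hQ in
lemma ZZ_pderiv (W : ℕ) : pderiv 0 (ZZ κ cp Q (W + κ)) = du (ZZ κ cp Q W) + YY κ cp Q W := by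
  have e1 := (h1 _ (hQ.1 1)).pderiv_add W
  have e2 := (h1 _ (hQ.1 2)).pderiv_add W
  have e3 : PowerSeries.derivative ℂ ((2 : ℂ)⁻¹ • PowerSeries.X ^ 2 : PowerSeries ℂ) =
      PowerSeries.X := by
    rw [Derivation.map_smul, pow_two, Derivation.leibniz, PowerSeries.derivative_X, smul_eq_mul,
      mul_one, ← two_smul ℂ, smul_smul, inv_mul_cancel₀ two_ne_zero, one_smul]
  simp only [ZZ, YY, map_add, map_sub, pderiv_C_mul, pderiv_UU, e1, e2, du_add, du_sub, du_mul,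
    du_C, du_UU, e3, PowerSeries.derivative_X, C_1]
  ring

include h1 hQ in
lemma ZZ_wh (W : ℕ) : WH κ (ZZ κ cp Q W) W :=
  (((h1 _ (hQ.1 2)).wh W).sub (((h1 _ (hQ.1 1)).wh W).C_mul _)).add ((WH_UU κ W).C_mul _)

include hκ h1 hQ in
lemma YY_low (hb : ∀ k, 2 ≤ k → k ≤ κ → b (Q 1) k = 0) :
    (∀ W, W < 2 * κ + 1 → YY κ cp Q W = 0) ∧
      YY κ cp Q (2 * κ + 1) = K1 κ (b (Q 1) (κ + 1)) := by
  obtain ⟨e1, e2⟩ := (h1 _ (hQ.1 1)).first hκ (hQ.1 1) (coeff_zero_one hQ) hb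
  refine ⟨fun W hW => ?_, ?_⟩
  · rw [YY, e1 W hW, UU]
    split_ifs <;> simp
  · rw [YY, e2, UU, if_neg (by omega), mul_zero, sub_zero]

include hκ h1 hQ in
lemma ZZ_deg2 (W : ℕ) (hW : W < 3 * κ + 1) : Deg2 (ZZ κ cp Q W) := by
  have d1 : SeriesHasDeg (PowerSeries.C (u * X 0)) 1 :=
    seriesHasDeg_C (by rw [← coeff_zero_one hQ]; exact hQ.1 1 0)
  have d2 : SeriesHasDeg (PowerSeries.C (((2 : ℕ).factorial : ℂ)⁻¹ • (u ^ 2 * X 0))) 1 :=
    seriesHasDeg_C (by rw [← hQ.2.1 2]; exact hQ.1 2 0)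
  have e1 := (h1 _ d1).hopf hκ W
  have e2 := (h1 _ d2).second hκ W hW
  have g1 := (h1 _ (shd_sub (hQ.1 1) d1)).deg2
    (by rw [map_sub, coeff_zero_one hQ, PowerSeries.coeff_zero_C, sub_self]) W
  have g2 := (h1 _ (shd_sub (hQ.1 2) d2)).deg2
    (by rw [map_sub, hQ.2.1 2, PowerSeries.coeff_zero_C, sub_self]) W
  have e3 : (C ((2 : ℂ)⁻¹ • PowerSeries.X ^ 2) : AA (PowerSeries ℂ)) +
      C ((2 : ℂ)⁻¹ • PowerSeries.X ^ 2) = C PowerSeries.X * C PowerSeries.X := by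
    rw [← C_add, ← C_mul, ← add_smul, ← pow_two]
    norm_num
  have := g2.sub (g1.C_mul PowerSeries.X)
  simp only [map_sub] at this e1 e2
  convert this using 1
  rw [e1, e2, ZZ, UU]
  split_ifs
  · linear_combination e3 * X 1
  · ring
  · ring

include hκ h1 h2 hQ in
lemma ZZ_low (hb : ∀ k, 2 ≤ k → k ≤ κ → b (Q 1) k = 0) (W : ℕ) :
    W < 3 * κ + 1 → ZZ κ cp Q W = 0 := by
  have := charZero_series
  obtain ⟨y1, y2⟩ := YY_low hκ h1 hQ hb
  induction W using Nat.strong_induction_on with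
  | _ W ih =>
    intro hW
    have e := YZ_comm (κ := κ) h2 hQ (2 * κ + 1 + W)
    rw [sum_br_eq y1 fun V hV => ih V hV (by omega), y2] at e
    exact K1_inj κ _ 0 (ZZ_deg2 hκ h1 hQ W hW) (by rw [e]; simp)

include hκ h1 h2 hQ in
lemma pair_of (hb : ∀ k, 2 ≤ k → k ≤ κ → b (Q 1) k = 0) (hne : b (Q 1) (κ + 1) ≠ 0) :
    ∃ α, Pair κ (algebraMap _ (FractionRing (PowerSeries ℂ)) (b (Q 1) (κ + 1))) α
      (map (algebraMap _ _) (ZZ κ cp Q (3 * κ + 1))) := by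
  obtain ⟨y1, y2⟩ := YY_low hκ h1 hQ hb
  have z := ZZ_low hκ h1 h2 hQ hb
  have hw := (ZZ_wh h1 hQ (3 * κ + 1)).map (algebraMap _ (FractionRing (PowerSeries ℂ)))
  refine ⟨_, hκ, (map_ne_zero_iff _ (IsFractionRing.injective _ _)).mpr hne, hw, ?_, ?_,
    WH.ord_two (j := 2 * κ + 1) hκ (by rwa [show 2 * κ + 1 + κ = 3 * κ + 1 by ring])⟩
  · rw [pderiv_map, show 3 * κ + 1 = 2 * κ + 1 + κ by ring, ZZ_pderiv h1 hQ, z _ (by omega),
      du_zero, zero_add, y2, map_K1]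
  · have e := YZ_comm (κ := κ) h2 hQ (2 * κ + 1 + (3 * κ + 1))
    rw [sum_br_eq y1 z, y2] at e
    rw [← map_K1, ← map_br, e, map_zero]

end

lemma exists_least {P : DSeries} (hk : ∃ k, 2 ≤ k ∧ b P k ≠ 0) :
    ∃ κ, 1 ≤ κ ∧ b P (κ + 1) ≠ 0 ∧ ∀ k, 2 ≤ k → k ≤ κ → b P k = 0 := by
  classical
  have h := Nat.find_spec hk
  refine ⟨Nat.find hk - 1, by omega, by rw [Nat.sub_add_cancel (by omega)]; exact h.2,
    fun k h2 hle => ?_⟩
  by_contra hne
  exact Nat.find_min hk (by omega) ⟨h2, hne⟩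

lemma charZero_frac : CharZero (FractionRing (PowerSeries ℂ)) :=
  charZero_of_injective_algebraMap (algebraMap ℂ (FractionRing (PowerSeries ℂ))).injective

theorem rigid {Q Q' : ℕ → DSeries} (hQ : IsDeformation Q) (hQ' : IsDeformation Q')
    (hb : ∀ k, 2 ≤ k → b (Q 1) k = b (Q' 1) k) (hk : ∃ k, 2 ≤ k ∧ b (Q 1) k ≠ 0)
    (hN : ∀ n, 2 ≤ n →
      (PowerSeries.coeff n (Q 1 - Q' 1)).IsWeightedHomogeneous (Pi.single 0 1) 0) :
    Q 1 = Q' 1 := by
  classical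
  have := charZero_series
  have := charZero_frac
  obtain ⟨κ, hκ, hne, hlow⟩ := exists_least hk
  obtain ⟨cp, h1', h2⟩ := exists_cp κ hκ
  have h1 : ∀ F, SeriesHasDeg F 1 → IsCp κ F fun W => cp W F := fun F hF W m => h1' W F hF m
  obtain ⟨α, hp⟩ := pair_of hκ h1 h2 hQ hlow hne
  have z := ZZ_low hκ h1 h2 hQ hlow
  obtain ⟨y1, y2⟩ := YY_low hκ h1 hQ' fun k h h' => by rw [← hb k h, hlow k h h']
  rw [← hb _ (by omega)] at y2
  have d1 := shd_sub (hQ.1 1) (hQ'.1 1)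
  have c1 := h1 _ d1
  have o1 : PowerSeries.coeff 0 (Q 1 - Q' 1) = 0 := by rw [map_sub, hQ.2.1, hQ'.2.1, sub_self]
  have o2 : PowerSeries.coeff 0 (Q 2 - Q' 2) = 0 := by rw [map_sub, hQ.2.1, hQ'.2.1, sub_self]
  have b0 : ∀ k, 2 ≤ k → b (Q 1 - Q' 1) k = 0 := fun k h => by
    have := hb k h
    simp only [b] at this ⊢
    rw [map_sub, coeff_sub, this, sub_self]
  by_contra hcon
  have hex : ∃ W, cp W (Q 1 - Q' 1) ≠ 0 := by
    by_contra h
    exact hcon (sub_eq_zero.mp (c1.eq_zero d1 fun W => not_not.mp fun h' => h ⟨W, h'⟩))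
  have hM := Nat.find_spec hex
  have hmin : ∀ W, W < Nat.find hex → cp W (Q 1 - Q' 1) = 0 := fun W h =>
    not_not.mp (Nat.find_min hex h)
  generalize Nat.find hex = M at hM hmin
  have eY : ∀ W, YY κ cp Q W - YY κ cp Q' W = cp W (Q 1 - Q' 1) := fun W => by
    rw [YY, YY, map_sub]; ring
  have eS : ∀ W, ∑ p ∈ antidiagonal W, br (cp p.1 (Q 1 - Q' 1)) (ZZ κ cp Q p.2) +
      ∑ p ∈ antidiagonal W, br (YY κ cp Q' p.1) (ZZ κ cp Q p.2 - ZZ κ cp Q' p.2) = 0 := fun W => by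
    simp only [← eY, br_sub_left, br_sub_right, Finset.sum_sub_distrib, YZ_comm h2 hQ W,
      YZ_comm h2 hQ' W]
    ring
  have g2 : ∀ W, Deg2 (ZZ κ cp Q W - ZZ κ cp Q' W) := fun W => by
    have := ((h1 _ (shd_sub (hQ.1 2) (hQ'.1 2))).deg2 o2 W).sub
      ((c1.deg2 o1 W).C_mul PowerSeries.X)
    simp only [map_sub] at this
    convert this using 1
    rw [ZZ, ZZ]; ring
  have zl : ∀ W, W < M + κ → ZZ κ cp Q W - ZZ κ cp Q' W = 0 := fun W => by
    induction W using Nat.strong_induction_on with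
    | _ W ih =>
      intro hW
      have e := eS (2 * κ + 1 + W)
      rw [sum_br_low hmin z (by omega), zero_add,
        sum_br_eq (g := fun V => ZZ κ cp Q V - ZZ κ cp Q' V) y1 fun V hV => ih V hV (by omega),
        y2] at e
      exact K1_inj κ _ 0 (g2 W) (by rw [e]; simp)
  have a0 : pderiv 0 (cp M (Q 1 - Q' 1)) = 0 := by
    by_cases h : M < κ
    · exact c1.pderiv_lt h
    · obtain ⟨W, rfl⟩ : ∃ W, M = W + κ := ⟨M - κ, by omega⟩
      rw [c1.pderiv_add W, hmin W (by omega), du_zero]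
  obtain ⟨β, hβ⟩ := c1.normal d1 o1 (b0 2 le_rfl) hN M a0
  have e := eS (M + (3 * κ + 1))
  rw [sum_br_eq (f := fun V => cp V (Q 1 - Q' 1)) hmin z,
    show M + (3 * κ + 1) = 2 * κ + 1 + (M + κ) by ring,
    sum_br_eq (g := fun V => ZZ κ cp Q V - ZZ κ cp Q' V) y1 zl, y2] at e
  have hl : Lin κ (algebraMap _ (FractionRing (PowerSeries ℂ)) (b (Q 1) (κ + 1)))
      (map (algebraMap _ _) (ZZ κ cp Q (3 * κ + 1))) M (map (algebraMap _ _) (cp M (Q 1 - Q' 1)))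
      (map (algebraMap _ _) (ZZ κ cp Q (M + κ) - ZZ κ cp Q' (M + κ))) := by
    refine ⟨(c1.wh M).map _, ((ZZ_wh h1 hQ _).sub (ZZ_wh h1 hQ' _)).map _, ?_, ?_, ?_⟩
    · rw [pderiv_map, a0, map_zero]
    · rw [pderiv_map, Derivation.map_sub, ZZ_pderiv h1 hQ, ZZ_pderiv h1 hQ', add_sub_add_comm,
        ← du_sub, zl M (by omega), du_zero, zero_add, eY]
    · rw [← map_K1, ← map_br, ← map_br, ← map_add, add_comm, e, map_zero]
  have := core (β := algebraMap _ _ β) hp hl ((c1.ord_two d1 o1 b0 M).map _)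
    (by rw [pderiv_map, hβ, map_mul, map_C, map_X])
  exact hM (map_injective _ (IsFractionRing.injective _ _) (this.trans (map_zero _).symm))

theorem two_or_three {Q : ℕ → DSeries} (hQ : IsDeformation Q) (h2 : b (Q 1) 2 = 0)
    (h3 : b (Q 1) 3 = 0) (k : ℕ) (hk : 2 ≤ k) : b (Q 1) k = 0 := by
  have := charZero_frac
  by_contra hcon
  obtain ⟨κ, hκ, hne, hlow⟩ := exists_least ⟨k, hk, hcon⟩
  obtain ⟨cp, h1', h2'⟩ := exists_cp κ hκ
  obtain ⟨α, hp⟩ := pair_of hκ (fun F hF W m => h1' W F hF m) h2' hQ hlow hne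
  rcases hp.kappa with rfl | rfl
  · exact hne h2
  · exact hne h3

end Pool.Agent.Lib.MP_4b14b2_mp.Nd
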