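import Pool.Agent.Lib.MP_4b14b2_mp.NNorm

/-! Pull-back of a deformation along a Miura transformation; uniqueness of the hierarchy. -/

namespace Pool.Agent.Lib.MP_4b14b2_mp.Nd

open MvPolynomial

lemma np_coeff {v : DSeries} (hv : PowerSeries.coeff 0 v = u) (X' : DSeries) (n : ℕ) :
    PowerSeries.coeff n (flow X' v) = PowerSeries.coeff n X' +
      ∑ i ∈ Finset.range n, DD (PowerSeries.coeff i X') (PowerSeries.coeff (n - i) v) := by
  rw [coeff_flow_DD, ← Finset.Nat.sum_antidiagonal_swap,
    Finset.Nat.sum_antidiagonal_eq_sum_range_succ_mk, Finset.sum_range_succ]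
  simp only [Prod.swap_prod_mk, Nat.sub_self, hv, DD_u]
  exact add_comm _ _

lemma flow_solve {v Y : DSeries} (hv : IsMiura v) (hY : SeriesHasDeg Y 1) :
    ∃ X' : DSeries, SeriesHasDeg X' 1 ∧ flow X' v = Y := by
  obtain ⟨s, hs⟩ := exists_seq (α := DPoly) (fun n s => HasDeg (s n) (n + 1) ∧
      s n + ∑ i ∈ Finset.range n, DD (s i) (PowerSeries.coeff (n - i) v) = PowerSeries.coeff n Y)
    (fun n s t h hs => by
      rw [← h n le_rfl, ← hs.2]
      exact ⟨hs.1, congrArg _ (Finset.sum_congr rfl fun i hi => by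
        rw [h i (Finset.mem_range.1 hi).le])⟩)
    (fun n s h => by
      refine ⟨PowerSeries.coeff n Y -
        ∑ i ∈ Finset.range n, DD (s i) (PowerSeries.coeff (n - i) v), ?_, ?_⟩
      · rw [Function.update_self]
        refine IsWeightedHomogeneous.sub (hY n) (HasDeg.sum _ _ _ fun i hi => ?_)
        have hi' := Finset.mem_range.1 hi
        have := hasDeg_DD' (h i hi').1 (hv.1 (n - i))
        rwa [show n - i + 0 + (i + 1) = n + 1 by omega] at this
      · rw [Function.update_self, sub_add_eq_add_sub, sub_eq_iff_eq_add, add_right_inj]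
        exact Finset.sum_congr rfl fun i hi => by
          rw [Function.update_of_ne (Finset.mem_range.1 hi).ne])
  refine ⟨PowerSeries.mk s, fun k => by rw [PowerSeries.coeff_mk]; exact (hs k).1, ?_⟩
  ext1 n
  rw [np_coeff hv.2]
  simp only [PowerSeries.coeff_mk]
  exact (hs n).2

lemma flow_inj {v X' : DSeries} (hv : PowerSeries.coeff 0 v = u) (h : flow X' v = 0) : X' = 0 := by
  ext1 n
  induction n using Nat.strong_induction_on with
  | _ n ih =>
    have e := np_coeff hv X' n
    rw [h, Finset.sum_eq_zero fun i hi => by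
      rw [ih i (Finset.mem_range.1 hi), map_zero, Lau.DD_zero_left], add_zero] at e
    exact e.symm

theorem pullback {Q' : ℕ → DSeries} (hQ' : IsDeformation Q') {v : DSeries} (hv : IsMiura v) :
    ∃ Q, IsDeformation Q ∧ Carries v Q Q' := by
  choose Q h1 h2 using fun d => flow_solve hv (seriesHasDeg_subst hv (hQ'.1 d))
  refine ⟨Q, ⟨h1, fun d => ?_, fun d e => ?_⟩, h2⟩
  · have e := np_coeff hv.2 (Q d) 0
    rw [h2, coeff_zero_subst hv.2, Finset.range_zero, Finset.sum_empty, add_zero] at e
    rw [← e, hQ'.2.1]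
  · refine sub_eq_zero.1 (flow_inj hv.2 ?_)
    rw [← flow_flow, h2 e, h2 d, flow_subst hv.2 (h2 d), flow_subst hv.2 (h2 e), hQ'.2.2 d e,
      sub_self]

theorem unique {Q Q' : ℕ → DSeries} (hQ : IsDeformation Q) (hQ' : IsDeformation Q')
    (h : Q 1 = Q' 1) : Q = Q' := by
  funext d
  have h0 : PowerSeries.coeff 0 (Q 1) = u * X 0 := by rw [hQ.2.1 1]; simp
  have hc : flow (Q 1) (Q d - Q' d) = flow (Q d - Q' d) (Q 1) := by
    rw [flow_sub, flow_sub_left, hQ.2.2 1 d, h, hQ'.2.2 1 d]
  refine sub_eq_zero.1 ?_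
  have hd : SeriesHasDeg (Q d - Q' d) 1 := fun k => by
    rw [map_sub]; exact IsWeightedHomogeneous.sub (hQ.1 d k) (hQ'.1 d k)
  have hz : PowerSeries.coeff 0 (Q d - Q' d) = 0 := by rw [map_sub, hQ.2.1, hQ'.2.1, sub_self]
  generalize Q d - Q' d = D at hc hd hz
  ext1 n
  induction n using Nat.strong_induction_on with
  | _ n ih =>
    rcases Nat.eq_zero_or_pos n with rfl | hn
    · exact hz
    have e := congrArg (PowerSeries.coeff n) hc
    rw [coeff_flow_DD, coeff_flow_DD, Finset.sum_eq_single_of_mem (n, 0) (by simp),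
      Finset.sum_eq_single_of_mem (0, n) (by simp), h0, DD_mul, DD_u, DD_X0] at e
    · refine Lau.lam_inj (hd n) (by omega) ?_
      rw [Lau.Lam, e, add_comm, sub_self]
      exact isWeightedHomogeneous_zero _ _ _
    · intro p hp hne
      have h2 := Finset.HasAntidiagonal.mem_antidiagonal.mp hp
      have h3 : p.1 ≠ 0 := fun h3 => hne (Prod.ext h3 (by simp only; omega))
      rw [ih p.2 (by omega), map_zero, Lau.DD_zero_left]
    · intro p hp hne
      have h2 := Finset.HasAntidiagonal.mem_antidiagonal.mp hp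
      have h3 : p.2 ≠ 0 := fun h3 => hne (Prod.ext (by simp only; omega) h3)
      rw [ih p.1 (by omega), map_zero, Lau.DD_zero_right]

end Pool.Agent.Lib.MP_4b14b2_mp.Nd
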