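import Pool.Agent.Lib.MP_4b14b2_mp.NLow
import Pool.Agent.Lib.MP_4b14b2_mp.NPull
import Pool.Agent.Lib.MP_4b14b2_mp.NBinv

/-! The conjecture holds as soon as one of the series b_k is not zero. -/

namespace Pool.Agent.Lib.MP_4b14b2_mp.Nd

open MvPolynomial

theorem carries {Q Q' : ℕ → DSeries} (hQ : IsDeformation Q) (hQ' : IsDeformation Q')
    (hb : ∀ k, 2 ≤ k → b (Q 1) k = b (Q' 1) k) (hk : ∃ k, 2 ≤ k ∧ b (Q 1) k ≠ 0) :
    ∃ v, IsMiura v ∧ Carries v Q Q' := by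
  have h0 : ∀ {P : ℕ → DSeries}, IsDeformation P → PowerSeries.coeff 0 (P 1) = u * X 0 :=
    fun h => by rw [h.2.1 1]; simp
  obtain ⟨v, δ, hv, -, hN, he⟩ := normal_form (hQ.1 1) (hQ'.1 1) (h0 hQ) (h0 hQ')
  obtain ⟨P, hP, hc⟩ := pullback hQ' hv
  have h1 : P 1 = Q 1 - δ := sub_eq_zero.mp (flow_inj hv.2 (by rw [flow_sub_left, hc 1, he, sub_self]))
  have h2 : Q 1 = P 1 := rigid hQ hP
    (fun k hk => by rw [hb k hk, b_invariant hv (hP.1 1) (hQ'.1 1) (hc 1) k hk]) hk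
    (fun n hn => by rw [h1, sub_sub_cancel]; exact hN n hn)
  exact ⟨v, hv, unique hQ hP h2 ▸ hc⟩

end Pool.Agent.Lib.MP_4b14b2_mp.Nd
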