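import Pool.Agent.Lib.MP_4b14b2_mp.NSubI
import Pool.Agent.Lib.MP_4b14b2_mp.NGrad

/-! The relative normal form. -/

namespace Pool.Agent.Lib.MP_4b14b2_mp.Nd

open MvPolynomial

lemma exists_seq {α : Type} [Inhabited α] (P : ℕ → (ℕ → α) → Prop)
    (hloc : ∀ n s t, (∀ i, i ≤ n → s i = t i) → P n s → P n t)
    (hstep : ∀ n s, (∀ i, i < n → P i s) → ∃ a, P n (Function.update s n a)) :
    ∃ s, ∀ n, P n s := by
  choose! g hg using hstep
  let t : ℕ → ℕ → α := fun n =>
    Nat.rec (fun _ => default) (fun k s => Function.update s k (g k s)) n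
  have ht : ∀ n, t (n + 1) = Function.update (t n) n (g n (t n)) := fun _ => rfl
  have h1 : ∀ n i, i < n → P i (t n) := by
    intro n
    induction n with
    | zero => intro i hi; omega
    | succ n ih =>
      intro i hi
      rcases Nat.lt_succ_iff_lt_or_eq.1 hi with h | rfl
      · exact hloc i (t n) _ (fun j hj => by rw [ht, Function.update_of_ne (by omega)]) (ih i h)
      · exact hg _ _ ih
  have h2 : ∀ i n, i + 1 ≤ n → t n i = t (i + 1) i := by
    intro i n hn
    induction n, hn using Nat.le_induction with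
    | base => rfl
    | succ n hn ih => rw [ht, Function.update_of_ne (by omega), ih]
  exact ⟨fun i => t (i + 1) i, fun n =>
    hloc n (t (n + 1)) _ (fun i hi => h2 i (n + 1) (by omega)) (h1 (n + 1) n (by omega))⟩

lemma free_iff {f : DPoly} :
    f.IsWeightedHomogeneous (Pi.single 0 1 : ℕ → ℕ) 0 ↔ Sp (fun m => m 0 = 0) f :=
  forall_congr' fun m => by rw [Finsupp.weight_single_one_apply]

lemma Lam_add (f g : DPoly) : Lau.Lam (f + g) = Lau.Lam f + Lau.Lam g := by
  simp only [Lau.Lam, DD_add, dx_add]; ring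

lemma Lam_zero : Lau.Lam 0 = 0 := by
  have h := Lam_add 0 0
  rw [add_zero] at h
  linear_combination -h

lemma hasDeg_Lam {f : DPoly} {n : ℕ} (hf : HasDeg f n) : HasDeg (Lau.Lam f) (n + 1) := by
  have h1 : HasDeg (u * X 0) 1 := (hasDeg_C _).mul (hasDeg_X 0)
  have h2 : HasDeg (u * dx f) (0 + (n + 1)) := (hasDeg_C _).mul hf.dx
  rw [zero_add] at h2
  exact IsWeightedHomogeneous.sub (hasDeg_DD' h1 hf) (h2.add (hf.mul (hasDeg_X 0)))

/-- One step of the division by the diagonal part. -/
lemma lam_mono {n : ℕ} (hn : 2 ≤ n) (μ : ℕ →₀ ℕ) (hμ : Finsupp.weight (fun i => i + 1) μ = n)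
    (c : PowerSeries ℂ) : ∃ f, HasDeg f n ∧
      Sp (fun m => m 0 ≤ μ 0) (monomial (Finsupp.single 0 1 + μ) c - Lau.Lam f) := by
  classical
  obtain ⟨ρ, hρ⟩ := Lau.exists_rho
  obtain ⟨E, hE⟩ : ∃ E, E = ∑ i ∈ μ.support, Lau.aw i * μ i := ⟨_, rfl⟩
  have h6 : n ≤ E := by
    rw [hE, ← hμ, Finsupp.weight_apply, Finsupp.sum]
    refine Finset.sum_le_sum fun i _ => ?_
    rw [smul_eq_mul, mul_comm]
    exact Nat.mul_le_mul_right _ (by cases i <;> simp [Lau.aw])
  have hE1 : (E : ℂ) - 1 ≠ 0 := by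
    rw [sub_ne_zero]
    exact_mod_cast (by omega : E ≠ 1)
  obtain ⟨c', hc⟩ : ∃ c' : PowerSeries ℂ, ((E : PowerSeries ℂ) - 1) * c' = c := by
    refine ⟨PowerSeries.C ((E : ℂ) - 1)⁻¹ * c, ?_⟩
    rw [← mul_assoc, ← map_natCast (PowerSeries.C (R := ℂ)), ← map_one (PowerSeries.C (R := ℂ)),
      ← map_sub, ← map_mul, mul_inv_cancel₀ hE1, map_one, one_mul]
  obtain ⟨f, hf⟩ : ∃ f : DPoly, f = monomial μ c' := ⟨_, rfl⟩
  have hS : f.vars ⊆ μ.support := fun i hi => by
    obtain ⟨d, hd, hi⟩ := (mem_vars_iff_mem_support i).1 hi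
    rw [hf] at hd
    rwa [Finset.mem_singleton.1 (support_monomial_subset hd)] at hi
  have hsp : Sp (fun m => m = μ) f := fun m hm => by
    rw [hf, coeff_monomial] at hm
    by_contra h
    exact hm (if_neg fun h' => h h'.symm)
  have e1 : Lau.Lam f = X 0 * (∑ i ∈ μ.support, (Lau.aw i : DPoly) * (X i * pderiv i f) - f) +
      ∑ i ∈ μ.support, ρ i * pderiv i f := by
    rw [Lau.Lam, DD, dx_eq_gen f, gen_eq_of_subset _ _ f _ hS, gen_eq_of_subset _ _ f _ hS]
    simp only [RingHom.id_apply, Function.iterate_zero, id, (hρ _).2, add_mul,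
      Finset.sum_add_distrib, mul_add, mul_sub, Finset.mul_sum, mul_assoc]
    ring
  have e2 : ∑ i ∈ μ.support, (Lau.aw i : DPoly) * (X i * pderiv i f) = (E : DPoly) * f := by
    rw [hE, Nat.cast_sum, Finset.sum_mul]
    refine Finset.sum_congr rfl fun i _ => ?_
    rw [hf, X_mul_pderiv_monomial, nsmul_eq_mul, Nat.cast_mul, mul_assoc]
  have e3 : X 0 * ((E : DPoly) * f - f) = monomial (Finsupp.single 0 1 + μ) c := by
    rw [← sub_one_mul, ← map_natCast (C : PowerSeries ℂ →+* DPoly),
      ← map_one (C : PowerSeries ℂ →+* DPoly), ← map_sub, hf, C_mul_monomial, hc, X, monomial_mul,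
      one_mul]
  refine ⟨f, fun m hm => by rw [hsp m hm]; exact hμ, ?_⟩
  rw [e1, e2, e3, sub_add_cancel_left, ← zero_sub]
  refine Sp_zero.sub (Sp.sum fun i _ => (free_iff.1 (hρ i).1).mul (hsp.pderiv i) ?_)
  intro a b ha hb
  rw [← hb, Finsupp.add_apply, Finsupp.add_apply, ha]
  omega

lemma lam_surj_aux {n : ℕ} (hn : 2 ≤ n) (a : ℕ) : ∀ g : DPoly, HasDeg g (n + 1) →
    Sp (fun m => m 0 ≤ a) g → ∃ f, HasDeg f n ∧ Sp (fun m => m 0 = 0) (g - Lau.Lam f) := by
  classical
  induction a with
  | zero =>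
    intro g _ h
    exact ⟨0, hasDeg_zero n, by rw [Lam_zero, sub_zero]; exact h.imp fun m hm => by omega⟩
  | succ a ih =>
    intro g hg h
    rw [g.as_sum]
    refine Finset.sum_induction _
      (fun g : DPoly => ∃ f, HasDeg f n ∧ Sp (fun m => m 0 = 0) (g - Lau.Lam f)) ?_
      ⟨0, hasDeg_zero n, by rw [Lam_zero, sub_zero]; exact Sp_zero⟩ fun m hm => ?_
    · rintro p q ⟨f, hf, hp⟩ ⟨f', hf', hq⟩
      refine ⟨f + f', hf.add hf', ?_⟩
      rw [Lam_add, add_sub_add_comm]
      exact hp.add hq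
    · have hw : Finsupp.weight (fun i => i + 1) m = n + 1 := hg (mem_support_iff.1 hm)
      have hd : HasDeg (monomial m (coeff m g)) (n + 1) :=
        isWeightedHomogeneous_monomial _ _ _ hw
      have ha := h m (mem_support_iff.1 hm)
      by_cases h0 : m 0 ≤ a
      · refine ih _ hd fun x hx => ?_
        rw [coeff_monomial] at hx
        by_cases hxm : m = x
        · exact hxm ▸ h0
        · exact absurd (if_neg hxm) hx
      · obtain ⟨μ, rfl⟩ : ∃ μ, m = Finsupp.single 0 1 + μ :=
          ⟨m - Finsupp.single 0 1, by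
            rw [add_comm, Finsupp.sub_add_single_one_cancel (by omega)]⟩
        rw [map_add, wsingle] at hw
        rw [Finsupp.add_apply, Finsupp.single_eq_same] at ha
        obtain ⟨f, hf, hr⟩ := lam_mono hn μ (by omega) (coeff (Finsupp.single 0 1 + μ) g)
        obtain ⟨f', hf', hr'⟩ := ih _ (IsWeightedHomogeneous.sub hd (hasDeg_Lam hf))
          (hr.imp fun x hx => by omega)
        exact ⟨f + f', hf.add hf', by rwa [Lam_add, ← sub_sub]⟩

lemma lam_surj {g : DPoly} {n : ℕ} (hn : 2 ≤ n) (hg : HasDeg g (n + 1)) :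
    ∃ f, HasDeg f n ∧ (g - Lau.Lam f).IsWeightedHomogeneous (Pi.single 0 1) 0 := by
  obtain ⟨f, hf, h⟩ := lam_surj_aux hn (g.support.sup fun m => m 0) g hg fun m hm =>
    Finset.le_sup (f := fun m : ℕ →₀ ℕ => m 0) (mem_support_iff.2 hm)
  exact ⟨f, hf, free_iff.2 h⟩

/-- The defect at order `n` changes by the linearised operator. -/
lemma defect_diff {P P' v w δ δ' : DSeries} {n : ℕ} (hn : n ≠ 0)
    (h0 : PowerSeries.coeff 0 P = u * X 0) (h0' : PowerSeries.coeff 0 P' = u * X 0)
    (hw : PowerSeries.coeff 0 w = u) (hδ' : PowerSeries.coeff 0 δ' = 0)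
    (hv : ∀ i, i < n → PowerSeries.coeff i v = PowerSeries.coeff i w)
    (hδ : ∀ i, i < n → PowerSeries.coeff i δ = PowerSeries.coeff i δ') :
    PowerSeries.coeff n (flow (P - δ) v) - PowerSeries.coeff n (subst v P') =
      PowerSeries.coeff n (flow (P - δ') w) - PowerSeries.coeff n (subst w P') +
        Lau.Lam (PowerSeries.coeff n v - PowerSeries.coeff n w) -
        (PowerSeries.coeff n δ - PowerSeries.coeff n δ') := by
  have hv0 : PowerSeries.coeff 0 v = u := (hv 0 (by omega)).trans hw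
  have hδ0 : PowerSeries.coeff 0 δ = 0 := (hδ 0 (by omega)).trans hδ'
  have e1 : PowerSeries.coeff n (flow (P - δ) v) - PowerSeries.coeff n (flow (P - δ') w) =
      DD (u * X 0) (PowerSeries.coeff n v - PowerSeries.coeff n w) -
        (PowerSeries.coeff n δ - PowerSeries.coeff n δ') := by
    rw [coeff_flow_DD, coeff_flow_DD, ← Finset.sum_sub_distrib,
      Finset.sum_eq_add_of_mem (n, 0) (0, n) (by simp) (by simp) (by simp [hn])]
    · simp only [map_sub, h0, hδ0, hδ', hv0, hw, sub_zero, DD_u, Lau.DD_sub]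
      ring
    · intro p hp hne
      have h1 := Finset.HasAntidiagonal.mem_antidiagonal.1 hp
      have h2 : p.1 ≠ 0 := fun h2 => hne.2 (Prod.ext h2 (by simp only; omega))
      have h3 : p.2 ≠ 0 := fun h3 => hne.1 (Prod.ext (by simp only; omega) h3)
      rw [map_sub, map_sub, hv p.1 (by omega), hδ p.2 (by omega), sub_self]
  have e2 : PowerSeries.coeff n (subst v P') - PowerSeries.coeff n (subst w P') =
      u * dx (PowerSeries.coeff n v - PowerSeries.coeff n w) +
        (PowerSeries.coeff n v - PowerSeries.coeff n w) * X 0 := by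
    rw [coeff_subst, coeff_subst, ← Finset.sum_sub_distrib,
      Finset.sum_eq_single_of_mem (0, n) (by simp)]
    · simp only [h0', substPoly_0 v hv0, substPoly_0 w hw, PowerSeries.coeff_mul, coeff_dxS]
      exact Lau.diff_sum (fun i => PowerSeries.coeff i v) (fun i => PowerSeries.coeff i w) n hn
        hw hv
    · intro p hp hne
      have h1 := Finset.HasAntidiagonal.mem_antidiagonal.1 hp
      have h2 : p.1 ≠ 0 := fun h2 => hne (Prod.ext h2 (by simp only; omega))
      rw [coeff_substPoly_congr (v := v) (w := w) fun i hi => hv i (by omega), sub_self]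
  rw [Lau.Lam]
  linear_combination e1 - e2

lemma defect_zero {P P' v δ : DSeries}
    (h0 : PowerSeries.coeff 0 P = u * X 0) (h0' : PowerSeries.coeff 0 P' = u * X 0)
    (hv : PowerSeries.coeff 0 v = u) (hδ : PowerSeries.coeff 0 δ = 0) :
    PowerSeries.coeff 0 (flow (P - δ) v) = PowerSeries.coeff 0 (subst v P') := by
  rw [coeff_zero_subst hv, coeff_flow_DD, Finset.Nat.antidiagonal_zero, Finset.sum_singleton, hv,
    DD_u, map_sub, hδ, sub_zero, h0, h0']

theorem normal_form {P P' : DSeries} (hP : SeriesHasDeg P 1) (hP' : SeriesHasDeg P' 1)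
    (h0 : PowerSeries.coeff 0 P = u * X 0) (h0' : PowerSeries.coeff 0 P' = u * X 0) :
    ∃ v δ : DSeries, IsMiura v ∧ SeriesHasDeg δ 1 ∧
      (∀ n, 2 ≤ n → (PowerSeries.coeff n δ).IsWeightedHomogeneous (Pi.single 0 1) 0) ∧
      flow (P - δ) v = subst v P' := by
  let V : (ℕ → DPoly × DPoly) → DSeries := fun s => PowerSeries.mk fun i => (s i).1
  let D : (ℕ → DPoly × DPoly) → DSeries := fun s => PowerSeries.mk fun i => (s i).2
  have hV : ∀ s i, PowerSeries.coeff i (V s) = (s i).1 := fun s i => PowerSeries.coeff_mk _ _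
  have hD : ∀ s i, PowerSeries.coeff i (D s) = (s i).2 := fun s i => PowerSeries.coeff_mk _ _
  have hdiff : ∀ n, n ≠ 0 → ∀ s t : ℕ → DPoly × DPoly, t 0 = (u, 0) →
      (∀ i, i < n → s i = t i) →
      PowerSeries.coeff n (flow (P - D s) (V s)) - PowerSeries.coeff n (subst (V s) P') =
        PowerSeries.coeff n (flow (P - D t) (V t)) - PowerSeries.coeff n (subst (V t) P') +
          Lau.Lam ((s n).1 - (t n).1) - ((s n).2 - (t n).2) := fun n hn s t ht h => by
    have := defect_diff (v := V s) (w := V t) (δ := D s) (δ' := D t) hn h0 h0'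
      (by rw [hV, ht]) (by rw [hD, ht]) (fun i hi => by rw [hV, hV, h i hi])
      (fun i hi => by rw [hD, hD, h i hi])
    rwa [hV, hV, hD, hD] at this
  obtain ⟨s, hs⟩ := exists_seq (α := DPoly × DPoly) (fun n s => s 0 = (u, 0) ∧
      HasDeg (s n).1 n ∧ HasDeg (s n).2 (n + 1) ∧
      (2 ≤ n → (s n).2.IsWeightedHomogeneous (Pi.single 0 1 : ℕ → ℕ) 0) ∧
      PowerSeries.coeff n (flow (P - D s) (V s)) = PowerSeries.coeff n (subst (V s) P'))
    (fun n s t h ⟨h1, h2, h3, h4, h5⟩ => by
      have ht : t 0 = (u, 0) := by rw [← h 0 (Nat.zero_le n), h1]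
      rw [h n le_rfl] at h2 h3 h4
      refine ⟨ht, h2, h3, h4, ?_⟩
      by_cases hn : n = 0
      · subst hn
        exact defect_zero h0 h0' (by rw [hV, ht]) (by rw [hD, ht])
      · have h6 := hdiff n hn s t ht fun i hi => h i hi.le
        rw [h5, h n le_rfl, sub_self, sub_self, sub_self, Lam_zero] at h6
        linear_combination -h6)
    (fun n s h => by
      by_cases hn : n = 0
      · subst hn
        refine ⟨(u, 0), Function.update_self .., ?_, ?_, fun h => by omega, ?_⟩
        · rw [Function.update_self]; exact hasDeg_C _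
        · rw [Function.update_self]; exact hasDeg_zero _
        · exact defect_zero h0 h0' (by rw [hV, Function.update_self])
            (by rw [hD, Function.update_self])
      · have hs0 : s 0 = (u, 0) := (h 0 (by omega)).1
        let t : ℕ → DPoly × DPoly := fun i => if i < n then s i else (0, 0)
        have ht0 : t 0 = (u, 0) := (if_pos (by omega)).trans hs0
        have htn : t n = (0, 0) := if_neg (lt_irrefl n)
        have hVt : IsMiura (V t) := by
          refine ⟨fun k => ?_, by rw [hV, ht0]⟩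
          rw [hV]
          by_cases hk : k < n
          · rw [show t k = s k from if_pos hk]; exact (h k hk).2.1
          · rw [show t k = (0, 0) from if_neg hk]; exact hasDeg_zero _
        have hDt : SeriesHasDeg (P - D t) 1 := fun k => by
          rw [map_sub, hD]
          refine IsWeightedHomogeneous.sub (hP k) ?_
          by_cases hk : k < n
          · rw [show t k = s k from if_pos hk]; exact (h k hk).2.2.1
          · rw [show t k = (0, 0) from if_neg hk]; exact hasDeg_zero _
        obtain ⟨g, hg⟩ : ∃ g, g = PowerSeries.coeff n (flow (P - D t) (V t)) -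
          PowerSeries.coeff n (subst (V t) P') := ⟨_, rfl⟩
        have hgd : HasDeg g (n + 1) := by
          rw [hg]
          exact IsWeightedHomogeneous.sub (seriesHasDeg_flow hDt hVt.1 n)
            (seriesHasDeg_subst hVt hP' n)
        obtain ⟨f, hf, hfree⟩ : ∃ f, HasDeg f n ∧ (2 ≤ n →
            (g + Lau.Lam f).IsWeightedHomogeneous (Pi.single 0 1 : ℕ → ℕ) 0) := by
          by_cases h2 : 2 ≤ n
          · obtain ⟨f, hf, hr⟩ := lam_surj (g := 0 - g) h2
              (IsWeightedHomogeneous.sub (hasDeg_zero _) hgd)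
            refine ⟨f, hf, fun _ => free_iff.2 ?_⟩
            rw [show g + Lau.Lam f = 0 - (0 - g - Lau.Lam f) by ring]
            exact Sp_zero.sub (free_iff.1 hr)
          · exact ⟨0, hasDeg_zero _, fun h => absurd h h2⟩
        refine ⟨(f, g + Lau.Lam f), by rw [Function.update_of_ne (Ne.symm hn), hs0], ?_, ?_, ?_, ?_⟩
        · rw [Function.update_self]; exact hf
        · rw [Function.update_self]; exact hgd.add (hasDeg_Lam hf)
        · rw [Function.update_self]; exact hfree
        · have h6 := hdiff n hn (Function.update s n (f, g + Lau.Lam f)) t ht0 fun i hi => by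
            rw [Function.update_of_ne hi.ne]; exact (if_pos hi).symm
          rw [← hg, htn, Function.update_self, sub_zero, sub_zero, sub_self] at h6
          exact sub_eq_zero.1 h6)
  refine ⟨V s, D s, ⟨fun k => ?_, by rw [hV, (hs 0).1]⟩, fun k => ?_, fun n hn => ?_, ?_⟩
  · rw [hV]; exact (hs k).2.1
  · rw [hD]; exact (hs k).2.2.1
  · rw [hD]; exact (hs n).2.2.2.1 hn
  · exact PowerSeries.ext fun n => (hs n).2.2.2.2

end Pool.Agent.Lib.MP_4b14b2_mp.Nd
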