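import Pool.Agent.Lib.MP_4b14b2_mp.NFlow

/-! The commuting pair K1, K2 and the linearised equation. -/

namespace Pool.Agent.Lib.MP_4b14b2_mp.Nd

open MvPolynomial

variable {K : Type} [Field K]

/-- The lowest parts of the first two flows. -/
structure Pair (κ : ℕ) (b α : K) (K2 : AA K) : Prop where
  hκ : 1 ≤ κ
  hb : b ≠ 0
  wh : WH κ K2 (3 * κ + 1)
  d0 : pderiv 0 K2 = K1 κ b
  comm : br (K1 κ b) K2 = 0
  lin : Ord 2 (K2 - C α * X (2 * κ + 1))

/-- A solution of the linearised commutation equation, of weight M. -/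
structure Lin (κ : ℕ) (b : K) (K2 : AA K) (M : ℕ) (a A : AA K) : Prop where
  wa : WH κ a M
  wA : WH κ A (M + κ)
  a0 : pderiv 0 a = 0
  A0 : pderiv 0 A = a
  eq : br (K1 κ b) A + br a K2 = 0

end Pool.Agent.Lib.MP_4b14b2_mp.Nd
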