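import Pool.Agent.Lib.MP_4b14b2_mp.SubL

/-! Interface of the substitution calculus. -/

namespace Pool.Agent.Lib.MP_4b14b2_mp.Nd

open Finset MvPolynomial

lemma flow_add_left (P P' F : DSeries) : flow (P + P') F = flow P F + flow P' F :=
  Dic.flow_add_left P P' F
lemma flow_sub_left (P P' F : DSeries) : flow (P - P') F = flow P F - flow P' F :=
  Dic.flow_sub_left P P' F
lemma coeff_flow_DD (P F : DSeries) (n : ℕ) : PowerSeries.coeff n (flow P F) =
    ∑ p ∈ antidiagonal n, DD (PowerSeries.coeff p.2 P) (PowerSeries.coeff p.1 F) := by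
  simp only [coeff_flow, coeff_flowPoly]
lemma hasDeg_DD' {q f : DPoly} {a c : ℕ} (hq : HasDeg q c) (hf : HasDeg f a) :
    HasDeg (DD q f) (a + c) :=
  add_comm c a ▸ Dic.hasDeg_DD' hq hf
lemma seriesHasDeg_flow {P F : DSeries} {a c : ℕ} (hP : SeriesHasDeg P c) (hF : SeriesHasDeg F a) :
    SeriesHasDeg (flow P F) (a + c) :=
  add_comm c a ▸ Dic.deg_flow hP hF
lemma seriesHasDeg_subst {v P : DSeries} {a : ℕ} (hv : IsMiura v) (hP : SeriesHasDeg P a) :
    SeriesHasDeg (subst v P) a :=
  Dic.deg_subst hv hP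
lemma flow_flow (P Q F : DSeries) :
    flow P (flow Q F) - flow Q (flow P F) = flow (flow P Q - flow Q P) F :=
  Dic.flow_bracket P Q F
/-- The chain rule: if X is carried to P, then the derivative along X is carried along P. -/
lemma flow_subst {v X' P : DSeries} (hv : PowerSeries.coeff 0 v = u) (h : flow X' v = subst v P)
    (F : DSeries) : flow X' (subst v F) = subst v (flow P F) := by
  rw [Dic.flow_subst hv, Dic.subst_flow hv, h]
lemma coeff_zero_subst {v : DSeries} (hv : PowerSeries.coeff 0 v = u) (P : DSeries) :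
    PowerSeries.coeff 0 (subst v P) = PowerSeries.coeff 0 P :=
  Dic.coeff_zero_subst hv P
/-- Locality. -/
lemma coeff_substPoly_congr {v w : DSeries} {n : ℕ}
    (h : ∀ i, i ≤ n → PowerSeries.coeff i v = PowerSeries.coeff i w) (f : DPoly) :
    PowerSeries.coeff n (substPoly v f) = PowerSeries.coeff n (substPoly w f) := by
  have e : ∀ A B : DSeries, PowerSeries.X ^ (n + 1) ∣ A - B ↔
      ∀ i, i ≤ n → PowerSeries.coeff i A = PowerSeries.coeff i B := fun A B => by
    simp only [PowerSeries.X_pow_dvd_iff, map_sub, sub_eq_zero, Nat.lt_succ_iff]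
  have q : ∀ A B : DSeries, Ideal.Quotient.mk (Ideal.span {PowerSeries.X ^ (n + 1)}) A =
      Ideal.Quotient.mk _ B ↔ ∀ i, i ≤ n → PowerSeries.coeff i A = PowerSeries.coeff i B :=
    fun A B => by rw [Ideal.Quotient.eq, Ideal.mem_span_singleton, e]
  have h0 := (q v w).mpr h
  have h1 : ∀ g, Ideal.Quotient.mk (Ideal.span {PowerSeries.X ^ (n + 1)}) (substCoef v g) =
      Ideal.Quotient.mk _ (substCoef w g) := fun g => (q _ _).mpr fun i hi => by
    simp only [substCoef, PowerSeries.coeff_mk]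
    exact Finset.sum_congr rfl fun j _ =>
      (q _ _).mp (by simp only [map_mul, map_pow, map_sub, h0]) i hi
  have h2 : ∀ j, Ideal.Quotient.mk (Ideal.span {PowerSeries.X ^ (n + 1)}) (dxS^[j] v) =
      Ideal.Quotient.mk _ (dxS^[j] w) := fun j => (q _ _).mpr fun i hi => by
    rw [coeff_dxS_iter, coeff_dxS_iter, h i hi]
  exact (q _ _).mp (by simp only [substPoly, map_sum, map_mul, map_prod, map_pow, h1, h2]) n le_rfl

end Pool.Agent.Lib.MP_4b14b2_mp.Nd
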