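import Pool.Agent.Lib.MP_4b14b2_mp.NGrad

/-! Symbol calculus. -/

namespace Pool.Agent.Lib.MP_4b14b2_mp.Nd

open MvPolynomial

variable {R : Type} [CommRing R] {B : Type} [CommRing B] [Algebra R B]

lemma der_mul (D : Derivation R (AA R) (AA R)) (P Q : AA R) :
    D (P * Q) = P * D Q + Q * D P := by
  rw [Derivation.leibniz, smul_eq_mul, smul_eq_mul]

lemma der_C_mul (D : Derivation R (AA R) (AA R)) (c : R) (P : AA R) :
    D (C c * P) = C c * D P := by
  rw [der_mul, derivation_C, mul_zero, add_zero]

lemma Dx_comm (x y : R) (P : AA R) : Dx x (Dx y P) = Dx y (Dx x P) := by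
  induction P using MvPolynomial.induction_on with
  | C a => simp only [derivation_C, map_zero]
  | add p q hp hq => simp only [map_add, hp, hq]
  | mul_X p i hp =>
    simp only [der_mul, map_add, Dx_X, derivation_C, hp]
    ring

lemma Dx_shk (x : R) (m : ℕ) (P : AA R) :
    Dx x (shk m P) = shk m (Dx x P) + C (x ^ m) * Dx x P := by
  induction P using MvPolynomial.induction_on with
  | C a => simp only [derivation_C, map_zero, mul_zero, add_zero]
  | add p q hp hq =>
    simp only [map_add, hp, hq]
    ring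
  | mul_X p i hp =>
    simp only [der_mul, map_add, Dx_X, shk_X, derivation_C, hp, pow_add, C_mul]
    ring

lemma constantCoeff_shk (m : ℕ) (P : AA R) : constantCoeff (shk m P) = 0 := by
  induction P using MvPolynomial.induction_on with
  | C a => simp only [derivation_C, map_zero]
  | add p q hp hq => simp only [map_add, hp, hq, add_zero]
  | mul_X p i hp =>
    simp only [der_mul, map_add, map_mul, shk_X, constantCoeff_X, mul_zero, zero_mul, add_zero]

lemma sym_nil (P : AA R) : sym [] P = constantCoeff P := rfl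

lemma fold_perm {xs ys : List R} (h : xs.Perm ys) (P : AA R) :
    xs.foldr (fun x Q => Dx x Q) P = ys.foldr (fun x Q => Dx x Q) P := by
  induction h with
  | nil => rfl
  | cons x _ ih => simp only [List.foldr_cons, ih]
  | swap x y l => simp only [List.foldr_cons, Dx_comm x y]
  | trans _ _ a b => exact a.trans b

lemma fold_Dx (x : R) (xs : List R) (P : AA R) :
    xs.foldr (fun x Q => Dx x Q) (Dx x P) = Dx x (xs.foldr (fun x Q => Dx x Q) P) := by
  induction xs with
  | nil => rfl
  | cons y l ih => simp only [List.foldr_cons, ih, Dx_comm x y]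

lemma sym_perm {xs ys : List R} (h : xs.Perm ys) (P : AA R) : sym xs P = sym ys P := by
  rw [sym, sym, fold_perm h]

lemma sym_cons (x : R) (xs : List R) (P : AA R) : sym (x :: xs) P = sym xs (Dx x P) := by
  rw [sym, sym, fold_Dx, List.foldr_cons]

lemma sym_add (xs : List R) (P Q : AA R) : sym xs (P + Q) = sym xs P + sym xs Q := by
  induction xs generalizing P Q with
  | nil => simp only [sym_nil, map_add]
  | cons x l ih => simp only [sym_cons, map_add, ih]

lemma sym_C_mul (xs : List R) (c : R) (P : AA R) : sym xs (C c * P) = c * sym xs P := by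
  induction xs generalizing P with
  | nil => simp only [sym_nil, map_mul, constantCoeff_C]
  | cons x l ih => simp only [sym_cons, der_C_mul, ih]

lemma map_Dx {S : Type} [CommRing S] (φ : R →+* S) (x : R) (P : AA R) :
    map φ (Dx x P) = Dx (φ x) (map φ P) := by
  induction P using MvPolynomial.induction_on with
  | C a => simp only [derivation_C, map_zero, map_C]
  | add p q hp hq => simp only [map_add, hp, hq]
  | mul_X p i hp => simp only [der_mul, map_add, map_mul, Dx_X, map_X, map_C, map_pow, hp]

lemma sym_map {S : Type} [CommRing S] (φ : R →+* S) (xs : List R) (P : AA R) :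
    φ (sym xs P) = sym (xs.map φ) (map φ P) := by
  induction xs generalizing P with
  | nil => simp only [List.map_nil, sym_nil, constantCoeff_map]
  | cons x l ih => simp only [List.map_cons, sym_cons, ih, map_Dx]

lemma sym_zero (xs : List R) : sym xs (0 : AA R) = 0 := by
  have := sym_C_mul xs 0 0
  rwa [mul_zero, zero_mul] at this

lemma sym_sum {ι : Type} (xs : List R) (S : Finset ι) (P : ι → AA R) :
    sym xs (∑ i ∈ S, P i) = ∑ i ∈ S, sym xs (P i) := by
  classical
  induction S using Finset.induction_on with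
  | empty => simp only [Finset.sum_empty, sym_zero]
  | insert a s h ih => rw [Finset.sum_insert h, Finset.sum_insert h, sym_add, ih]

lemma sy_self (xs : List R) (P : AA R) : sy xs P = sym xs P := by
  rw [sy, Algebra.algebraMap_self, map_id]

lemma sy_zero (xs : List B) : sy xs (0 : AA R) = 0 := by
  rw [sy, map_zero, sym_zero]

lemma sy_add (xs : List B) (P Q : AA R) : sy xs (P + Q) = sy xs P + sy xs Q := by
  rw [sy, map_add, sym_add, sy, sy]

lemma sy_neg (xs : List B) (P : AA R) : sy xs (-P) = -sy xs P := by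
  rw [eq_neg_iff_add_eq_zero, ← sy_add, neg_add_cancel, sy_zero]

lemma sy_sub (xs : List B) (P Q : AA R) : sy xs (P - Q) = sy xs P - sy xs Q := by
  rw [sub_eq_add_neg, sy_add, sy_neg, ← sub_eq_add_neg]

lemma sy_C_mul (xs : List B) (c : R) (P : AA R) :
    sy xs (C c * P) = algebraMap R B c * sy xs P := by
  rw [sy, map_mul, map_C, sym_C_mul, sy]

lemma sy_perm {xs ys : List B} (h : xs.Perm ys) (P : AA R) : sy xs P = sy ys P :=
  sym_perm h _

lemma sy_nat {B' : Type} [CommRing B'] [Algebra R B'] (ψ : B →ₐ[R] B') (xs : List B) (P : AA R) :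
    ψ (sy xs P) = sy (xs.map ψ) P := by
  have := sym_map (ψ : B →+* B') xs (map (algebraMap R B) P)
  rw [MvPolynomial.map_map, AlgHom.comp_algebraMap] at this
  exact this

lemma map_gp {n : ℕ} (x : Fin n → B) :
    (gp R n).map (aeval x : MvPolynomial (Fin n) R →ₐ[R] B) = List.ofFn x := by
  rw [gp, List.map_ofFn]
  congr 1
  funext i
  exact aeval_X x i

lemma sy_gp {n : ℕ} (x : Fin n → B) (P : AA R) :
    aeval x (sy (gp R n) P) = sy (List.ofFn x) P := by
  rw [sy_nat, map_gp]

lemma GG_nat {B' : Type} [CommRing B'] [Algebra R B'] (ψ : B →ₐ[R] B') (m : ℕ) (xs : List B) :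
    ψ (GG m xs) = GG m (xs.map ψ) := by
  rw [GG, GG, map_sub, map_pow, map_list_sum, map_list_sum, List.map_map, List.map_map]
  congr 3
  funext y
  exact map_pow ψ y m

lemma GG_gp {n : ℕ} (x : Fin n → B) (m : ℕ) :
    aeval x (GG m (gp R n)) = GG m (List.ofFn x) := by
  rw [GG_nat, map_gp]

lemma length_gp (n : ℕ) : (gp R n).length = n := List.length_ofFn

lemma Dx_map_sum (x : B) (P : AA R) (S : Finset ℕ) (h : P.vars ⊆ S) :
    Dx x (map (algebraMap R B) P) = ∑ i ∈ S, C (x ^ i) * map (algebraMap R B) (pderiv i P) := by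
  have key : ∀ Q : AA B, ∀ T : Finset ℕ, (∀ m ∈ Q.support, m.support ⊆ T) →
      Dx x Q = ∑ i ∈ T, C (x ^ i) * pderiv i Q := by
    intro Q T hQ
    conv_lhs => rw [Q.as_sum]
    conv_rhs => rw [Q.as_sum]
    simp only [map_sum, Finset.mul_sum]
    rw [Finset.sum_comm]
    refine Finset.sum_congr rfl fun m hm => ?_
    rw [Dx, mkDerivation_monomial, Finsupp.sum_of_support_subset _ (hQ m hm) _ (by simp),
      Finset.smul_sum]
    refine Finset.sum_congr rfl fun i _ => ?_
    rw [pderiv_monomial, smul_eq_mul, smul_eq_C_mul, mul_comm (C (x ^ i)), ← mul_assoc,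
      C_mul_monomial]
  rw [key _ S fun m hm i hi => h ((mem_vars_iff_mem_support _).2 ⟨m, support_map_subset _ _ hm, hi⟩)]
  simp only [pderiv_map]

lemma sy_cons_eq_sum (x : B) (xs : List B) (P : AA R) (S : Finset ℕ)
    (h : ∀ i, i ∉ S → pderiv i P = 0) :
    sy (x :: xs) P = ∑ i ∈ S, x ^ i * sy xs (pderiv i P) := by
  rw [sy, sym_cons, Dx_map_sum x P (S ∪ P.vars) Finset.subset_union_right, sym_sum]
  simp only [sym_C_mul]
  refine (Finset.sum_subset Finset.subset_union_left fun i _ hi => ?_).symm
  rw [h i hi, map_zero, sym_zero, mul_zero]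

lemma sy_cons_range (x : B) (xs : List B) (P : AA R) (n : ℕ) (hx : x ^ n = 0) :
    sy (x :: xs) P = ∑ i ∈ Finset.range n, x ^ i * sy xs (pderiv i P) := by
  rw [sy_cons_eq_sum x xs P (Finset.range n ∪ P.vars) fun i hi =>
    pderiv_eq_zero_of_notMem_vars fun h => hi (Finset.mem_union_right _ h)]
  refine (Finset.sum_subset Finset.subset_union_left fun i _ hi => ?_).symm
  rw [pow_eq_zero_of_le (not_lt.1 fun h => hi (Finset.mem_range.2 h)) hx, zero_mul]

lemma sy_zero_cons (xs : List B) (P : AA R) : sy (0 :: xs) P = sy xs (pderiv 0 P) := by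
  rw [sy_cons_range 0 xs P 1 (pow_one _), Finset.sum_range_one, pow_zero, one_mul]

lemma sy_eps_cons (e : B) (he : e * e = 0) (xs : List B) (P : AA R) :
    sy (e :: xs) P = sy xs (pderiv 0 P) + e * sy xs (pderiv 1 P) := by
  rw [sy_cons_range e xs P 2 (by rw [pow_two, he]), Finset.sum_range_succ, Finset.sum_range_one,
    pow_zero, one_mul, pow_one]

end Pool.Agent.Lib.MP_4b14b2_mp.Nd
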