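import Pool.Agent.Lib.MP_4b14b2_mp.HNonEq

/-! Substitution is a ring morphism, commutes with the total derivative and obeys the chain rule. -/

namespace Pool.Agent.Lib.MP_4b14b2_mp.Dic

open Finset Lau

local instance : CharZero (PowerSeries ℂ) := algebraRat.charZero _

/-- the Taylor series of `g` in a new variable -/
noncomputable def ty (g : PowerSeries ℂ) : PowerSeries (PowerSeries ℂ) :=
  PowerSeries.mk fun n => (n.factorial : ℂ)⁻¹ • (PowerSeries.derivative ℂ)^[n] g

lemma ty_succ (g : PowerSeries ℂ) (n : ℕ) : PowerSeries.coeff (n + 1) (ty g) * (n + 1) =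
    PowerSeries.coeff n (ty (PowerSeries.derivative ℂ g)) := by
  have h : ((n + 1 : ℕ) : ℂ) ≠ 0 := by exact_mod_cast n.succ_ne_zero
  have h2 : (n.factorial : ℂ) ≠ 0 := by exact_mod_cast n.factorial_ne_zero
  simp only [ty, PowerSeries.coeff_mk, Function.iterate_succ_apply]
  rw [← Nat.cast_succ, mul_comm, ← nsmul_eq_mul, ← Nat.cast_smul_eq_nsmul ℂ, smul_smul,
    Nat.factorial_succ]
  congr 1
  push_cast at h ⊢
  field_simp

lemma ty_der (g : PowerSeries ℂ) :
    PowerSeries.derivative (PowerSeries ℂ) (ty g) = ty (PowerSeries.derivative ℂ g) := by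
  ext1 n; rw [PowerSeries.coeff_derivative, ty_succ]

lemma ty_add (g h : PowerSeries ℂ) : ty (g + h) = ty g + ty h := by
  ext1 n
  have : ∀ n g h, (PowerSeries.derivative ℂ)^[n] (g + h : PowerSeries ℂ) =
      (PowerSeries.derivative ℂ)^[n] g + (PowerSeries.derivative ℂ)^[n] h := by
    intro n
    induction n with
    | zero => intro g h; rfl
    | succ n ih => intro g h; simp only [Function.iterate_succ_apply, map_add, ih]
  simp only [ty, PowerSeries.coeff_mk, map_add, this, smul_add]

lemma ty_zero (g : PowerSeries ℂ) : PowerSeries.coeff 0 (ty g) = g := by simp [ty]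

lemma der_mul {R : Type} [CommRing R] (f g : PowerSeries R) : PowerSeries.derivative R (f * g) =
    f * PowerSeries.derivative R g + g * PowerSeries.derivative R f := by
  rw [Derivation.leibniz, smul_eq_mul, smul_eq_mul]

lemma ty_mul (g h : PowerSeries ℂ) : ty (g * h) = ty g * ty h := by
  ext1 n
  induction n generalizing g h with
  | zero => rw [PowerSeries.coeff_mul]; simp [ty]
  | succ n ih =>
    have hn : ((n : PowerSeries ℂ) + 1) ≠ 0 := by exact_mod_cast n.succ_ne_zero
    refine mul_right_cancel₀ hn ?_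
    rw [ty_succ, ← PowerSeries.coeff_derivative, der_mul, der_mul, ty_der, ty_der, ty_add, map_add,
      map_add, ih, ih]

/-- partial sums of the Taylor series -/
noncomputable def Tn (v : DSeries) (g : PowerSeries ℂ) (N : ℕ) : DSeries :=
  ∑ n ∈ range N, PowerSeries.C (MvPolynomial.C (PowerSeries.coeff n (ty g))) *
    (v - PowerSeries.C u) ^ n

variable {v : DSeries}

lemma X_dvd_w (hv : PowerSeries.coeff 0 v = u) : PowerSeries.X ∣ v - PowerSeries.C u := by
  rw [PowerSeries.X_dvd_iff, ← PowerSeries.coeff_zero_eq_constantCoeff_apply, map_sub, hv]; simp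

lemma coeff_wpow (hv : PowerSeries.coeff 0 v = u) {k n : ℕ} (h : k < n) :
    PowerSeries.coeff k ((v - PowerSeries.C u) ^ n) = 0 :=
  PowerSeries.X_pow_dvd_iff.mp (pow_dvd_pow_of_dvd (X_dvd_w hv) n) k h

lemma sc_cong (hv : PowerSeries.coeff 0 v = u) (g : PowerSeries ℂ) (N : ℕ) :
    PowerSeries.X ^ N ∣ substCoef v g - Tn v g N := by
  refine PowerSeries.X_pow_dvd_iff.mpr fun k hk => ?_
  rw [map_sub, sub_eq_zero, Tn, map_sum]
  simp only [substCoef, ty, PowerSeries.coeff_mk]
  refine Finset.sum_subset (range_subset_range.mpr hk) fun n _ hn => ?_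
  rw [PowerSeries.coeff_C_mul, coeff_wpow hv (by simpa using hn), mul_zero]

lemma sc_eq (hv : PowerSeries.coeff 0 v = u) (g : PowerSeries ℂ) :
    substCoef v g = (ty g).subst (v - PowerSeries.C u) := by
  have hw : PowerSeries.HasSubst (v - PowerSeries.C u) :=
    PowerSeries.HasSubst.of_constantCoeff_zero' (PowerSeries.X_dvd_iff.mp (X_dvd_w hv))
  ext1 k
  rw [PowerSeries.coeff_subst' hw, finsum_eq_sum_of_support_subset (s := range (k + 1))]
  · simp only [substCoef, ty, PowerSeries.coeff_mk, PowerSeries.coeff_C_mul,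
      MvPolynomial.smul_eq_C_mul]
  · intro n hn
    by_contra h
    exact hn (by simp only; rw [coeff_wpow hv (by simpa using h), smul_zero])

/-- `g ↦ g(v)` as a ring morphism -/
noncomputable def scH (hv : PowerSeries.coeff 0 v = u) : PowerSeries ℂ →+* DSeries where
  toFun := substCoef v
  map_one' := by simpa using substCoef_C v 1
  map_zero' := substCoef_zero v
  map_add' g h := by
    rw [sc_eq hv, sc_eq hv, sc_eq hv, ty_add, PowerSeries.subst_add
      (PowerSeries.HasSubst.of_constantCoeff_zero' (PowerSeries.X_dvd_iff.mp (X_dvd_w hv)))]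
  map_mul' g h := by
    rw [sc_eq hv, sc_eq hv, sc_eq hv, ty_mul, PowerSeries.subst_mul
      (PowerSeries.HasSubst.of_constantCoeff_zero' (PowerSeries.X_dvd_iff.mp (X_dvd_w hv)))]

/-- `f ↦ f(v, v_x, ...)` as a ring morphism -/
noncomputable def sH (hv : PowerSeries.coeff 0 v = u) : DPoly →+* DSeries :=
  MvPolynomial.eval₂Hom (scH hv) fun i => dxS^[i + 1] v

lemma sH_eq (hv : PowerSeries.coeff 0 v = u) (f : DPoly) : sH hv f = substPoly v f := by
  rw [sH, MvPolynomial.coe_eval₂Hom, MvPolynomial.eval₂_eq]; rfl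

lemma sH_C (hv : PowerSeries.coeff 0 v = u) (g : PowerSeries ℂ) :
    sH hv (MvPolynomial.C g) = substCoef v g := MvPolynomial.eval₂Hom_C _ _ _

lemma sH_X (hv : PowerSeries.coeff 0 v = u) (i : ℕ) :
    sH hv (MvPolynomial.X i) = dxS^[i + 1] v := MvPolynomial.eval₂Hom_X' _ _ _

lemma sH_u (hv : PowerSeries.coeff 0 v = u) : sH hv u = v := by rw [u, sH_C, substCoef_X v hv]

lemma eq_of_dvd {A B : DSeries} (h : ∀ N, PowerSeries.X ^ N ∣ A - B) : A = B := by
  ext1 k
  have := PowerSeries.X_pow_dvd_iff.mp (h (k + 1)) k k.lt_succ_self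
  rwa [map_sub, sub_eq_zero] at this

/-- a derivation of the ring of series that is linear in ε and obeys the chain rule on
the coefficients -/
structure IsD (D : DSeries → DSeries) : Prop where
  add : ∀ F G, D (F + G) = D F + D G
  mul : ∀ F G, D (F * G) = D F * G + F * D G
  eps : D PowerSeries.X = 0
  ch : ∀ g, D (PowerSeries.C (MvPolynomial.C g)) =
    PowerSeries.C (MvPolynomial.C (PowerSeries.derivative ℂ g)) * D (PowerSeries.C u)

lemma IsD.zero {D : DSeries → DSeries} (h : IsD D) : D 0 = 0 := by
  have := h.add 0 0; rw [add_zero] at this; linear_combination -this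

lemma IsD.one {D : DSeries → DSeries} (h : IsD D) : D 1 = 0 := by
  have := h.mul 1 1; rw [mul_one] at this; linear_combination -this

lemma IsD.sub {D : DSeries → DSeries} (h : IsD D) (F G : DSeries) : D (F - G) = D F - D G :=
  (AddMonoidHom.mk' D h.add).map_sub F G

lemma IsD.sum {D : DSeries → DSeries} (h : IsD D) {ι : Type} (s : Finset ι) (F : ι → DSeries) :
    D (∑ i ∈ s, F i) = ∑ i ∈ s, D (F i) := map_sum (AddMonoidHom.mk' D h.add) F s

lemma IsD.pow {D : DSeries → DSeries} (h : IsD D) (F : DSeries) (n : ℕ) :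
    D (F ^ (n + 1)) = (n + 1) * F ^ n * D F := by
  induction n with
  | zero => simp
  | succ n ih => rw [pow_succ, h.mul, ih]; push_cast; ring

lemma IsD.xpow {D : DSeries → DSeries} (h : IsD D) (N : ℕ) (F : DSeries) :
    D (PowerSeries.X ^ N * F) = PowerSeries.X ^ N * D F := by
  cases N with
  | zero => simp
  | succ N => rw [h.mul, h.pow, h.eps]; ring

lemma isD_dxS : IsD dxS where
  add := dxS_add
  mul := dxS_mul
  eps := by
    have := dxS_X_mul 1
    rw [mul_one, ← map_one PowerSeries.C, dxS_C, ← map_one MvPolynomial.C, dx_C] at this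
    simpa using this
  ch g := by rw [dxS_C, dxS_C, dx_C, dx_u, map_mul, mul_comm]

lemma isD_flow (Q : DSeries) : IsD (flow Q) where
  add := flow_add Q
  mul := flow_mul Q
  eps := by
    have := flow_X_mul Q 1
    rw [mul_one, ← map_one PowerSeries.C, flow_C, ← map_one MvPolynomial.C, flowPoly_C] at this
    simpa using this
  ch g := by rw [flow_C, flowPoly_C, flow_u, mul_comm]

lemma IsD.Tn {D : DSeries → DSeries} (h : IsD D) (v : DSeries) (g : PowerSeries ℂ) (N : ℕ) :
    D (Tn v g (N + 1)) = Tn v (PowerSeries.derivative ℂ g) (N + 1) * D (PowerSeries.C u) +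
      Tn v (PowerSeries.derivative ℂ g) N * D (v - PowerSeries.C u) := by
  have h1 : ∀ n, PowerSeries.derivative ℂ (PowerSeries.coeff n (ty g)) =
      PowerSeries.coeff n (ty (PowerSeries.derivative ℂ g)) := by
    intro n
    simp only [ty, PowerSeries.coeff_mk, Derivation.map_smul]
    rw [← Function.iterate_succ_apply, Function.iterate_succ_apply']
  have h2 : ∀ n, D (PowerSeries.C (MvPolynomial.C (PowerSeries.coeff n (ty g))) *
      (v - PowerSeries.C u) ^ n) = PowerSeries.C (MvPolynomial.C (PowerSeries.coeff n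
        (ty (PowerSeries.derivative ℂ g)))) * (v - PowerSeries.C u) ^ n * D (PowerSeries.C u) +
      PowerSeries.C (MvPolynomial.C (PowerSeries.coeff n (ty g))) *
        D ((v - PowerSeries.C u) ^ n) := fun n => by rw [h.mul, h.ch, h1]; ring
  rw [Dic.Tn, Dic.Tn, Dic.Tn, h.sum, sum_congr rfl fun n _ => h2 n, sum_add_distrib, sum_mul,
    sum_mul, add_right_inj, sum_range_succ', pow_zero, h.one, mul_zero, add_zero]
  refine sum_congr rfl fun n _ => ?_
  rw [h.pow, ← ty_succ, map_mul, map_mul, map_add, map_add, map_natCast, map_natCast, map_one,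
    map_one]
  ring

lemma IsD.sc {D : DSeries → DSeries} (h : IsD D) (hv : PowerSeries.coeff 0 v = u)
    (g : PowerSeries ℂ) : D (substCoef v g) = substCoef v (PowerSeries.derivative ℂ g) * D v := by
  refine eq_of_dvd fun N => ?_
  obtain ⟨r, hr⟩ := sc_cong hv g (N + 1)
  obtain ⟨r1, h1⟩ := sc_cong hv (PowerSeries.derivative ℂ g) (N + 1)
  obtain ⟨r2, h2⟩ := sc_cong hv (PowerSeries.derivative ℂ g) N
  rw [eq_add_of_sub_eq' hr, h.add, h.xpow, h.Tn, h.sub]
  refine ⟨PowerSeries.X * D r - PowerSeries.X * r1 * D (PowerSeries.C u) -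
    r2 * (D v - D (PowerSeries.C u)), ?_⟩
  linear_combination (-D (PowerSeries.C u)) * h1 - (D v - D (PowerSeries.C u)) * h2

/-- extension of a map on differential polynomials to series, linear in ε -/
noncomputable def ext (φ : DPoly → DSeries) (P : DSeries) : DSeries :=
  PowerSeries.mk fun n => ∑ p ∈ antidiagonal n, PowerSeries.coeff p.2 (φ (PowerSeries.coeff p.1 P))

lemma coeff_ext (φ : DPoly → DSeries) (P : DSeries) (n : ℕ) : PowerSeries.coeff n (ext φ P) =
    ∑ p ∈ antidiagonal n, PowerSeries.coeff p.2 (φ (PowerSeries.coeff p.1 P)) := by simp [ext]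

lemma ext_step (φ : DPoly → DSeries) (f : DPoly) (F : DSeries) :
    ext φ (PowerSeries.C f + PowerSeries.X * F) = φ f + PowerSeries.X * ext φ F := by
  ext1 n
  cases n with
  | zero => simp [coeff_ext]
  | succ n =>
    rw [map_add, PowerSeries.coeff_succ_X_mul, coeff_ext, coeff_ext, Finset.Nat.antidiagonal_succ,
      Finset.sum_cons, Finset.sum_map]
    simp [PowerSeries.coeff_succ_X_mul]

/-- two maps with the same recursion in ε are equal -/
lemma eps_ext {A B : DSeries → DSeries} (φ : DPoly → DSeries)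
    (hA : ∀ f F, A (PowerSeries.C f + PowerSeries.X * F) = φ f + PowerSeries.X * A F)
    (hB : ∀ f F, B (PowerSeries.C f + PowerSeries.X * F) = φ f + PowerSeries.X * B F)
    (F : DSeries) : A F = B F := by
  refine eq_of_dvd fun N => ?_
  induction N generalizing F with
  | zero => simp
  | succ N ih =>
    rw [eq_C_add_X_mul F, hA, hB, add_sub_add_left_eq_sub, ← mul_sub, pow_succ']
    exact mul_dvd_mul_left _ (ih _)

lemma subst_step (v : DSeries) (f : DPoly) (F : DSeries) :
    subst v (PowerSeries.C f + PowerSeries.X * F) = substPoly v f + PowerSeries.X * subst v F :=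
  ext_step _ f F

lemma flow_step (Q : DSeries) (f : DPoly) (F : DSeries) :
    flow Q (PowerSeries.C f + PowerSeries.X * F) = flowPoly Q f + PowerSeries.X * flow Q F :=
  ext_step _ f F

lemma ext_add {φ : DPoly → DSeries} (h : ∀ f g, φ (f + g) = φ f + φ g) (F G : DSeries) :
    ext φ (F + G) = ext φ F + ext φ G := by
  ext1 n; simp only [coeff_ext, map_add, h, sum_add_distrib]

lemma ext_zero {φ : DPoly → DSeries} (h : φ 0 = 0) : ext φ 0 = 0 := by
  ext1 n; simp [coeff_ext, h]

lemma ext_C {φ : DPoly → DSeries} (h : φ 0 = 0) (f : DPoly) : ext φ (PowerSeries.C f) = φ f := by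
  have := ext_step φ f 0
  rwa [ext_zero h, mul_zero, add_zero, add_zero] at this

lemma ext_X_mul {φ : DPoly → DSeries} (h : φ 0 = 0) (F : DSeries) :
    ext φ (PowerSeries.X * F) = PowerSeries.X * ext φ F := by
  have := ext_step φ 0 F
  rwa [h, map_zero, zero_add, zero_add] at this

lemma subst_add (hv : PowerSeries.coeff 0 v = u) (F G : DSeries) :
    subst v (F + G) = subst v F + subst v G :=
  ext_add (fun f g => by simp only [← sH_eq hv, map_add]) F G

lemma subst_C (v : DSeries) (f : DPoly) : subst v (PowerSeries.C f) = substPoly v f :=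
  ext_C (by simp [substPoly]) f

lemma subst_X_mul (v F : DSeries) : subst v (PowerSeries.X * F) = PowerSeries.X * subst v F :=
  ext_X_mul (by simp [substPoly]) F

lemma subst_C_mul (hv : PowerSeries.coeff 0 v = u) (f : DPoly) (G : DSeries) :
    subst v (PowerSeries.C f * G) = sH hv f * subst v G := by
  refine eps_ext (A := fun G => subst v (PowerSeries.C f * G)) (B := fun G => sH hv f * subst v G)
    (fun g => sH hv f * sH hv g) (fun g F => ?_) (fun g F => ?_) G
  · rw [mul_add, mul_left_comm, ← map_mul, subst_step, ← sH_eq hv, map_mul]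
  · rw [subst_step, ← sH_eq hv]; ring

lemma subst_mul (hv : PowerSeries.coeff 0 v = u) (F G : DSeries) :
    subst v (F * G) = subst v F * subst v G := by
  refine eps_ext (A := fun F => subst v (F * G)) (B := fun F => subst v F * subst v G)
    (fun f => sH hv f * subst v G) (fun f F => ?_) (fun f F => ?_) F
  · rw [add_mul, subst_add hv, mul_assoc, subst_X_mul, subst_C_mul hv]
  · rw [subst_step, ← sH_eq hv]; ring

/-- substitution in series as a ring morphism -/
noncomputable def sS (hv : PowerSeries.coeff 0 v = u) : DSeries →+* DSeries where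
  toFun := subst v
  map_one' := by rw [← map_one PowerSeries.C, subst_C, ← sH_eq hv, map_one, map_one]
  map_zero' := ext_zero (by simp [substPoly])
  map_add' := subst_add hv
  map_mul' := subst_mul hv

lemma sS_apply (hv : PowerSeries.coeff 0 v = u) (P : DSeries) : sS hv P = subst v P := rfl

lemma subst_sub (hv : PowerSeries.coeff 0 v = u) (F G : DSeries) :
    subst v (F - G) = subst v F - subst v G := map_sub (sS hv) F G

lemma subst_u (hv : PowerSeries.coeff 0 v = u) : subst v (PowerSeries.C u) = v := by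
  rw [subst_C, ← sH_eq hv, sH_u]

lemma dxS_sH (hv : PowerSeries.coeff 0 v = u) (f : DPoly) : dxS (sH hv f) = sH hv (dx f) := by
  induction f using MvPolynomial.induction_on with
  | C a => rw [sH_C, isD_dxS.sc hv, dx_C, map_mul, sH_X, sH_C, mul_comm]; rfl
  | add p q hp hq => rw [map_add, dxS_add, dx_add, map_add, hp, hq]
  | mul_X p n hp =>
    rw [map_mul, dxS_mul, dx_mul, map_add, map_mul, map_mul, hp, dx_X, sH_X, sH_X,
      Function.iterate_succ_apply' dxS (n + 1)]

theorem dxS_subst (hv : PowerSeries.coeff 0 v = u) (P : DSeries) :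
    dxS (subst v P) = subst v (dxS P) := by
  refine eps_ext (A := fun P => dxS (subst v P)) (B := fun P => subst v (dxS P))
    (fun f => sH hv (dx f)) (fun f F => ?_) (fun f F => ?_) P
  · rw [subst_step, dxS_add, dxS_X_mul, ← sH_eq hv, dxS_sH]
  · rw [dxS_add, dxS_X_mul, dxS_C, subst_step, sH_eq]

lemma dxS_iter_subst (hv : PowerSeries.coeff 0 v = u) (P : DSeries) (i : ℕ) :
    dxS^[i] (subst v P) = subst v (dxS^[i] P) := by
  induction i with
  | zero => rfl
  | succ i ih => rw [Function.iterate_succ_apply', Function.iterate_succ_apply', ih, dxS_subst hv]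

lemma flow_dxS_iter (Q F : DSeries) (i : ℕ) : flow Q (dxS^[i] F) = dxS^[i] (flow Q F) := by
  induction i with
  | zero => rfl
  | succ i ih => rw [Function.iterate_succ_apply', Function.iterate_succ_apply', flow_dxS, ih]

/-- the linearisation of `P` at `v` applied to `Y` -/
noncomputable def lin (hv : PowerSeries.coeff 0 v = u) (P Y : DSeries) : DSeries :=
  ext (gen (sH hv) fun i => dxS^[i] Y) P

lemma flow_sH (hv : PowerSeries.coeff 0 v = u) (Q : DSeries) (f : DPoly) :
    flow Q (sH hv f) = gen (sH hv) (fun i => dxS^[i] (flow Q v)) f := by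
  induction f using MvPolynomial.induction_on with
  | C a => rw [sH_C, (isD_flow Q).sc hv, gen_C, sH_C, mul_comm]; rfl
  | add p q hp hq => rw [map_add, flow_add, gen_add, hp, hq]
  | mul_X p n hp => rw [map_mul, flow_mul, gen_mul, hp, gen_X, sH_X, flow_dxS_iter]

theorem flow_subst (hv : PowerSeries.coeff 0 v = u) (Q P : DSeries) :
    flow Q (subst v P) = lin hv P (flow Q v) := by
  refine eps_ext (A := fun P => flow Q (subst v P)) (B := fun P => lin hv P (flow Q v))
    _ (fun f F => ?_) (fun f F => ext_step _ f F) P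
  rw [subst_step, flow_add, flow_X_mul, ← sH_eq hv, flow_sH]

lemma subst_flowPoly (hv : PowerSeries.coeff 0 v = u) (Q : DSeries) (f : DPoly) :
    subst v (flowPoly Q f) = gen (sH hv) (fun i => dxS^[i] (subst v Q)) f := by
  induction f using MvPolynomial.induction_on with
  | C a => rw [flowPoly_C, subst_mul hv, subst_C, gen_C, sH_eq]; rfl
  | add p q hp hq => rw [flowPoly_add, subst_add hv, gen_add, hp, hq]
  | mul_X p n hp =>
    rw [flowPoly_mul, subst_add hv, subst_mul hv, subst_mul hv, gen_mul, hp, gen_X, flowPoly_X,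
      subst_C, subst_C, sH_eq, sH_eq, dxS_iter_subst hv]

theorem subst_flow (hv : PowerSeries.coeff 0 v = u) (Q P : DSeries) :
    subst v (flow Q P) = lin hv P (subst v Q) := by
  refine eps_ext (A := fun P => subst v (flow Q P)) (B := fun P => lin hv P (subst v Q))
    _ (fun f F => ?_) (fun f F => ext_step _ f F) P
  rw [flow_step, subst_add hv, subst_X_mul, subst_flowPoly hv]

lemma flowPoly_sub_left (P Q : DSeries) (f : DPoly) :
    flowPoly (P - Q) f = flowPoly P f - flowPoly Q f := by
  have h : ∀ i, dxS^[i] (P - Q) = dxS^[i] P - dxS^[i] Q := fun i =>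
    iterate_map_sub (AddMonoidHom.mk' dxS dxS_add) i P Q
  simp only [flowPoly, h, sub_mul, sum_sub_distrib]; ring

lemma flow_sub_left (P Q F : DSeries) : flow (P - Q) F = flow P F - flow Q F := by
  ext1 n; simp only [coeff_flow, map_sub, flowPoly_sub_left, sum_sub_distrib]

theorem flow_bracket (P Q F : DSeries) :
    flow P (flow Q F) - flow Q (flow P F) = flow (flow P Q - flow Q P) F := by
  refine eps_ext (A := fun F => flow P (flow Q F) - flow Q (flow P F))
    (B := fun F => flow (flow P Q - flow Q P) F) _ (fun f F => ?_) (fun f F => flow_step _ f F) F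
  have h : flow P (flowPoly Q f) - flow Q (flowPoly P f) = flowPoly (flow P Q - flow Q P) f := by
    induction f using MvPolynomial.induction_on with
    | C a => simp only [flowPoly_C, flow_mul, flow_C]; ring
    | add p q hp hq => simp only [flowPoly_add, flow_add]; linear_combination hp + hq
    | mul_X p n hp =>
      have h : dxS^[n + 1] (flow P Q - flow Q P) = dxS^[n + 1] (flow P Q) - dxS^[n + 1] (flow Q P) :=
        iterate_map_sub (AddMonoidHom.mk' dxS dxS_add) _ _ _
      simp only [flowPoly_mul, flow_add, flow_mul, flow_C, flowPoly_X, flow_dxS_iter, h]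
      linear_combination PowerSeries.C (MvPolynomial.X n) * hp
  rw [flow_step, flow_step, flow_add, flow_add, flow_X_mul, flow_X_mul, ← h]; ring

end Pool.Agent.Lib.MP_4b14b2_mp.Dic
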