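import Pool.Agent.Lib.MP_4b14b2_mp.NBasic
import Pool.Agent.Lib.MP_4b14b2_mp.HNonEq
import Pool.Agent.Lib.MP_4b14b2_mp.Sub

/-! Taylor expansion u = c + v_0: differential polynomials in the frozen algebra over ℂ[[c]]. -/

namespace Pool.Agent.Lib.MP_4b14b2_mp.Nd

open Finset MvPolynomial

/-- The n-th Taylor coefficient g^(n) / n!. -/
noncomputable def tc (n : ℕ) (g : PowerSeries ℂ) : PowerSeries ℂ :=
  (n.factorial : ℂ)⁻¹ • (PowerSeries.derivative ℂ)^[n] g

/-- Forget v_0 and shift the indices. -/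
noncomputable def tl (m : ℕ →₀ ℕ) : ℕ →₀ ℕ := m.comapDomain Nat.succ Nat.succ_injective.injOn

lemma tl_apply (m : ℕ →₀ ℕ) (i : ℕ) : tl m i = m (i + 1) := rfl

lemma nty_tc (n : ℕ) (g : PowerSeries ℂ) : PowerSeries.coeff n (Dic.ty g) = tc n g :=
  PowerSeries.coeff_mk _ _

lemma nty_zero (n : ℕ) : tc n 0 = 0 := by
  rw [tc, Function.iterate_fixed (map_zero _), smul_zero]

/-- The Taylor series as a ring morphism. -/
noncomputable def ntyH : PowerSeries ℂ →+* PowerSeries (PowerSeries ℂ) where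
  toFun := Dic.ty
  map_one' := by
    ext1 n
    rcases n with _ | n
    · rw [Dic.ty_zero, PowerSeries.coeff_zero_one]
    · rw [nty_tc, tc, Function.iterate_succ_apply, Derivation.map_one_eq_zero,
        Function.iterate_fixed (map_zero _), smul_zero, PowerSeries.coeff_one,
        if_neg n.succ_ne_zero]
  map_mul' := Dic.ty_mul
  map_zero' := by ext1 n; rw [nty_tc, nty_zero, map_zero]
  map_add' := Dic.ty_add

lemma nty_add (n : ℕ) (g h : PowerSeries ℂ) : tc n (g + h) = tc n g + tc n h := by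
  rw [← nty_tc, Dic.ty_add, map_add, nty_tc, nty_tc]

lemma nty_nat (n k : ℕ) (g : PowerSeries ℂ) :
    tc n (g * ((k : PowerSeries ℂ) + 1)) = tc n g * ((k : PowerSeries ℂ) + 1) := by
  induction k with
  | zero => simp
  | succ k ih => rw [Nat.cast_succ, mul_add g, nty_add, ih, mul_one]; ring

lemma nty_succ (n : ℕ) (g : PowerSeries ℂ) :
    tc (n + 1) g * ((n : PowerSeries ℂ) + 1) = tc n (PowerSeries.derivative ℂ g) := by
  rw [← nty_tc, ← nty_tc, Dic.ty_succ]

/-- u = c + s v_0, u_i = s v_i. -/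
noncomputable def ntyP : DPoly →+* PowerSeries (AA (PowerSeries ℂ)) :=
  eval₂Hom ((PowerSeries.rescale (X 0)).comp ((PowerSeries.map C).comp ntyH))
    fun i => PowerSeries.C (X (i + 1)) * PowerSeries.X

/-- The part with n factors. -/
noncomputable def ntyT (n : ℕ) : DPoly →+ AA (PowerSeries ℂ) :=
  (PowerSeries.coeff n).toAddMonoidHom.comp ntyP.toAddMonoidHom

lemma ntyT_apply (n : ℕ) (P : DPoly) : ntyT n P = PowerSeries.coeff n (ntyP P) := rfl

lemma ntyT_mul (n : ℕ) (P Q : DPoly) :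
    ntyT n (P * Q) = ∑ p ∈ antidiagonal n, ntyT p.1 P * ntyT p.2 Q := by
  simp only [ntyT_apply, map_mul, PowerSeries.coeff_mul]

lemma ntyT_C (n : ℕ) (g : PowerSeries ℂ) :
    ntyT n (C g) = monomial (Finsupp.single 0 n) (tc n g) := by
  rw [ntyT_apply, ntyP, eval₂Hom_C, RingHom.comp_apply, RingHom.comp_apply,
    PowerSeries.coeff_rescale, PowerSeries.coeff_map, mul_comm, C_mul_X_pow_eq_monomial]
  exact congrArg _ (nty_tc n g)

lemma ntyT_X0 (P : DPoly) (i : ℕ) : ntyT 0 (P * X i) = 0 := by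
  rw [ntyT_apply, map_mul, ntyP, eval₂Hom_X', ← mul_assoc, PowerSeries.coeff_zero_mul_X]

lemma ntyT_XS (n : ℕ) (P : DPoly) (i : ℕ) : ntyT (n + 1) (P * X i) = ntyT n P * X (i + 1) := by
  rw [ntyT_apply, ntyT_apply, map_mul, ntyP, eval₂Hom_X', ← mul_assoc,
    PowerSeries.coeff_succ_mul_X, PowerSeries.coeff_mul_C]

lemma nty_tl_add (m m' : ℕ →₀ ℕ) : tl (m + m') = tl m + tl m' := by
  ext i; simp only [tl_apply, Finsupp.add_apply]

lemma nty_tl_zero (a : ℕ) : tl (Finsupp.single 0 a) = 0 := by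
  ext i; simp [tl_apply]

lemma nty_tl_succ (j a : ℕ) : tl (Finsupp.single (j + 1) a) = Finsupp.single j a := by
  ext i; simp [tl_apply, Finsupp.single_apply]

lemma ntyT_coeff (n : ℕ) (P : DPoly) (m : ℕ →₀ ℕ) : coeff m (ntyT n P) =
    if Finsupp.degree m = n then tc (m 0) (coeff (tl m) P) else 0 := by
  induction P using MvPolynomial.induction_on generalizing n m with
  | C g =>
    rw [ntyT_C, coeff_monomial, coeff_C]
    by_cases h : Finsupp.single 0 n = m
    · subst h
      rw [if_pos rfl, if_pos (Finsupp.degree_single _ _), nty_tl_zero, if_pos rfl,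
        Finsupp.single_eq_same]
    rw [if_neg h]
    split_ifs with h1 h2
    · have e : Finsupp.single 0 (m 0) = m := by
        ext i
        rcases i with _ | i
        · rw [Finsupp.single_eq_same]
        · rw [← tl_apply, ← tl_apply, nty_tl_zero, h2]
      rw [← e, Finsupp.degree_single] at h1
      exact absurd (h1 ▸ e) h
    · exact (nty_zero _).symm
    · rfl
  | add p q hp hq =>
    rw [map_add, coeff_add, hp, hq, coeff_add, nty_add]
    split_ifs
    · rfl
    · rw [add_zero]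
  | mul_X p i hp =>
    by_cases h : m (i + 1) = 0
    · have h' : i ∉ (tl m).support := Finsupp.notMem_support_iff.2 h
      rw [coeff_mul_X', if_neg h', nty_zero, ite_self]
      rcases n with _ | n
      · rw [ntyT_X0, coeff_zero]
      · rw [ntyT_XS, coeff_mul_X', if_neg (Finsupp.notMem_support_iff.2 h)]
    obtain ⟨k, rfl⟩ : ∃ k, m = k + Finsupp.single (i + 1) 1 :=
      ⟨_, (Finsupp.sub_add_single_one_cancel h).symm⟩
    rw [nty_tl_add, nty_tl_succ, coeff_mul_X, map_add, Finsupp.degree_single, Finsupp.add_apply,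
      Finsupp.single_eq_of_ne (by omega), add_zero]
    rcases n with _ | n
    · rw [ntyT_X0, coeff_zero, if_neg (by omega)]
    · rw [ntyT_XS, coeff_mul_X, hp]
      simp only [add_left_inj]

lemma ntyT_pd0 (j : ℕ) (P : DPoly) : pderiv j (ntyT 0 P) = 0 := by
  refine MvPolynomial.ext _ _ fun m => ?_
  rw [coeff_pderiv, ntyT_coeff, map_add, Finsupp.degree_single, if_neg (by omega), zero_mul,
    coeff_zero]

lemma ntyT_du (n : ℕ) (P : DPoly) : ntyT n (du P) = pderiv 0 (ntyT (n + 1) P) := by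
  refine MvPolynomial.ext _ _ fun m => ?_
  have e : coeff (tl m) (du P) = PowerSeries.derivative ℂ (coeff (tl m) P) := coeff_du _ _
  rw [coeff_pderiv, ntyT_coeff, ntyT_coeff, e, map_add, Finsupp.degree_single, nty_tl_add,
    nty_tl_zero, add_zero, Finsupp.add_apply, Finsupp.single_eq_same]
  simp only [add_left_inj]
  split_ifs
  · exact (nty_succ _ _).symm
  · rw [zero_mul]

lemma ntyT_pd (n i : ℕ) (P : DPoly) : ntyT n (pderiv i P) = pderiv (i + 1) (ntyT (n + 1) P) := by
  refine MvPolynomial.ext _ _ fun m => ?_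
  rw [coeff_pderiv, ntyT_coeff, ntyT_coeff, coeff_pderiv, map_add, Finsupp.degree_single,
    nty_tl_add, nty_tl_succ, Finsupp.add_apply, Finsupp.single_eq_of_ne (by omega), add_zero,
    nty_nat, tl_apply]
  simp only [add_left_inj]
  split_ifs
  · rfl
  · rw [zero_mul]

lemma nty_fl (a : AA (PowerSeries ℂ)) (n : ℕ) (P : DPoly) : fl a (ntyT (n + 1) P) =
    a * ntyT n (du P) + ∑ i ∈ P.vars,
      (fun F : AA (PowerSeries ℂ) => sh F)^[i + 1] a * ntyT n (pderiv i P) := by
  rw [fl_eq_sum a _ (insert 0 (P.vars.image Nat.succ)), sum_insert (by simp),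
    sum_image (fun _ _ _ _ h => Nat.succ_injective h), ntyT_du]
  · simp only [ntyT_pd]
    rfl
  · intro j hj
    rcases j with _ | j
    · exact absurd (mem_insert_self _ _) hj
    · rw [← ntyT_pd, pderiv_eq_zero_of_notMem_vars fun h =>
        hj (mem_insert_of_mem (mem_image_of_mem _ h)), map_zero]

lemma nty_fl0 (a : AA (PowerSeries ℂ)) (P : DPoly) : fl a (ntyT 0 P) = 0 := by
  rw [fl_eq_sum a _ ∅ fun j _ => ntyT_pd0 j P, sum_empty]

lemma ntyT_dx (n : ℕ) (P : DPoly) : ntyT n (dx P) = sh (ntyT n P) := by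
  have e : ∀ Q : AA (PowerSeries ℂ), sh Q = fl (X 1) Q := fun Q => by rw [fl_X_left]; rfl
  rw [e, dx, map_add, map_sum]
  simp only [mul_comm (X _ : DPoly)]
  rcases n with _ | n
  · simp only [ntyT_X0, nty_fl0, sum_const_zero, add_zero]
  · simp only [ntyT_XS, nty_fl, sh_iter_X]
    rw [mul_comm]
    exact congrArg _ (sum_congr rfl fun i _ => by rw [mul_comm, add_comm 1 (i + 1)])

lemma ntyT_iter (n k : ℕ) (P : DPoly) :
    ntyT n (dx^[k] P) = (fun F : AA (PowerSeries ℂ) => sh F)^[k] (ntyT n P) := by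
  induction k with
  | zero => rfl
  | succ k ih => rw [Function.iterate_succ_apply', ntyT_dx, ih, nb_it_succ]

/-- There are maps T n (the part with n factors of P(c + v_0, v_1, ...)) with these properties. -/
theorem exists_T : ∃ T : ℕ → DPoly →+ AA (PowerSeries ℂ),
    (∀ n P m, coeff m (T n P) =
      if Finsupp.degree m = n then tc (m 0) (coeff (tl m) P) else 0) ∧
    (∀ n q P, ∑ p ∈ antidiagonal (n + 1), fl (T p.1 q) (T p.2 P) = T n (DD q P)) := by
  refine ⟨ntyT, ntyT_coeff, fun n q P => ?_⟩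
  rw [Finset.Nat.sum_antidiagonal_succ', nty_fl0, zero_add, DD, gen, map_add, map_sum]
  simp only [RingHom.id_apply, ntyT_mul, nty_fl, ntyT_iter, sum_add_distrib]
  rw [sum_comm]
  rfl

end Pool.Agent.Lib.MP_4b14b2_mp.Nd
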