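import Pool.Agent.Lib.MP_4b14b2_mp.NTay
import Pool.Agent.Lib.MP_4b14b2_mp.NGrad

/-! Weight components of series of degree one. -/

namespace Pool.Agent.Lib.MP_4b14b2_mp.Nd

open Finset MvPolynomial

/-- The pairs (j, n) with j + c + κ n = W. -/
def nwS (κ c W : ℕ) : Finset (ℕ × ℕ) :=
  (range (W + 1) ×ˢ range (W + 1)).filter fun x => x.1 + c + κ * x.2 = W

lemma nw_mem {κ : ℕ} (hκ : 1 ≤ κ) {c W : ℕ} {x : ℕ × ℕ} :
    x ∈ nwS κ c W ↔ x.1 + c + κ * x.2 = W := by
  have := Nat.le_mul_of_pos_left x.2 hκ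
  simp only [nwS, mem_filter, mem_product, mem_range]
  omega

lemma nw_regroup {M : Type} [AddCommMonoid M] {κ : ℕ} (hκ : 1 ≤ κ) (W : ℕ)
    (f : ℕ × ℕ → ℕ × ℕ → M) :
    ∑ p ∈ antidiagonal W, ∑ x ∈ nwS κ 1 p.1, ∑ y ∈ nwS κ 1 p.2, f x y =
      ∑ z ∈ nwS κ 2 W, ∑ a ∈ antidiagonal z.1, ∑ b ∈ antidiagonal z.2,
        f (a.1, b.1) (a.2, b.2) := by
  simp only [← sum_product', sum_sigma']
  refine sum_nbij'
    (fun i => ⟨(i.2.1.1 + i.2.2.1, i.2.1.2 + i.2.2.2), ((i.2.1.1, i.2.2.1), (i.2.1.2, i.2.2.2))⟩)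
    (fun i => ⟨(i.2.1.1 + 1 + κ * i.2.2.1, i.2.1.2 + 1 + κ * i.2.2.2),
      ((i.2.1.1, i.2.2.1), (i.2.1.2, i.2.2.2))⟩) ?_ ?_ ?_ ?_ ?_
  · rintro ⟨⟨p, q⟩, ⟨a, b⟩, ⟨c, d⟩⟩ h
    simp only [mem_sigma, mem_product, nw_mem hκ, HasAntidiagonal.mem_antidiagonal, and_true,
      mul_add] at h ⊢
    omega
  · rintro ⟨⟨p, q⟩, ⟨a, b⟩, ⟨c, d⟩⟩ h
    simp only [mem_sigma, mem_product, nw_mem hκ, HasAntidiagonal.mem_antidiagonal,
      and_true] at h ⊢
    obtain ⟨h1, rfl, rfl⟩ := h
    rw [mul_add] at h1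
    omega
  · rintro ⟨⟨p, q⟩, ⟨a, b⟩, ⟨c, d⟩⟩ h
    simp only [mem_sigma, mem_product, nw_mem hκ, HasAntidiagonal.mem_antidiagonal] at h
    obtain ⟨_, rfl, rfl⟩ := h
    rfl
  · rintro ⟨⟨p, q⟩, ⟨a, b⟩, ⟨c, d⟩⟩ h
    simp only [mem_sigma, mem_product, nw_mem hκ, HasAntidiagonal.mem_antidiagonal] at h
    obtain ⟨_, rfl, rfl⟩ := h
    rfl
  · rintro ⟨⟨p, q⟩, ⟨a, b⟩, ⟨c, d⟩⟩ _
    rfl

lemma nw_dg_tl (m : ℕ →₀ ℕ) : dg m = Finsupp.weight (fun i => i + 1) (tl m) := by
  induction m using Finsupp.induction_linear with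
  | zero => rw [show tl 0 = 0 from by ext i; simp [tl_apply], map_zero, dg, map_zero]
  | add f g hf hg =>
    rw [show tl (f + g) = tl f + tl g from by ext i; simp only [tl_apply, Finsupp.add_apply],
      map_add, ← hf, ← hg, dg, map_add, dg, dg]
  | single i a =>
    rcases i with _ | i
    · rw [show tl (Finsupp.single 0 a) = 0 from by ext i; simp [tl_apply], dg,
        Finsupp.weight_single, map_zero, smul_eq_mul, mul_zero]
    · rw [show tl (Finsupp.single (i + 1) a) = Finsupp.single i a from by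
        ext j; simp [tl_apply, Finsupp.single_apply], dg, Finsupp.weight_single,
        Finsupp.weight_single]

lemma nw_fl_sum {R ι ι' : Type} [CommRing R] (S : Finset ι) (S' : Finset ι') (P : ι → AA R)
    (Q : ι' → AA R) : fl (∑ i ∈ S, P i) (∑ j ∈ S', Q j) = ∑ i ∈ S, ∑ j ∈ S', fl (P i) (Q j) := by
  classical
  induction S using Finset.induction_on with
  | empty => simp only [sum_empty, fl_zero]
  | insert a s h ih => rw [sum_insert h, sum_insert h, fl_add, ih, map_sum]

/-- There are maps `cp W` (the weight W part of the frozen series) with these properties. -/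
theorem exists_cp (κ : ℕ) (hκ : 1 ≤ κ) : ∃ cp : ℕ → DSeries →+ AA (PowerSeries ℂ),
    (∀ W F, SeriesHasDeg F 1 → ∀ m, coeff m (cp W F) =
      if Finsupp.weight (wt κ) m = W then
        tc (m 0) (coeff (tl m) (PowerSeries.coeff (dg m - 1) F)) else 0) ∧
    (∀ W F G, flow F G = flow G F →
      ∑ p ∈ antidiagonal W, br (cp p.1 F) (cp p.2 G) = 0) := by
  obtain ⟨T, hT, hD⟩ := exists_T
  let cp : ℕ → DSeries →+ AA (PowerSeries ℂ) := fun W =>
    ∑ x ∈ nwS κ 1 W, (T x.2).comp (PowerSeries.coeff x.1).toAddMonoidHom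
  have hcp : ∀ W F, cp W F = ∑ x ∈ nwS κ 1 W, T x.2 (PowerSeries.coeff x.1 F) := fun W F => by
    simp only [cp, AddMonoidHom.finsetSum_apply]
    rfl
  have tz : ∀ n, tc n 0 = 0 := fun n => by
    rw [tc, Function.iterate_fixed (map_zero _), smul_zero]
  have key : ∀ W F G, ∑ p ∈ antidiagonal W, fl (cp p.1 F) (cp p.2 G) =
      ∑ z ∈ nwS κ 2 W, if z.2 = 0 then 0 else T (z.2 - 1) (PowerSeries.coeff z.1 (flow F G)) := by
    intro W F G
    simp only [hcp, nw_fl_sum]
    rw [nw_regroup hκ W fun x y =>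
      fl (T x.2 (PowerSeries.coeff x.1 F)) (T y.2 (PowerSeries.coeff y.1 G))]
    refine sum_congr rfl ?_
    rintro ⟨J, _ | n⟩ _
    · rw [if_pos rfl]
      refine sum_eq_zero fun a _ => ?_
      have : T 0 (PowerSeries.coeff a.2 G) = C (coeff 0 (T 0 (PowerSeries.coeff a.2 G))) := by
        ext1 m
        rw [coeff_C]
        split_ifs with h
        · rw [h]
        · rw [hT, if_neg fun h0 => h ((Finsupp.degree_eq_zero_iff m).1 h0).symm]
      simp only [Finset.Nat.antidiagonal_zero, sum_singleton]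
      rw [this, derivation_C]
    · simp only [hD]
      rw [if_neg (Nat.succ_ne_zero n), Nat.add_sub_cancel, coeff_flow, map_sum,
        ← Finset.Nat.sum_antidiagonal_swap]
      refine sum_congr rfl fun a _ => ?_
      rw [coeff_flowPoly]
      rfl
  refine ⟨cp, fun W F hF m => ?_, fun W F G h => ?_⟩
  · have z : ∀ j, dg m ≠ j + 1 → coeff (tl m) (PowerSeries.coeff j F) = 0 := fun j hj => by
      by_contra h0
      exact hj ((nw_dg_tl m).trans (hF j h0))
    rw [hcp, coeff_sum, weight_wt]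
    simp only [hT]
    split_ifs with hW
    · rcases Nat.eq_zero_or_pos (dg m) with h0 | h0
      · rw [z _ (by omega), tz]
        refine sum_eq_zero fun x _ => ?_
        rw [z _ (by omega), tz, ite_self]
      · rw [sum_eq_single (dg m - 1, Finsupp.degree m), if_pos rfl]
        · rintro ⟨j, n⟩ hx hne
          split_ifs with hn
          · rw [z j, tz]
            intro hj
            refine hne (Prod.ext ?_ hn.symm)
            simp only
            omega
          · rfl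
        · intro hx
          refine absurd ((nw_mem hκ).2 ?_) hx
          simp only
          omega
    · refine sum_eq_zero fun x hx => ?_
      split_ifs with hn
      · rw [z x.1, tz]
        intro hj
        have := (nw_mem hκ).1 hx
        rw [← hn] at this
        omega
      · rfl
  · simp only [br, sum_sub_distrib]
    rw [key, ← Finset.Nat.sum_antidiagonal_swap]
    simp only [Prod.fst_swap, Prod.snd_swap]
    rw [key, h, sub_self]

end Pool.Agent.Lib.MP_4b14b2_mp.Nd
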