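import Pool.Agent.Lib.MP_4b14b2_mp.NonEquiv

/-!
Negative answer to Q1.  The witnesses are
Q_d = u_x (u + ε u_x)^d / d!  and  Q'_d = u_x ∑_k ε^k ∂_x^k (u^d / d!).
All definitions are in `Pool/Agent/Lib/MP_4b14b2_mp/Defs.lean`.
-/

namespace Pool.Agent.Lib.MP_4b14b2_mp.OldCounterexample

open Pool.Agent.Lib.MP_4b14b2_mp

theorem result : ∃ Q Q' : ℕ → DSeries, IsDeformation Q ∧ IsDeformation Q' ∧
    (∀ k, 2 ≤ k → b (Q 1) k = b (Q' 1) k) ∧ b11 (Q 1) = b11 (Q' 1) ∧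
    ¬ MiuraEquivalent Q Q' := by
  refine ⟨QA, QB, isDeformation_QA, isDeformation_QB, fun k hk => ?_, ?_, not_miuraEquivalent⟩
  · rw [b_eq_zero _ _ coeff_QA_one k hk, b_eq_zero _ _ coeff_QB_one k hk]
  · rw [b11, b11, QA1, QB1]

end Pool.Agent.Lib.MP_4b14b2_mp.OldCounterexample
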