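import Pool.Agent.Lib.MP_4b14b2_mp.SubL
import Pool.Agent.Lib.MP_4b14b2_mp.HMain

/-! Miura equivalence is an equivalence relation; deformations with all b_k zero are not
determined by their b_k. -/

namespace Pool.Agent.Lib.MP_4b14b2_mp.Dic

open Finset Lau

variable {v w : DSeries}

lemma eq_zero_of_u_dvd {f : DPoly} (h : ∀ N, u ^ N ∣ f) : f = 0 := by
  ext m k
  obtain ⟨g, hg⟩ := h (k + 1)
  rw [hg, u, ← map_pow, MvPolynomial.coeff_C_mul]
  simpa using PowerSeries.X_pow_dvd_iff.mp (dvd_mul_right _ _) k k.lt_succ_self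

lemma u_dvd_coeff (hv : PowerSeries.coeff 0 v = u) (k N : ℕ) (H : DSeries) :
    u ^ N ∣ PowerSeries.coeff k (v ^ (N + k) * H) := by
  induction k generalizing N H with
  | zero =>
    rw [PowerSeries.coeff_zero_eq_constantCoeff, map_mul, map_pow,
      ← PowerSeries.coeff_zero_eq_constantCoeff, hv]
    exact dvd_mul_right _ _
  | succ k ih =>
    have key : ∀ M (H : DSeries), u ^ M ∣ PowerSeries.coeff (k + 1) (v ^ (M + k) * v * H) := by
      intro M
      induction M with
      | zero => simp
      | succ M ihM =>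
        intro H
        have e : v ^ (M + 1 + k) * v * H = PowerSeries.C u * (v ^ (M + k) * v * H) +
            PowerSeries.X * (v ^ (M + 1 + k) * (tail v * H)) := by
          have := eq_C_add_X_mul v
          rw [hv] at this
          linear_combination (v ^ (M + 1 + k) * H) * this
        rw [e, map_add, PowerSeries.coeff_C_mul, PowerSeries.coeff_succ_X_mul, pow_succ' u]
        exact dvd_add (mul_dvd_mul_left _ (ihM H)) (by rw [← pow_succ']; exact ih _ _)
    exact key N H

/-- two morphisms on the coefficients that agree on constants and on u are equal -/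
lemma coef_ext {φ ψ : PowerSeries ℂ →+* DSeries} (hv : PowerSeries.coeff 0 v = u)
    (hC : ∀ c, φ (PowerSeries.C c) = ψ (PowerSeries.C c)) (h1 : φ PowerSeries.X = v)
    (h2 : ψ PowerSeries.X = v) (g : PowerSeries ℂ) : φ g = ψ g := by
  have key : ∀ N g, v ^ N ∣ φ g - ψ g := by
    intro N
    induction N with
    | zero => simp
    | succ N ih =>
      intro g
      rw [PowerSeries.eq_X_mul_shift_add_const g, map_add, map_add, map_mul, map_mul, hC, h1, h2,
        add_sub_add_right_eq_sub, ← mul_sub, pow_succ']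
      exact mul_dvd_mul_left _ (ih _)
  rw [← sub_eq_zero]
  ext1 k
  refine eq_zero_of_u_dvd fun N => ?_
  obtain ⟨H, hH⟩ := key (N + k) g
  rw [hH]
  exact u_dvd_coeff hv k N H

lemma coeff_zero_comp (hv : PowerSeries.coeff 0 v = u) (hw : PowerSeries.coeff 0 w = u) :
    PowerSeries.coeff 0 (subst v w) = u := by rw [coeff_zero_subst hv, hw]

theorem subst_comp (hv : PowerSeries.coeff 0 v = u) (hw : PowerSeries.coeff 0 w = u) (P : DSeries) :
    subst v (subst w P) = subst (subst v w) P := by
  have hz := coeff_zero_comp hv hw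
  have h : (sS hv).comp (sH hw) = sH hz := by
    refine MvPolynomial.ringHom_ext (fun g => ?_) fun i => ?_
    · rw [RingHom.comp_apply, sH_C, sH_C]
      refine coef_ext (φ := (sS hv).comp (scH hw)) (ψ := scH hz) hz (fun c => ?_) ?_
        (substCoef_X _ hz) g
      · change subst v (substCoef w _) = substCoef _ _
        rw [substCoef_C, substCoef_C, subst_C, ← sH_eq hv, sH_C, substCoef_C]
      · change subst v (substCoef w _) = _
        rw [substCoef_X _ hw]
    · rw [RingHom.comp_apply, sH_X, sH_X, sS_apply, dxS_iter_subst hv]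
  refine eps_ext (A := fun P => subst v (subst w P)) (sH hz) (fun f F => ?_) (fun f F => ?_) P
  · rw [subst_step, subst_add hv, subst_X_mul, ← sH_eq hw, ← h]; rfl
  · rw [subst_step, sH_eq]

theorem subst_id (P : DSeries) : subst (PowerSeries.C u) P = P := by
  have hu : PowerSeries.coeff 0 (PowerSeries.C u : DSeries) = u := by simp
  have h : sH hu = PowerSeries.C := by
    refine MvPolynomial.ringHom_ext (fun g => ?_) fun i => ?_
    · rw [sH_C]
      exact coef_ext (φ := scH hu) (ψ := PowerSeries.C.comp MvPolynomial.C) hu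
        (substCoef_C _) (substCoef_X _ hu) rfl g
    · rw [sH_X]
      induction i with
      | zero => rw [zero_add, Function.iterate_one, dxS_C, dx_u]
      | succ i ih => rw [Function.iterate_succ_apply', ih, dxS_C, dx_X]
  exact eps_ext (B := id) PowerSeries.C (fun f F => by rw [subst_step, ← sH_eq hu, h])
    (fun _ _ => rfl) P

theorem subst_inj (hv : PowerSeries.coeff 0 v = u) {P P' : DSeries} (h : subst v P = subst v P') :
    P = P' := by
  refine eq_of_dvd fun N => ?_
  induction N with
  | zero => simp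
  | succ N ih =>
    obtain ⟨H, hH⟩ := ih
    have h1 : subst v H = 0 := by
      have := subst_sub hv P P'
      rw [hH, subst_xpow, h, sub_self] at this
      exact (mul_eq_zero.mp this).resolve_left (pow_ne_zero _ PowerSeries.X_ne_zero)
    have h2 := coeff_zero_subst hv H
    rw [h1, map_zero] at h2
    rw [hH, pow_succ]
    refine mul_dvd_mul_left _ (PowerSeries.X_dvd_iff.mpr ?_)
    rw [← PowerSeries.coeff_zero_eq_constantCoeff_apply, ← h2]

/-- successive approximations of the inverse transformation -/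
noncomputable def inv (v : DSeries) : ℕ → DSeries
  | 0 => PowerSeries.C u
  | n + 1 => inv v n + (PowerSeries.C u - subst v (inv v n))

lemma X_dvd_subst (hv : PowerSeries.coeff 0 v = u) (P : DSeries) :
    PowerSeries.X ∣ P - subst v P := by
  rw [PowerSeries.X_dvd_iff, ← PowerSeries.coeff_zero_eq_constantCoeff_apply, map_sub,
    coeff_zero_subst hv, sub_self]

lemma inv_err (hv : PowerSeries.coeff 0 v = u) (n : ℕ) :
    PowerSeries.X ^ (n + 1) ∣ PowerSeries.C u - subst v (inv v n) := by
  induction n with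
  | zero => simpa [inv] using X_dvd_subst hv (PowerSeries.C u)
  | succ n ih =>
    obtain ⟨H, hH⟩ := ih
    rw [inv, subst_add hv, ← sub_sub, hH, subst_xpow, ← mul_sub, pow_succ _ (n + 1)]
    exact mul_dvd_mul_left _ (X_dvd_subst hv H)

lemma inv_stab (hv : PowerSeries.coeff 0 v = u) (n j : ℕ) :
    PowerSeries.X ^ (n + 1) ∣ inv v (n + j) - inv v n := by
  induction j with
  | zero => simp
  | succ j ih =>
    have := dvd_add ih ((pow_dvd_pow _ (by omega : n + 1 ≤ n + j + 1)).trans (inv_err hv (n + j)))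
    rw [← add_assoc, inv]
    convert this using 1; ring

theorem exists_inv (hv : IsMiura v) : ∃ w, IsMiura w ∧ subst v w = PowerSeries.C u := by
  have hd : ∀ n, SeriesHasDeg (inv v n) 0 := by
    intro n
    induction n with
    | zero => exact seriesHasDeg_C (hasDeg_C _)
    | succ n ih => exact deg_add ih (deg_sub (seriesHasDeg_C (hasDeg_C _)) (deg_subst hv ih))
  refine ⟨PowerSeries.mk fun n => PowerSeries.coeff n (inv v n),
    ⟨fun k => by simpa using hd k k, by simp [inv]⟩, eq_of_dvd fun N => ?_⟩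
  have h1 : PowerSeries.X ^ N ∣ (PowerSeries.mk fun n => PowerSeries.coeff n (inv v n)) - inv v N := by
    refine PowerSeries.X_pow_dvd_iff.mpr fun k hk => ?_
    obtain ⟨j, rfl⟩ := Nat.exists_eq_add_of_le hk.le
    have := PowerSeries.X_pow_dvd_iff.mp (inv_stab hv.2 k j) k k.lt_succ_self
    rw [map_sub] at this ⊢
    rw [PowerSeries.coeff_mk]
    linear_combination -this
  have h2 := subst_loc hv.2 hv.2 (by simp) h1
  have h3 := (pow_dvd_pow _ N.le_succ).trans (inv_err hv.2 N)
  convert dvd_sub h2 h3 using 1; ring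

theorem carries_trans {Q Q' Q'' : ℕ → DSeries} (hv : IsMiura v) (hw : IsMiura w)
    (h : Carries v Q Q') (h' : Carries w Q' Q'') :
    IsMiura (subst v w) ∧ Carries (subst v w) Q Q'' :=
  ⟨⟨deg_subst hv hw.1, coeff_zero_comp hv.2 hw.2⟩, fun d => by
    rw [flow_subst hv.2, h d, ← subst_flow, h' d, subst_comp hv.2 hw.2]⟩

theorem carries_symm {Q Q' : ℕ → DSeries} (hv : IsMiura v) (h : Carries v Q Q') :
    ∃ w, IsMiura w ∧ Carries w Q' Q := by
  obtain ⟨w, hw, e⟩ := exists_inv hv
  refine ⟨w, hw, fun d => subst_inj hv.2 ?_⟩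
  rw [subst_flow hv.2, ← h d, ← flow_subst, subst_comp hv.2 hw.2, e, flow_u, subst_id]

theorem equiv_iff {Q Q' : ℕ → DSeries} :
    MiuraEquivalent Q Q' ↔ ∃ v, IsMiura v ∧ Carries v Q Q' :=
  ⟨fun ⟨v, hv, h⟩ => h.elim (fun h => ⟨v, hv, h⟩) (carries_symm hv),
    fun ⟨v, hv, h⟩ => ⟨v, hv, Or.inl h⟩⟩

theorem equiv_symm {Q Q' : ℕ → DSeries} (h : MiuraEquivalent Q Q') : MiuraEquivalent Q' Q :=
  let ⟨v, hv, h⟩ := h; ⟨v, hv, h.symm⟩

theorem equiv_trans {Q Q' Q'' : ℕ → DSeries} (h : MiuraEquivalent Q Q')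
    (h' : MiuraEquivalent Q' Q'') : MiuraEquivalent Q Q'' := by
  obtain ⟨v, hv, h⟩ := equiv_iff.mp h
  obtain ⟨w, hw, h'⟩ := equiv_iff.mp h'
  exact equiv_iff.mpr ⟨_, carries_trans hv hw h h'⟩

theorem not_determined {Q : ℕ → DSeries} (h : ∀ k, 2 ≤ k → b (Q 1) k = 0) :
    ∃ Q', IsDeformation Q' ∧ (∀ k, 2 ≤ k → b (Q 1) k = b (Q' 1) k) ∧ ¬ MiuraEquivalent Q Q' := by
  by_contra hc
  push Not at hc
  exact not_equiv (equiv_trans
    (equiv_symm (hc _ (isDeformation_QQ good_PP PP_zero PP_comm)
      fun k hk => by rw [h k hk, b_QQ good_PP k hk]))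
    (hc _ (isDeformation_QQ good_PR PR_zero PR_comm)
      fun k hk => by rw [h k hk, b_QQ good_PR k hk]))

end Pool.Agent.Lib.MP_4b14b2_mp.Dic
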