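import Pool.Agent.Lib.MP_4b14b2_mp.Sub

/-! Degrees, locality in ε and first order variation of substitution and of flows. -/

namespace Pool.Agent.Lib.MP_4b14b2_mp.Dic

open Finset Lau

variable {v v' : DSeries}

/-! ### Degrees -/

lemma hasDeg_DD' {q f : DPoly} {a c : ℕ} (hq : HasDeg q c) (hf : HasDeg f a) :
    HasDeg (DD q f) (c + a) := by
  classical
  unfold DD gen
  refine HasDeg.add (hq.mul hf.du) (HasDeg.sum _ _ _ fun i hi => ?_)
  obtain ⟨m, hm, him⟩ := (MvPolynomial.mem_vars_iff_mem_support i).mp hi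
  have hw : Finsupp.weight (fun i => i + 1) m = a := hf (MvPolynomial.mem_support_iff.mp hm)
  have hle : i + 1 ≤ a := by
    rw [← hw]
    exact Finsupp.le_weight_of_ne_zero' (fun i => i + 1) (Finsupp.mem_support_iff.mp him)
  obtain ⟨n', hn'⟩ := Nat.exists_eq_add_of_le' hle
  have h1 : HasDeg (MvPolynomial.pderiv i f) n' :=
    MvPolynomial.IsWeightedHomogeneous.pderiv hf hn'.symm
  have := (hq.dx_iter (i + 1)).mul h1
  rwa [show i + 1 + c + n' = c + a by omega] at this

theorem deg_flow {Q F : DSeries} {a c : ℕ} (hQ : SeriesHasDeg Q c) (hF : SeriesHasDeg F a) :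
    SeriesHasDeg (flow Q F) (c + a) := by
  intro k
  rw [coeff_flow]
  refine HasDeg.sum _ _ _ fun p hp => ?_
  have h := mem_antidiagonal.mp hp
  have := hasDeg_DD' (hQ p.2) (hF p.1)
  rwa [← coeff_flowPoly, show p.2 + c + (p.1 + a) = k + (c + a) by omega] at this

lemma deg_add {F G : DSeries} {a : ℕ} (hF : SeriesHasDeg F a) (hG : SeriesHasDeg G a) :
    SeriesHasDeg (F + G) a := fun k => by rw [map_add]; exact (hF k).add (hG k)

lemma deg_sub {F G : DSeries} {a : ℕ} (hF : SeriesHasDeg F a) (hG : SeriesHasDeg G a) :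
    SeriesHasDeg (F - G) a := fun k => by
  rw [map_sub]; exact MvPolynomial.IsWeightedHomogeneous.sub (hF k) (hG k)

lemma deg_dxS_iter {F : DSeries} {a : ℕ} (hF : SeriesHasDeg F a) (i : ℕ) :
    SeriesHasDeg (dxS^[i] F) (i + a) := fun k => by
  have := (hF k).dx_iter i
  rwa [← coeff_dxS_iter, show i + (k + a) = k + (i + a) by omega] at this

lemma deg_pow {F : DSeries} {a : ℕ} (hF : SeriesHasDeg F a) (n : ℕ) :
    SeriesHasDeg (F ^ n) (n * a) := by
  induction n with
  | zero => simpa using seriesHasDeg_C (hasDeg_C 1)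
  | succ n ih => rw [pow_succ, Nat.succ_mul]; exact ih.mul hF

lemma deg_prod {ι : Type} (s : Finset ι) (F : ι → DSeries) (a : ι → ℕ)
    (h : ∀ i ∈ s, SeriesHasDeg (F i) (a i)) : SeriesHasDeg (∏ i ∈ s, F i) (∑ i ∈ s, a i) := by
  classical
  induction s using Finset.induction_on with
  | empty => simpa using seriesHasDeg_C (hasDeg_C 1)
  | insert i s hi ih =>
    rw [prod_insert hi, sum_insert hi]
    exact (h i (mem_insert_self _ _)).mul (ih fun j hj => h j (mem_insert_of_mem hj))

lemma deg_substCoef (hv : IsMiura v) (g : PowerSeries ℂ) : SeriesHasDeg (substCoef v g) 0 := by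
  intro k
  simp only [substCoef, PowerSeries.coeff_mk]
  exact HasDeg.sum _ _ _ fun n _ => ((seriesHasDeg_C (hasDeg_C _)).mul
    ((deg_sub hv.1 (seriesHasDeg_C (hasDeg_C _))).pow n)) k

lemma deg_substPoly (hv : IsMiura v) {f : DPoly} {a : ℕ} (hf : HasDeg f a) :
    SeriesHasDeg (substPoly v f) a := by
  intro k
  rw [substPoly, map_sum]
  refine HasDeg.sum _ _ _ fun m hm => ?_
  have hw : Finsupp.weight (fun i => i + 1) m = a := hf (MvPolynomial.mem_support_iff.mp hm)
  have := (deg_substCoef hv (f.coeff m)).mul (deg_prod m.support _ _ fun i _ =>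
    deg_pow (deg_dxS_iter hv.1 (i + 1)) (m i))
  rw [Finsupp.weight_apply, Finsupp.sum] at hw
  simp only [smul_eq_mul] at hw
  simp only [add_zero, zero_add, hw] at this
  exact this k

theorem deg_subst (hv : IsMiura v) {P : DSeries} {a : ℕ} (hP : SeriesHasDeg P a) :
    SeriesHasDeg (subst v P) a := by
  intro k
  rw [coeff_subst]
  refine HasDeg.sum _ _ _ fun p hp => ?_
  have h := mem_antidiagonal.mp hp
  have := deg_substPoly hv (hP p.1) p.2
  rwa [show p.2 + (p.1 + a) = k + a by omega] at this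

/-! ### Lowest order -/

theorem coeff_zero_subst (hv : PowerSeries.coeff 0 v = u) (P : DSeries) :
    PowerSeries.coeff 0 (subst v P) = PowerSeries.coeff 0 P := by
  rw [coeff_subst]; simp only [Finset.Nat.antidiagonal_zero, sum_singleton, coeff_zero_substPoly hv]

theorem coeff_zero_flow (Q F : DSeries) : PowerSeries.coeff 0 (flow Q F) =
    DD (PowerSeries.coeff 0 Q) (PowerSeries.coeff 0 F) := by
  rw [coeff_flow]; simp only [Finset.Nat.antidiagonal_zero, sum_singleton, coeff_flowPoly]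

/-! ### Linearity of flows in the first argument -/

lemma flow_zero_left (F : DSeries) : flow 0 F = 0 := by
  have := flow_sub_left 0 0 F
  rwa [sub_self, sub_self] at this

lemma flow_add_left (P Q F : DSeries) : flow (P + Q) F = flow P F + flow Q F := by
  have := flow_sub_left (P + Q) Q F
  rw [add_sub_cancel_right] at this
  linear_combination -this

lemma dxS_iter_xpow (N : ℕ) (F : DSeries) (i : ℕ) :
    dxS^[i] (PowerSeries.X ^ N * F) = PowerSeries.X ^ N * dxS^[i] F := by
  induction i with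
  | zero => rfl
  | succ i ih => rw [Function.iterate_succ_apply', Function.iterate_succ_apply', ih, isD_dxS.xpow]

lemma flow_xpow_left (N : ℕ) (Q F : DSeries) :
    flow (PowerSeries.X ^ N * Q) F = PowerSeries.X ^ N * flow Q F := by
  refine eps_ext (A := fun F => flow (PowerSeries.X ^ N * Q) F)
    (B := fun F => PowerSeries.X ^ N * flow Q F) _ (fun f F => flow_step _ f F) (fun f F => ?_) F
  simp only [flow_step, flowPoly, dxS_iter_xpow, mul_add, mul_sum, mul_assoc]
  rw [mul_left_comm PowerSeries.X]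

lemma subst_xpow (v : DSeries) (N : ℕ) (F : DSeries) :
    subst v (PowerSeries.X ^ N * F) = PowerSeries.X ^ N * subst v F := by
  induction N with
  | zero => simp
  | succ N ih => rw [pow_succ', mul_assoc, subst_X_mul, ih, mul_assoc]

/-! ### Locality -/

theorem flow_loc {Q Q' F F' : DSeries} {N : ℕ} (hQ : PowerSeries.X ^ N ∣ Q - Q')
    (hF : PowerSeries.X ^ N ∣ F - F') : PowerSeries.X ^ N ∣ flow Q F - flow Q' F' := by
  obtain ⟨a, ha⟩ := hQ
  obtain ⟨c, hc⟩ := hF
  rw [eq_add_of_sub_eq' ha, eq_add_of_sub_eq' hc, flow_add_left, flow_add, flow_xpow_left,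
    (isD_flow Q').xpow]
  exact ⟨flow Q' c + flow a (F' + PowerSeries.X ^ N * c), by ring⟩

/-- `flow Y v = Y` up to higher order -/
theorem flow_unitri (hv : PowerSeries.coeff 0 v = u) (Y : DSeries) :
    flow Y v = Y + PowerSeries.X * flow Y (tail v) := by
  conv_lhs => rw [eq_C_add_X_mul v, hv, flow_add, flow_u, flow_X_mul]

lemma pow_var {R : Type} [CommRing R] (w y t : R) (n : ℕ) :
    t ^ 2 ∣ (w + t * y) ^ (n + 1) - w ^ (n + 1) - t * ((n + 1) * w ^ n * y) := by
  induction n with
  | zero => simp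
  | succ n ih =>
    obtain ⟨r, hr⟩ := ih
    refine ⟨r * (w + t * y) + (n + 1) * w ^ n * y ^ 2, ?_⟩
    push_cast
    linear_combination (w + t * y) * hr

lemma sc_var (hv : PowerSeries.coeff 0 v = u) (hv' : PowerSeries.coeff 0 v' = u) {t Y : DSeries}
    (h : v' = v + t * Y) (N : ℕ) (g : PowerSeries ℂ) :
    ∃ r s, substCoef v' g - substCoef v g - t * (Y * substCoef v (PowerSeries.derivative ℂ g)) =
      t ^ 2 * r + PowerSeries.X ^ N * s := by
  obtain ⟨r1, h1⟩ := sc_cong hv' g (N + 1)
  obtain ⟨r2, h2⟩ := sc_cong hv g (N + 1)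
  obtain ⟨r3, h3⟩ := sc_cong hv (PowerSeries.derivative ℂ g) N
  have h4 : t ^ 2 ∣ Tn v' g (N + 1) - Tn v g (N + 1) -
      t * (Y * Tn v (PowerSeries.derivative ℂ g) N) := by
    rw [Tn, Tn, Tn, sum_range_succ', sum_range_succ', pow_zero, pow_zero, add_sub_add_right_eq_sub,
      mul_sum, mul_sum, ← sum_sub_distrib, ← sum_sub_distrib]
    refine dvd_sum fun n _ => ?_
    obtain ⟨r, hr⟩ := pow_var (v - PowerSeries.C u) Y t n
    rw [← ty_succ, map_mul, map_mul, map_add, map_add, map_natCast, map_natCast, map_one, map_one,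
      h, add_sub_right_comm]
    exact ⟨PowerSeries.C (MvPolynomial.C (PowerSeries.coeff (n + 1) (ty g))) * r, by
      linear_combination (PowerSeries.C (MvPolynomial.C (PowerSeries.coeff (n + 1) (ty g)))) * hr⟩
  obtain ⟨r, hr⟩ := h4
  exact ⟨r, PowerSeries.X * r1 - PowerSeries.X * r2 - t * Y * r3, by
    linear_combination h1 - h2 - t * Y * h3 + hr⟩

lemma sH_var (hv : PowerSeries.coeff 0 v = u) (hv' : PowerSeries.coeff 0 v' = u) {Y : DSeries}
    {n : ℕ} (h : v' = v + PowerSeries.X ^ n * Y) (f : DPoly) :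
    PowerSeries.X ^ (2 * n) ∣ sH hv' f - sH hv f -
      PowerSeries.X ^ n * gen (sH hv) (fun i => dxS^[i] Y) f := by
  induction f using MvPolynomial.induction_on with
  | C a =>
    obtain ⟨r, s, hr⟩ := sc_var hv hv' h (2 * n) a
    rw [gen_C, sH_C, sH_C, sH_C]
    exact ⟨r + s, by rw [Function.iterate_zero, id, hr]; ring⟩
  | add p q hp hq =>
    have := dvd_add hp hq
    rw [map_add, map_add, gen_add]
    convert this using 1; ring
  | mul_X p i hp =>
    obtain ⟨r, hr⟩ := hp
    have h1 : dxS^[i + 1] v' = dxS^[i + 1] v + PowerSeries.X ^ n * dxS^[i + 1] Y := by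
      rw [h, ← dxS_iter_xpow]
      exact iterate_map_add (AddMonoidHom.mk' dxS dxS_add) _ _ _
    rw [map_mul, map_mul, gen_mul, gen_X, sH_X, sH_X, h1]
    exact ⟨r * (dxS^[i + 1] v + PowerSeries.X ^ n * dxS^[i + 1] Y) +
      gen (sH hv) (fun i => dxS^[i] Y) p * dxS^[i + 1] Y, by
        linear_combination (dxS^[i + 1] v + PowerSeries.X ^ n * dxS^[i + 1] Y) * hr⟩

/-- first order variation of the substitution -/
theorem subst_var (hv : PowerSeries.coeff 0 v = u) (hv' : PowerSeries.coeff 0 v' = u) {Y : DSeries}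
    {n : ℕ} (h : v' = v + PowerSeries.X ^ n * Y) (P : DSeries) :
    PowerSeries.X ^ (2 * n) ∣ subst v' P - subst v P - PowerSeries.X ^ n * lin hv P Y := by
  refine PowerSeries.X_pow_dvd_iff.mpr fun k hk => ?_
  have e : subst v' P - subst v P - PowerSeries.X ^ n * lin hv P Y = ext (fun f => sH hv' f -
      sH hv f - PowerSeries.X ^ n * gen (sH hv) (fun i => dxS^[i] Y) f) P := by
    refine eps_ext (A := fun P => subst v' P - subst v P - PowerSeries.X ^ n * lin hv P Y) _
      (fun f F => ?_) (fun f F => ext_step _ f F) P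
    rw [subst_step, subst_step, lin, ext_step, ← sH_eq hv, ← sH_eq hv', lin]; ring
  rw [e, coeff_ext]
  refine sum_eq_zero fun p hp => PowerSeries.X_pow_dvd_iff.mp (sH_var hv hv' h _) _ ?_
  have := mem_antidiagonal.mp hp
  omega

theorem subst_loc (hv : PowerSeries.coeff 0 v = u) (hv' : PowerSeries.coeff 0 v' = u)
    {P P' : DSeries} {N : ℕ} (h : PowerSeries.X ^ N ∣ v' - v) (hP : PowerSeries.X ^ N ∣ P' - P) :
    PowerSeries.X ^ N ∣ subst v' P' - subst v P := by
  obtain ⟨Y, hY⟩ := h
  obtain ⟨c, hc⟩ := hP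
  obtain ⟨r, hr⟩ := subst_var hv hv' (eq_add_of_sub_eq' hY) P
  rw [eq_add_of_sub_eq' hc, subst_add hv', subst_xpow v']
  exact ⟨lin hv P Y + PowerSeries.X ^ N * r + subst v' c, by linear_combination hr⟩

/-- the lowest term of the linearisation -/
theorem coeff_zero_lin (hv : PowerSeries.coeff 0 v = u) (P Y : DSeries) :
    PowerSeries.coeff 0 (lin hv P Y) = DD (PowerSeries.coeff 0 Y) (PowerSeries.coeff 0 P) := by
  have h : ∀ F G : DSeries, PowerSeries.coeff 0 (F * G) =
      PowerSeries.coeff 0 F * PowerSeries.coeff 0 G := fun F G => by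
    rw [PowerSeries.coeff_mul]; simp only [Finset.Nat.antidiagonal_zero, sum_singleton]
  rw [lin, coeff_ext]
  simp only [Finset.Nat.antidiagonal_zero, sum_singleton, gen, DD, map_add, map_sum, h, sH_eq,
    coeff_zero_substPoly hv, coeff_dxS_iter, RingHom.id_apply]

lemma DD_uX (f : DPoly) : DD f (u * MvPolynomial.X 0) = u * dx f + f * MvPolynomial.X 0 := by
  rw [DD_mul, DD_u, DD_X0]; ring

/-- changing `v` at order `n ≥ 1` changes the defect at order `n` by `Lam` -/
theorem defect_var (hv : PowerSeries.coeff 0 v = u) (hv' : PowerSeries.coeff 0 v' = u)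
    {Y Q Q' : DSeries} {n : ℕ} (hn : 1 ≤ n) (h : v' = v + PowerSeries.X ^ n * Y)
    (hQ : PowerSeries.coeff 0 Q = u * MvPolynomial.X 0)
    (hQ' : PowerSeries.coeff 0 Q' = u * MvPolynomial.X 0) :
    PowerSeries.coeff n (flow Q v' - subst v' Q') =
      PowerSeries.coeff n (flow Q v - subst v Q') + Lam (PowerSeries.coeff 0 Y) := by
  have h1 := PowerSeries.X_pow_dvd_iff.mp (subst_var hv hv' h Q') n (by omega)
  have h2 : ∀ F : DSeries, PowerSeries.coeff n (PowerSeries.X ^ n * F) = PowerSeries.coeff 0 F :=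
    fun F => by simpa using PowerSeries.coeff_X_pow_mul F n 0
  rw [map_sub, map_sub, h2, coeff_zero_lin, hQ', DD_uX] at h1
  have h3 : flow Q v' = flow Q v + PowerSeries.X ^ n * flow Q Y := by
    rw [h, flow_add, (isD_flow Q).xpow]
  rw [h3, map_sub, map_sub, map_add, h2, coeff_zero_flow, hQ, Lam]
  linear_combination -h1

end Pool.Agent.Lib.MP_4b14b2_mp.Dic
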